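import Mathlib

/-! Zero sets of analytic functions do not disconnect open convex sets. -/

set_option autoImplicit false

namespace Pool.Agent.Lib.MP_d3d358_ag.Var

open Set Filter Topology
open scoped Convex

/-- an open convex set minus a countable set, in real dimension at least two -/
theorem joinedIn_diff_countable {E : Type*} [AddCommGroup E] [Module ℝ E] [TopologicalSpace E]
    [ContinuousAdd E] [ContinuousSMul ℝ E] (h : 1 < Module.rank ℝ E) {D s : Set E}
    (hD : IsOpen D) (hc : Convex ℝ D) (hs : s.Countable) {a b : E} (ha : a ∈ D \ s)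
    (hb : b ∈ D \ s) : JoinedIn (D \ s) a b := by
  rcases eq_or_ne a b with rfl | hab
  · exact JoinedIn.refl ha
  let c := (2 : ℝ)⁻¹ • (a + b)
  let x := (2 : ℝ)⁻¹ • (b - a)
  have Ia : c - x = a := by
    simp only [c, x]
    module
  have Ib : c + x = b := by
    simp only [c, x]
    module
  have hcD : c ∈ D := by
    have := hc ha.1 hb.1 (a := 2⁻¹) (b := 2⁻¹) (by norm_num) (by norm_num) (by norm_num)
    simpa only [c, smul_add] using this
  have x_ne_zero : x ≠ 0 := by simpa [x] using sub_ne_zero.2 hab.symm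
  obtain ⟨y, hy⟩ : ∃ y, LinearIndependent ℝ ![x, y] :=
    exists_linearIndependent_pair_of_one_lt_rank h x_ne_zero
  have A : Set.Countable {t : ℝ | ([c + x -[ℝ] c + t • y] ∩ s).Nonempty} := by
    apply countable_ofPred_nonempty_of_disjoint _ (fun t ↦ inter_subset_right) hs
    intro t t' htt'
    apply disjoint_iff_inter_eq_empty.2
    have N : {c + x} ∩ s = ∅ := by
      simpa only [singleton_inter_eq_empty, Ib] using hb.2
    rw [inter_assoc, inter_comm s, inter_assoc, inter_self, ← inter_assoc, ← subset_empty_iff, ← N]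
    apply inter_subset_inter_left
    apply Eq.subset
    apply segment_inter_eq_endpoint_of_linearIndependent_of_ne hy htt'.symm
  have B : Set.Countable {t : ℝ | ([c - x -[ℝ] c + t • y] ∩ s).Nonempty} := by
    apply countable_ofPred_nonempty_of_disjoint _ (fun t ↦ inter_subset_right) hs
    intro t t' htt'
    apply disjoint_iff_inter_eq_empty.2
    have N : {c - x} ∩ s = ∅ := by
      simpa only [singleton_inter_eq_empty, Ia] using ha.2
    rw [inter_assoc, inter_comm s, inter_assoc, inter_self, ← inter_assoc, ← subset_empty_iff, ← N]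
    apply inter_subset_inter_left
    rw [sub_eq_add_neg _ x]
    apply Eq.subset
    apply segment_inter_eq_endpoint_of_linearIndependent_of_ne _ htt'.symm
    convert! hy.units_smul ![-1, 1]
    simp [← List.ofFn_inj]
  have ho : IsOpen {t : ℝ | c + t • y ∈ D} := hD.preimage (by fun_prop)
  obtain ⟨t, htD, ht⟩ := ((A.union B).dense_compl ℝ).inter_open_nonempty _ ho
    ⟨0, by simpa using hcD⟩
  let z := c + t • y
  simp only [compl_union, mem_inter_iff, mem_compl_iff, mem_ofPred_eq, not_nonempty_iff_eq_empty]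
    at ht
  have JA : JoinedIn (D \ s) a z := by
    apply JoinedIn.of_segment_subset
    refine subset_sdiff.2 ⟨hc.segment_subset ha.1 htD, ?_⟩
    rw [disjoint_iff_inter_eq_empty]
    convert! ht.2
    exact Ia.symm
  have JB : JoinedIn (D \ s) b z := by
    apply JoinedIn.of_segment_subset
    refine subset_sdiff.2 ⟨hc.segment_subset hb.1 htD, ?_⟩
    rw [disjoint_iff_inter_eq_empty]
    convert! ht.1
    exact Ib.symm
  exact JA.trans JB.symm

/-- the zeros of a nonzero analytic function of one variable are countable -/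
theorem countable_zeros {D : Set ℂ} (hD : IsPreconnected D) {g : ℂ → ℂ}
    (hg : AnalyticOnNhd ℂ g D) {a : ℂ} (ha : a ∈ D) (hga : g a ≠ 0) :
    (D ∩ {t | g t = 0}).Countable := by
  rcases hg.eqOn_zero_or_eventually_ne_zero_of_preconnected hD with h | h
  · exact absurd (h ha) hga
  · apply (HereditarilyLindelofSpace.isLindelof _).countable_of_isDiscrete
    rw [inter_comm]
    exact isDiscrete_of_codiscreteWithin h

section
variable {E : Type*} [NormedAddCommGroup E] [NormedSpace ℂ E] {U : Set E} {f : E → ℂ}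

/-- the non-vanishing locus of a nonzero analytic function is dense -/
theorem subset_closure_ne_zero (hU : IsOpen U) (hc : IsPreconnected U) (hf : AnalyticOnNhd ℂ f U)
    {a : E} (ha : a ∈ U) (hfa : f a ≠ 0) : U ⊆ closure (U ∩ {z | f z ≠ 0}) := by
  intro x hx
  by_contra hn
  refine hfa (hf.eqOn_zero_of_preconnected_of_eventuallyEq_zero hc hx ?_ ha)
  filter_upwards [isClosed_closure.isOpen_compl.mem_nhds hn, hU.mem_nhds hx] with z hz hzU
  by_contra e
  exact hz (subset_closure ⟨hzU, e⟩)

/-- two points of an open convex set off the zero set are joined off the zero set -/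
theorem joinedIn_ne_zero (hU : IsOpen U) (hc : Convex ℝ U) (hf : AnalyticOnNhd ℂ f U)
    {a b : E} (ha : a ∈ U) (hfa : f a ≠ 0) (hb : b ∈ U) (hfb : f b ≠ 0) :
    JoinedIn (U ∩ {z | f z ≠ 0}) a b := by
  let L : ℂ → E := fun t => a + t • (b - a)
  have hL : Continuous L := by fun_prop
  have L0 : L 0 = a := by simp [L]
  have L1 : L 1 = b := by simp [L]
  have hD : IsOpen (L ⁻¹' U) := hU.preimage hL
  have hcD : Convex ℝ (L ⁻¹' U) := by
    intro s hs t ht p q hp hq hpq
    have := hc hs ht hp hq hpq
    have e : L (p • s + q • t) = p • L s + q • L t := by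
      have : q = 1 - p := by linarith
      subst this
      simp only [L, ← Complex.coe_smul, smul_eq_mul]
      push_cast
      module
    show L _ ∈ U
    rwa [e]
  have hg : AnalyticOnNhd ℂ (f ∘ L) (L ⁻¹' U) := fun t ht =>
    AnalyticAt.comp (hf _ ht) (analyticAt_const.add (analyticAt_id.smul analyticAt_const))
  have h0 : (0 : ℂ) ∈ L ⁻¹' U := by show L 0 ∈ U; rwa [L0]
  have h1 : (1 : ℂ) ∈ L ⁻¹' U := by show L 1 ∈ U; rwa [L1]
  have hz := countable_zeros hcD.isPreconnected hg h0 (by show f (L 0) ≠ 0; rwa [L0])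
  have J := joinedIn_diff_countable (E := ℂ) (by simp) hD hcD hz (a := 0) (b := 1)
    ⟨h0, fun e => hfa (L0 ▸ e.2)⟩ ⟨h1, fun e => hfb (L1 ▸ e.2)⟩
  rw [← L0, ← L1]
  exact (J.map hL).mono (by
    rintro _ ⟨t, ht, rfl⟩
    exact ⟨ht.1, fun e => ht.2 ⟨ht.1, e⟩⟩)

/-- an open convex set minus the zero set of a nonzero analytic function is path connected -/
theorem isPathConnected_ne_zero (hU : IsOpen U) (hc : Convex ℝ U) (hf : AnalyticOnNhd ℂ f U)
    {a : E} (ha : a ∈ U) (hfa : f a ≠ 0) : IsPathConnected (U ∩ {z | f z ≠ 0}) :=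
  ⟨a, ⟨ha, hfa⟩, fun _ hb => joinedIn_ne_zero hU hc hf ha hfa hb.1 hb.2⟩

end

end Pool.Agent.Lib.MP_d3d358_ag.Var
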