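import Pool.Agent.Lib.MP_d3d358_ag.Var.CxA
import Pool.Agent.Lib.MP_d3d358_ag.Var.Ana
import Pool.Agent.Lib.MP_9ff3e7_ag.F.SheetA
import Pool.Agent.Lib.MP_9ff3e7_ag.F.Dense

/-! Holomorphic charts on the complex points of `Proj S` at the points of an etale chart. -/

set_option autoImplicit false

namespace Pool.Agent.Lib.MP_d3d358_ag.Var

open Filter Topology Set
open Pool.Agent.Lib.MP_9ff3e7_ag.F Pool.Agent.Lib.MP_d3d358_ag.G

noncomputable section

variable {S : Type} [CommRing S] [IsDomain S] [Algebra ℂ S] {𝒜 : ℕ → Submodule ℂ S}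

/-- a nonzero form does not vanish on an open set of the cone -/
theorem dense_pt_ne (h : Gen1 𝒜) {a : S} (a0 : a ≠ 0) : Dense {p : Pt 𝒜 | p.1 a ≠ 0} := by
  obtain ⟨s, -, hs⟩ := h
  have : Algebra.FiniteType ℂ S := ⟨s, hs⟩
  intro p
  obtain ⟨l, hl, h0⟩ := p.2
  have l0 : l ≠ 0 := fun e => h0 (by simp [e])
  have key := dense_prime_nhds (⊥ : Ideal S) p.1 (fun f hf => by simp [Ideal.mem_bot.1 hf])
    (a * l) (fun e => mul_ne_zero a0 l0 (Ideal.mem_bot.1 e))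
  rw [mem_closure_iff_nhds]
  intro t ht
  rw [isInducing_pt.nhds_eq_comap, mem_comap] at ht
  obtain ⟨u, hu, hut⟩ := ht
  obtain ⟨y, ⟨-, hy⟩, hyu⟩ := (key.and_eventually (preimage_mem_comap hu)).exists
  rw [map_mul] at hy
  exact ⟨⟨y, l, hl, right_ne_zero_of_mul hy⟩, hut hyu, left_ne_zero_of_mul hy⟩

variable [GradedAlgebra 𝒜] {n : ℕ}

theorem dense_ne (h : Gen1 𝒜) {j : ℕ} {a : S} (ha : a ∈ 𝒜 j) (a0 : a ≠ 0) :
    Dense {x : Cx 𝒜 | (rep x).1 a ≠ 0} :=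
  (cx_surj.denseRange.dense_image continuous_cx (dense_pt_ne h a0)).mono (by
    rintro _ ⟨p, hp, rfl⟩
    exact (rep_cx_ne h p ha).2 hp)

theorem in_rep_cx (h : Gen1 𝒜) (c : Chart 𝒜 n) (p : Pt 𝒜) : c.In (rep (cx p)) ↔ c.In p :=
  and_congr (rep_cx_ne h p c.l.2) (rep_cx_ne h p c.hg)

theorem isOpen_in (h : Gen1 𝒜) (c : Chart 𝒜 n) : IsOpen {x : Cx 𝒜 | c.In (rep x)} :=
  (isOpen_ne h c.l.2).inter (isOpen_ne h c.hg)

theorem valX_pt (c : Chart 𝒜 n) {x : Cx 𝒜} (hx : c.In (rep x)) (f : c.O) :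
    valX f.1 x = c.pt hx f := (valX_eq x ⟨f.1, c.le_loc hx f.2⟩).trans (c.pt_eq hx f).symm

theorem valX_lift (h : Gen1 𝒜) (c : Chart 𝒜 n) (y : c.O →ₐ[ℂ] ℂ) (f : c.O) :
    valX f.1 (cx (c.lift y)) = y f := by
  rw [valX_cx h (c.lift y) ⟨f.1, c.le_loc (c.lift_in y) f.2⟩, ← c.pt_eq (c.lift_in y), c.pt_lift]

theorem cx_lift_pt (c : Chart 𝒜 n) {p : Pt 𝒜} (hp : c.In p) : cx (c.lift (c.pt hp)) = cx p :=
  cx_eq_iff.2 fun a ha b hb => by
    rw [c.lift_apply, c.lift_apply, c.pt_dh hp ha, c.pt_dh hp hb]; ring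

/-- `e` is a holomorphic chart with the coordinates of `c`, and `φ` lifts its inverse to the cone -/
structure HolChart (c : Chart 𝒜 n) (e : OpenPartialHomeomorph (Cx 𝒜) (Fin n → ℂ))
    (φ : (Fin n → ℂ) → Pt 𝒜) : Prop where
  coe : ∀ x i, e x i = valX (c.z i).1 x
  sub : ∀ x ∈ e.source, c.In (rep x)
  inv : ∀ w, e.symm w = cx (φ w)
  an : ∀ w ∈ e.target, ∀ a, AnalyticAt ℂ (fun w => (φ w).1 a) w

theorem exists_holChart (h : Gen1 𝒜) (c : Chart 𝒜 n) {p : Pt 𝒜} (hp : c.In p) :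
    ∃ e φ, HolChart c e φ ∧ cx p ∈ e.source := by
  have hx := (in_rep_cx h c p).2 hp
  obtain ⟨σ, h0, h1, h2, h3⟩ := SheetA.exists_sheet c.pres (c.pt hx)
  obtain ⟨T, hT, oT, mT⟩ := eventually_nhds_iff.1 (h1.and h2)
  obtain ⟨A, hA, oA, mA⟩ := eventually_nhds_iff.1 h3
  let co : Cx 𝒜 → Fin n → ℂ := fun x i => valX (c.z i).1 x
  let D : Set (Cx 𝒜) := {x | c.In (rep x)}
  have hco : ∀ x (hx : x ∈ D), co x = SheetA.zc n (c.pt hx) := fun _ hx =>
    funext fun i => valX_pt c hx _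
  have hco' : ∀ y, co (cx (c.lift y)) = SheetA.zc n y := fun y =>
    funext fun i => valX_lift h c y _
  have cv : ∀ f : c.O, ContinuousOn (valX f.1) D := fun f x hx =>
    (continuousAt_valX h (c.le_loc hx f.2)).continuousWithinAt
  have cco : ContinuousOn co D := continuousOn_pi.2 fun i => cv _
  have cσ : ∀ f, ContinuousOn (fun w => σ w f) T := fun f w hw =>
    ((hT w hw).2 f).continuousAt.continuousWithinAt
  have hσ : ∀ x (hx : x ∈ D), (co x, valX c.pres.x.1 x) ∈ A → σ (co x) = c.pt hx :=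
    fun x hx hxA => (congrArg σ (hco x hx)).trans
      (hA _ hxA (c.pt hx) (Prod.ext (hco x hx).symm (valX_pt c hx _).symm))
  rw [← hco _ hx] at mT
  rw [← hco _ hx, ← valX_pt c hx] at mA
  refine ⟨{ toFun := co
            invFun := fun w => cx (c.lift (σ w))
            source := D ∩ (fun x => (co x, valX c.pres.x.1 x)) ⁻¹' (A ∩ T ×ˢ univ)
            target := T ∩ (fun w => (w, σ w c.pres.x)) ⁻¹' A
            map_source' := fun x hx => ⟨hx.2.2.1, ?_⟩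
            map_target' := fun w hw => ⟨(in_rep_cx h c _).2 (c.lift_in _), ?_⟩
            left_inv' := fun x hx => ?_
            right_inv' := fun w hw => (hco' _).trans (hT w hw.1).1
            open_source := (cco.prodMk (cv _)).isOpen_inter_preimage (isOpen_in h c)
              (oA.inter (oT.prod isOpen_univ))
            open_target := (continuousOn_id.prodMk (cσ _)).isOpen_inter_preimage oT oA
            continuousOn_toFun := cco.mono inter_subset_left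
            continuousOn_invFun := ?_ }, fun w => c.lift (σ w),
    ⟨fun _ _ => rfl, fun x hx => hx.1, fun _ => rfl, fun w hw a => (hT w hw.1).2 (c.dh a)⟩,
    hx, mA, mT, trivial⟩
  · rw [mem_preimage, hσ x hx.1 hx.2.1, ← valX_pt c hx.1]
    exact hx.2.1
  · rw [mem_preimage, hco', valX_lift h, (hT w hw.1).1]
    exact ⟨hw.2, hw.1, trivial⟩
  · rw [hσ x hx.1 hx.2.1, cx_lift_pt, cx_rep]
  · refine continuous_cx.comp_continuousOn fun w hw => ContinuousAt.continuousWithinAt ?_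
    exact tendsto_pt_iff.2 fun a => ((hT w hw.1).2 (c.dh a)).continuousAt

namespace HolChart

variable {c : Chart 𝒜 n} {e : OpenPartialHomeomorph (Cx 𝒜) (Fin n → ℂ)} {φ : (Fin n → ℂ) → Pt 𝒜}

/-- regular functions are analytic in the chart -/
theorem analyticAt_valX (h : Gen1 𝒜) (H : HolChart c e φ) {w : Fin n → ℂ} (hw : w ∈ e.target)
    {y : Fn 𝒜} (hy : y ∈ locX (e.symm w)) : AnalyticAt ℂ (fun w => valX y (e.symm w)) w := by
  rw [H.inv] at hy
  obtain ⟨a, b, h0, hq⟩ := exists_nhds_div h hy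
  refine ((H.an w hw a).div (H.an w hw b) h0).congr ?_
  filter_upwards [(H.an w hw b).continuousAt.eventually_ne h0] with v hv
  rw [H.inv, (hq _ hv).2]
  rfl

/-- a convex open piece of the chart is simply connected and stays connected when a part of the
zero set of a form is removed -/
theorem good (h : Gen1 𝒜) (H : HolChart c e φ) {B : Set (Fin n → ℂ)} (hB : IsOpen B)
    (hc : Convex ℝ B) (hne : B.Nonempty) (hs : B ⊆ e.target) :
    IsOpen (e.symm '' B) ∧ IsSimplyConnected (e.symm '' B) ∧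
      ∀ {j : ℕ} {a : S}, a ∈ 𝒜 j → a ≠ 0 → ∀ X₀ : Set (Cx 𝒜),
        (∀ p : Pt 𝒜, p.1 a ≠ 0 → cx p ∈ X₀) → IsPreconnected (e.symm '' B ∩ X₀) := by
  have ho : IsOpen (e.symm '' B) := e.isOpen_image_symm_of_subset_target hB hs
  refine ⟨ho, ?_, fun {j a} ha a0 X₀ hX => ?_⟩
  · have := hc.contractibleSpace hne
    exact (e.symm.homeomorphOfImageSubsetSource hs rfl).symm.toHomotopyEquiv.simplyConnectedSpace
  · obtain ⟨_, ⟨w, hw, rfl⟩, hwa⟩ := (dense_ne h ha a0).inter_open_nonempty _ ho (hne.image _)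
    rw [mem_ofPred_eq, H.inv, rep_cx_ne h _ ha] at hwa
    have han : AnalyticOnNhd ℂ (fun w => (φ w).1 a) B := fun v hv => H.an v (hs hv) a
    have hcs : ContinuousOn e.symm B := e.continuousOn_symm.mono hs
    refine ((isPathConnected_ne_zero hB hc han hw hwa).isConnected.isPreconnected.image e.symm
      (hcs.mono inter_subset_left)).subset_closure ?_ ?_
    · rintro _ ⟨v, hv, rfl⟩
      exact ⟨⟨v, hv.1, rfl⟩, H.inv v ▸ hX _ hv.2⟩
    · rintro _ ⟨⟨v, hv, rfl⟩, -⟩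
      exact ((hcs v hv).mono inter_subset_left).mem_closure_image
        (subset_closure_ne_zero hB hc.isPreconnected han hw hwa hv)

omit [IsDomain S] [GradedAlgebra 𝒜] in
theorem exists_ball (e : OpenPartialHomeomorph (Cx 𝒜) (Fin n → ℂ)) {x : Cx 𝒜} (hx : x ∈ e.source) {W : Set (Cx 𝒜)}
    (hW : W ∈ 𝓝 x) : ∃ r > 0, Metric.ball (e x) r ⊆ e.target ∧
      e.symm '' Metric.ball (e x) r ⊆ W := by
  have h1 : e.symm ⁻¹' W ∈ 𝓝 (e x) :=
    (e.continuousAt_symm (e.map_source hx)).preimage_mem_nhds (by rwa [e.left_inv hx])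
  obtain ⟨r, hr, hs⟩ := Metric.mem_nhds_iff.1
    (inter_mem (e.open_target.mem_nhds (e.map_source hx)) h1)
  exact ⟨r, hr, fun w hw => (hs hw).1, by rintro _ ⟨w, hw, rfl⟩; exact (hs hw).2⟩

end HolChart

/-- the local hypotheses for the descent of simple connectedness -/
theorem dense_and_basis (h : Gen1 𝒜) (hc : ∀ p : Pt 𝒜, ∃ c : Chart 𝒜 n, c.In p) {j : ℕ} {a : S}
    (ha : a ∈ 𝒜 j) (a0 : a ≠ 0) {X₀ : Set (Cx 𝒜)} (hX : ∀ p : Pt 𝒜, p.1 a ≠ 0 → cx p ∈ X₀) :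
    Dense X₀ ∧ ∀ x : Cx 𝒜, ∀ W ∈ 𝓝 x, ∃ O, IsOpen O ∧ x ∈ O ∧ O ⊆ W ∧ IsSimplyConnected O ∧
      IsPreconnected (O ∩ X₀) := by
  refine ⟨(dense_ne h ha a0).mono fun x hx => cx_rep x ▸ hX _ hx, fun x W hW => ?_⟩
  obtain ⟨p, rfl⟩ := cx_surj x
  obtain ⟨c, hp⟩ := hc p
  obtain ⟨e, φ, H, hx⟩ := exists_holChart h c hp
  obtain ⟨r, hr, h1, h2⟩ := HolChart.exists_ball e hx hW
  obtain ⟨g1, g2, g3⟩ := H.good h Metric.isOpen_ball (convex_ball _ _)
    ⟨_, Metric.mem_ball_self hr⟩ h1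
  exact ⟨_, g1, ⟨_, Metric.mem_ball_self hr, e.left_inv hx⟩, h2, g2, g3 ha a0 X₀ hX⟩

end

end Pool.Agent.Lib.MP_d3d358_ag.Var
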