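import Pool.Agent.Lib.MP_d3d358_ag.Var.CxB

/-! The complex points of `Proj S` as the quotient of a compact set of unit vectors by the circle;
the metric. -/

set_option autoImplicit false

namespace Pool.Agent.Lib.MP_d3d358_ag.Var

open Filter Topology Set
open Pool.Agent.Lib.MP_9ff3e7_ag.F Pool.Agent.Lib.MP_d3d358_ag.G

noncomputable section

variable {S : Type} [CommRing S] [Algebra ℂ S] {𝒜 : ℕ → Submodule ℂ S} {m : ℕ}

/-- the homogeneous coordinates of a point of the cone -/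
def vec (s : Fin m → S) (p : Pt 𝒜) : EuclideanSpace ℂ (Fin m) := WithLp.toLp 2 fun k => p.1 (s k)

variable (𝒜) in
/-- the unit vectors of the cone -/
def Sph (s : Fin m → S) : Set (EuclideanSpace ℂ (Fin m)) := {v | ‖v‖ = 1 ∧ ∃ p : Pt 𝒜, vec s p = v}

open Classical in
/-- the point with given homogeneous coordinates (`x₀` off the cone) -/
def prj (s : Fin m → S) (x₀ : Cx 𝒜) (v : EuclideanSpace ℂ (Fin m)) : Cx 𝒜 :=
  if h : ∃ p : Pt 𝒜, vec s p = v then cx h.choose else x₀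

variable {s : Fin m → S}

@[simp] theorem vec_apply (p : Pt 𝒜) (k : Fin m) : vec s p k = p.1 (s k) := rfl

theorem continuous_vec : Continuous (vec s : Pt 𝒜 → EuclideanSpace ℂ (Fin m)) :=
  (PiLp.continuous_toLp 2 _).comp (continuous_pi fun k => continuous_pt (s k))

theorem gen1_of (h1 : ∀ k, s k ∈ 𝒜 1) (hs : Algebra.adjoin ℂ (range s) = ⊤) : Gen1 𝒜 :=
  ⟨(finite_range s).toFinset, fun a ha => by
    obtain ⟨k, rfl⟩ := (Finite.mem_toFinset _).1 ha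
    exact h1 k, by rw [Finite.coe_toFinset, hs]⟩

theorem vec_inj (hs : Algebra.adjoin ℂ (range s) = ⊤) :
    Function.Injective (vec s : Pt 𝒜 → EuclideanSpace ℂ (Fin m)) := fun p q e =>
  Subtype.ext (AlgHom.ext_of_adjoin_eq_top hs (by
    rintro _ ⟨k, rfl⟩
    exact congrArg (fun v : EuclideanSpace ℂ (Fin m) => v k) e))

theorem isInducing_vec (hs : Algebra.adjoin ℂ (range s) = ⊤) :
    IsInducing (vec s : Pt 𝒜 → EuclideanSpace ℂ (Fin m)) := by
  refine isInducing_iff_nhds.2 fun p => le_antisymm (continuous_vec.tendsto p).le_comap ?_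
  refine tendsto_id'.1 (tendsto_pt_of_gen hs ?_)
  rintro _ ⟨k, rfl⟩
  exact ((PiLp.continuous_apply 2 _ k).tendsto (vec s p)).comp tendsto_comap

theorem prj_vec (hs : Algebra.adjoin ℂ (range s) = ⊤) (x₀ : Cx 𝒜) (p : Pt 𝒜) :
    prj s x₀ (vec s p) = cx p := by
  have h : ∃ q : Pt 𝒜, vec s q = vec s p := ⟨p, rfl⟩
  rw [prj, dif_pos h, vec_inj hs h.choose_spec]

theorem continuousOn_prj (hs : Algebra.adjoin ℂ (range s) = ⊤) (x₀ : Cx 𝒜) :
    ContinuousOn (prj s x₀) (range (vec s : Pt 𝒜 → _)) := by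
  rw [← image_univ, (isInducing_vec hs).continuousOn_image_iff]
  exact (continuous_cx.congr fun p => (prj_vec hs x₀ p).symm).continuousOn

variable [GradedAlgebra 𝒜]

theorem vec_scl (h1 : ∀ k, s k ∈ 𝒜 1) (c : ℂˣ) (p : Pt 𝒜) :
    vec s (scl c p) = (c : ℂ) • vec s p := by
  ext k
  simp [scl_apply c p (h1 k)]

theorem vec_ne (h1 : ∀ k, s k ∈ 𝒜 1) (hs : Algebra.adjoin ℂ (range s) = ⊤) (p : Pt 𝒜) :
    vec s p ≠ 0 := fun e => by
  obtain ⟨_, ⟨k, rfl⟩, h⟩ := exists_gen_ne hs (by rintro _ ⟨k, rfl⟩; exact h1 k) p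
  exact h (congrArg (fun v : EuclideanSpace ℂ (Fin m) => v k) e)

theorem prj_smul_vec (h1 : ∀ k, s k ∈ 𝒜 1) (hs : Algebra.adjoin ℂ (range s) = ⊤) (x₀ : Cx 𝒜)
    {c : ℂ} (hc : c ≠ 0) (p : Pt 𝒜) : prj s x₀ (c • vec s p) = cx p := by
  rw [← cx_scl (Units.mk0 c hc) p, ← prj_vec hs x₀, vec_scl h1]; rfl

theorem smul_vec_mem (h1 : ∀ k, s k ∈ 𝒜 1) {c : ℂ} {p : Pt 𝒜} (h : ‖c • vec s p‖ = 1) :
    c • vec s p ∈ Sph 𝒜 s :=
  ⟨h, scl (Units.mk0 c fun e => by simp [e] at h) p, vec_scl h1 _ p⟩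

theorem nrm_vec (h1 : ∀ k, s k ∈ 𝒜 1) (hs : Algebra.adjoin ℂ (range s) = ⊤) (p : Pt 𝒜) :
    ‖((‖vec s p‖ : ℂ)⁻¹) • vec s p‖ = 1 := by
  rw [norm_smul, norm_inv, Complex.norm_real, norm_norm,
    inv_mul_cancel₀ (norm_ne_zero_iff.2 (vec_ne h1 hs p))]

theorem smul_mem_sph (h1 : ∀ k, s k ∈ 𝒜 1) {v : EuclideanSpace ℂ (Fin m)} (hv : v ∈ Sph 𝒜 s)
    {c : ℂ} (hc : ‖c‖ = 1) : c • v ∈ Sph 𝒜 s := by
  obtain ⟨h, p, rfl⟩ := hv
  exact smul_vec_mem h1 (by rw [norm_smul, hc, h, mul_one])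

theorem prj_eq_iff (h1 : ∀ k, s k ∈ 𝒜 1) (hs : Algebra.adjoin ℂ (range s) = ⊤) (x₀ : Cx 𝒜)
    {v w : EuclideanSpace ℂ (Fin m)} (hv : v ∈ Sph 𝒜 s) (hw : w ∈ Sph 𝒜 s) :
    prj s x₀ v = prj s x₀ w ↔ ∃ c : ℂ, c • v = w := by
  obtain ⟨-, p, rfl⟩ := hv
  obtain ⟨-, q, rfl⟩ := hw
  constructor
  · rw [prj_vec hs, prj_vec hs]
    intro e
    obtain ⟨c, rfl⟩ := exists_scl (gen1_of h1 hs) e
    exact ⟨c, (vec_scl h1 c p).symm⟩
  · rintro ⟨c, e⟩
    rw [← e, prj_smul_vec h1 hs x₀ (fun h => vec_ne h1 hs q (by rw [← e, h, zero_smul])),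
      prj_vec hs]

theorem prj_image_sph (h1 : ∀ k, s k ∈ 𝒜 1) (hs : Algebra.adjoin ℂ (range s) = ⊤) (x₀ : Cx 𝒜) :
    prj s x₀ '' Sph 𝒜 s = univ := eq_univ_of_forall fun x =>
  ⟨_, smul_vec_mem h1 (nrm_vec h1 hs (rep x)), by
    rw [prj_smul_vec h1 hs x₀ (inv_ne_zero (Complex.ofReal_ne_zero.2
      (norm_ne_zero_iff.2 (vec_ne h1 hs _)))), cx_rep]⟩

theorem isCompact_sph (h1 : ∀ k, s k ∈ 𝒜 1) (hs : Algebra.adjoin ℂ (range s) = ⊤) :
    IsCompact (Sph 𝒜 s) := by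
  have hK := isCompact_sphere_pt (𝒜 := 𝒜) (s := (finite_range s).toFinset) (fun a ha => by
    obtain ⟨k, rfl⟩ := (Finite.mem_toFinset _).1 ha
    exact h1 k) (by rw [Finite.coe_toFinset, hs])
  have hc : Continuous fun p : Pt 𝒜 => ((‖vec s p‖ : ℂ)⁻¹) • vec s p :=
    ((Complex.continuous_ofReal.comp continuous_vec.norm).inv₀ fun p =>
      Complex.ofReal_ne_zero.2 (norm_ne_zero_iff.2 (vec_ne h1 hs p))).smul continuous_vec
  convert hK.image hc
  apply Subset.antisymm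
  · rintro _ ⟨hn, p, rfl⟩
    obtain ⟨a, ha, h0⟩ := exists_gen_ne hs (by rintro _ ⟨k, rfl⟩; exact h1 k) p
    have hp : 0 < ∑ a ∈ (finite_range s).toFinset, ‖p.1 a‖ :=
      Finset.sum_pos' (fun b _ => norm_nonneg _)
        ⟨a, (Finite.mem_toFinset _).2 ha, norm_pos_iff.2 h0⟩
    generalize hr : ∑ a ∈ (finite_range s).toFinset, ‖p.1 a‖ = r at hp
    have r0 : (r : ℂ) ≠ 0 := Complex.ofReal_ne_zero.2 hp.ne'
    refine ⟨scl (Units.mk0 _ (inv_ne_zero r0)) p, ?_, ?_⟩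
    · have hb1 : ∀ b ∈ (finite_range s).toFinset, b ∈ 𝒜 1 := fun b hb => by
        obtain ⟨k, rfl⟩ := (Finite.mem_toFinset _).1 hb
        exact h1 k
      rw [mem_ofPred_eq, Finset.sum_congr rfl fun b hb => by
        rw [scl_apply _ p (hb1 b hb), pow_one, Units.val_mk0, norm_mul, norm_inv,
          Complex.norm_real, Real.norm_of_nonneg hp.le], ← Finset.mul_sum, hr,
        inv_mul_cancel₀ hp.ne']
    · simp only [vec_scl h1, Units.val_mk0, norm_smul, hn, norm_inv, Complex.norm_real,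
        Real.norm_of_nonneg hp.le, mul_one, smul_smul]
      rw [Complex.ofReal_inv, inv_inv, mul_inv_cancel₀ r0, one_smul]
  · rintro _ ⟨p, -, rfl⟩
    exact smul_vec_mem h1 (nrm_vec h1 hs p)

/-- the unit vectors over a dense part of the cone are dense -/
theorem closure_eq_sph (h1 : ∀ k, s k ∈ 𝒜 1) (hs : Algebra.adjoin ℂ (range s) = ⊤)
    {T : Set (EuclideanSpace ℂ (Fin m))} (hT : T ⊆ Sph 𝒜 s) {D : Set (Pt 𝒜)} (hD : Dense D)
    (h : ∀ p ∈ D, ((‖vec s p‖ : ℂ)⁻¹) • vec s p ∈ T) : closure T = Sph 𝒜 s := by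
  refine (closure_minimal hT (isCompact_sph h1 hs).isClosed).antisymm ?_
  rintro _ ⟨hn, p, rfl⟩
  have hc : Continuous fun p : Pt 𝒜 => ((‖vec s p‖ : ℂ)⁻¹) • vec s p :=
    ((Complex.continuous_ofReal.comp continuous_vec.norm).inv₀ fun p =>
      Complex.ofReal_ne_zero.2 (norm_ne_zero_iff.2 (vec_ne h1 hs p))).smul continuous_vec
  have := map_mem_closure hc (hD p) h
  simpa [hn] using this

theorem secondCountable_cx (h : Gen1 𝒜) : SecondCountableTopology (Cx 𝒜) := by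
  obtain ⟨t, -, ht⟩ := id h
  have : SecondCountableTopology (Pt 𝒜) :=
    (isInducing_vec (𝒜 := 𝒜) (s := fun k => (t.equivFin.symm k).1) (by
      rw [← ht]
      congr 1
      ext a
      exact ⟨by rintro ⟨k, rfl⟩; exact (t.equivFin.symm k).2,
        fun ha => ⟨t.equivFin ⟨a, ha⟩, by simp⟩⟩)).secondCountableTopology
  exact isQuotientMap_cx.secondCountableTopology (isOpenMap_cx h)

theorem metrizable_cx (h : Gen1 𝒜) : TopologicalSpace.MetrizableSpace (Cx 𝒜) :=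
  have := t2Space_cx h
  have := compactSpace_cx h
  have := secondCountable_cx h
  inferInstance

/-- a metric whose topology is, by definition, the classical topology -/
@[reducible] def metricCx (h : Gen1 𝒜) : MetricSpace (Cx 𝒜) :=
  haveI := metrizable_cx h
  TopologicalSpace.metrizableSpaceMetric (Cx 𝒜)

theorem metricCx_top (h : Gen1 𝒜) :
    (metricCx h).toPseudoMetricSpace.toUniformSpace.toTopologicalSpace = topCx 𝒜 := rfl

end

end Pool.Agent.Lib.MP_d3d358_ag.Var
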