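import Mathlib

/-! Invariants and alternants of the symmetric group on three letters acting on two copies of its
plane representation, in the coordinates `(u1, u2, v1, v2) = (t 0, t 1, t 2, t 3)`. The base ring
is any commutative ring with a cube root of unity in which 2 and 3 are units. -/

set_option autoImplicit false

namespace Pool.Agent.Lib.MP_d3d358_ag.Var

variable {A K : Type*} [CommRing A] [CommRing K]

/-- The invariants `q11, q12, q22, p0, p1, p2, p3`. -/
def ivt (t : Fin 4 → K) : Fin 7 → K :=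
  ![t 0 * t 2, t 0 * t 3 + t 1 * t 2, t 1 * t 3, t 0 ^ 3 + t 2 ^ 3,
    t 0 ^ 2 * t 1 + t 2 ^ 2 * t 3, t 0 * t 1 ^ 2 + t 2 * t 3 ^ 2, t 1 ^ 3 + t 3 ^ 3]

/-- The alternants `d, a0, a1, a2, a3`. -/
def alt (t : Fin 4 → K) : Fin 5 → K :=
  ![t 0 * t 3 - t 1 * t 2, t 0 ^ 3 - t 2 ^ 3, t 0 ^ 2 * t 1 - t 2 ^ 2 * t 3,
    t 0 * t 1 ^ 2 - t 2 * t 3 ^ 2, t 1 ^ 3 - t 3 ^ 3]

theorem map_ivt {L F : Type*} [CommRing L] [FunLike F K L] [RingHomClass F K L] (φ : F)
    (t : Fin 4 → K) (i : Fin 7) : φ (ivt t i) = ivt (fun j => φ (t j)) i := by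
  fin_cases i <;> simp [ivt]

theorem map_alt {L F : Type*} [CommRing L] [FunLike F K L] [RingHomClass F K L] (φ : F)
    (t : Fin 4 → K) (i : Fin 5) : φ (alt t i) = alt (fun j => φ (t j)) i := by
  fin_cases i <;> simp [alt]

variable [Algebra A K]

/-- `r` acts as the 3-cycle and `s` as the transposition on the coordinates `t`. -/
structure Acts (ω : A) (r s : K →ₐ[A] K) (t : Fin 4 → K) : Prop where
  root : ω ^ 2 + ω + 1 = 0
  r0 : r (t 0) = ω • t 0
  r1 : r (t 1) = ω • t 1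
  r2 : r (t 2) = ω ^ 2 • t 2
  r3 : r (t 3) = ω ^ 2 • t 3
  s0 : s (t 0) = t 2
  s1 : s (t 1) = t 3
  s2 : s (t 2) = t 0
  s3 : s (t 3) = t 1

variable (A) in
/-- The algebra generated by the seven invariants. -/
def invAlg (t : Fin 4 → K) : Subalgebra A K := Algebra.adjoin A (Set.range (ivt t))

variable (A) in
/-- The module over `invAlg` generated by the five alternants. -/
def altMod (t : Fin 4 → K) : Submodule (invAlg A t) K :=
  Submodule.span (invAlg A t) (Set.range (alt t))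

theorem ivt_mem (t : Fin 4 → K) (i : Fin 7) : ivt t i ∈ invAlg A t :=
  Algebra.subset_adjoin ⟨i, rfl⟩

theorem alt_mem (t : Fin 4 → K) (i : Fin 5) : alt t i ∈ altMod A t :=
  Submodule.subset_span ⟨i, rfl⟩

theorem alt_mul_alt (t : Fin 4 → K) (i j : Fin 5) : alt t i * alt t j ∈ invAlg A t := by
  have key : ∀ (F : MvPolynomial (Fin 7) ℤ) (x : K), x = MvPolynomial.aeval (ivt t) F →
      x ∈ invAlg A t := by
    rintro F x rfl
    induction F using MvPolynomial.induction_on with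
    | C a => simp
    | add p q hp hq => rw [map_add]; exact add_mem hp hq
    | mul_X p n hp => rw [map_mul, MvPolynomial.aeval_X]; exact mul_mem hp (ivt_mem t n)
  have h : ∀ i j : Fin 5, i ≤ j → alt t i * alt t j ∈ invAlg A t := by
    intro i j hij
    open MvPolynomial in
    fin_cases i <;> fin_cases j <;> first
      | exact absurd hij (by decide)
      | skip
    · exact key (X 1 ^ 2 - 4 * X 0 * X 2) _ (by simp [ivt, alt]; ring)
    · exact key (X 1 * X 3 - 2 * X 0 * X 4) _ (by simp [ivt, alt]; ring)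
    · exact key (X 2 * X 3 - X 0 * X 5) _ (by simp [ivt, alt]; ring)
    · exact key (X 2 * X 4 - X 0 * X 6) _ (by simp [ivt, alt]; ring)
    · exact key (2 * X 2 * X 5 - X 1 * X 6) _ (by simp [ivt, alt]; ring)
    · exact key (X 3 * X 3 - 4 * X 0 ^ 3) _ (by simp [ivt, alt]; ring)
    · exact key (X 3 * X 4 - 2 * X 0 ^ 2 * X 1) _ (by simp [ivt, alt]; ring)
    · exact key (X 3 * X 5 - 2 * X 0 * (X 1 ^ 2 - 2 * X 0 * X 2)) _ (by simp [ivt, alt]; ring)
    · exact key (X 3 * X 6 - 2 * (X 1 ^ 3 - 3 * X 0 * X 1 * X 2)) _ (by simp [ivt, alt]; ring)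
    · exact key (X 4 * X 4 - 4 * X 0 ^ 2 * X 2) _ (by simp [ivt, alt]; ring)
    · exact key (X 4 * X 5 - 2 * X 0 * X 1 * X 2) _ (by simp [ivt, alt]; ring)
    · exact key (X 4 * X 6 - 2 * X 2 * (X 1 ^ 2 - 2 * X 0 * X 2)) _ (by simp [ivt, alt]; ring)
    · exact key (X 5 * X 5 - 4 * X 0 * X 2 ^ 2) _ (by simp [ivt, alt]; ring)
    · exact key (X 5 * X 6 - 2 * X 1 * X 2 ^ 2) _ (by simp [ivt, alt]; ring)
    · exact key (X 6 * X 6 - 4 * X 2 ^ 3) _ (by simp [ivt, alt]; ring)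
  rcases le_total i j with hij | hij
  · exact h i j hij
  · rw [mul_comm]; exact h j i hij

theorem mul_mem_altMod {t : Fin 4 → K} {a m : K} (ha : a ∈ invAlg A t) (hm : m ∈ altMod A t) :
    a * m ∈ altMod A t :=
  (altMod A t).smul_mem ⟨a, ha⟩ hm

theorem altMod_mul {t : Fin 4 → K} {m n : K} (hm : m ∈ altMod A t) (hn : n ∈ altMod A t) :
    m * n ∈ invAlg A t := by
  induction hm using Submodule.span_induction with
  | mem x hx =>
    obtain ⟨i, rfl⟩ := hx
    induction hn using Submodule.span_induction with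
    | mem y hy => obtain ⟨j, rfl⟩ := hy; exact alt_mul_alt t i j
    | zero => simp
    | add y z _ _ hy hz => rw [mul_add]; exact add_mem hy hz
    | smul a y _ hy =>
      have : alt t i * a • y = (a : K) * (alt t i * y) := by
        rw [Subalgebra.smul_def, smul_eq_mul]; ring
      rw [this]; exact mul_mem a.2 hy
  | zero => simp
  | add y z _ _ hy hz => rw [add_mul]; exact add_mem hy hz
  | smul a y _ hy =>
    have : a • y * n = (a : K) * (y * n) := by rw [Subalgebra.smul_def, smul_eq_mul]; ring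
    rw [this]; exact mul_mem a.2 hy

variable (A) in
/-- Sums of an element of `invAlg` and an element of `altMod`. -/
def cycAlg (t : Fin 4 → K) : Subalgebra A K where
  carrier := {x | ∃ a ∈ invAlg A t, ∃ m ∈ altMod A t, x = a + m}
  mul_mem' := by
    rintro _ _ ⟨a, ha, m, hm, rfl⟩ ⟨b, hb, n, hn, rfl⟩
    exact ⟨a * b + m * n, add_mem (mul_mem ha hb) (altMod_mul hm hn), a * n + b * m,
      add_mem (mul_mem_altMod ha hn) (mul_mem_altMod hb hm), by ring⟩
  add_mem' := by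
    rintro _ _ ⟨a, ha, m, hm, rfl⟩ ⟨b, hb, n, hn, rfl⟩
    exact ⟨a + b, add_mem ha hb, m + n, add_mem hm hn, by ring⟩
  algebraMap_mem' c := ⟨_, algebraMap_mem _ c, 0, zero_mem _, (add_zero _).symm⟩

theorem cubic_mem (T : Subalgebra A K) {x y : K} (h0 : x ^ 3 ∈ T) (h1 : x ^ 2 * y ∈ T)
    (h2 : x * y ^ 2 ∈ T) (h3 : y ^ 3 ∈ T) (a b : ℕ) (h : (a + b) % 3 = 0) :
    x ^ a * y ^ b ∈ T := by
  have e : x ^ a * y ^ b = (x ^ 3) ^ (a / 3) * (y ^ 3) ^ (b / 3) * (x ^ (a % 3) * y ^ (b % 3)) := by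
    conv_lhs => rw [← Nat.div_add_mod a 3, ← Nat.div_add_mod b 3]
    ring
  rw [e]
  refine mul_mem (mul_mem (pow_mem h0 _) (pow_mem h3 _)) ?_
  have : (a % 3 = 0 ∧ b % 3 = 0) ∨ (a % 3 = 2 ∧ b % 3 = 1) ∨ (a % 3 = 1 ∧ b % 3 = 2) := by omega
  rcases this with ⟨ha, hb⟩ | ⟨ha, hb⟩ | ⟨ha, hb⟩ <;> rw [ha, hb]
  · simp
  · simpa using h1
  · simpa using h2

theorem mono_mem (T : Subalgebra A K) {x y z w : K} (hxz : x * z ∈ T) (hxw : x * w ∈ T)
    (hyz : y * z ∈ T) (hyw : y * w ∈ T)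
    (hu : ∀ a b : ℕ, (a + b) % 3 = 0 → x ^ a * y ^ b ∈ T)
    (hv : ∀ a b : ℕ, (a + b) % 3 = 0 → z ^ a * w ^ b ∈ T) (n : ℕ) :
    ∀ a b c e : ℕ, a + b = n → (a + b + 2 * (c + e)) % 3 = 0 →
      x ^ a * y ^ b * z ^ c * w ^ e ∈ T := by
  induction n with
  | zero =>
    intro a b c e h0 h
    obtain ⟨rfl, rfl⟩ : a = 0 ∧ b = 0 := by omega
    simpa using hv c e (by omega)
  | succ n ih =>
    intro a b c e h0 h
    rcases c with _ | c
    · rcases e with _ | e
      · simpa using hu a b (by omega)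
      · rcases a with _ | a
        · obtain ⟨b, rfl⟩ : ∃ b', b = b' + 1 := ⟨b - 1, by omega⟩
          convert mul_mem hyw (ih 0 b 0 e (by omega) (by omega)) using 1
          ring
        · convert mul_mem hxw (ih a b 0 e (by omega) (by omega)) using 1
          ring
    · rcases a with _ | a
      · obtain ⟨b, rfl⟩ : ∃ b', b = b' + 1 := ⟨b - 1, by omega⟩
        convert mul_mem hyz (ih 0 b c e (by omega) (by omega)) using 1
        ring
      · convert mul_mem hxz (ih a b c e (by omega) (by omega)) using 1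
        ring

theorem half_mem (h2 : IsUnit (2 : A)) (T : Subalgebra A K) {x : K} (h : 2 * x ∈ T) : x ∈ T := by
  obtain ⟨c, hc⟩ := h2.exists_left_inv
  have : x = c • (2 * x) := by
    rw [two_mul, ← two_smul A x, smul_smul, hc, one_smul]
  rw [this]
  exact T.smul_mem h c

theorem mono_cycAlg (h2 : IsUnit (2 : A)) (t : Fin 4 → K) (a b c e : ℕ)
    (h : (a + b + 2 * (c + e)) % 3 = 0) :
    t 0 ^ a * t 1 ^ b * t 2 ^ c * t 3 ^ e ∈ cycAlg A t := by
  have hp : ∀ (i : Fin 7) (j : Fin 5) (x : K), 2 * x = ivt t i + alt t j → x ∈ cycAlg A t :=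
    fun i j x hx => half_mem h2 _ ⟨_, ivt_mem t i, _, alt_mem t j, hx⟩
  have hn : ∀ (i : Fin 7) (j : Fin 5) (x : K), 2 * x = ivt t i + -alt t j → x ∈ cycAlg A t :=
    fun i j x hx => half_mem h2 _ ⟨_, ivt_mem t i, _, neg_mem (alt_mem t j), hx⟩
  have hi : ∀ i : Fin 7, ivt t i ∈ cycAlg A t :=
    fun i => ⟨_, ivt_mem t i, 0, zero_mem _, (add_zero _).symm⟩
  refine mono_mem _ (hi 0) (hp 1 0 _ ?_) (hn 1 0 _ ?_) (hi 2)
    (cubic_mem _ (hp 3 1 _ ?_) (hp 4 2 _ ?_) (hp 5 3 _ ?_) (hp 6 4 _ ?_))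
    (cubic_mem _ (hn 3 1 _ ?_) (hn 4 2 _ ?_) (hn 5 3 _ ?_) (hn 6 4 _ ?_)) _ a b c e rfl h <;>
  · simp [ivt, alt]; ring

namespace Acts

variable {ω : A} {r s : K →ₐ[A] K} {t : Fin 4 → K} (h : Acts ω r s t)
include h

theorem cube : ω ^ 3 = 1 := by linear_combination (ω - 1) * h.root

theorem r_ivt (i : Fin 7) : r (ivt t i) = ivt t i := by
  have h3 : algebraMap A K ω ^ 3 = 1 := by rw [← map_pow, h.cube, map_one]
  fin_cases i <;> simp [ivt, h.r0, h.r1, h.r2, h.r3, Algebra.smul_def] <;> grind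

theorem r_alt (i : Fin 5) : r (alt t i) = alt t i := by
  have h3 : algebraMap A K ω ^ 3 = 1 := by rw [← map_pow, h.cube, map_one]
  fin_cases i <;> simp [alt, h.r0, h.r1, h.r2, h.r3, Algebra.smul_def] <;> grind

theorem s_ivt (i : Fin 7) : s (ivt t i) = ivt t i := by
  fin_cases i <;> simp [ivt, h.s0, h.s1, h.s2, h.s3] <;> ring

theorem s_alt (i : Fin 5) : s (alt t i) = -alt t i := by
  fin_cases i <;> simp [alt, h.s0, h.s1, h.s2, h.s3]
  ring

theorem fix_invAlg {a : K} (ha : a ∈ invAlg A t) : r a = a ∧ s a = a := by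
  induction ha using Algebra.adjoin_induction with
  | mem x hx => obtain ⟨i, rfl⟩ := hx; exact ⟨h.r_ivt i, h.s_ivt i⟩
  | algebraMap c => simp
  | add x y _ _ hx hy => simp [hx.1, hx.2, hy.1, hy.2]
  | mul x y _ _ hx hy => simp [hx.1, hx.2, hy.1, hy.2]

theorem fix_altMod {m : K} (hm : m ∈ altMod A t) : r m = m ∧ s m = -m := by
  induction hm using Submodule.span_induction with
  | mem x hx => obtain ⟨i, rfl⟩ := hx; exact ⟨h.r_alt i, h.s_alt i⟩
  | zero => simp
  | add x y _ _ hx hy => simp [hx.1, hx.2, hy.1, hy.2, add_comm]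
  | smul a x _ hx =>
    obtain ⟨h1, h2⟩ := h.fix_invAlg a.2
    simp [Subalgebra.smul_def, hx.1, hx.2, h1, h2]

theorem avg_mem (h2 : IsUnit (2 : A)) {f : K} (hf : f ∈ Algebra.adjoin A (Set.range t)) :
    f + r f + r (r f) ∈ cycAlg A t := by
  rw [Algebra.adjoin_range_eq_range_aeval] at hf
  obtain ⟨F, rfl⟩ := hf
  change MvPolynomial.aeval t F + r (MvPolynomial.aeval t F) + r (r (MvPolynomial.aeval t F)) ∈ _
  induction F using MvPolynomial.induction_on' with
  | add p q hp hq =>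
    convert add_mem hp hq using 1
    simp only [map_add]
    ring
  | monomial u c =>
    obtain ⟨m, hm⟩ : ∃ m, m = t 0 ^ u 0 * t 1 ^ u 1 * t 2 ^ u 2 * t 3 ^ u 3 := ⟨_, rfl⟩
    obtain ⟨k, hk⟩ : ∃ k, k = u 0 + u 1 + 2 * (u 2 + u 3) := ⟨_, rfl⟩
    have e1 : MvPolynomial.aeval t (MvPolynomial.monomial u c) = c • m := by
      rw [MvPolynomial.aeval_monomial, Finsupp.prod_fintype _ _ (by simp), Fin.prod_univ_four,
        Algebra.smul_def, hm]
    have e2 : r m = ω ^ k • m := by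
      simp only [hm, hk, map_mul, map_pow, h.r0, h.r1, h.r2, h.r3, Algebra.smul_def]
      ring
    have e3 : c • m + r (c • m) + r (r (c • m)) = (c * (1 + ω ^ k + ω ^ k * ω ^ k)) • m := by
      simp only [map_smul, e2]
      module
    rw [e1, e3]
    have e4 : ω ^ k = ω ^ (k % 3) := by
      conv_lhs => rw [← Nat.div_add_mod k 3, pow_add, pow_mul, h.cube, one_pow, one_mul]
    have : k % 3 = 0 ∨ k % 3 = 1 ∨ k % 3 = 2 := by omega
    rcases this with h0 | h0 | h0
    · exact Subalgebra.smul_mem _ (hm ▸ mono_cycAlg h2 t _ _ _ _ (hk ▸ h0)) _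
    · have : 1 + ω ^ k + ω ^ k * ω ^ k = 0 := by
        rw [e4, h0]; linear_combination h.root
      rw [this, mul_zero, zero_smul]; exact zero_mem _
    · have : 1 + ω ^ k + ω ^ k * ω ^ k = 0 := by
        rw [e4, h0]; linear_combination (ω ^ 2 - ω + 1) * h.root
      rw [this, mul_zero, zero_smul]; exact zero_mem _

/-- A polynomial in `t` fixed by the 3-cycle is an invariant plus an alternant. -/
theorem mem_cycAlg (h2 : IsUnit (2 : A)) (h3 : IsUnit (3 : A)) {f : K}
    (hf : f ∈ Algebra.adjoin A (Set.range t)) (hr : r f = f) : f ∈ cycAlg A t := by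
  have h1 := h.avg_mem h2 hf
  rw [hr, hr] at h1
  obtain ⟨c, hc⟩ := h3.exists_left_inv
  have : f = c • (f + f + f) := by
    have : f + f + f = (3 : A) • f := by module
    rw [this, smul_smul, hc, one_smul]
  rw [this]
  exact Subalgebra.smul_mem _ h1 c

omit h in
theorem eq_zero_of_two (h2 : IsUnit (2 : A)) {x : K} (hx : x + x = 0) : x = 0 := by
  obtain ⟨c, hc⟩ := h2.exists_left_inv
  rw [← one_smul A x, ← hc, ← smul_smul, two_smul, hx, smul_zero]

/-- Invariant polynomials in `t` are polynomials in the seven invariants. -/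
theorem mem_invAlg (h2 : IsUnit (2 : A)) (h3 : IsUnit (3 : A)) {f : K}
    (hf : f ∈ Algebra.adjoin A (Set.range t)) (hr : r f = f) (hs : s f = f) :
    f ∈ invAlg A t := by
  obtain ⟨a, ha, m, hm, rfl⟩ := h.mem_cycAlg h2 h3 hf hr
  rw [map_add, (h.fix_invAlg ha).2, (h.fix_altMod hm).2] at hs
  have : m = 0 := eq_zero_of_two h2 (by linear_combination -hs)
  rwa [this, add_zero]

/-- Alternating polynomials in `t` are combinations of the five alternants. -/
theorem mem_altMod (h2 : IsUnit (2 : A)) (h3 : IsUnit (3 : A)) {f : K}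
    (hf : f ∈ Algebra.adjoin A (Set.range t)) (hr : r f = f) (hs : s f = -f) :
    f ∈ altMod A t := by
  obtain ⟨a, ha, m, hm, rfl⟩ := h.mem_cycAlg h2 h3 hf hr
  rw [map_add, (h.fix_invAlg ha).2, (h.fix_altMod hm).2] at hs
  have : a = 0 := eq_zero_of_two h2 (by linear_combination hs)
  rwa [this, zero_add]

end Acts

end Pool.Agent.Lib.MP_d3d358_ag.Var
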