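import Pool.Agent.Lib.MP_d3d358_ag.Var.Grp
import Pool.Agent.Lib.MP_d3d358_ag.Var.Q3

/-! Invariants and alternants in terms of the action of `G`. -/

set_option autoImplicit false

namespace Pool.Agent.Lib.MP_d3d358_ag.Var

noncomputable section

section Alg

variable {K : Type} [CommRing K] [Algebra ℂ K]

theorem ivt_gv (g : G) (z : Fin 4 → K) (i : Fin 7) : ivt (gv g z) i = ivt z i := by
  have h (k : ZMod 3) : algebraMap ℂ K (chi k) ^ 3 = 1 := by rw [← map_pow, chi_cube, map_one]
  cases g with
  | r k =>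
    have := h k
    fin_cases i <;> simp [ivt, gv_r, chi_neg, Algebra.smul_def] <;> grind
  | sr k =>
    have := h k
    fin_cases i <;> simp [ivt, gv_sr, chi_neg, Algebra.smul_def] <;> grind

theorem alt_gv (g : G) (z : Fin 4 → K) (i : Fin 5) : alt (gv g z) i = sg g • alt z i := by
  have h (k : ZMod 3) : algebraMap ℂ K (chi k) ^ 3 = 1 := by rw [← map_pow, chi_cube, map_one]
  cases g with
  | r k =>
    have := h k
    fin_cases i <;> simp [alt, gv_r, chi_neg, Algebra.smul_def] <;> grind
  | sr k =>
    have := h k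
    fin_cases i <;> simp [alt, gv_sr, chi_neg, Algebra.smul_def] <;> grind

variable [MulSemiringAction G K]

/-- `t` transforms like the coordinate functions -/
def Equi (t : Fin 4 → K) : Prop := ∀ (g : G) (i : Fin 4), g • t i = gv g⁻¹ t i

namespace Equi

variable {t : Fin 4 → K} (ht : Equi t)
include ht

theorem smul_ivt (g : G) (i : Fin 7) : g • ivt t i = ivt t i := by
  have := map_ivt (MulSemiringAction.toRingHom G K g) t i
  simp only [MulSemiringAction.toRingHom_apply, ht g] at this
  rw [this]
  exact ivt_gv g⁻¹ t i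

theorem smul_alt (g : G) (i : Fin 5) : g • alt t i = sg g • alt t i := by
  have := map_alt (MulSemiringAction.toRingHom G K g) t i
  simp only [MulSemiringAction.toRingHom_apply, ht g] at this
  rw [this, ← sg_inv]
  exact alt_gv g⁻¹ t i

variable {A : Type*} [CommRing A] [Algebra ℂ A] [Algebra A K] [IsScalarTower ℂ A K]
  (hA : ∀ (g : G) (a : A), g • algebraMap A K a = algebraMap A K a)

omit ht in
/-- the action of `g` as a homomorphism of `A`-algebras -/
def hom (g : G) : K →ₐ[A] K := { MulSemiringAction.toRingHom G K g with commutes' := hA g }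

theorem acts : Acts (algebraMap ℂ A (chi 1)) (hom hA (DihedralGroup.r 1)⁻¹) (hom hA (.sr 0)) t := by
  have e1 : ∀ i, hom hA (DihedralGroup.r 1)⁻¹ (t i) = gv (.r 1) t i := fun i => ht _ i
  have e2 : ∀ i, hom hA (.sr 0) (t i) = gv (.sr 0) t i := fun i => ht _ i
  refine ⟨?_, ?_, ?_, ?_, ?_, ?_, ?_, ?_, ?_⟩
  · rw [← map_pow, ← map_one (algebraMap ℂ A), ← map_add, ← map_add, chi_quad (by decide), map_zero]
  all_goals first
    | (rw [e1]; simp [gv_r, chi_neg, ← map_pow])
    | (rw [e2]; simp [gv_sr])

omit ht in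
theorem unit_two : IsUnit (2 : A) := by
  simpa [map_ofNat] using (IsUnit.mk0 (2 : ℂ) two_ne_zero).map (algebraMap ℂ A)

omit ht in
theorem unit_three : IsUnit (3 : A) := by
  simpa [map_ofNat] using (IsUnit.mk0 (3 : ℂ) three_ne_zero).map (algebraMap ℂ A)

include hA

/-- Invariant polynomials in `t` over a ring of invariants `A`. -/
theorem mem_adjoin_ivt {f : K} (hf : f ∈ Algebra.adjoin A (Set.range t))
    (hi : ∀ g : G, g • f = f) : f ∈ Algebra.adjoin A (Set.range (ivt t)) :=
  (ht.acts hA).mem_invAlg unit_two unit_three hf (hi _) (hi _)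

/-- Alternating polynomials in `t` over a ring of invariants `A`. -/
theorem exists_sum_alt {f : K} (hf : f ∈ Algebra.adjoin A (Set.range t))
    (hi : ∀ g : G, g • f = sg g • f) :
    ∃ e : Fin 5 → K, (∀ ν, e ν ∈ Algebra.adjoin A (Set.range (ivt t))) ∧
      f = ∑ ν, e ν * alt t ν := by
  have h1 : hom hA (DihedralGroup.r 1)⁻¹ f = f := (hi _).trans (by rw [sg_inv, sg_r, one_smul])
  have h2 : hom hA (.sr 0) f = -f := (hi _).trans (by rw [sg_sr, neg_one_smul])
  obtain ⟨e, he⟩ := (Submodule.mem_span_range_iff_exists_fun _).1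
    ((ht.acts hA).mem_altMod unit_two unit_three hf h1 h2)
  exact ⟨fun ν => e ν, fun ν => (e ν).2, he.symm⟩

end Equi

end Alg

/-- An element of the algebra generated by the `y i` that is killed by a point is a combination of
the `y i` minus their values. -/
theorem exists_sum_sub {A K ι : Type*} [CommRing A] [CommRing K] [Algebra A K] [Fintype ι]
    (φ : K →ₐ[A] A) (y : ι → K) {f : K} (hf : f ∈ Algebra.adjoin A (Set.range y)) :
    ∃ e : ι → K, (∀ i, e i ∈ Algebra.adjoin A (Set.range y)) ∧
      f - algebraMap A K (φ f) = ∑ i, e i * (y i - algebraMap A K (φ (y i))) := by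
  classical
  induction hf using Algebra.adjoin_induction with
  | mem x hx =>
    obtain ⟨i, rfl⟩ := hx
    refine ⟨Pi.single i 1, fun j => ?_, by simp [Pi.single_apply]⟩
    rw [Pi.single_apply]
    split_ifs
    exacts [one_mem _, zero_mem _]
  | algebraMap c => exact ⟨0, fun _ => zero_mem _, by simp⟩
  | add a b _ _ ha hb =>
    obtain ⟨e, he, h1⟩ := ha
    obtain ⟨e', he', h2⟩ := hb
    refine ⟨e + e', fun i => add_mem (he i) (he' i), ?_⟩
    simp only [Pi.add_apply, add_mul, Finset.sum_add_distrib, ← h1, ← h2, map_add]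
    ring
  | mul a b ha' _ ha hb =>
    obtain ⟨e, he, h1⟩ := ha
    obtain ⟨e', he', h2⟩ := hb
    refine ⟨fun i => algebraMap A K (φ b) * e i + a * e' i, fun i =>
      add_mem (mul_mem (algebraMap_mem _ _) (he i)) (mul_mem ha' (he' i)), ?_⟩
    simp only [add_mul, Finset.sum_add_distrib, mul_assoc, ← Finset.mul_sum, ← h1, ← h2, map_mul]
    ring

end

end Pool.Agent.Lib.MP_d3d358_ag.Var
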