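import Pool.Agent.Lib.MP_d3d358_ag.Var.Q3

/-! The three charts of the blow up of the ideal of alternants: coordinates, the invariants and the
quotients of alternants as polynomials in them, and the symplectic form in these coordinates. -/

set_option autoImplicit false

namespace Pool.Agent.Lib.MP_d3d358_ag.Var

variable {K : Type*} [Field K]

/-- The alternants `d, a0, a3` that give the three charts. -/
def cix : Fin 3 → Fin 5 := ![0, 1, 4]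

/-- The coordinates of the three charts, in Darboux order. -/
def crd (μ : Fin 3) (t : Fin 4 → K) : Fin 4 → K :=
  ![![alt t 2 / alt t 0, alt t 3 / alt t 0, alt t 4 / alt t 0, alt t 1 / alt t 0],
    ![ivt t 0, alt t 2 / alt t 1, ivt t 3, alt t 0 / alt t 1],
    ![alt t 3 / alt t 4, ivt t 2, ivt t 6, alt t 0 / alt t 4]] μ

/-- The invariants as polynomials in the coordinates of a chart. -/
def ivC {R : Type*} [CommRing R] (μ : Fin 3) (c : Fin 4 → R) : Fin 7 → R :=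
  ![![c 0 ^ 2 - c 3 * c 1, c 0 * c 1 - c 3 * c 2, c 1 ^ 2 - c 0 * c 2,
      (c 0 * c 1 - c 3 * c 2) * c 3 - 2 * (c 0 ^ 2 - c 3 * c 1) * c 0,
      (c 1 ^ 2 - c 0 * c 2) * c 3 - (c 0 ^ 2 - c 3 * c 1) * c 1,
      (c 1 ^ 2 - c 0 * c 2) * c 0 - (c 0 ^ 2 - c 3 * c 1) * c 2,
      2 * (c 1 ^ 2 - c 0 * c 2) * c 1 - (c 0 * c 1 - c 3 * c 2) * c 2],
    ![c 0, 2 * c 1 * c 0 + c 3 * c 2, c 1 ^ 2 * c 0 + c 1 * c 3 * c 2 + c 3 ^ 2 * c 0 ^ 2, c 2,
      c 1 * c 2 + 2 * c 3 * c 0 ^ 2,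
      c 1 ^ 2 * c 2 + 4 * c 1 * c 3 * c 0 ^ 2 + c 3 ^ 2 * c 0 * c 2,
      c 1 ^ 3 * c 2 + 6 * c 1 ^ 2 * c 3 * c 0 ^ 2 + 3 * c 1 * c 3 ^ 2 * c 0 * c 2
        + c 3 ^ 3 * (c 2 ^ 2 - 2 * c 0 ^ 3)],
    ![c 0 ^ 2 * c 1 - c 0 * c 3 * c 2 + c 3 ^ 2 * c 1 ^ 2, 2 * c 0 * c 1 - c 3 * c 2, c 1,
      c 0 ^ 3 * c 2 - 6 * c 0 ^ 2 * c 3 * c 1 ^ 2 + 3 * c 0 * c 3 ^ 2 * c 1 * c 2
        - c 3 ^ 3 * (c 2 ^ 2 - 2 * c 1 ^ 3),
      c 0 ^ 2 * c 2 - 4 * c 0 * c 3 * c 1 ^ 2 + c 3 ^ 2 * c 1 * c 2,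
      c 0 * c 2 - 2 * c 3 * c 1 ^ 2, c 2]] μ

/-- The quotients of alternants as polynomials in the coordinates of a chart. -/
def alC {R : Type*} [CommRing R] (μ : Fin 3) (c : Fin 4 → R) : Fin 5 → R :=
  ![![1, c 3, c 0, c 1, c 2],
    ![c 3, 1, c 1, c 1 ^ 2 - c 3 ^ 2 * c 0, c 1 ^ 3 - 3 * c 1 * c 3 ^ 2 * c 0 - c 3 ^ 3 * c 2],
    ![c 3, c 0 ^ 3 - 3 * c 0 * c 3 ^ 2 * c 1 + c 3 ^ 3 * c 2, c 0 ^ 2 - c 3 ^ 2 * c 1, c 0, 1]] μ

theorem map_ivC {R L F : Type*} [CommRing R] [CommRing L] [FunLike F R L] [RingHomClass F R L]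
    (φ : F) (μ : Fin 3) (c : Fin 4 → R) (i : Fin 7) :
    φ (ivC μ c i) = ivC μ (fun j => φ (c j)) i := by
  fin_cases μ <;> fin_cases i <;> simp [ivC, map_ofNat]

theorem map_alC {R L F : Type*} [CommRing R] [CommRing L] [FunLike F R L] [RingHomClass F R L]
    (φ : F) (μ : Fin 3) (c : Fin 4 → R) (i : Fin 5) :
    φ (alC μ c i) = alC μ (fun j => φ (c j)) i := by
  fin_cases μ <;> fin_cases i <;> simp [alC, map_ofNat]

/-- On the chart of `a0`, the coordinates `u2`, `v2` are polynomials in `u1`, `v1`, `b`, `s`. -/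
theorem chart_a0 {x y z w : K} (h : x ^ 3 - z ^ 3 ≠ 0) :
    y = (x ^ 2 * y - z ^ 2 * w) / (x ^ 3 - z ^ 3) * x + (x * w - y * z) / (x ^ 3 - z ^ 3) * z ^ 2 ∧
    w = (x ^ 2 * y - z ^ 2 * w) / (x ^ 3 - z ^ 3) * z + (x * w - y * z) / (x ^ 3 - z ^ 3) * x ^ 2 := by
  constructor <;> field_simp <;> ring

theorem chart_a3 {x y z w : K} (h : y ^ 3 - w ^ 3 ≠ 0) :
    x = (x * y ^ 2 - z * w ^ 2) / (y ^ 3 - w ^ 3) * y - (x * w - y * z) / (y ^ 3 - w ^ 3) * w ^ 2 ∧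
    z = (x * y ^ 2 - z * w ^ 2) / (y ^ 3 - w ^ 3) * w - (x * w - y * z) / (y ^ 3 - w ^ 3) * y ^ 2 := by
  constructor <;> field_simp <;> ring

theorem ivt_eq (μ : Fin 3) {t : Fin 4 → K} (h : alt t (cix μ) ≠ 0) (i : Fin 7) :
    ivt t i = ivC μ (crd μ t) i := by
  fin_cases μ
  · have h' : alt t 0 ≠ 0 := h
    obtain ⟨d, hd⟩ : ∃ d, d = alt t 0 := ⟨_, rfl⟩
    rw [← hd] at h'
    fin_cases i <;> simp only [ivC, crd, ← hd] <;> simp <;> field_simp <;>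
      simp [hd, ivt, alt] <;> ring
  · obtain ⟨h1, h2⟩ := chart_a0 (y := t 1) (w := t 3) (show t 0 ^ 3 - t 2 ^ 3 ≠ 0 from h)
    change t 1 = alt t 2 / alt t 1 * t 0 + alt t 0 / alt t 1 * t 2 ^ 2 at h1
    change t 3 = alt t 2 / alt t 1 * t 2 + alt t 0 / alt t 1 * t 0 ^ 2 at h2
    simp only [ivC, crd]
    generalize alt t 2 / alt t 1 = b at h1 h2
    generalize alt t 0 / alt t 1 = s at h1 h2
    fin_cases i <;> simp [ivt] <;> rw [h1, h2] <;> ring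
  · obtain ⟨h1, h2⟩ := chart_a3 (x := t 0) (z := t 2) (show t 1 ^ 3 - t 3 ^ 3 ≠ 0 from h)
    change t 0 = alt t 3 / alt t 4 * t 1 - alt t 0 / alt t 4 * t 3 ^ 2 at h1
    change t 2 = alt t 3 / alt t 4 * t 3 - alt t 0 / alt t 4 * t 1 ^ 2 at h2
    simp only [ivC, crd]
    generalize alt t 3 / alt t 4 = b at h1 h2
    generalize alt t 0 / alt t 4 = s at h1 h2
    fin_cases i <;> simp [ivt] <;> rw [h1, h2] <;> ring

theorem alt_div_eq (μ : Fin 3) {t : Fin 4 → K} (h : alt t (cix μ) ≠ 0) (ν : Fin 5) :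
    alt t ν / alt t (cix μ) = alC μ (crd μ t) ν := by
  fin_cases μ
  · have h' : alt t 0 ≠ 0 := h
    fin_cases ν <;> simp [alC, crd, cix, h']
  · have h' : alt t 1 ≠ 0 := h
    obtain ⟨d, hd⟩ : ∃ d, d = alt t 1 := ⟨_, rfl⟩
    rw [← hd] at h'
    fin_cases ν <;> simp [alC, crd, cix, ← hd, h'] <;> field_simp <;> simp [hd, ivt, alt] <;> ring
  · have h' : alt t 4 ≠ 0 := h
    obtain ⟨d, hd⟩ : ∃ d, d = alt t 4 := ⟨_, rfl⟩
    rw [← hd] at h'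
    fin_cases ν <;> simp [alC, crd, cix, ← hd, h'] <;> field_simp <;> simp [hd, ivt, alt] <;> ring

/-- Each coordinate is an invariant or a quotient of alternants. -/
theorem crd_cases (μ : Fin 3) (k : Fin 4) :
    (∃ i, ∀ t : Fin 4 → K, crd μ t k = ivt t i) ∨
      ∃ ν, ∀ t : Fin 4 → K, crd μ t k = alt t ν / alt t (cix μ) := by
  fin_cases μ <;> fin_cases k
  exacts [.inr ⟨2, fun _ => rfl⟩, .inr ⟨3, fun _ => rfl⟩, .inr ⟨4, fun _ => rfl⟩,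
    .inr ⟨1, fun _ => rfl⟩, .inl ⟨0, fun _ => rfl⟩, .inr ⟨2, fun _ => rfl⟩, .inl ⟨3, fun _ => rfl⟩,
    .inr ⟨0, fun _ => rfl⟩, .inr ⟨3, fun _ => rfl⟩, .inl ⟨2, fun _ => rfl⟩, .inl ⟨6, fun _ => rfl⟩,
    .inr ⟨0, fun _ => rfl⟩]

theorem ivC_mem {A R : Type*} [CommRing A] [CommRing R] [Algebra A R] (T : Subalgebra A R)
    (μ : Fin 3) {c : Fin 4 → R} (hc : ∀ k, c k ∈ T) (i : Fin 7) : ivC μ c i ∈ T := by
  have := map_ivC T.val μ (fun k => ⟨c k, hc k⟩) i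
  exact this ▸ (ivC μ (fun k => (⟨c k, hc k⟩ : T)) i).2

theorem alC_mem {A R : Type*} [CommRing A] [CommRing R] [Algebra A R] (T : Subalgebra A R)
    (μ : Fin 3) {c : Fin 4 → R} (hc : ∀ k, c k ∈ T) (i : Fin 5) : alC μ c i ∈ T := by
  have := map_alC T.val μ (fun k => ⟨c k, hc k⟩) i
  exact this ▸ (alC μ (fun k => (⟨c k, hc k⟩ : T)) i).2

/-- The ring of a chart is generated by its four coordinates. -/
theorem adjoin_crd (A : Type*) [CommRing A] [Algebra A K] (μ : Fin 3) {t : Fin 4 → K}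
    (h : alt t (cix μ) ≠ 0) :
    Algebra.adjoin A (Set.range (crd μ t)) =
      Algebra.adjoin A (Set.range (ivt t) ∪ Set.range fun ν => alt t ν / alt t (cix μ)) := by
  have hc : ∀ k, crd μ t k ∈ Algebra.adjoin A (Set.range (crd μ t)) :=
    fun k => Algebra.subset_adjoin ⟨k, rfl⟩
  refine le_antisymm (Algebra.adjoin_mono ?_) (Algebra.adjoin_le ?_)
  · rintro _ ⟨k, rfl⟩
    rcases crd_cases (K := K) μ k with ⟨i, hi⟩ | ⟨ν, hν⟩
    · exact .inl ⟨i, (hi t).symm⟩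
    · exact .inr ⟨ν, (hν t).symm⟩
  · rintro _ (⟨i, rfl⟩ | ⟨ν, rfl⟩)
    · rw [ivt_eq μ h]; exact ivC_mem _ μ hc i
    · change alt t ν / alt t (cix μ) ∈ _
      rw [alt_div_eq μ h]; exact alC_mem _ μ hc ν

theorem alt_two_sq {R : Type*} [CommRing R] (t : Fin 4 → R) :
    alt t 2 ^ 2 = alt t 1 * alt t 3 + ivt t 0 * alt t 0 ^ 2 := by
  simp [alt, ivt]; ring

theorem alt_three_sq {R : Type*} [CommRing R] (t : Fin 4 → R) :
    alt t 3 ^ 2 = alt t 2 * alt t 4 + ivt t 2 * alt t 0 ^ 2 := by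
  simp [alt, ivt]; ring

/-- Three charts suffice: if a homomorphism `x` of a ring `T` containing the invariants and the
`alt t ν * e` does not kill all of the latter, it does not kill one of `d e`, `a0 e`, `a3 e`. -/
theorem three_charts {A L : Type*} [CommRing A] [Algebra A K] [CommRing L] [NoZeroDivisors L]
    (T : Subalgebra A K) (x : T →+* L) {t : Fin 4 → K} {e : K} (hi : ∀ i, ivt t i ∈ T)
    (ha : ∀ ν, alt t ν * e ∈ T) {ν : Fin 5} (hν : x ⟨_, ha ν⟩ ≠ 0) :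
    ∃ μ, x ⟨_, ha (cix μ)⟩ ≠ 0 := by
  by_contra! h0
  have h00 : x ⟨_, ha 0⟩ = 0 := h0 0
  have h01 : x ⟨_, ha 1⟩ = 0 := h0 1
  have h04 : x ⟨_, ha 4⟩ = 0 := h0 2
  have e2 : (⟨_, ha 2⟩ : T) ^ 2 = ⟨_, ha 1⟩ * ⟨_, ha 3⟩ + ⟨_, hi 0⟩ * ⟨_, ha 0⟩ ^ 2 :=
    Subtype.ext (by push_cast; linear_combination e ^ 2 * alt_two_sq t)
  have e3 : (⟨_, ha 3⟩ : T) ^ 2 = ⟨_, ha 2⟩ * ⟨_, ha 4⟩ + ⟨_, hi 2⟩ * ⟨_, ha 0⟩ ^ 2 :=
    Subtype.ext (by push_cast; linear_combination e ^ 2 * alt_three_sq t)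
  have h02 : x ⟨_, ha 2⟩ = 0 := by
    have := congrArg x e2
    rw [map_pow, map_add, map_mul, map_mul, map_pow, h00, h01] at this
    simpa using this
  have h03 : x ⟨_, ha 3⟩ = 0 := by
    have := congrArg x e3
    rw [map_pow, map_add, map_mul, map_mul, map_pow, h00, h04] at this
    simpa using this
  fin_cases ν
  exacts [hν h00, hν h01, hν h02, hν h03, hν h04]

section Form

variable {R N N' : Type*} [CommRing R] [Algebra R K] [AddCommGroup N] [Module K N] [Module R N]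
  [AddCommGroup N'] [Module K N'] (δ : Derivation R K N) (B : N →ₗ[K] N →ₗ[K] N')
  (hB : ∀ n, B n n = 0)

include hB in
theorem bil_four (n0 n1 n2 n3 : N) (a0 a1 a2 a3 b0 b1 b2 b3 : K) :
    B (a0 • n0 + a1 • n1 + a2 • n2 + a3 • n3) (b0 • n0 + b1 • n1 + b2 • n2 + b3 • n3) =
      (a0 * b1 - a1 * b0) • B n0 n1 + (a0 * b2 - a2 * b0) • B n0 n2 + (a0 * b3 - a3 * b0) • B n0 n3
      + (a1 * b2 - a2 * b1) • B n1 n2 + (a1 * b3 - a3 * b1) • B n1 n3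
      + (a2 * b3 - a3 * b2) • B n2 n3 := by
  have anti : ∀ m n, B m n = -B n m := fun m n => by
    have := hB (m + n)
    simp only [map_add, LinearMap.add_apply, hB, zero_add, add_zero] at this
    exact eq_neg_of_add_eq_zero_right this
  simp only [map_add, map_smul, LinearMap.add_apply, LinearMap.smul_apply, hB, anti n1 n0,
    anti n2 n0, anti n3 n0, anti n2 n1, anti n3 n1, anti n3 n2]
  module

theorem der_div {a d a0 a1 a2 a3 d0 d1 d2 d3 : K} {n0 n1 n2 n3 : N}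
    (ha : δ a = a0 • n0 + a1 • n1 + a2 • n2 + a3 • n3)
    (hd : δ d = d0 • n0 + d1 • n1 + d2 • n2 + d3 • n3) :
    δ (a / d) = (d⁻¹ ^ 2 * (d * a0 - a * d0)) • n0 + (d⁻¹ ^ 2 * (d * a1 - a * d1)) • n1
      + (d⁻¹ ^ 2 * (d * a2 - a * d2)) • n2 + (d⁻¹ ^ 2 * (d * a3 - a * d3)) • n3 := by
  rw [Derivation.leibniz_div, ha, hd]
  module

variable (t : Fin 4 → K)

theorem der_alt0 : δ (alt t 0) =
    t 3 • δ (t 0) + (-t 2) • δ (t 1) + (-t 1) • δ (t 2) + t 0 • δ (t 3) := by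
  simp [alt]; module

theorem der_alt1 : δ (alt t 1) = (3 * t 0 ^ 2) • δ (t 0) + (0 : K) • δ (t 1)
    + (-3 * t 2 ^ 2) • δ (t 2) + (0 : K) • δ (t 3) := by
  simp [alt, Derivation.leibniz_pow]; module

theorem der_alt2 : δ (alt t 2) = (2 * t 0 * t 1) • δ (t 0) + (t 0 ^ 2) • δ (t 1)
    + (-2 * t 2 * t 3) • δ (t 2) + (-t 2 ^ 2) • δ (t 3) := by
  simp [alt, Derivation.leibniz_pow]; module

theorem der_alt3 : δ (alt t 3) = (t 1 ^ 2) • δ (t 0) + (2 * t 0 * t 1) • δ (t 1)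
    + (-t 3 ^ 2) • δ (t 2) + (-2 * t 2 * t 3) • δ (t 3) := by
  simp [alt, Derivation.leibniz_pow]; module

theorem der_alt4 : δ (alt t 4) = (0 : K) • δ (t 0) + (3 * t 1 ^ 2) • δ (t 1)
    + (0 : K) • δ (t 2) + (-3 * t 3 ^ 2) • δ (t 3) := by
  simp [alt, Derivation.leibniz_pow]; module

theorem der_ivt0 : δ (ivt t 0) =
    t 2 • δ (t 0) + (0 : K) • δ (t 1) + t 0 • δ (t 2) + (0 : K) • δ (t 3) := by
  simp [ivt]; module

theorem der_ivt2 : δ (ivt t 2) =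
    (0 : K) • δ (t 0) + t 3 • δ (t 1) + (0 : K) • δ (t 2) + t 1 • δ (t 3) := by
  simp [ivt]; module

theorem der_ivt3 : δ (ivt t 3) = (3 * t 0 ^ 2) • δ (t 0) + (0 : K) • δ (t 1)
    + (3 * t 2 ^ 2) • δ (t 2) + (0 : K) • δ (t 3) := by
  simp [ivt, Derivation.leibniz_pow]; module

theorem der_ivt6 : δ (ivt t 6) = (0 : K) • δ (t 0) + (3 * t 1 ^ 2) • δ (t 1)
    + (0 : K) • δ (t 2) + (3 * t 3 ^ 2) • δ (t 3) := by
  simp [ivt, Derivation.leibniz_pow]; module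

include hB in
/-- The symplectic form `du1 dv2 - du2 dv1` in the coordinates of a chart. -/
theorem sigma_crd (μ : Fin 3) (h : alt t (cix μ) ≠ 0) :
    (3 : K) • (B (δ (t 0)) (δ (t 3)) - B (δ (t 1)) (δ (t 2))) =
      (3 : K) • B (δ (crd μ t 0)) (δ (crd μ t 1)) + B (δ (crd μ t 2)) (δ (crd μ t 3)) := by
  fin_cases μ
  · have h' : alt t 0 ≠ 0 := h
    change _ = (3 : K) • B (δ (alt t 2 / alt t 0)) (δ (alt t 3 / alt t 0))
      + B (δ (alt t 4 / alt t 0)) (δ (alt t 1 / alt t 0))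
    rw [der_div δ (der_alt1 δ t) (der_alt0 δ t), der_div δ (der_alt2 δ t) (der_alt0 δ t),
      der_div δ (der_alt3 δ t) (der_alt0 δ t), der_div δ (der_alt4 δ t) (der_alt0 δ t),
      bil_four B hB, bil_four B hB]
    match_scalars <;> field_simp <;> simp only [alt, Matrix.cons_val] <;> ring
  · have h' : alt t 1 ≠ 0 := h
    change _ = (3 : K) • B (δ (ivt t 0)) (δ (alt t 2 / alt t 1))
      + B (δ (ivt t 3)) (δ (alt t 0 / alt t 1))
    rw [der_div δ (der_alt2 δ t) (der_alt1 δ t), der_div δ (der_alt0 δ t) (der_alt1 δ t),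
      der_ivt0, der_ivt3, bil_four B hB, bil_four B hB]
    match_scalars <;> field_simp <;> simp only [alt, Matrix.cons_val] <;> ring
  · have h' : alt t 4 ≠ 0 := h
    change _ = (3 : K) • B (δ (alt t 3 / alt t 4)) (δ (ivt t 2))
      + B (δ (ivt t 6)) (δ (alt t 0 / alt t 4))
    rw [der_div δ (der_alt3 δ t) (der_alt4 δ t), der_div δ (der_alt0 δ t) (der_alt4 δ t),
      der_ivt2, der_ivt6, bil_four B hB, bil_four B hB]
    match_scalars <;> field_simp <;> simp only [alt, Matrix.cons_val] <;> ring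

end Form

end Pool.Agent.Lib.MP_d3d358_ag.Var
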