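import Mathlib

/-! The group `S₃` and its linear action on quadruples `(u₁, u₂, v₁, v₂)`. -/

set_option autoImplicit false

namespace Pool.Agent.Lib.MP_d3d358_ag.Var

noncomputable section

/-- `ℂ⁴` with coordinates `u₁, u₂, v₁, v₂` -/
abbrev V : Type := Fin 4 → ℂ

/-- the symmetric group on three letters -/
abbrev G : Type := DihedralGroup 3

/-- `k ↦ ω ^ k` -/
def chi (k : ZMod 3) : ℂ := ZMod.stdAddChar k

@[simp] theorem chi_zero : chi 0 = 1 := AddChar.map_zero_eq_one _

theorem chi_add (k l : ZMod 3) : chi (k + l) = chi k * chi l := AddChar.map_add_eq_mul _ k l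

@[simp] theorem chi_mul_neg (k : ZMod 3) : chi k * chi (-k) = 1 := by
  rw [← chi_add, add_neg_cancel, chi_zero]

@[simp] theorem chi_neg_mul (k : ZMod 3) : chi (-k) * chi k = 1 := by
  rw [mul_comm, chi_mul_neg]

theorem chi_ne_zero (k : ZMod 3) : chi k ≠ 0 := left_ne_zero_of_mul_eq_one (chi_mul_neg k)

theorem chi_eq_one {k : ZMod 3} : chi k = 1 ↔ k = 0 :=
  ⟨fun h => ZMod.injective_stdAddChar (h.trans chi_zero.symm), fun h => h ▸ chi_zero⟩

theorem chi_cube (k : ZMod 3) : chi k ^ 3 = 1 := by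
  have : k + k + k = 0 := by revert k; decide
  rw [pow_three', ← chi_add, ← chi_add, this, chi_zero]

theorem chi_neg (k : ZMod 3) : chi (-k) = chi k ^ 2 := by
  have : -k = k + k := by revert k; decide
  rw [this, chi_add, sq]

theorem chi_quad {k : ZMod 3} (hk : k ≠ 0) : chi k ^ 2 + chi k + 1 = 0 := by
  have h : (chi k - 1) * (chi k ^ 2 + chi k + 1) = 0 := by linear_combination chi_cube k
  exact (mul_eq_zero.1 h).resolve_left fun e => hk (chi_eq_one.1 (sub_eq_zero.1 e))

theorem norm_chi (k : ZMod 3) : ‖chi k‖ = 1 := by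
  have h : ‖chi k‖ ^ 3 = 1 := by rw [← norm_pow, chi_cube, norm_one]
  exact (pow_eq_one_iff_of_nonneg (norm_nonneg _) (by norm_num)).1 h

theorem conj_chi (k : ZMod 3) : (starRingEnd ℂ) (chi k) = chi (-k) := by
  apply mul_left_cancel₀ (chi_ne_zero k)
  rw [Complex.mul_conj', norm_chi, chi_mul_neg]; simp

/-- the sign character -/
def sg : G → ℂ
  | .r _ => 1
  | .sr _ => -1

@[simp] theorem sg_r (k : ZMod 3) : sg (.r k) = 1 := rfl
@[simp] theorem sg_sr (k : ZMod 3) : sg (.sr k) = -1 := rfl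
@[simp] theorem sg_one : sg 1 = 1 := rfl

theorem sg_mul (g h : G) : sg (g * h) = sg g * sg h := by
  cases g <;> cases h <;> simp

@[simp] theorem sg_mul_self (g : G) : sg g * sg g = 1 := by cases g <;> simp

@[simp] theorem sg_inv (g : G) : sg g⁻¹ = sg g := by cases g <;> rfl

variable {A : Type} [AddCommGroup A] [Module ℂ A]

/-- the action on quadruples: the rotation `r k` acts by `(ω^k, ω^k, ω^-k, ω^-k)`, and `sr k` is
`r k` followed by the exchange of `u` and `v` -/
def gv : G → (Fin 4 → A) → Fin 4 → A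
  | .r k, z => ![chi k • z 0, chi k • z 1, chi (-k) • z 2, chi (-k) • z 3]
  | .sr k, z => ![chi (-k) • z 2, chi (-k) • z 3, chi k • z 0, chi k • z 1]

theorem gv_r (k : ZMod 3) (z : Fin 4 → A) :
    gv (.r k) z = ![chi k • z 0, chi k • z 1, chi (-k) • z 2, chi (-k) • z 3] := rfl

theorem gv_sr (k : ZMod 3) (z : Fin 4 → A) :
    gv (.sr k) z = ![chi (-k) • z 2, chi (-k) • z 3, chi k • z 0, chi k • z 1] := rfl

@[simp] theorem gv_one (z : Fin 4 → A) : gv 1 z = z := by
  change gv (.r 0) z = z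
  rw [gv_r]; funext i; fin_cases i <;> simp

theorem gv_mul (g h : G) (z : Fin 4 → A) : gv (g * h) z = gv g (gv h z) := by
  cases g <;> cases h <;> funext i <;> fin_cases i <;>
    simp [gv_r, gv_sr, smul_smul, ← chi_add, sub_eq_add_neg, add_comm]

@[simp] theorem gv_inv_gv (g : G) (z : Fin 4 → A) : gv g⁻¹ (gv g z) = z := by
  rw [← gv_mul, inv_mul_cancel, gv_one]

@[simp] theorem gv_gv_inv (g : G) (z : Fin 4 → A) : gv g (gv g⁻¹ z) = z := by
  rw [← gv_mul, mul_inv_cancel, gv_one]

theorem gv_map {B : Type} [AddCommGroup B] [Module ℂ B] (f : A →ₗ[ℂ] B) (g : G) (z : Fin 4 → A)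
    (i : Fin 4) : f (gv g z i) = gv g (fun j => f (z j)) i := by
  cases g <;> fin_cases i <;> simp [gv_r, gv_sr]

/-- the action as a linear map -/
def gl (g : G) : (Fin 4 → A) →ₗ[ℂ] Fin 4 → A where
  toFun := gv g
  map_add' z w := by cases g <;> funext i <;> fin_cases i <;> simp [gv_r, gv_sr]
  map_smul' c z := by
    cases g <;> funext i <;> fin_cases i <;> simp [gv_r, gv_sr, smul_comm c]

@[simp] theorem gl_apply (g : G) (z : Fin 4 → A) : gl g z = gv g z := rfl

theorem gv_add (g : G) (z w : Fin 4 → A) : gv g (z + w) = gv g z + gv g w := (gl g).map_add z w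
theorem gv_sub (g : G) (z w : Fin 4 → A) : gv g (z - w) = gv g z - gv g w := (gl g).map_sub z w
theorem gv_neg (g : G) (z : Fin 4 → A) : gv g (-z) = -gv g z := (gl g).map_neg z
theorem gv_smul (g : G) (c : ℂ) (z : Fin 4 → A) : gv g (c • z) = c • gv g z := (gl g).map_smul c z
@[simp] theorem gv_zero (g : G) : gv g (0 : Fin 4 → A) = 0 := (gl g).map_zero

/-- the action on `V` as a continuous linear map -/
def gL (g : G) : V →L[ℂ] V := LinearMap.toContinuousLinearMap (gl g)

@[simp] theorem gL_apply (g : G) (z : V) : gL g z = gv g z := rfl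

theorem continuous_gv (g : G) : Continuous (gv g : V → V) := (gL g).continuous

theorem differentiable_gv (g : G) : Differentiable ℂ (gv g : V → V) := (gL g).differentiable

/-- the hermitian form, linear in the first variable -/
def eta (z w : V) : ℂ := ∑ i, z i * (starRingEnd ℂ) (w i)

theorem eta_gv (g : G) (z w : V) : eta (gv g z) (gv g w) = eta z w := by
  have h (k : ZMod 3) := chi_mul_neg k
  cases g with
  | r k =>
    simp only [eta, Fin.sum_univ_four, gv_r, Matrix.cons_val, smul_eq_mul, map_mul, conj_chi,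
      neg_neg]
    linear_combination (z 0 * (starRingEnd ℂ) (w 0) + z 1 * (starRingEnd ℂ) (w 1)
      + z 2 * (starRingEnd ℂ) (w 2) + z 3 * (starRingEnd ℂ) (w 3)) * h k
  | sr k =>
    simp only [eta, Fin.sum_univ_four, gv_sr, Matrix.cons_val, smul_eq_mul, map_mul, conj_chi,
      neg_neg]
    linear_combination (z 0 * (starRingEnd ℂ) (w 0) + z 1 * (starRingEnd ℂ) (w 1)
      + z 2 * (starRingEnd ℂ) (w 2) + z 3 * (starRingEnd ℂ) (w 3)) * h k

theorem eta_add_left (z z' w : V) : eta (z + z') w = eta z w + eta z' w := by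
  simp [eta, add_mul, Finset.sum_add_distrib]

theorem eta_smul_left (c : ℂ) (z w : V) : eta (c • z) w = c * eta z w := by
  simp [eta, Finset.mul_sum, mul_assoc]

end

end Pool.Agent.Lib.MP_d3d358_ag.Var
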