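import Mathlib

/-! Coherent lifts: a replacement for the universal cover in proofs of simple connectedness. -/

set_option autoImplicit false

namespace Pool.Agent.Lib.MP_d3d358_ag.Var

open unitInterval Set Topology Filter

variable {X Y : Type*} [TopologicalSpace X] [TopologicalSpace Y] {x₀ : X}

/-- A point together with a homotopy class of paths from the base point to it. -/
abbrev Cov (x₀ : X) : Type _ := Σ x : X, Path.Homotopic.Quotient x₀ x

/-- The class `v` is the class `u` followed by the path `γ`. -/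
def Tr (u v : Cov x₀) (γ : I → X) : Prop :=
  ∃ p : Path u.1 v.1, (∀ t, p t = γ t) ∧ v.2 = u.2.trans (.mk p)

/-- `al` is a coherent lift of `f` on `S`: along every path `β` in `S` the class at the end is the
class at the start followed by `f ∘ β`. -/
def CLift (f : Y → X) (S : Set Y) (al : Y → Cov x₀) : Prop :=
  ∀ ⦃a b : Y⦄ (β : Path a b), (∀ t, β t ∈ S) → Tr (al a) (al b) fun t => f (β t)

namespace Tr

variable {u v w : Cov x₀} {γ γ' : I → X}

theorem fst_left (h : Tr u v γ) : u.1 = γ 0 := by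
  obtain ⟨p, hp, -⟩ := h
  rw [← hp, p.source]

theorem fst_right (h : Tr u v γ) : v.1 = γ 1 := by
  obtain ⟨p, hp, -⟩ := h
  rw [← hp, p.target]

theorem congr (h : Tr u v γ) (e : ∀ t, γ t = γ' t) : Tr u v γ' := by
  rwa [← funext e]

theorem unique (h : Tr u v γ) (h' : Tr u w γ) : v = w := by
  have e : v.1 = w.1 := h.fst_right.trans h'.fst_right.symm
  obtain ⟨y, c⟩ := v
  obtain ⟨z, d⟩ := w
  obtain rfl : y = z := e
  obtain ⟨p, hp, hc⟩ := h
  obtain ⟨p', hp', hd⟩ := h'
  obtain rfl : p = p' := Path.ext (funext fun t => (hp t).trans (hp' t).symm)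
  exact congrArg _ (hc.trans hd.symm)

theorem exists_of (hγ : Continuous γ) (h : u.1 = γ 0) : ∃ v, Tr u v γ :=
  ⟨⟨γ 1, u.2.trans (.mk ⟨⟨γ, hγ⟩, h.symm, rfl⟩)⟩, ⟨⟨γ, hγ⟩, h.symm, rfl⟩, fun _ => rfl, rfl⟩

theorem const (u : Cov x₀) : Tr u u fun _ => u.1 :=
  ⟨Path.refl _, fun _ => rfl, by simp⟩

theorem symm (h : Tr u v γ) : Tr v u fun t => γ (σ t) := by
  obtain ⟨p, hp, hc⟩ := h
  exact ⟨p.symm, fun t => hp _, by simp [hc]⟩

theorem trans {f : Y → X} {a b c : Y} {β : Path a b} {β' : Path b c}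
    (h : Tr u v fun t => f (β t)) (h' : Tr v w fun t => f (β' t)) :
    Tr u w fun t => f (β.trans β' t) := by
  obtain ⟨p, hp, hc⟩ := h
  obtain ⟨p', hp', hd⟩ := h'
  refine ⟨p.trans p', fun t => ?_, by simp [hc, hd]⟩
  simp only [Path.trans_apply]
  split_ifs
  exacts [hp _, hp' _]

theorem of_homotopic {x y : X} {p q : Path x y} (H : p.Homotopic q) (h : Tr u v p) : Tr u v q := by
  have e : u.1 = x := h.fst_left.trans p.source
  have e' : v.1 = y := h.fst_right.trans p.target
  subst e e'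
  obtain ⟨p', hp', hc⟩ := h
  obtain rfl : p' = p := Path.ext (funext hp')
  exact ⟨q, fun _ => rfl, by rw [hc, Path.Homotopic.Quotient.eq.2 H]⟩

/-- In a simply connected set the transport does not depend on the path. -/
theorem of_simplyConnected {f : Y → X} {S : Set Y} (hS : IsSimplyConnected S)
    (hf : ContinuousOn f S) {a b : Y} {β β' : Path a b} (hβ : ∀ t, β t ∈ S) (hβ' : ∀ t, β' t ∈ S)
    (h : Tr u v fun t => f (β t)) : Tr u v fun t => f (β' t) := by
  have := hS.simplyConnectedSpace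
  have ha : a ∈ S := β.source ▸ hβ 0
  have hb : b ∈ S := β.target ▸ hβ 1
  let l : ∀ δ : Path a b, (∀ t, δ t ∈ S) → Path (⟨a, ha⟩ : S) ⟨b, hb⟩ := fun δ hδ =>
    ⟨⟨fun t => ⟨δ t, hδ t⟩, by fun_prop⟩, Subtype.ext δ.source, Subtype.ext δ.target⟩
  exact of_homotopic ((SimplyConnectedSpace.paths_homotopic (l β hβ) (l β' hβ')).map
    ⟨S.domRestrict f, hf.domRestrict⟩) h

theorem subpath {x y : X} (g : Path x y) {r s t : I} (h : Tr u v (g.subpath r s))
    (h' : Tr v w (g.subpath s t)) : Tr u w (g.subpath r t) :=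
  of_homotopic ⟨Path.Homotopy.subpathTransSubpath g r s t⟩ (trans (f := id) h h')

theorem eq_of_const {x : X} (h : Tr u v fun _ => x) : u = v :=
  ((const u).congr fun _ => h.fst_left).unique h

end Tr

namespace CLift

variable {f : Y → X} {S T : Set Y} {al al' : Y → Cov x₀}

theorem mono (h : CLift f S al) (hT : T ⊆ S) : CLift f T al := fun _ _ β hβ => h β fun t => hT (hβ t)

theorem fst (h : CLift f S al) {a : Y} (ha : a ∈ S) : (al a).1 = f a :=
  (h (Path.refl a) fun _ => ha).fst_left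

theorem congr (h : CLift f S al) (e : EqOn al al' S) : CLift f S al' := fun a b β hβ => by
  rw [← e (β.source ▸ hβ 0 : a ∈ S), ← e (β.target ▸ hβ 1 : b ∈ S)]
  exact h β hβ

theorem congr_fun (h : CLift f S al) {f' : Y → X} (e : EqOn f f' S) : CLift f' S al :=
  fun _ _ β hβ => (h β hβ).congr fun t => e (hβ t)

/-- Pull back along a map that is continuous on `T`. -/
theorem comp {Z : Type*} [TopologicalSpace Z] (h : CLift f S al) {g : Z → Y} {T : Set Z}
    (hg : ContinuousOn g T) (hT : MapsTo g T S) : CLift (f ∘ g) T (al ∘ g) := fun _ _ β hβ =>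
  h ⟨⟨fun t => g (β t), hg.comp_continuous β.continuous hβ⟩, by simp, by simp⟩ fun t => hT (hβ t)

theorem eq_of_joinedIn (h : CLift f S al) (h' : CLift f S al') {a b : Y} (hab : JoinedIn S a b)
    (e : al a = al' a) : al b = al' b := by
  obtain ⟨β, hβ⟩ := hab
  exact (h β hβ).unique (e ▸ h' β hβ)

/-- Uniqueness on a path connected set. -/
theorem eqOn (h : CLift f S al) (h' : CLift f S al') (hS : IsPathConnected S) {a : Y} (ha : a ∈ S)
    (e : al a = al' a) : EqOn al al' S := fun b hb =>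
  h.eq_of_joinedIn h' (hS.joinedIn a ha b hb) e

/-- Coherence is a local property. -/
theorem of_local (hf : ContinuousOn f S) (h : ∀ a ∈ S, ∃ O ∈ 𝓝[S] a, CLift f O al) :
    CLift f S al := fun a b β hβ => by
  let g : Path (f a) (f b) :=
    ⟨⟨fun t => f (β t), hf.comp_continuous β.continuous hβ⟩, by simp, by simp⟩
  have key : Tr (al (β 0)) (al (β 1)) (g.subpath 0 1) := by
    refine PreconnectedSpace.induction₂'
      (fun s t : I => Tr (al (β s)) (al (β t)) (g.subpath s t)) (fun s => ?_)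
      ⟨fun _ _ _ h1 h2 => h1.subpath g h2⟩ 0 1
    obtain ⟨O, hO, hc⟩ := h _ (hβ s)
    have h1 : β ⁻¹' O ∈ 𝓝 s :=
      (tendsto_nhdsWithin_iff.2 ⟨β.continuous.tendsto s, .of_forall hβ⟩ :) hO
    filter_upwards [Set.ordConnectedComponent_mem_nhds.2 h1] with t ht
    have h2 : ∀ r, β.subpath s t r ∈ O := fun r => by
      obtain ⟨r', hr', e⟩ := (β.range_subpath s t).subset (mem_range_self r)
      exact e ▸ mem_ordConnectedComponent.1 ht hr'
    have h3 : ∀ r, β.subpath t s r ∈ O := fun r => by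
      obtain ⟨r', hr', e⟩ := (β.range_subpath t s).subset (mem_range_self r)
      exact e ▸ mem_ordConnectedComponent.1 ht (uIcc_comm s t ▸ hr')
    exact ⟨hc _ h2, hc _ h3⟩
  rw [β.source, β.target] at key
  exact key.congr fun t => by simp [g]

/-- Coherent lifts that agree on overlaps glue. -/
theorem glue {ι : Type*} {O : ι → Set Y} {bl : ι → Y → Cov x₀} (hf : ContinuousOn f S)
    (hc : ∀ i, CLift f (O i) (bl i)) (he : ∀ i j, EqOn (bl i) (bl j) (O i ∩ O j))
    (hS : ∀ a ∈ S, ∃ i, O i ∈ 𝓝[S] a) :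
    ∃ al : Y → Cov x₀, CLift f S al ∧ ∀ i, EqOn al (bl i) (O i) := by
  classical
  let al : Y → Cov x₀ := fun a => if h : ∃ i, a ∈ O i then bl h.choose a else ⟨x₀, .refl x₀⟩
  have e : ∀ i, EqOn al (bl i) (O i) := fun i a ha => by
    have h : ∃ i, a ∈ O i := ⟨i, ha⟩
    simp only [al, dif_pos h]
    exact he _ _ ⟨h.choose_spec, ha⟩
  refine ⟨al, of_local hf fun a ha => ?_, e⟩
  obtain ⟨i, hi⟩ := hS a ha
  exact ⟨_, hi, (hc i).congr (e i).symm⟩

/-- A global coherent lift of the identity makes the space simply connected. -/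
theorem simplyConnectedSpace {al : X → Cov x₀} (h : CLift id univ al) : SimplyConnectedSpace X := by
  have j : ∀ x, Joined x₀ x := fun x => by
    obtain ⟨p, -⟩ := Path.Homotopic.Quotient.mk_surjective (al x).2
    exact ⟨p.cast rfl (h.fst (mem_univ x)).symm⟩
  refine simply_connected_iff_loops_nullhomotopic.2
    ⟨⟨⟨x₀⟩, fun x y => (j x).symm.trans (j y)⟩, fun x γ => ?_⟩
  have h1 := h γ fun _ => mem_univ _
  have e : (al x).1 = x := h.fst (mem_univ x)
  generalize al x = u at h1 e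
  subst e
  obtain ⟨p, hp, hc⟩ := h1
  obtain rfl : p = γ := Path.ext (funext hp)
  have h2 := congrArg u.2.symm.trans hc
  rw [← Path.Homotopic.Quotient.trans_assoc, Path.Homotopic.Quotient.symm_trans,
    Path.Homotopic.Quotient.refl_trans] at h2
  exact Path.Homotopic.Quotient.eq.1 h2.symm

end CLift

/-- Existence on a simply connected set, with a given value at one point. -/
theorem exists_coh {f : Y → X} {S : Set Y} (hS : IsSimplyConnected S) (hf : ContinuousOn f S)
    {c : Y} (hc : c ∈ S) {u : Cov x₀} (hu : u.1 = f c) :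
    ∃ al : Y → Cov x₀, CLift f S al ∧ al c = u := by
  have h1 : ∀ a, ∃ v : Cov x₀, a ∈ S → ∀ β : Path c a, (∀ t, β t ∈ S) →
      Tr u v fun t => f (β t) := fun a => by
    by_cases ha : a ∈ S
    · obtain ⟨β, hβ⟩ := hS.isPathConnected.joinedIn c hc a ha
      obtain ⟨v, hv⟩ := Tr.exists_of (u := u) (hf.comp_continuous β.continuous hβ) (by simp [hu])
      exact ⟨v, fun _ β' hβ' => Tr.of_simplyConnected hS hf hβ hβ' hv⟩
    · exact ⟨u, fun h => absurd h ha⟩
  choose al hal using h1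
  refine ⟨al, fun a b β hβ => ?_, 
    (Tr.eq_of_const (x := f c) (hal c hc (Path.refl c) fun _ => hc)).symm⟩
  have ha : a ∈ S := β.source ▸ hβ 0
  have hb : b ∈ S := β.target ▸ hβ 1
  obtain ⟨δ, hδ⟩ := hS.isPathConnected.joinedIn c hc a ha
  obtain ⟨w, hw⟩ := Tr.exists_of (u := al a) (hf.comp_continuous β.continuous hβ)
    (by simpa using (hal a ha δ hδ).fst_right)
  have h2 : ∀ t, δ.trans β t ∈ S := fun t => by
    rcases (δ.trans_range β).subset (mem_range_self t) with ⟨r, e⟩ | ⟨r, e⟩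
    exacts [e ▸ hδ r, e ▸ hβ r]
  rw [← ((hal a ha δ hδ).trans hw).unique (hal b hb _ h2)]
  exact hw

/-- Existence on a star shaped set. -/
theorem exists_coh_star {E : Type*} [AddCommGroup E] [Module ℝ E] [TopologicalSpace E]
    [ContinuousAdd E] [ContinuousSMul ℝ E] {f : E → X} {S : Set E} {z : E} (hS : StarConvex ℝ z S)
    (hf : ContinuousOn f S) {c : E} (hc : c ∈ S) {u : Cov x₀} (hu : u.1 = f c) :
    ∃ al : E → Cov x₀, CLift f S al ∧ al c = u :=
  have := hS.contractibleSpace ⟨c, hc⟩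
  exists_coh (inferInstanceAs (SimplyConnectedSpace S)) hf hc hu

/-- Descent and extension. A coherent lift of `q` on the open set `S` that is constant on the fibres
of `q` makes `X` simply connected, when `q` is open on `S` with dense image and `X` has small
simply connected open sets that meet the image in a connected set. -/
theorem simplyConnectedSpace_of_descent [LocallyPathConnectedSpace Y] {q : Y → X} {S : Set Y}
    (hS : IsOpen S) (hq : ContinuousOn q S) (ho : ∀ a ∈ S, ∀ B ∈ 𝓝 a, q '' B ∈ 𝓝 (q a))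
    {al : Y → Cov x₀} (hal : CLift q S al) (hi : ∀ a ∈ S, ∀ b ∈ S, q a = q b → al a = al b)
    (hd : Dense (q '' S))
    (hb : ∀ x : X, ∀ W ∈ 𝓝 x, ∃ O, IsOpen O ∧ x ∈ O ∧ O ⊆ W ∧ IsSimplyConnected O ∧
      IsPreconnected (O ∩ q '' S)) : SimplyConnectedSpace X := by
  -- on every good open set there is a lift that agrees with `al`
  have h1 : ∀ O : Set X, IsOpen O → IsSimplyConnected O → IsPreconnected (O ∩ q '' S) →
      ∃ bl : X → Cov x₀, CLift id O bl ∧ ∀ a ∈ S, q a ∈ O → bl (q a) = al a := fun O hO hs hp => by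
    obtain ⟨_, ⟨c, hc, rfl⟩, hcO⟩ := hd.exists_mem_open hO hs.nonempty
    obtain ⟨bl, hbl, e⟩ := exists_coh (f := id) hs continuousOn_id hcO (u := al c) (hal.fst hc)
    refine ⟨bl, hbl, fun a ha haO => ?_⟩
    let P : X → Prop := fun y => ∀ b ∈ S, q b = y → bl y = al b
    have key : P (q c) ↔ P (q a) := by
      refine hp.induction₂' (fun y z => P y ↔ P z) ?_ (fun _ _ _ _ _ _ h h' => h.trans h')
        ⟨hcO, c, hc, rfl⟩ ⟨haO, a, ha, rfl⟩
      rintro _ ⟨hbO, b, hb, rfl⟩
      have hN : S ∩ q ⁻¹' O ∈ 𝓝 b := inter_mem (hS.mem_nhds hb)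
        ((hq.continuousAt (hS.mem_nhds hb)).preimage_mem_nhds (hO.mem_nhds hbO))
      obtain ⟨B, ⟨hB, hBp⟩, hBs⟩ := (path_connected_basis b).mem_iff.1 hN
      have hBS : B ⊆ S := fun z hz => (hBs hz).1
      have c1 : CLift q B (bl ∘ q) := hbl.comp (hq.mono hBS) fun z hz => (hBs hz).2
      have step : ∀ z ∈ B, ∀ z' ∈ B, P (q z) → P (q z') := fun z hz z' hz' h w hw e' =>
        (c1.eqOn (hal.mono hBS) hBp hz (h z (hBS hz) rfl) hz').trans (hi _ (hBS hz') _ hw e'.symm)
      filter_upwards [mem_nhdsWithin_of_mem_nhds (ho b hb B hB)]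
      rintro _ ⟨z, hz, rfl⟩
      have hb' := mem_of_mem_nhds hB
      exact ⟨⟨step b hb' z hz, step z hz b hb'⟩, step z hz b hb', step b hb' z hz⟩
    exact key.1 (fun b hb e' => e.trans (hi _ hc _ hb e'.symm)) a ha rfl
  let ι := {O : Set X // IsOpen O ∧ IsSimplyConnected O ∧ IsPreconnected (O ∩ q '' S)}
  choose bl hbl he using fun O : ι => h1 O.1 O.2.1 O.2.2.1 O.2.2.2
  obtain ⟨cl, hcl, -⟩ := CLift.glue (S := univ) (O := fun O : ι => O.1) continuousOn_id hbl
    (fun i j y hy => by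
      obtain ⟨O, hO, hyO, hs, hsc, -⟩ := hb y _ ((i.2.1.inter j.2.1).mem_nhds hy)
      obtain ⟨_, ⟨a, ha, rfl⟩, haO⟩ := hd.exists_mem_open hO ⟨y, hyO⟩
      exact ((hbl i).mono fun z hz => (hs hz).1).eqOn ((hbl j).mono fun z hz => (hs hz).2)
        hsc.isPathConnected haO ((he i a ha (hs haO).1).trans (he j a ha (hs haO).2).symm) hyO)
    fun y _ => by
      obtain ⟨O, hO, hyO, -, hsc, hp⟩ := hb y univ univ_mem
      exact ⟨⟨O, hO, hsc, hp⟩, mem_nhdsWithin_of_mem_nhds (hO.mem_nhds hyO)⟩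
  exact hcl.simplyConnectedSpace

end Pool.Agent.Lib.MP_d3d358_ag.Var
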