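import Pool.Agent.Lib.MP_d3d358_ag.Var.Grp
import Pool.Agent.Lib.MP_d3d358_ag.Var.Coh

/-! The complement of the mirrors, and invariance of a coherent lift under the group generated by
the reflections. -/

set_option autoImplicit false

namespace Pool.Agent.Lib.MP_d3d358_ag.Var

open Set Topology Filter unitInterval

/-- the points of `V` with trivial stabiliser in `Λ ⋊ G` -/
def Free (L : AddSubgroup V) : Set V := {z | ∀ g : G, z - gv g z ∈ L → g = 1}

variable {L : AddSubgroup V}

theorem isOpen_free [DiscreteTopology L] : IsOpen (Free L) := by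
  have h : Free L = ⋂ g ∈ {g : G | g ≠ 1}, (fun z => z - gv g z) ⁻¹' (L : Set V)ᶜ := by
    ext z
    simp only [Free, mem_ofPred_eq, mem_iInter, mem_preimage, mem_compl_iff, SetLike.mem_coe]
    exact forall_congr' fun g => not_imp_not.symm
  rw [h]
  exact (toFinite _).isOpen_biInter fun g _ => L.isClosed_of_discrete.isOpen_compl.preimage
    (continuous_id.sub (continuous_gv g))

theorem free_act (hG : ∀ g, ∀ l ∈ L, gv g l ∈ L) {z : V} (hz : z ∈ Free L) (g : G) {l : V}
    (hl : l ∈ L) : gv g z + l ∈ Free L := fun h hh => by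
  have h1 : gv g z - gv h (gv g z) ∈ L := by
    have := L.add_mem (L.sub_mem hh hl) (hG h l hl)
    rw [gv_add] at this
    convert this using 1
    abel
  have h2 := hG g⁻¹ _ h1
  rw [gv_sub, gv_inv_gv, ← gv_mul, ← gv_mul] at h2
  have h3 := hz _ h2
  rwa [mul_assoc, inv_mul_eq_one, eq_comm, mul_eq_right] at h3

theorem eq_one_of_fix {k : ZMod 3} {n : V} (hn : gv (.sr k) n = -n) (h0 : n ≠ 0) {g : G}
    (hg : gv g n = n) : g = 1 := by
  have rot : ∀ (j : ZMod 3) (c : ℂ), gv (.r j) n = c • n → chi j = c ∨ chi (-j) = c := by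
    intro j c h
    by_contra! hc
    refine h0 (funext fun i => ?_)
    have := congrFun h i
    fin_cases i <;> simp [gv_r, hc.1, hc.2] at this <;> simpa using this
  cases g with
  | r j =>
    have : j = 0 := by
      rcases rot j 1 (by rw [hg, one_smul]) with h | h
      exacts [chi_eq_one.1 h, neg_eq_zero.1 (chi_eq_one.1 h)]
    rw [this]; rfl
  | sr j =>
    have h1 : gv (.r (j - k)) n = (-1 : ℂ) • n := by
      rw [← DihedralGroup.sr_mul_sr, gv_mul, hg, hn, neg_one_smul]
    have h2 : ∀ i, chi i ≠ -1 := fun i h => by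
      have := chi_cube i
      rw [h] at this
      norm_num at this
    exact ((rot _ _ h1).elim (h2 _) (h2 _)).elim

/-- A small punctured disc in a direction normal to a mirror has only free points. -/
theorem eventually_free [DiscreteTopology L] {k : ZMod 3} {n : V} (hn : gv (.sr k) n = -n)
    (h0 : n ≠ 0) (z : V) : ∀ᶠ c : ℂ in 𝓝[≠] 0, z + c • n ∈ Free L := by
  refine eventually_all.2 fun g => ?_
  let φ : ℂ → V := fun c => z + c • n - gv g (z + c • n)
  have hφ : Continuous φ := by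
    have := continuous_gv g
    fun_prop
  have h1 : ∀ᶠ c in 𝓝 (0 : ℂ), φ c ∈ L → φ c = φ 0 := by
    have h2 : (L : Set V)ᶜ ∈ 𝓝[≠] (φ 0) := by
      rw [← disjoint_principal_right]
      exact isClosed_and_discrete_iff.1 ⟨L.isClosed_of_discrete, ⟨inferInstance⟩⟩ _
    filter_upwards [hφ.continuousAt.eventually (eventually_nhdsWithin_iff.1 h2)] with c hc hL
    exact by_contra fun e => hc e hL
  filter_upwards [nhdsWithin_le_nhds h1, self_mem_nhdsWithin] with c hc hc0 hL
  have h3 := hc hL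
  simp only [φ, zero_smul, add_zero, gv_add, gv_smul] at h3
  have h4 : c • (n - gv g n) = 0 := by
    rw [smul_sub]
    linear_combination (exp := 1) h3
  exact eq_one_of_fix hn h0 (sub_eq_zero.1 ((smul_eq_zero.1 h4).resolve_left hc0)).symm

variable {X : Type*} [TopologicalSpace X] {x₀ : X}

/-- If `q` tends to a point with small simply connected neighbourhoods along a punctured disc and is
even on it, then so is a coherent lift at some point of the disc. -/
theorem CLift.exists_even {S : Set ℂ} {q : ℂ → X} {al : ℂ → Cov x₀} (hal : CLift q S al)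
    (hS : S ∈ 𝓝[≠] 0) (hq : ∀ c ∈ S, q (-c) = q c) {O : Set X} (hO : IsSimplyConnected O)
    (hl : ∀ᶠ c in 𝓝[≠] 0, q c ∈ O) : ∃ c ∈ S, al (-c) = al c := by
  obtain ⟨ε, hε, h⟩ := Metric.mem_nhdsWithin_iff.1 (inter_mem hS hl)
  let ρ : ℝ := ε / 2
  have hρ : 0 < ρ := half_pos hε
  let β : Path (ρ : ℂ) (-ρ) :=
    ⟨⟨fun t => circleMap 0 ρ (Real.pi * t), by fun_prop⟩, by simp [circleMap],
      by simp [circleMap]⟩
  have hβ : ∀ t, β t ∈ S ∧ q (β t) ∈ O := fun t => h ⟨by
    change dist (circleMap 0 ρ _) 0 < ε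
    rw [dist_zero_right, norm_circleMap_zero, abs_of_pos hρ]
    exact half_lt_self hε, circleMap_ne_center hρ.ne'⟩
  have hρS : (ρ : ℂ) ∈ S := β.source ▸ (hβ 0).1
  obtain ⟨p, hp, hc⟩ := hal β fun t => (hβ t).1
  have e : (al (-ρ)).1 = (al ρ).1 := by
    rw [hal.fst hρS, hal.fst (β.target ▸ (hβ 1).1), hq _ hρS]
  have hpO : ∀ t, p t ∈ O := fun t => hp t ▸ (hβ t).2
  have h1 : Tr (al ρ) (al (-ρ)) fun t => id (p.cast rfl e.symm t) := ⟨p, fun _ => rfl, hc⟩
  have h2 := Tr.of_simplyConnected hO continuousOn_id (β' := Path.refl _) hpO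
    (fun _ => p.source ▸ hpO 0) h1
  exact ⟨ρ, hρS, (Tr.eq_of_const (x := (al ρ).1) h2).symm⟩

/-- A coherent lift on the free points of an invariant map is invariant under `Λ ⋊ G`. -/
theorem CLift.invariant [DiscreteTopology L] (hG : ∀ g, ∀ l ∈ L, gv g l ∈ L)
    (hgen : L ≤ AddSubgroup.closure {l | l ∈ L ∧ ∃ k, gv (.sr k) l = -l})
    (hp : IsPathConnected (Free L)) {q : V → X} {al : V → Cov x₀} (hal : CLift q (Free L) al)
    (hq : ∀ z ∈ Free L, ∀ g, ∀ l ∈ L, q (gv g z + l) = q z)
    (hlim : ∀ z n : V, (∀ᶠ c : ℂ in 𝓝[≠] 0, z + c • n ∈ Free L) →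
      ∃ O, IsSimplyConnected O ∧ ∀ᶠ c : ℂ in 𝓝[≠] 0, q (z + c • n) ∈ O)
    {z : V} (hz : z ∈ Free L) (g : G) {l : V} (hl : l ∈ L) : al (gv g z + l) = al z := by
  have one : ∀ g, ∀ l ∈ L, ∀ a ∈ Free L, al (gv g a + l) = al a →
      ∀ z ∈ Free L, al (gv g z + l) = al z := fun g l hl a ha e =>
    ((hal.comp (g := fun z => gv g z + l) ((continuous_gv g).add continuous_const).continuousOn
      fun z hz => free_act hG hz g hl).congr_fun fun z hz => hq z hz g l hl).eqOn hal hp ha e
  have refl : ∀ k, ∀ l ∈ L, gv (.sr k) l = -l → ∀ z ∈ Free L, al (gv (.sr k) z + l) = al z := by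
    intro k l hl hkl
    let n : V := ![1, 0, -chi k, 0]
    have hn : gv (.sr k) n = -n := by
      funext i
      fin_cases i <;> simp [n, gv_sr]
    have h0 : n ≠ 0 := fun h => by simpa [n] using congrFun h 0
    let w : V := (1 / 2 : ℂ) • l
    have e : ∀ c : ℂ, gv (.sr k) (w + c • n) + l = w + (-c) • n := fun c => by
      rw [gv_add, gv_smul, gv_smul, hkl, hn]
      module
    have hf := eventually_free (L := L) hn h0 w
    obtain ⟨O, hO, hO'⟩ := hlim w n hf
    obtain ⟨c, hc, h⟩ := (hal.comp (g := fun c : ℂ => w + c • n)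
      (T := {c | w + c • n ∈ Free L}) (by fun_prop) fun _ h => h).exists_even hf
      (fun c hc => (congrArg q (e c)).symm.trans (hq _ hc _ l hl)) hO hO'
    exact one _ l hl _ hc ((congrArg al (e c)).trans h)
  have sr : ∀ k, ∀ z ∈ Free L, al (gv (.sr k) z) = al z := fun k z hz => by
    simpa using refl k 0 L.zero_mem (by simp) z hz
  have fr : ∀ g, ∀ z ∈ Free L, gv g z ∈ Free L := fun g z hz => by
    simpa using free_act hG hz g L.zero_mem
  have lin : ∀ g, ∀ z ∈ Free L, al (gv g z) = al z := fun g z hz => by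
    cases g with
    | sr k => exact sr k z hz
    | r k =>
      have : DihedralGroup.r k = .sr 0 * .sr k := by simp
      rw [this, gv_mul, sr _ _ (fr _ _ hz), sr _ _ hz]
  have tf : ∀ l ∈ L, ∀ z ∈ Free L, z + l ∈ Free L := fun l hl z hz => by
    simpa using free_act hG hz 1 hl
  have tl : ∀ l ∈ AddSubgroup.closure {l | l ∈ L ∧ ∃ k, gv (.sr k) l = -l},
      l ∈ L ∧ ∀ z ∈ Free L, al (z + l) = al z := fun l hl => by
    induction hl using AddSubgroup.closure_induction with
    | mem l hl =>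
      obtain ⟨hl, k, hk⟩ := hl
      refine ⟨hl, fun z hz => ?_⟩
      have := refl k l hl hk _ (fr (DihedralGroup.sr k)⁻¹ z hz)
      rwa [gv_gv_inv, lin _ _ hz] at this
    | zero => exact ⟨L.zero_mem, fun z _ => by rw [add_zero]⟩
    | add l m _ _ hl hm => exact ⟨L.add_mem hl.1 hm.1, fun z hz => by
        rw [← add_assoc, hm.2 _ (tf l hl.1 z hz), hl.2 z hz]⟩
    | neg l _ hl => exact ⟨L.neg_mem hl.1, fun z hz => by
        rw [← hl.2 _ (tf _ (L.neg_mem hl.1) z hz), neg_add_cancel_right]⟩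
  rw [(tl l (hgen hl)).2 _ (fr g z hz), lin g z hz]

end Pool.Agent.Lib.MP_d3d358_ag.Var
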