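import Pool.Agent.Lib.MP_d3d358_ag.Var.Mod
import Pool.Agent.Lib.MP_d3d358_ag.Var.Refl
import Pool.Agent.Lib.MP_d3d358_ag.G.Kum
import Pool.Agent.Lib.MP_d3d358_ag.G.Stmt
import Pool.Agent.Lib.MP_cd184e_ag.B.Ring
import Pool.Agent.Lib.MP_9ff3e7_ag.F.XPts

/-! The theta ring of `N = V / Λ`, its local rings, and the generalised Kummer fourfold `X`. -/

set_option autoImplicit false

namespace Pool.Agent.Lib.MP_d3d358_ag.Var

open Pool.Agent.Lib.MP_d3d358_ag.G (Sf lat3 Cx)
open Pool.Agent.Lib.MP_d3d358_ag.Th (Theta aut)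
open Pool.Agent.Lib.MP_cd184e_ag.T (ProjVar)
open Pool.Agent.Lib.MP_cd184e_ag.B (hring grade gen lin)
open Pool.Agent.Lib.MP_9ff3e7_ag.F (Pt Fn)

noncomputable section

/-- invariant entire functions -/
def invE : Submodule ℂ Ent where
  carrier := {F | ∀ g : G, g • F = F}
  zero_mem' g := smul_zero g
  add_mem' hF hE g := by rw [smul_add, hF g, hE g]
  smul_mem' c F hF g := by rw [smul_comm, hF g]

/-- alternating entire functions -/
def altE : Submodule ℂ Ent where
  carrier := {F | ∀ g : G, g • F = sg g • F}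
  zero_mem' g := by rw [smul_zero, smul_zero]
  add_mem' hF hE g := by rw [smul_add, hF g, hE g, smul_add]
  smul_mem' c F hF g := by rw [smul_comm, hF g, smul_comm]

variable (A : Sf)

/-- the lattice -/
def Lam : AddSubgroup V := (lat3 A.toLat).L.toAddSubgroup

theorem mem_Lam {l : V} : l ∈ Lam A ↔ l ∈ (lat3 A.toLat).L := Iff.rfl

theorem gv_mem_Lam (g : G) {l : V} (hl : l ∈ Lam A) : gv g l ∈ Lam A := A.cr.act_mem g l hl

/-- theta functions of degree `j` -/
def R (j : ℕ) : Submodule ℂ Ent where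
  carrier := {F | ∀ l ∈ Lam A, ∀ z, F.1 (z + l) = aut (j * A.k) l z * F.1 z}
  zero_mem' _ _ _ := (mul_zero _).symm
  add_mem' hF hE l hl z := by rw [Ent.add_apply, hF l hl, hE l hl, Ent.add_apply, mul_add]
  smul_mem' c F hF l hl z := by rw [Ent.csmul_apply, hF l hl, Ent.csmul_apply, mul_left_comm]

variable {A}

theorem mem_R {j : ℕ} {F : Ent} : F ∈ R A j ↔ F.1 ∈ Theta (lat3 A.toLat) (j * A.k) :=
  ⟨fun h => ⟨F.diff, h⟩, fun h => h.2⟩

theorem mul_mem_R {i j : ℕ} {F E : Ent} (hF : F ∈ R A i) (hE : E ∈ R A j) :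
    F * E ∈ R A (i + j) := fun l hl z => by
  rw [Ent.mul_apply, hF l hl, hE l hl, Nat.cast_add, add_mul, Th.aut_add, Ent.mul_apply]; ring

theorem const_mem_R (c : ℂ) : algebraMap ℂ Ent c ∈ R A 0 := fun l _ z => by
  simp [Th.aut_zero]

theorem one_mem_R : (1 : Ent) ∈ R A 0 := fun l _ z => by simp [Th.aut_zero]

theorem pow_mem_R {i : ℕ} {F : Ent} (hF : F ∈ R A i) (m : ℕ) : F ^ m ∈ R A (m * i) := by
  induction m with
  | zero => simpa using one_mem_R
  | succ m ih => rw [pow_succ, Nat.succ_mul]; exact mul_mem_R ih hF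

theorem smul_mem_R {j : ℕ} {F : Ent} (hF : F ∈ R A j) (g : G) : g • F ∈ R A j := fun l hl z => by
  rw [Ent.smul_apply, Ent.smul_apply, gv_add, hF _ (gv_mem_Lam A _ hl)]
  exact congrArg (· * _) (Th.aut_act A.cr _ g⁻¹ l z)

variable (A)

/-- quotients of theta functions of the same degree whose denominator has no zero on `B` -/
def quo (B : Set V) : Subalgebra ℂ M where
  carrier := {x | ∃ j, ∃ F ∈ R A j, ∃ E ∈ R A j, E ≠ 0 ∧ (∀ b ∈ B, E.1 b ≠ 0) ∧ x = emb F / emb E}
  mul_mem' := by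
    rintro _ _ ⟨i, F, hF, E, hE, h0, h, rfl⟩ ⟨j, F', hF', E', hE', h0', h', rfl⟩
    exact ⟨i + j, _, mul_mem_R hF hF', _, mul_mem_R hE hE', mul_ne_zero h0 h0',
      fun b hb => mul_ne_zero (h b hb) (h' b hb), by rw [map_mul, map_mul, div_mul_div_comm]⟩
  add_mem' := by
    rintro _ _ ⟨i, F, hF, E, hE, h0, h, rfl⟩ ⟨j, F', hF', E', hE', h0', h', rfl⟩
    exact ⟨i + j, _, add_mem (mul_mem_R hF hE') (mul_mem_R hE hF'), _, mul_mem_R hE hE',
      mul_ne_zero h0 h0', fun b hb => mul_ne_zero (h b hb) (h' b hb), by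
      rw [map_add, map_mul, map_mul, map_mul, div_add_div _ _ (emb_ne h0) (emb_ne h0')]⟩
  algebraMap_mem' c := ⟨0, _, const_mem_R c, 1, one_mem_R, one_ne_zero, fun _ _ => one_ne_zero,
    by simp⟩

/-- the function field of `N` -/
def KN : Subalgebra ℂ M := quo A ∅

/-- the local ring of `N` at `b` -/
def locN (b : V) : Subalgebra ℂ M := quo A {b}

/-- the semilocal ring of `N` along the orbit of `b` -/
def Ot (b : V) : Subalgebra ℂ M := quo A (Set.range fun g : G => gv g b)

/-- invariant meromorphic functions -/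
def invM : Subalgebra ℂ M where
  carrier := {x | ∀ g : G, g • x = x}
  mul_mem' hx hy g := by rw [smul_mul', hx g, hy g]
  add_mem' hx hy g := by rw [smul_add, hx g, hy g]
  algebraMap_mem' c g := smul_const g c

/-- the local ring of `N / G` at the orbit of `b` -/
def Ow (b : V) : Subalgebra ℂ M := Ot A b ⊓ invM

variable {A}

theorem quo_anti {B B' : Set V} (h : B ⊆ B') : quo A B' ≤ quo A B := by
  rintro _ ⟨i, F, hF, E, hE, h0, k, rfl⟩
  exact ⟨i, F, hF, E, hE, h0, fun b hb => k b (h hb), rfl⟩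

theorem quo_le_Loc {B : Set V} {b : V} (hb : b ∈ B) : quo A B ≤ Loc b := by
  rintro _ ⟨i, F, -, E, -, -, k, rfl⟩
  exact div_mem_Loc F (k b hb)

theorem Ot_le_Loc (b : V) (g : G) : Ot A b ≤ Loc (gv g b) := quo_le_Loc ⟨g, rfl⟩

theorem Ot_le_Loc' (b : V) : Ot A b ≤ Loc b := quo_le_Loc ⟨1, gv_one b⟩

theorem smul_mem_Ot {b : V} {x : M} (hx : x ∈ Ot A b) (g : G) : g • x ∈ Ot A b := by
  obtain ⟨i, F, hF, E, hE, h0, k, rfl⟩ := hx
  refine ⟨i, _, smul_mem_R hF g, _, smul_mem_R hE g, fun e => h0 ?_, ?_, by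
    rw [smul_div₀', smul_emb, smul_emb]⟩
  · rw [← inv_smul_smul g E, e, smul_zero]
  · rintro _ ⟨h, rfl⟩
    rw [Ent.smul_apply, ← gv_mul]
    exact k _ ⟨_, rfl⟩

instance actOt (b : V) : MulSemiringAction G (Ot A b) where
  smul g x := ⟨g • x.1, smul_mem_Ot x.2 g⟩
  one_smul x := Subtype.ext (one_smul G x.1)
  mul_smul g h x := Subtype.ext (mul_smul g h x.1)
  smul_zero g := Subtype.ext (smul_zero g)
  smul_add g x y := Subtype.ext (smul_add g x.1 y.1)
  smul_one g := Subtype.ext (smul_one g)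
  smul_mul g x y := Subtype.ext (smul_mul' g x.1 y.1)

@[simp] theorem coe_smul_Ot {b : V} (g : G) (x : Ot A b) : (g • x).1 = g • x.1 := rfl

instance (b : V) : SMulCommClass G ℂ (Ot A b) := ⟨fun g c x => Subtype.ext (smul_comm g c x.1)⟩

variable (A)

/-- evaluation at `b` -/
def evO (b : V) : Ot A b →ₐ[ℂ] ℂ := (evL b).comp (Subalgebra.inclusion (Ot_le_Loc' b))

@[simp] theorem evO_apply (b : V) (x : Ot A b) : evO A b x = val x.1 b := rfl

/-- equivariant etale coordinates along the orbit of `b` -/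
structure Crd (b : V) (t : Fin 4 → M) : Prop where
  mem : ∀ i, t i ∈ Ot A b
  equi : Equi t
  stab : ∀ g : G, (gv g fun i => val (t i) b) = (fun i => val (t i) b) → gv g b - b ∈ Lam A
  jac : ∀ i j, val (pd i (t j)) b = if i = j then 1 else 0

/-- invariant theta functions of degree one -/
def U : Submodule ℂ Ent := R A 1 ⊓ invE

/-- alternating theta functions of degree one -/
def W : Submodule ℂ Ent := R A 1 ⊓ altE

/-- the level is large enough -/
structure Good : Prop where
  fd : Module.Finite ℂ (R A 1)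
  bpf : ∀ z, ∃ F ∈ U A, F.1 z ≠ 0
  gen : ∀ j, R A (j + 1) ≤ U A ^ j * R A 1
  alt : W A ≠ ⊥

/-- the numbers of generators -/
abbrev nU : ℕ := Module.finrank ℂ (U A)
abbrev nW : ℕ := Module.finrank ℂ (W A)

variable {A} (hA : Good A)

theorem Good.finU (hA : Good A) : Module.Finite ℂ (U A) :=
  have := hA.fd; Submodule.finiteDimensional_of_le inf_le_left

theorem Good.finW (hA : Good A) : Module.Finite ℂ (W A) :=
  have := hA.fd; Submodule.finiteDimensional_of_le inf_le_left

/-- a basis of the invariant theta functions -/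
def gU (j : Fin (nU A)) : Ent := haveI := hA.finU; (Module.finBasis ℂ (U A) j).1

/-- a basis of the alternating theta functions -/
def fW (i : Fin (nW A)) : Ent := haveI := hA.finW; (Module.finBasis ℂ (W A) i).1

theorem gU_mem (j : Fin (nU A)) : gU hA j ∈ U A := Subtype.property _

theorem fW_mem (i : Fin (nW A)) : fW hA i ∈ W A := Subtype.property _

theorem gU_ne (j : Fin (nU A)) : gU hA j ≠ 0 := fun e =>
  haveI := hA.finU; (Module.finBasis ℂ (U A)).ne_zero j (Subtype.ext e)

theorem fW_ne (i : Fin (nW A)) : fW hA i ≠ 0 := fun e =>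
  haveI := hA.finW; (Module.finBasis ℂ (W A)).ne_zero i (Subtype.ext e)

theorem span_gU : Submodule.span ℂ (Set.range (gU hA)) = U A := by
  have := hA.finU
  have e := congrArg (Submodule.map (U A).subtype) (Module.finBasis ℂ (U A)).span_eq
  rwa [Submodule.map_span, ← Set.range_comp, Submodule.map_subtype_top] at e

theorem span_fW : Submodule.span ℂ (Set.range (fW hA)) = W A := by
  have := hA.finW
  have e := congrArg (Submodule.map (W A).subtype) (Module.finBasis ℂ (W A)).span_eq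
  rwa [Submodule.map_span, ← Set.range_comp, Submodule.map_subtype_top] at e

/-- the index of the product `f i * g j` -/
def idx (i : Fin (nW A)) (j : Fin (nU A)) : Fin (nW A * nU A) := finProdFinEquiv (i, j)

theorem exists_idx (l : Fin (nW A * nU A)) : ∃ i j, l = idx i j :=
  ⟨_, _, (finProdFinEquiv.apply_symm_apply l).symm⟩

include hA in
theorem nonempty_idx : Nonempty (Fin (nW A * nU A)) := by
  have := hA.finU
  have := hA.finW
  obtain ⟨F, hF, h⟩ := hA.bpf 0
  have : Nontrivial (U A) := Submodule.nontrivial_iff_ne_bot.2 fun e =>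
    Ent.ne_zero h (by rwa [e] at hF)
  have : Nontrivial (W A) := Submodule.nontrivial_iff_ne_bot.2 hA.alt
  exact ⟨idx ⟨0, Module.finrank_pos⟩ ⟨0, Module.finrank_pos⟩⟩

/-- the generalised Kummer fourfold -/
@[reducible] def X : ProjVar ℂ M where
  n := nW A * nU A
  f l := emb (fW hA (finProdFinEquiv.symm l).1 * gU hA (finProdFinEquiv.symm l).2)
  J := Finset.univ
  ne _ _ := emb_ne (mul_ne_zero (fW_ne hA _) (gU_ne hA _))
  nonempty := have := nonempty_idx hA; Finset.univ_nonempty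
  cover l := ⟨0, by
    rw [zero_add, pow_one, pow_zero, mul_one]
    exact Submodule.subset_span ⟨l, Finset.mem_univ l, rfl⟩⟩

theorem X_f (i : Fin (nW A)) (j : Fin (nU A)) : (X hA).f (idx i j) = emb (fW hA i * gU hA j) := by
  simp [idx]

/-- the point `p` of `X` lies over the orbit of `b` -/
def Over (p : Pt (grade (X hA))) (b : V) : Prop := ∀ i j j',
  p.1 (gen (X hA) (idx i j)) * (gU hA j').1 b = p.1 (gen (X hA) (idx i j')) * (gU hA j).1 b

end

end Pool.Agent.Lib.MP_d3d358_ag.Var
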