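import Mathlib

/-! Open sets whose complement lies in countably many affine subspaces: density, path
connectedness, simple connectedness. -/

set_option autoImplicit false

namespace Pool.Agent.Lib.MP_d3d358_ag.Var

open Set Module Filter Topology

variable {E : Type} [NormedAddCommGroup E] [NormedSpace ℝ E] [FiniteDimensional ℝ E]
  {ι : Type} [Countable ι] {p : ι → E} {W : ι → Submodule ℝ E} {U : Set E}

/-- the complement of countably many `C¹` images of spaces of smaller dimension is dense -/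
theorem dense_compl_ranges {κ : Type} [Countable κ] {F : κ → Type}
    [∀ k, NormedAddCommGroup (F k)] [∀ k, NormedSpace ℝ (F k)] [∀ k, FiniteDimensional ℝ (F k)]
    (f : ∀ k, F k → E) (hf : ∀ k, ContDiff ℝ 1 (f k)) (hd : ∀ k, finrank ℝ (F k) < finrank ℝ E) :
    Dense {c | ∀ k y, f k y ≠ c} := by
  rcases isEmpty_or_nonempty κ with h | ⟨⟨k0⟩⟩
  · simp
  have h1 : finrank ℝ E - 1 < finrank ℝ E := by have := hd k0; omega
  have h2 : dimH (⋃ k, range (f k)) < finrank ℝ E := by
    rw [dimH_iUnion]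
    refine lt_of_le_of_lt (iSup_le fun k => (hf k).dimH_range_le.trans ?_) (Nat.cast_lt.2 h1)
    exact Nat.cast_le.2 (by have := hd k; omega)
  have h3 := dense_compl_of_dimH_lt_finrank h2
  convert h3 using 1
  ext c
  simp

theorem dense_of_compl (hU : ∀ z ∉ U, ∃ i, z - p i ∈ W i)
    (hW : ∀ i, finrank ℝ (W i) < finrank ℝ E) : Dense U := by
  refine (dense_compl_ranges (F := fun i => W i) (fun i v => p i + (v : E))
    (fun i => contDiff_const.add (W i).subtypeL.contDiff) hW).mono fun c hc => ?_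
  by_contra h
  obtain ⟨i, hi⟩ := hU c h
  exact hc i ⟨_, hi⟩ (by simp)

/-- a dense set of points `c` sees every point of `U` on countably many `C¹` images -/
theorem dense_center {κ : Type} [Countable κ] {F : Type} [NormedAddCommGroup F] [NormedSpace ℝ F]
    [FiniteDimensional ℝ F] (g : κ → F → E) (hg : ∀ k, ContDiff ℝ 1 (g k))
    (hU : ∀ z ∉ U, ∃ i, z - p i ∈ W i)
    (hW : ∀ i, finrank ℝ (W i) + finrank ℝ F + 1 < finrank ℝ E) :
    Dense {c | ∀ k y, g k y ∈ U → segment ℝ c (g k y) ⊆ U} := by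
  refine (dense_compl_ranges (κ := κ × ι) (F := fun k => F × ℝ × W k.2)
    (fun k y => g k.1 y.1 + y.2.1 • (p k.2 + (y.2.2 : E) - g k.1 y.1)) (fun k => ?_)
    (fun k => ?_)).mono fun c hc k y hy => ?_
  · have h1 : ContDiff ℝ 1 fun y : F × ℝ × W k.2 => g k.1 y.1 := (hg k.1).comp contDiff_fst
    have h2 : ContDiff ℝ 1 fun y : F × ℝ × W k.2 => (y.2.2 : E) :=
      (W k.2).subtypeL.contDiff.comp (contDiff_snd.comp contDiff_snd)
    exact h1.add ((contDiff_fst.comp contDiff_snd).smul ((contDiff_const.add h2).sub h1))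
  · have := hW k.2
    simp only [finrank_prod, finrank_self]
    omega
  · rintro z ⟨a, b, -, -, hab, rfl⟩
    by_contra h
    obtain ⟨i, hi⟩ := hU _ h
    have hb : b = 1 - a := by linarith
    subst hb
    by_cases ha : a = 0
    · subst ha
      exact h (by simpa using hy)
    refine hc (k, i) (y, a⁻¹, ⟨_, hi⟩) ?_
    have e : p i + (a • c + (1 - a) • g k y - p i) - g k y = a • (c - g k y) := by module
    change g k y + a⁻¹ • (p i + (a • c + (1 - a) • g k y - p i) - g k y) = c
    rw [e, smul_smul, inv_mul_cancel₀ ha, one_smul, add_sub_cancel]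

/-- two points of `U` are seen from a dense set of points -/
theorem dense_center_pair (hU : ∀ z ∉ U, ∃ i, z - p i ∈ W i)
    (hW : ∀ i, finrank ℝ (W i) + 2 ≤ finrank ℝ E) {a b : E} (ha : a ∈ U) (hb : b ∈ U) :
    Dense {c | segment ℝ c a ⊆ U ∧ segment ℝ c b ⊆ U} := by
  refine (dense_center (κ := Bool) (F := Fin 0 → ℝ) (fun k _ => if k then a else b)
    (fun _ => contDiff_const) hU fun i => ?_).mono fun c hc => ?_
  · have := hW i
    simp only [finrank_fintype_fun_eq_card, Fintype.card_fin]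
    omega
  · exact ⟨hc true 0 ha, hc false 0 hb⟩

/-- inside a convex open set `O`, the complement of subspaces of codimension at least two is
path connected -/
theorem joinedIn_inter_of_compl (hU : ∀ z ∉ U, ∃ i, z - p i ∈ W i)
    (hW : ∀ i, finrank ℝ (W i) + 2 ≤ finrank ℝ E) {O : Set E} (hO : IsOpen O) (hc : Convex ℝ O)
    {a b : E} (ha : a ∈ O ∩ U) (hb : b ∈ O ∩ U) : JoinedIn (O ∩ U) a b := by
  obtain ⟨c, hcO, h1, h2⟩ :=
    (dense_center_pair hU hW ha.2 hb.2).inter_open_nonempty O hO ⟨a, ha.1⟩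
  exact (JoinedIn.of_segment_subset (subset_inter (hc.segment_subset hcO ha.1) h1)).symm.trans
    (JoinedIn.of_segment_subset (subset_inter (hc.segment_subset hcO hb.1) h2))

theorem isPathConnected_of_compl (hU : ∀ z ∉ U, ∃ i, z - p i ∈ W i)
    (hW : ∀ i, finrank ℝ (W i) + 2 ≤ finrank ℝ E) : IsPathConnected U := by
  obtain ⟨a, ha⟩ := (dense_of_compl hU fun i => by have := hW i; omega).nonempty
  refine ⟨a, ha, fun b hb => ?_⟩
  simpa using joinedIn_inter_of_compl hU hW isOpen_univ convex_univ ⟨trivial, ha⟩ ⟨trivial, hb⟩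

omit [FiniteDimensional ℝ E] in
/-- a loop in an open set is homotopic inside it to a polynomial loop -/
theorem exists_smooth_loop (ho : IsOpen U) {x : E} (γ : Path x x) (hγ : ∀ t, γ t ∈ U) :
    ∃ (q : Path x x) (g : ℝ → E), ContDiff ℝ 1 g ∧ (∀ t, q t = g t) ∧
      ∃ H : γ.Homotopy q, ∀ t, H t ∈ U := by
  obtain ⟨δ, hδ, hsub⟩ := (isCompact_range γ.continuous).exists_thickening_subset_open ho
    (range_subset_iff.2 hγ)
  obtain ⟨n, hn, hn0⟩ := (((bernsteinApproximation_uniform γ.toContinuousMap).eventually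
    (Metric.ball_mem_nhds _ hδ)).and (eventually_ne_atTop 0)).exists
  set B := bernsteinApproximation n γ.toContinuousMap with hB
  have h0 : B 0 = x := by simp [hB]
  have h1 : B 1 = x := by simp [hB, bernsteinApproximation.apply_one hn0]
  have hd (t) : ‖B t - γ t‖ < δ := by
    rw [← dist_eq_norm]
    exact (ContinuousMap.dist_apply_le_dist t).trans_lt hn
  refine ⟨⟨B, h0, h1⟩, fun t => ∑ k : Fin (n + 1),
    ((n.choose k : ℝ) * t ^ (k : ℕ) * (1 - t) ^ (n - k)) • γ (bernstein.z k), by fun_prop,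
    fun t => ?_, ⟨⟨⟨fun s => γ s.2 + (s.1 : ℝ) • (B s.2 - γ s.2), by fun_prop⟩, fun t => ?_,
      fun t => ?_⟩, ?_⟩, fun s => ?_⟩
  · change B t = _
    simp [hB, bernsteinApproximation.apply, bernstein_apply]
  · simp
  · simp
  · rintro s t (rfl | rfl)
    · simp [h0]
    · simp [h1]
  · refine hsub (Metric.mem_thickening_iff.2 ⟨γ s.2, mem_range_self _, ?_⟩)
    change dist (γ s.2 + (s.1 : ℝ) • (B s.2 - γ s.2)) (γ s.2) < δ
    rw [dist_eq_norm, add_sub_cancel_left, norm_smul, Real.norm_of_nonneg s.1.2.1]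
    exact (mul_le_of_le_one_left (norm_nonneg _) s.1.2.2).trans_lt (hd _)

omit [FiniteDimensional ℝ E] in
theorem isSimplyConnected_star {c : E} (hc : c ∈ U) :
    IsSimplyConnected {z | segment ℝ c z ⊆ U} := by
  have h : StarConvex ℝ c {z | segment ℝ c z ⊆ U} := by
    intro y hy a b ha hb hab
    exact ((convex_segment c y).segment_subset (left_mem_segment ℝ c y)
      ⟨a, b, ha, hb, hab, rfl⟩).trans hy
  have := h.contractibleSpace ⟨c, by simpa using hc⟩
  exact SimplyConnectedSpace.ofContractible _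

theorem isSimplyConnected_of_compl (ho : IsOpen U) (hU : ∀ z ∉ U, ∃ i, z - p i ∈ W i)
    (hW : ∀ i, finrank ℝ (W i) + 3 ≤ finrank ℝ E) : IsSimplyConnected U := by
  refine isSimplyConnected_iff_exists_homotopy_refl_forall_mem.2
    ⟨isPathConnected_of_compl hU fun i => by have := hW i; omega, fun x γ hγ => ?_⟩
  obtain ⟨q, g, hg, hq, H, hH⟩ := exists_smooth_loop ho γ hγ
  have hqU (t) : q t ∈ U := by simpa using hH (1, t)
  obtain ⟨c, hc⟩ := (dense_center (κ := Unit) (fun _ => g) (fun _ => hg) hU fun i => by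
    have := hW i
    rw [finrank_self]
    omega).nonempty
  have hs (t) : segment ℝ c (q t) ⊆ U := hq t ▸ hc () t (hq t ▸ hqU t)
  obtain ⟨H', hH'⟩ := (isSimplyConnected_iff_exists_homotopy_refl_forall_mem.1
    (isSimplyConnected_star (hs 0 (left_mem_segment ℝ _ _)))).2 x q hs
  refine ⟨H.trans H', fun s => ?_⟩
  rw [Path.Homotopy.trans_apply]
  split_ifs
  · exact hH _
  · exact hH' _ (right_mem_segment ℝ _ _)

end Pool.Agent.Lib.MP_d3d358_ag.Var
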