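import Pool.Agent.Lib.MP_d3d358_ag.Var.Refl
import Pool.Agent.Lib.MP_d3d358_ag.Var.Compl

/-! The free locus of the crystallographic group and the stabilisers of points of the torus. -/

set_option autoImplicit false

namespace Pool.Agent.Lib.MP_d3d358_ag.Var

open Set Module

noncomputable section

/-- the fixed vectors of `g` -/
def Fix (g : G) : Submodule ℂ V := LinearMap.ker (gl g - LinearMap.id)

theorem mem_Fix {g : G} {z : V} : z ∈ Fix g ↔ gv g z = z := by
  simp [Fix, sub_eq_zero]

theorem r_eq_one {k : ZMod 3} : (DihedralGroup.r k : G) = 1 ↔ k = 0 := by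
  revert k; decide

theorem sr_ne_one (k : ZMod 3) : (DihedralGroup.sr k : G) ≠ 1 := by
  revert k; decide

theorem eq_zero_of_gv_r {k : ZMod 3} (hk : k ≠ 0) {z : V} (h : gv (.r k) z = z) : z = 0 := by
  have h1 : chi k - 1 ≠ 0 := fun e => hk (chi_eq_one.1 (sub_eq_zero.1 e))
  have h2 : chi (-k) - 1 ≠ 0 := fun e => hk (neg_eq_zero.1 (chi_eq_one.1 (sub_eq_zero.1 e)))
  have e0 : chi k * z 0 = z 0 := congrFun h 0
  have e1 : chi k * z 1 = z 1 := congrFun h 1
  have e2 : chi (-k) * z 2 = z 2 := congrFun h 2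
  have e3 : chi (-k) * z 3 = z 3 := congrFun h 3
  funext i
  fin_cases i
  · exact (mul_eq_zero.1 (by linear_combination e0 : (chi k - 1) * z 0 = 0)).resolve_left h1
  · exact (mul_eq_zero.1 (by linear_combination e1 : (chi k - 1) * z 1 = 0)).resolve_left h1
  · exact (mul_eq_zero.1 (by linear_combination e2 : (chi (-k) - 1) * z 2 = 0)).resolve_left h2
  · exact (mul_eq_zero.1 (by linear_combination e3 : (chi (-k) - 1) * z 3 = 0)).resolve_left h2

theorem finrank_Fix {g : G} (hg : g ≠ 1) : finrank ℂ (Fix g) ≤ 2 := by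
  let f : Fix g →ₗ[ℂ] ℂ × ℂ :=
    ((LinearMap.proj 0 : V →ₗ[ℂ] ℂ).prod (LinearMap.proj 1)).comp (Fix g).subtype
  have hf : Function.Injective f := by
    rw [injective_iff_map_eq_zero]
    rintro ⟨z, hz⟩ h
    have h0 : z 0 = 0 := congrArg Prod.fst h
    have h1 : z 1 = 0 := congrArg Prod.snd h
    rw [mem_Fix] at hz
    refine Subtype.ext ?_
    cases g with
    | r k => exact eq_zero_of_gv_r (fun e => hg (r_eq_one.2 e)) hz
    | sr k =>
      have e2 : chi k * z 0 = z 2 := congrFun hz 2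
      have e3 : chi k * z 1 = z 3 := congrFun hz 3
      funext i
      fin_cases i
      · exact h0
      · exact h1
      · simpa [h0] using e2.symm
      · simpa [h1] using e3.symm
  simpa using LinearMap.finrank_le_finrank_of_injective hf

theorem finrank_V : finrank ℝ V = 8 := by
  simp [V, finrank_pi_fintype]

theorem finrank_Fix_real {g : G} (hg : g ≠ 1) : finrank ℝ ((Fix g).restrictScalars ℝ) ≤ 4 := by
  have h : finrank ℝ ((Fix g).restrictScalars ℝ) = 2 * finrank ℂ (Fix g) :=
    finrank_real_of_complex (Fix g)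
  have := finrank_Fix hg
  omega

variable {L : AddSubgroup V}

/-- a point of the mirror of `(g, l)` -/
def mirPt (i : {g : G // g ≠ 1} × L) : V :=
  Classical.epsilon fun z => z - gv i.1.1 z = i.2

/-- the direction of the mirror of `(g, l)` -/
def mirDir (i : {g : G // g ≠ 1} × L) : Submodule ℝ V := (Fix i.1.1).restrictScalars ℝ

theorem exists_mirror (z : V) (hz : z ∉ Free L) :
    ∃ i : {g : G // g ≠ 1} × L, z - mirPt i ∈ mirDir i := by
  simp only [Free, mem_ofPred_eq, not_forall] at hz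
  obtain ⟨g, hl, hg⟩ := hz
  refine ⟨(⟨g, hg⟩, ⟨_, hl⟩), mem_Fix.2 ?_⟩
  have h := Classical.epsilon_spec (p := fun y => y - gv g y = z - gv g z) ⟨z, rfl⟩
  change gv g (z - mirPt _) = z - mirPt _
  rw [gv_sub, mirPt]
  linear_combination h

theorem finrank_mirDir (i : {g : G // g ≠ 1} × L) : finrank ℝ (mirDir i) + 4 ≤ finrank ℝ V := by
  have := finrank_Fix_real i.1.2
  rw [finrank_V, mirDir]
  omega

theorem countable_lat [DiscreteTopology L] : Countable L :=
  TopologicalSpace.separableSpace_iff_countable.1 inferInstance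

theorem dense_free [DiscreteTopology L] : Dense (Free L) :=
  haveI := countable_lat (L := L)
  dense_of_compl exists_mirror fun i => by have := finrank_mirDir i; omega

theorem isSimplyConnected_free [DiscreteTopology L] : IsSimplyConnected (Free L) :=
  haveI := countable_lat (L := L)
  isSimplyConnected_of_compl isOpen_free exists_mirror fun i => by
    have := finrank_mirDir i; omega

theorem joinedIn_inter_free [DiscreteTopology L] {O : Set V} (hO : IsOpen O) (hc : Convex ℝ O)
    {a b : V} (ha : a ∈ O ∩ Free L) (hb : b ∈ O ∩ Free L) : JoinedIn (O ∩ Free L) a b :=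
  haveI := countable_lat (L := L)
  joinedIn_inter_of_compl exists_mirror (fun i => by have := finrank_mirDir i; omega) hO hc ha hb

section stable

variable (hL : ∀ g : G, ∀ l ∈ L, gv g l ∈ L)
include hL

/-- the stabiliser of the class of `b` in the torus -/
def Stab (b : V) : Subgroup G where
  carrier := {g | b - gv g b ∈ L}
  one_mem' := by simp
  mul_mem' := fun {g h} hg hh => by
    have := add_mem hg (hL g _ hh)
    rwa [gv_sub, sub_add_sub_cancel, ← gv_mul] at this
  inv_mem' := fun {g} hg => by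
    have := neg_mem (hL g⁻¹ _ hg)
    rwa [gv_sub, gv_inv_gv, neg_sub] at this

theorem mem_Stab {b : V} {g : G} : g ∈ Stab hL b ↔ b - gv g b ∈ L := Iff.rfl

theorem free_act_iff {z : V} (g : G) {l : V} (hl : l ∈ L) :
    gv g z + l ∈ Free L ↔ z ∈ Free L := by
  refine ⟨fun h => ?_, fun h => free_act hL h g hl⟩
  simpa [gv_add] using free_act hL h g⁻¹ (neg_mem (hL g⁻¹ l hl))

/-- a point fixed by a rotation is fixed by the whole group when the lattice is spanned by
vectors that are reversed by reflections -/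
theorem Stab_eq_top (hR : L ≤ AddSubgroup.closure {l | l ∈ L ∧ ∃ k, gv (.sr k) l = -l})
    {b : V} {k : ZMod 3} (hk : k ≠ 0) (hb : DihedralGroup.r k ∈ Stab hL b) : Stab hL b = ⊤ := by
  have hrot (c : V) (hc : DihedralGroup.r 1 ∈ Stab hL c) (j : ZMod 3) :
      DihedralGroup.r j ∈ Stab hL c := by
    have : ∀ j : ZMod 3, (DihedralGroup.r j : G) = DihedralGroup.r 1 ^ j.val := by decide
    exact this j ▸ pow_mem hc _
  have h1 : DihedralGroup.r 1 ∈ Stab hL b := by
    have : ∀ k : ZMod 3, k ≠ 0 → (DihedralGroup.r 1 : G) = DihedralGroup.r k ^ k.val := by decide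
    exact this k hk ▸ pow_mem hb _
  have hq := chi_quad (k := 1) (by decide)
  have hn := chi_neg 1
  have key : ∀ l ∈ AddSubgroup.closure {l | l ∈ L ∧ ∃ k, gv (.sr k) l = -l},
      ∃ c : V, c - gv (.r 1) c = l ∧ c - gv (.sr 0) c ∈ L := by
    intro l hl
    induction hl using AddSubgroup.closure_induction with
    | zero => exact ⟨0, by simp, by simp⟩
    | add x y _ _ hx hy =>
      obtain ⟨c, e, h⟩ := hx
      obtain ⟨d, e', h'⟩ := hy
      refine ⟨c + d, by rw [gv_add, ← e, ← e']; abel, ?_⟩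
      convert add_mem h h' using 1
      rw [gv_add]; abel
    | neg x _ hx =>
      obtain ⟨c, e, h⟩ := hx
      refine ⟨-c, by rw [gv_neg, ← e]; abel, ?_⟩
      convert neg_mem h using 1
      rw [gv_neg]; abel
    | mem l hl =>
      obtain ⟨hl, j, hj⟩ := hl
      have e0 : chi (-j) * l 2 = -l 0 := congrFun hj 0
      have e1 : chi (-j) * l 3 = -l 1 := congrFun hj 1
      have e2 : chi j * l 0 = -l 2 := congrFun hj 2
      have e3 : chi j * l 1 = -l 3 := congrFun hj 3
      let α : ℂ := (2 + chi 1) / 3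
      let β : ℂ := (2 + chi 1 ^ 2) / 3
      let c : V := ![α * l 0, α * l 1, β * l 2, β * l 3]
      have a1 : c - gv (.r 1) c = l := by
        funext i
        fin_cases i <;> simp [c, α, β, gv_r, hn]
        · linear_combination (-(3 : ℂ)⁻¹ * l 0) * hq
        · linear_combination (-(3 : ℂ)⁻¹ * l 1) * hq
        · linear_combination (-(3 : ℂ)⁻¹ * l 2 * (chi 1 ^ 2 - chi 1 + 1)) * hq
        · linear_combination (-(3 : ℂ)⁻¹ * l 3 * (chi 1 ^ 2 - chi 1 + 1)) * hq
      have a2 : c - gv (.sr j) c = l := by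
        funext i
        fin_cases i <;> simp [c, α, β, gv_sr]
        · linear_combination (-(3 : ℂ)⁻¹ * (2 + chi 1 ^ 2)) * e0 + ((3 : ℂ)⁻¹ * l 0) * hq
        · linear_combination (-(3 : ℂ)⁻¹ * (2 + chi 1 ^ 2)) * e1 + ((3 : ℂ)⁻¹ * l 1) * hq
        · linear_combination (-(3 : ℂ)⁻¹ * (2 + chi 1)) * e2 + ((3 : ℂ)⁻¹ * l 2) * hq
        · linear_combination (-(3 : ℂ)⁻¹ * (2 + chi 1)) * e3 + ((3 : ℂ)⁻¹ * l 3) * hq
      have b1 : DihedralGroup.r 1 ∈ Stab hL c := by rw [mem_Stab, a1]; exact hl
      have b2 : DihedralGroup.sr j ∈ Stab hL c := by rw [mem_Stab, a2]; exact hl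
      have b3 := mul_mem b2 (hrot c b1 (-j))
      rw [DihedralGroup.sr_mul_r, add_neg_cancel] at b3
      exact ⟨c, a1, b3⟩
  obtain ⟨c, e, h⟩ := key _ (hR h1)
  have hcb : c = b := by
    refine sub_eq_zero.1 (eq_zero_of_gv_r (k := 1) (by decide) ?_)
    rw [gv_sub]
    linear_combination -e
  subst hcb
  refine (Subgroup.eq_top_iff' _).2 fun g => ?_
  cases g with
  | r j => exact hrot c h1 j
  | sr j => simpa using mul_mem (show DihedralGroup.sr 0 ∈ Stab hL c from h) (hrot c h1 j)

/-- the stabiliser of a point of the torus is the stabiliser of a vector -/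
theorem exists_model (hR : L ≤ AddSubgroup.closure {l | l ∈ L ∧ ∃ k, gv (.sr k) l = -l})
    (b : V) : ∃ v : V, ∀ g : G, gv g v = v ↔ b - gv g b ∈ L := by
  by_cases h : ∃ k ≠ 0, DihedralGroup.r k ∈ Stab hL b
  · obtain ⟨k, hk, hb⟩ := h
    refine ⟨0, fun g => iff_of_true (gv_zero g) ?_⟩
    rw [← mem_Stab hL, Stab_eq_top hL hR hk hb]
    trivial
  have hr (k : ZMod 3) : b - gv (.r k) b ∈ L ↔ k = 0 :=
    ⟨fun e => by_contra fun hk => h ⟨k, hk, e⟩, fun e => by
      rw [r_eq_one.2 e]; simp⟩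
  have hv (v : V) (h0 : v 0 = 1) (k : ZMod 3) : gv (.r k) v = v ↔ k = 0 :=
    ⟨fun e => by_contra fun hk => by simp [eq_zero_of_gv_r hk e] at h0, fun e => by
      rw [r_eq_one.2 e, gv_one]⟩
  by_cases h' : ∃ j, DihedralGroup.sr j ∈ Stab hL b
  · obtain ⟨j, hj⟩ := h'
    have hf : gv (.sr j) (![1, 0, chi j, 0] : V) = ![1, 0, chi j, 0] := by
      funext i
      fin_cases i <;> simp [gv_sr]
    refine ⟨![1, 0, chi j, 0], fun g => ?_⟩
    cases g with
    | r k => rw [hr, hv _ rfl]
    | sr k =>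
      refine ⟨fun e => ?_, fun e => ?_⟩
      · have e' : gv (.r (k - j)) (![1, 0, chi j, 0] : V) = ![1, 0, chi j, 0] := by
          rw [← DihedralGroup.sr_mul_sr, gv_mul, e, hf]
        rw [sub_eq_zero.1 ((hv _ rfl _).1 e')]
        exact hj
      · have e' := mul_mem hj (show DihedralGroup.sr k ∈ Stab hL b from e)
        rw [DihedralGroup.sr_mul_sr] at e'
        rw [sub_eq_zero.1 ((hr _).1 e')]
        exact hf
  · refine ⟨![1, 0, 0, 0], fun g => ?_⟩
    cases g with
    | r k => rw [hr, hv _ rfl]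
    | sr k =>
      refine iff_of_false (fun e => ?_) fun e => h' ⟨k, e⟩
      simpa [gv_sr] using congrFun e 0

end stable

end

end Pool.Agent.Lib.MP_d3d358_ag.Var
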