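import Pool.Agent.Lib.MP_d3d358_ag.Var.KD
import Pool.Agent.Lib.MP_d3d358_ag.Var.Mirror

/-! The mirrors and the stabilisers for the lattice of triples with sum zero. -/

set_option autoImplicit false

namespace Pool.Agent.Lib.MP_d3d358_ag.Var

open Pool.Agent.Lib.MP_d3d358_ag.G Set

noncomputable section

variable {A : Sf}

instance discrete_Lam (A : Sf) : DiscreteTopology (Lam A) :=
  inferInstanceAs (DiscreteTopology (Submodule.span ℤ (range (lat3 A.toLat).bas)))

theorem Lam_stable (A : Sf) (g : G) (l : V) (hl : l ∈ Lam A) : gv g l ∈ Lam A :=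
  gv_mem_Lam A g hl

theorem eq_of_crd {z w : V} (h0 : crd 0 z = crd 0 w) (h1 : crd 1 z = crd 1 w) : z = w := by
  rw [← tri_crd z, h0, h1, tri_crd]

theorem crd_tri_two (a b : Fin 2 → ℂ) : crd 2 (tri a b) = -a - b := by
  rw [crd_two, crd_tri_zero, crd_tri_one]

theorem gv_sr_tri_left (a : Fin 2 → ℂ) : gv (.sr 1) (tri a 0) = -tri a 0 := by
  refine eq_of_crd ?_ ?_
  · rw [crd_sr, map_neg, crd_tri_zero, show (-0 - 1 : ZMod 3) = 2 from rfl, crd_tri_two, sub_zero]
  · rw [crd_sr, map_neg, show (-1 - 1 : ZMod 3) = 1 from rfl, crd_tri_one, neg_zero]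

theorem gv_sr_tri_right (b : Fin 2 → ℂ) : gv (.sr 0) (tri 0 b) = -tri 0 b := by
  refine eq_of_crd ?_ ?_
  · rw [crd_sr, map_neg, show (-0 - 0 : ZMod 3) = 0 from rfl, crd_tri_zero, neg_zero]
  · rw [crd_sr, map_neg, crd_tri_one, show (-1 - 0 : ZMod 3) = 2 from rfl, crd_tri_two, neg_zero,
      zero_sub]

theorem tri_eq_add (a b : Fin 2 → ℂ) : tri a b = tri a 0 + tri 0 b :=
  eq_of_crd (by simp [crd_tri_zero]) (by simp [crd_tri_one])

/-- the lattice is spanned by vectors that are reversed by reflections -/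
theorem Lam_le_closure (A : Sf) :
    Lam A ≤ AddSubgroup.closure {l | l ∈ Lam A ∧ ∃ k, gv (.sr k) l = -l} := fun l hl => by
  obtain ⟨h0, h1⟩ := mem_lat3'.1 hl
  rw [← tri_crd l, tri_eq_add]
  exact add_mem (AddSubgroup.subset_closure ⟨tri_mem h0 (zero_mem _), 1, gv_sr_tri_left _⟩)
    (AddSubgroup.subset_closure ⟨tri_mem (zero_mem _) h1, 0, gv_sr_tri_right _⟩)

/-- the stabiliser of a point of the torus is the stabiliser of a vector -/
theorem exists_model_Lam (A : Sf) (b : V) :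
    ∃ v : V, ∀ g : G, gv g v = v ↔ gv g b - b ∈ Lam A := by
  obtain ⟨v, hv⟩ := exists_model (Lam_stable A) (Lam_le_closure A) b
  exact ⟨v, fun g => by rw [hv, ← neg_mem_iff, neg_sub]⟩

end

end Pool.Agent.Lib.MP_d3d358_ag.Var
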