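import Pool.Agent.Lib.MP_d3d358_ag.Var.LiouM

/-! Directional derivatives on `M` commute with translations and with `G`; an invariant periodic
two-form that is regular off the mirrors is a constant multiple of `σ`. -/

set_option autoImplicit false

namespace Pool.Agent.Lib.MP_d3d358_ag.Var.TwoF

open Filter Topology Module LiouM

noncomputable section

/-- the unit vectors -/
abbrev ee (i : Fin 4) : V := Pi.single i 1

theorem sum_ee (v : V) : ∑ i, v i • ee i = v := by
  funext j; simp [ee, Finset.sum_apply, Pi.single_apply]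

/-- the derivative in direction `v` -/
def dv (v : V) : Derivation ℂ M M := ∑ i, v i • pd i

theorem dv_apply (v : V) (x : M) : dv v x = ∑ i, v i • pd i x := by
  simp [dv, Fin.sum_univ_four]

@[simp] theorem dv_ee (i : Fin 4) (x : M) : dv (ee i) x = pd i x := by
  simp [dv_apply, ee, Pi.single_apply]

/-- the derivative of an entire function in direction `v` -/
def dE (v : V) (F : Ent) : Ent := ∑ i, v i • Ent.pd i F

theorem dE_apply (v : V) (F : Ent) (z : V) : (dE v F).1 z = fderiv ℂ F.1 z v := by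
  conv_rhs => rw [← sum_ee v]
  simp [dE, Ent.pd_apply]

theorem dv_emb (v : V) (F : Ent) : dv v (emb F) = emb (dE v F) := by
  simp [dv_apply, dE]

theorem dv_div (v : V) (F F' : Ent) (h : F' ≠ 0) :
    dv v (emb F / emb F') = emb (F' * dE v F - F * dE v F') / emb (F' * F') := by
  have := emb_ne h
  have e := (dv v).leibniz (emb F / emb F') (emb F')
  rw [div_mul_cancel₀ _ this, dv_emb, dv_emb, smul_eq_mul, smul_eq_mul] at e
  simp only [map_sub, map_mul, e]
  field_simp
  ring

theorem dv_mem {x : M} {b : V} (hx : x ∈ Loc b) (v : V) : dv v x ∈ Loc b := by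
  obtain ⟨F, F', h, rfl⟩ := hx
  rw [dv_div v F F' (Ent.ne_zero h)]
  exact div_mem_Loc _ (mul_ne_zero h h)

theorem pd_mem {x : M} {b : V} (hx : x ∈ Loc b) (i : Fin 4) : pd i x ∈ Loc b :=
  dv_ee i x ▸ dv_mem hx _

theorem dE_tr (v c : V) (F : Ent) : dE v (Ent.tr c F) = Ent.tr c (dE v F) :=
  Ent.ext fun z => by
    rw [Ent.tr_apply, dE_apply, dE_apply]
    exact congrArg (fun A : V →L[ℂ] ℂ => A v) (fderiv_comp_add_right (𝕜 := ℂ) (f := F.1) c)

theorem dE_smul (v : V) (g : G) (F : Ent) : dE (gv g v) (g • F) = g • dE v F :=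
  Ent.ext fun z => by
    rw [Ent.smul_apply, dE_apply, dE_apply]
    have : fderiv ℂ (F.1 ∘ gL g⁻¹) z = _ := ((F.diff _).hasFDerivAt.comp z
      (gL g⁻¹).hasFDerivAt).fderiv
    refine (congrArg (fun A : V →L[ℂ] ℂ => A (gv g v)) this).trans ?_
    simp

theorem dv_tr (v c : V) (x : M) : dv v (tr c x) = tr c (dv v x) := by
  obtain ⟨F, F', h, rfl⟩ := exists_div x
  rw [dv_div v F F' h, map_div₀ (tr c), map_div₀ (tr c), tr_emb, tr_emb, tr_emb, tr_emb,
    dv_div v _ _ ((map_ne_zero_iff _ (Ent.tr c).injective).2 h), dE_tr, dE_tr]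
  simp only [map_sub, map_mul]

theorem pd_tr (i : Fin 4) (c : V) (x : M) : pd i (tr c x) = tr c (pd i x) := by
  rw [← dv_ee, dv_tr, dv_ee]

theorem smul_div (g : G) (x y : M) : g • (x / y) = g • x / g • y :=
  map_div₀ (MulSemiringAction.toRingHom G M g) x y

theorem dv_smul (v : V) (g : G) (x : M) : dv (gv g v) (g • x) = g • dv v x := by
  obtain ⟨F, F', h, rfl⟩ := exists_div x
  rw [dv_div v F F' h, smul_div, smul_div, smul_emb, smul_emb, smul_emb, smul_emb,
    dv_div _ _ _ (fun e => h ((smul_eq_zero_iff_eq g).1 e)), dE_smul, dE_smul]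
  simp only [smul_sub, smul_mul']

/-- the matrix of `df ∧ dg` -/
def wd (f g : M) (i j : Fin 4) : M := pd i f * pd j g - pd j f * pd i g

/-- the value of a matrix on two constant vectors -/
def ap (m : Fin 4 → Fin 4 → M) (v w : V) : M := ∑ i, ∑ j, (v i * w j) • m i j

theorem ap_wd (r f g : M) (v w : V) :
    ap (fun i j => r * wd f g i j) v w = r * (dv v f * dv w g - dv w f * dv v g) := by
  simp only [ap, wd, dv_apply, Fin.sum_univ_four, Algebra.smul_def, map_mul]
  ring

/-- alternating, periodic, invariant matrices -/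
def invM (L : Set V) : AddSubgroup (Fin 4 → Fin 4 → M) where
  carrier := {m | (∀ v, ap m v v = 0) ∧ (∀ l ∈ L, ∀ i j, tr l (m i j) = m i j) ∧
    ∀ (g : G) v w, ap m (gv g v) (gv g w) = g • ap m v w}
  zero_mem' := ⟨by simp [ap], by simp, by simp [ap]⟩
  add_mem' := by
    rintro m n ⟨h1, h2, h3⟩ ⟨k1, k2, k3⟩
    have e (v w : V) : ap (m + n) v w = ap m v w + ap n v w := by
      simp [ap, Finset.sum_add_distrib]
    exact ⟨fun v => by rw [e, h1, k1, add_zero], fun l hl i j => by
      simp [h2 l hl, k2 l hl], fun g v w => by rw [e, e, h3, k3, smul_add]⟩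
  neg_mem' := by
    rintro m ⟨h1, h2, h3⟩
    have e (v w : V) : ap (-m) v w = -ap m v w := by simp [ap, Fin.sum_univ_four]; ring
    exact ⟨fun v => by rw [e, h1, neg_zero], fun l hl i j => by
      simp [h2 l hl], fun g v w => by rw [e, e, h3, smul_neg]⟩

/-- invariant periodic functions -/
def Inv (L : Set V) (x : M) : Prop := (∀ l ∈ L, tr l x = x) ∧ ∀ g : G, g • x = x

theorem wd_mem_invM {L : Set V} {r f g : M} (hr : Inv L r) (hf : Inv L f) (hg : Inv L g) :
    (fun i j => r * wd f g i j) ∈ invM L := by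
  refine ⟨fun v => by rw [ap_wd, sub_self, mul_zero], fun l hl i j => ?_, fun a v w => ?_⟩
  · simp only [wd, map_mul, map_sub, ← pd_tr, hr.1 l hl, hf.1 l hl, hg.1 l hl]
  · simp only [ap_wd, smul_mul', smul_sub, ← dv_smul, hr.2 a, hf.2 a, hg.2 a]

/-- F4 + F5 for matrices -/
theorem eq_sig_of_invM {ι : Type*} [Countable ι] {p : ι → V} {W : ι → Submodule ℂ V}
    (hW : ∀ i, finrank ℂ (W i) ≤ 2) {L K : Set V} (hK : IsCompact K)
    (hL : ∀ z, ∃ l ∈ L, z + l ∈ K) {m : Fin 4 → Fin 4 → M} (hm : m ∈ invM L)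
    (hreg : ∀ b, (∀ i, b - p i ∉ W i) → ∀ i j, m i j ∈ Loc b) :
    ∃ c : ℂ, ∀ i j, m i j = algebraMap ℂ M (c * sig (ee i) (ee j)) := by
  choose a ha using fun i j => const_of_periodic hW hK hL (x := m i j)
    (fun b hb => hreg b hb i j) fun l hl => hm.2.1 l hl i j
  let B : V →ₗ[ℂ] V →ₗ[ℂ] ℂ := Matrix.toBilin' (Matrix.of a)
  have hB (v w : V) : ap m v w = algebraMap ℂ M (B v w) := by
    simp only [ap, ha, B, Matrix.toBilin'_apply, map_sum, Matrix.of_apply, Algebra.smul_def,
      map_mul]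
    refine Finset.sum_congr rfl fun i _ => Finset.sum_congr rfl fun j _ => by ring
  obtain ⟨c, hc⟩ := eq_smul_sig B
    (fun z => (algebraMap ℂ M).injective (by rw [← hB, hm.1, map_zero]))
    fun g z w => (algebraMap ℂ M).injective (by rw [← hB, hm.2.2, hB, smul_const])
  refine ⟨c, fun i j => ?_⟩
  rw [← hc, ha]
  simp [B, ee]

/-- the two-forms generated by a set of functions -/
def stM (R : Set M) : AddSubgroup (Fin 4 → Fin 4 → M) :=
  AddSubgroup.closure {n | ∃ r ∈ R, ∃ f ∈ R, ∃ g ∈ R, n = fun i j => r * wd f g i j}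

theorem stM_le_invM {L : Set V} {R : Set M} (hR : ∀ x ∈ R, Inv L x) : stM R ≤ invM L :=
  (AddSubgroup.closure_le _).2 (by
    rintro _ ⟨r, hr, f, hf, g, hg, rfl⟩
    exact wd_mem_invM (hR r hr) (hR f hf) (hR g hg))

theorem stM_reg {R : Set M} {b : V} (hR : ∀ x ∈ R, x ∈ Loc b) {m : Fin 4 → Fin 4 → M}
    (hm : m ∈ stM R) (i j : Fin 4) : m i j ∈ Loc b := by
  induction hm using AddSubgroup.closure_induction with
  | mem n hn =>
    obtain ⟨r, hr, f, hf, g, hg, rfl⟩ := hn
    exact mul_mem (hR r hr) (sub_mem (mul_mem (pd_mem (hR f hf) i) (pd_mem (hR g hg) j))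
      (mul_mem (pd_mem (hR f hf) j) (pd_mem (hR g hg) i)))
  | zero => exact zero_mem _
  | add x y _ _ hx hy => exact add_mem hx hy
  | neg x _ hx => exact neg_mem hx

/-- F4 + F5: a two-form that lies, for every `b` off the subspaces, in the span of forms built
from invariant periodic functions regular at `b`, is a constant multiple of `σ` -/
theorem eq_sig {ι : Type*} [Countable ι] {p : ι → V} {W : ι → Submodule ℂ V}
    (hW : ∀ i, finrank ℂ (W i) ≤ 2) {L K : Set V} (hK : IsCompact K)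
    (hL : ∀ z, ∃ l ∈ L, z + l ∈ K) {m : Fin 4 → Fin 4 → M}
    (hm : ∀ b, (∀ i, b - p i ∉ W i) →
      ∃ R : Set M, (∀ x ∈ R, Inv L x ∧ x ∈ Loc b) ∧ m ∈ stM R) :
    ∃ c : ℂ, ∀ i j, m i j = algebraMap ℂ M (c * sig (ee i) (ee j)) := by
  obtain ⟨a, ha⟩ := (dense_avC p W fun i e => by
    have := hW i
    rw [e, finrank_top] at this
    simp at this).nonempty
  obtain ⟨R, hR, hmR⟩ := hm a ha
  refine eq_sig_of_invM (p := p) hW hK hL (stM_le_invM (fun x hx => (hR x hx).1) hmR) fun b hb => ?_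
  obtain ⟨R, hR, hmR⟩ := hm b hb
  exact stM_reg (fun x hx => (hR x hx).2) hmR

end

end Pool.Agent.Lib.MP_d3d358_ag.Var.TwoF
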