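import Pool.Agent.Lib.MP_d3d358_ag.Var.KD
import Pool.Agent.Lib.MP_d3d358_ag.Var.TwoF
import Pool.Agent.Lib.MP_d3d358_ag.Th.Jet

/-! Derivatives of quotients of theta functions; quotients with prescribed values and
differentials at finitely many points. -/

set_option autoImplicit false

namespace Pool.Agent.Lib.MP_d3d358_ag.Var

open Pool.Agent.Lib.MP_d3d358_ag.G (Sf lat3)
open Pool.Agent.Lib.MP_d3d358_ag.Th (Theta aut)
open TwoF (dv dE ee dE_apply dv_div dv_ee dv_apply dv_smul dv_emb dv_mem)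

noncomputable section

theorem Ent.pd_comm (i k : Fin 4) (F : Ent) :
    Ent.pd i (Ent.pd k F) = Ent.pd k (Ent.pd i F) := Ent.ext fun z => by
  have key : ∀ i k : Fin 4, (Ent.pd i (Ent.pd k F)).1 z =
      fderiv ℂ (fderiv ℂ F.1) z (Pi.single i 1) (Pi.single k 1) := fun i k => by
    change fderiv ℂ (fun z => fderiv ℂ F.1 z (Pi.single k 1)) z _ = _
    rw [fderiv_clm_apply (F.an z).fderiv.differentiableAt (differentiableAt_const _)]
    simp
  rw [key, key]
  exact (F.an z).contDiffAt.isSymmSndFDerivAt_of_omega _ _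

/-- a derivation of `M` that kills the entire functions is zero -/
theorem der_eq_zero (D : Derivation ℂ M M) (h : ∀ F, D (emb F) = 0) (x : M) : D x = 0 := by
  obtain ⟨F, F', h0, rfl⟩ := exists_div x
  have e := D.leibniz (emb F / emb F') (emb F')
  rw [div_mul_cancel₀ _ (emb_ne h0), h, h, smul_zero, zero_add, smul_eq_mul] at e
  exact (mul_eq_zero.1 e.symm).resolve_left (emb_ne h0)

theorem pd_comm (i k : Fin 4) (x : M) : pd i (pd k x) = pd k (pd i x) :=
  sub_eq_zero.1 (der_eq_zero ⁅pd i, pd k⁆ (fun F => by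
    simp [Derivation.commutator_apply, Ent.pd_comm i k]) x)

theorem pd_smul (g : G) (k : Fin 4) (x : M) :
    pd k (g • x) = ∑ m, gv g⁻¹ (Pi.single k 1 : V) m • g • pd m x := by
  have := dv_smul (gv g⁻¹ (ee k)) g x
  rw [gv_gv_inv, dv_ee, dv_apply, Finset.smul_sum] at this
  simpa only [smul_comm g] using this

/-- the restriction of a derivation to a stable subalgebra -/
def resD (T : Subalgebra ℂ M) (D : Derivation ℂ M M) (h : ∀ x ∈ T, D x ∈ T) : Derivation ℂ T T :=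
  Derivation.mk'
    { toFun := fun x => ⟨D x.1, h _ x.2⟩
      map_add' := fun x y => Subtype.ext (D.map_add x.1 y.1)
      map_smul' := fun c x => Subtype.ext (D.map_smul c x.1) }
    fun x y => Subtype.ext (D.leibniz x.1 y.1)

@[simp] theorem coe_resD (T : Subalgebra ℂ M) (D : Derivation ℂ M M) (h : ∀ x ∈ T, D x ∈ T)
    (x : T) : (resD T D h x).1 = D x.1 := rfl

variable {A : Sf}

theorem dE_add_lam {j : ℕ} {F : Ent} (hF : F ∈ R A j) {l : V} (hl : l ∈ Lam A) (v z : V) :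
    (dE v F).1 (z + l) = aut (j * A.k) l z * (dE v F).1 z +
      F.1 z * fderiv ℂ (aut (j * A.k) l) z v := by
  have e : (fun z => F.1 (z + l)) = fun z => aut (j * A.k) l z * F.1 z := funext (hF l hl)
  rw [dE_apply, dE_apply, ← fderiv_comp_add_right, e,
    fderiv_fun_mul (Th.differentiable_aut _ l z) (F.diff z)]
  rfl

/-- the Wronskian of two theta functions of the same degree is a theta function -/
theorem wron_mem {j : ℕ} {F E : Ent} (hF : F ∈ R A j) (hE : E ∈ R A j) (v : V) :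
    E * dE v F - F * dE v E ∈ R A (j + j) := fun l hl z => by
  simp only [Ent.sub_apply, Ent.mul_apply, dE_add_lam hF hl, dE_add_lam hE hl, hF l hl, hE l hl,
    Nat.cast_add, add_mul, Th.aut_add]
  ring

theorem dv_mem_quo {B : Set V} {x : M} (hx : x ∈ quo A B) (v : V) : dv v x ∈ quo A B := by
  obtain ⟨j, F, hF, E, hE, h0, h, rfl⟩ := hx
  exact ⟨j + j, _, wron_mem hF hE v, _, mul_mem_R hE hE, mul_ne_zero h0 h0,
    fun b hb => mul_ne_zero (h b hb) (h b hb), dv_div v F E h0⟩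

theorem pd_mem_quo {B : Set V} {x : M} (hx : x ∈ quo A B) (i : Fin 4) : pd i x ∈ quo A B :=
  dv_ee i x ▸ dv_mem_quo hx _

theorem val_add_lam {B : Set V} {x : M} (hx : x ∈ quo A B) {b : V} (hb : b ∈ B) {l : V}
    (hl : l ∈ Lam A) : x ∈ Loc (b + l) ∧ val x (b + l) = val x b := by
  obtain ⟨j, F, hF, E, hE, -, h, rfl⟩ := hx
  have h1 : E.1 (b + l) ≠ 0 := by
    rw [hE l hl]; exact mul_ne_zero (Th.aut_ne _ _ _) (h b hb)
  exact ⟨div_mem_Loc F h1, by
    rw [val_div F h1, val_div F (h b hb), hF l hl, hE l hl, mul_div_mul_left _ _ (Th.aut_ne _ _ _)]⟩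

theorem val_of_sub_mem {B : Set V} {x : M} (hx : x ∈ quo A B) {b b' : V} (hb : b ∈ B)
    (h : b' - b ∈ Lam A) : val x b' = val x b := by
  simpa using (val_add_lam hx hb h).2

theorem inv_mem_quo {B : Set V} {x : M} (hx : x ∈ quo A B) (h0 : x ≠ 0)
    (h : ∀ b ∈ B, val x b ≠ 0) : x⁻¹ ∈ quo A B := by
  obtain ⟨j, F, hF, E, hE, -, k, rfl⟩ := hx
  refine ⟨j, E, hE, F, hF, fun e => h0 (by rw [e, map_zero, zero_div]), fun b hb e => h b hb ?_,
    inv_div _ _⟩
  rw [val_div F (k b hb), e, zero_div]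

theorem even_Lam (m : ℕ) (l l' : (lat3 A.toLat).L) :
    Complex.exp (Real.pi * Complex.I * (((m : ℝ) * A.k) * Th.alt (l : V) l' : ℝ)) = 1 := by
  obtain ⟨n, hn⟩ := A.cr.k_even l l.2 l' l'.2
  have : ((m : ℝ) * A.k) * Th.alt (l : V) l' = 2 * (m * n : ℤ) := by
    rw [mul_assoc, hn]; push_cast; ring
  rw [this, ← Complex.exp_int_mul_two_pi_mul_I (m * n)]
  congr 1
  push_cast
  ring

/-- theta functions of high degree with prescribed values and differentials -/
theorem exists_jets_R (S : Finset V) (hS : ∀ a ∈ S, ∀ b ∈ S, a - b ∈ Lam A → a = b) :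
    ∃ m₀ : ℕ, ∀ m, m₀ ≤ m → ∀ (v : V → ℂ) (D : V → (V →L[ℂ] ℂ)),
      ∃ F ∈ R A m, ∀ a ∈ S, F.1 a = v a ∧ fderiv ℂ F.1 a = D a := by
  obtain ⟨d, hd⟩ := Th.exists_jets (lat3 A.toLat) S hS
  refine ⟨⌈d⌉₊, fun m hm v D => ?_⟩
  have k1 : (1 : ℝ) ≤ A.k := by exact_mod_cast A.k_pos
  obtain ⟨f, hf, h⟩ := hd ((m : ℝ) * A.k) (by
    have : d ≤ m := (Nat.le_ceil d).trans (by exact_mod_cast hm)
    nlinarith [Nat.cast_nonneg (α := ℝ) m]) (even_Lam m) v D
  exact ⟨⟨f, hf.1⟩, hf.2, h⟩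

/-- quotients with prescribed values and differentials on a finite set `B`; the denominator is a
power of any given `H` without zero on `B` -/
theorem exists_jets_quo (B : Finset V) {H : Ent} (hH : H ∈ R A 1) (h0 : H ≠ 0)
    (hB : ∀ b ∈ B, H.1 b ≠ 0) : ∃ m₀ : ℕ, ∀ m, m₀ ≤ m → ∀ (w : V → ℂ) (D : V → (V →L[ℂ] ℂ)),
      (∀ a ∈ B, ∀ a' ∈ B, a - a' ∈ Lam A → w a = w a' ∧ D a = D a') →
      ∃ F ∈ R A m, ∀ a ∈ B, val (emb F / emb (H ^ m)) a = w a ∧
        ∀ v, val (dv v (emb F / emb (H ^ m))) a = D a v := by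
  classical
  let rep : V → V := fun a => Classical.epsilon fun a' => a' ∈ B ∧ a' - a ∈ Lam A
  have hrep : ∀ a ∈ B, rep a ∈ B ∧ rep a - a ∈ Lam A := fun a ha =>
    Classical.epsilon_spec (p := fun a' => a' ∈ B ∧ a' - a ∈ Lam A) ⟨a, ha, by simp⟩
  obtain ⟨m₀, hm₀⟩ := exists_jets_R (A := A) (B.image rep) (by
    simp only [Finset.mem_image]
    rintro _ ⟨a, ha, rfl⟩ _ ⟨a', ha', rfl⟩ h
    have e : a - a' ∈ Lam A := by
      convert add_mem (sub_mem h (hrep a ha).2) (hrep a' ha').2 using 1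
      abel
    refine congrArg Classical.epsilon (funext fun c => propext (and_congr_right fun _ => ?_))
    exact ⟨fun k => by simpa using add_mem k e, fun k => by simpa using sub_mem k e⟩)
  refine ⟨m₀, fun m hm w D hw => ?_⟩
  obtain ⟨F, hF, h⟩ := hm₀ m hm (fun a => w a * (H ^ m).1 a)
    fun a => w a • fderiv ℂ (H ^ m).1 a + (H ^ m).1 a • D a
  have hHm : H ^ m ∈ R A m := by simpa using pow_mem_R hH m
  have hne : ∀ b ∈ B, (H ^ m).1 b ≠ 0 := fun b hb => by
    rw [Ent.pow_apply]; exact pow_ne_zero _ (hB b hb)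
  have hx : emb F / emb (H ^ m) ∈ quo A B := ⟨m, F, hF, _, hHm, pow_ne_zero _ h0, hne, rfl⟩
  refine ⟨F, hF, fun a ha => ?_⟩
  obtain ⟨r1, r2⟩ := hrep a ha
  obtain ⟨e1, e2⟩ := h _ (Finset.mem_image_of_mem rep ha)
  obtain ⟨w1, w2⟩ := hw _ r1 _ ha r2
  have n1 := hne _ r1
  refine ⟨by rw [← val_of_sub_mem hx ha r2, val_div F n1, e1, w1, mul_div_cancel_right₀ _ n1],
    fun v => ?_⟩
  rw [← val_of_sub_mem (dv_mem_quo hx v) ha r2, dv_div v F _ (pow_ne_zero _ h0),
    val_div _ (F' := H ^ m * H ^ m) (mul_ne_zero n1 n1), Ent.sub_apply, Ent.mul_apply,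
    Ent.mul_apply, Ent.mul_apply, dE_apply, dE_apply, e1, e2, ← w2]
  simp only [add_apply, smul_apply, smul_eq_mul]
  field_simp
  ring

end

end Pool.Agent.Lib.MP_d3d358_ag.Var
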