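import Pool.Agent.Lib.MP_d3d358_ag.Var.Grp

/-! Local structure of a quotient by `G`: a semilocal ring with equivariant coordinates is
generated by the coordinates over its invariants. -/

set_option autoImplicit false

namespace Pool.Agent.Lib.MP_d3d358_ag.Var

open MvPolynomial

noncomputable section

theorem exists_delta {σ : Type} (S : Finset (σ → ℂ)) (w : σ → ℂ) :
    ∃ e : MvPolynomial σ ℂ, aeval w e = 1 ∧ ∀ w' ∈ S, w' ≠ w → aeval w' e = 0 := by
  classical
  induction S using Finset.induction_on with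
  | empty => exact ⟨1, map_one _, by simp⟩
  | insert a S _ ih =>
    obtain ⟨e, h1, h0⟩ := ih
    by_cases ha : a = w
    · exact ⟨e, h1, fun w' hw ne => h0 w' ((Finset.mem_insert.1 hw).resolve_left
        fun c => ne (c.trans ha)) ne⟩
    obtain ⟨k, hk⟩ := Function.ne_iff.1 ha
    refine ⟨e * (C (w k - a k)⁻¹ * (X k - C (a k))), ?_, fun w' hw ne => ?_⟩
    · rw [map_mul, h1]; simp [inv_mul_cancel₀ (sub_ne_zero.2 hk.symm)]
    · rcases Finset.mem_insert.1 hw with rfl | hw
      · simp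
      · rw [map_mul, h0 w' hw ne, zero_mul]

theorem exists_interp {σ : Type} (S : Finset (σ → ℂ)) (c : (σ → ℂ) → ℂ) :
    ∃ p : MvPolynomial σ ℂ, ∀ w ∈ S, aeval w p = c w := by
  classical
  choose e h1 h0 using exists_delta S
  refine ⟨∑ w ∈ S, C (c w) * e w, fun w hw => ?_⟩
  rw [map_sum, Finset.sum_eq_single w (fun a _ ne => by
    rw [map_mul, h0 a w hw ne.symm, mul_zero]) fun c => absurd hw c, map_mul, h1]
  simp

/-- polynomials in the four coordinates -/
abbrev P4 : Type := MvPolynomial (Fin 4) ℂ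

/-- substitution `p ↦ p ∘ g` -/
def rho (g : G) : P4 →ₐ[ℂ] P4 := aeval (gv g X)

theorem aeval_rho {A : Type} [CommRing A] [Algebra ℂ A] (t : Fin 4 → A) (g : G) (p : P4) :
    aeval t (rho g p) = aeval (gv g t) p := by
  have : (aeval t : P4 →ₐ[ℂ] A).comp (rho g) = aeval (gv g t) := algHom_ext fun i => by
    have := gv_map (aeval t : P4 →ₐ[ℂ] A).toLinearMap g X i
    simpa [rho] using this
  exact DFunLike.congr_fun this p

theorem rho_rho (g h : G) (p : P4) : rho g (rho h p) = rho (h * g) p := by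
  rw [rho, aeval_rho, ← gv_mul]; rfl

/-- polynomials vanishing on the orbit of `v` -/
def orbI (v : V) : Ideal P4 := vanishingIdeal ℂ (Set.range fun g => gv g v)

theorem mem_orbI {v : V} {p : P4} : p ∈ orbI v ↔ ∀ g, aeval (gv g v) p = 0 :=
  mem_vanishingIdeal_iff.trans Set.forall_mem_range

/-- invariant polynomials vanishing at `v` -/
def invI (v : V) : Set P4 := {p | (∀ g, rho g p = p) ∧ aeval v p = 0}

theorem exists_pow_orbI (v : V) : ∃ r, orbI v ^ r ≤ Ideal.span (invI v) := by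
  classical
  refine Ideal.exists_pow_le_of_le_radical_of_fg ?_ (IsNoetherian.noetherian _)
  rw [← vanishingIdeal_zeroLocus_eq_radical (K := ℂ)]
  refine vanishingIdeal_anti_mono fun w hw => ?_
  by_contra hn
  obtain ⟨p, hp⟩ := exists_interp (insert v (Finset.univ.image fun g => gv g w))
    fun z => if z = v then 0 else 1
  have h0 := hw (∏ g, rho g p) (Ideal.subset_span ⟨fun h => ?_, ?_⟩)
  · rw [map_prod, Finset.prod_eq_zero_iff] at h0
    obtain ⟨g, -, hg⟩ := h0
    rw [aeval_rho, hp _ (by simp), if_neg fun c => hn ⟨g⁻¹, by simp [← c]⟩] at hg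
    exact one_ne_zero hg
  · rw [map_prod]
    simp only [rho_rho]
    exact Fintype.prod_equiv (Equiv.mulRight h) _ _ fun _ => rfl
  · rw [map_prod]
    exact Finset.prod_eq_zero (Finset.mem_univ 1) (by rw [aeval_rho, gv_one, hp _ (by simp)]; simp)

variable {T : Type} [CommRing T] [Algebra ℂ T] [MulSemiringAction G T] [SMulCommClass G ℂ T]

/-- equivariant coordinates `t` along the orbit of the point `ev` -/
structure Coord (ev : T →ₐ[ℂ] ℂ) (t : Fin 4 → T) : Prop where
  eqv : ∀ (g : G) i, g • t i = gv g⁻¹ t i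
  sep : ∀ g : G, (gv g fun i => ev (t i)) = (fun i => ev (t i)) → ∀ x, ev (g • x) = ev x
  gen : ∀ x, ev x = 0 → ∃ s, ev s ≠ 0 ∧
    s * x ∈ Ideal.span (Set.range fun i => t i - algebraMap ℂ T (ev (t i)))
  unit : ∀ x, (∀ g : G, g • x = x) → ev x ≠ 0 → IsUnit x

/-- functions vanishing on the orbit -/
def orbJ (ev : T →ₐ[ℂ] ℂ) : Ideal T :=
  ⨅ g : G, RingHom.ker (ev.comp (MulSemiringAction.toAlgHom ℂ T g))

theorem mem_orbJ {ev : T →ₐ[ℂ] ℂ} {x : T} : x ∈ orbJ ev ↔ ∀ g : G, ev (g • x) = 0 := by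
  simp [orbJ, RingHom.mem_ker]

namespace Coord

variable {ev : T →ₐ[ℂ] ℂ} {t : Fin 4 → T} (h : Coord ev t)
include h

theorem smul_aeval (g : G) (p : P4) : g • aeval t p = aeval t (rho g⁻¹ p) := by
  have : (MulSemiringAction.toAlgHom ℂ T g).comp (aeval t) = aeval (gv g⁻¹ t) :=
    algHom_ext fun i => by simpa using h.eqv g i
  rw [aeval_rho]
  exact DFunLike.congr_fun this p

omit h [MulSemiringAction G T] [SMulCommClass G ℂ T] in
theorem ev_aeval (p : P4) : ev (aeval t p) = aeval (fun i => ev (t i)) p :=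
  DFunLike.congr_fun (comp_aeval t ev) p

theorem ev_smul_aeval (g : G) (p : P4) :
    ev (g • aeval t p) = aeval (gv g⁻¹ fun i => ev (t i)) p := by
  rw [h.smul_aeval, ev_aeval, aeval_rho]

omit [SMulCommClass G ℂ T] in
theorem isUnit {s : T} (hs : ∀ g : G, ev (g • s) ≠ 0) : IsUnit s := by
  have : IsUnit (∏ g : G, g • s) := h.unit _ (fun k => by
    rw [Finset.smul_prod']
    exact Fintype.prod_equiv (Equiv.mulLeft k) _ _ fun g => by simp [mul_smul]) (by
    rw [map_prod]; exact Finset.prod_ne_zero_iff.2 fun g _ => hs g)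
  exact isUnit_of_dvd_unit (by
    simpa using Finset.dvd_prod_of_mem (fun g : G => g • s) (Finset.mem_univ 1)) this

theorem smul_mem_map {x : T} (hx : x ∈ (orbI fun i => ev (t i)).map (aeval t)) (g : G) :
    g • x ∈ (orbI fun i => ev (t i)).map (aeval t) := by
  induction hx using Submodule.span_induction with
  | mem _ hx =>
    obtain ⟨p, hp, rfl⟩ := hx
    rw [h.smul_aeval]
    exact Ideal.mem_map_of_mem _ (mem_orbI.2 fun k => by
      rw [aeval_rho, ← gv_mul]; exact mem_orbI.1 hp _)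
  | zero => simp
  | add a b _ _ ha hb => rw [smul_add]; exact add_mem ha hb
  | smul a b _ hb => rw [smul_eq_mul, smul_mul']; exact Ideal.mul_mem_left _ _ hb

omit [SMulCommClass G ℂ T] in
theorem gen' {x : T} (hx : ev x = 0) :
    ∃ s, ev s ≠ 0 ∧ s * x ∈ (orbI fun i => ev (t i)).map (aeval t) := by
  classical
  obtain ⟨s, hs, hm⟩ := h.gen x hx
  obtain ⟨e, h1, h0⟩ := exists_delta (Finset.univ.image fun g => gv g fun i => ev (t i))
    fun i => ev (t i)
  refine ⟨aeval t e * s, by rw [map_mul, ev_aeval, h1, one_mul]; exact hs, ?_⟩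
  obtain ⟨c, hc⟩ := Ideal.mem_span_range_iff_exists_fun.1 hm
  rw [mul_assoc, ← hc, Finset.mul_sum]
  refine sum_mem fun i _ => ?_
  have : e * (X i - C (ev (t i))) ∈ orbI fun i => ev (t i) := mem_orbI.2 fun g => by
    by_cases c : (gv g fun i => ev (t i)) = fun i => ev (t i)
    · rw [c]; simp
    · rw [map_mul, h0 _ (by simp) c, zero_mul]
  have := Ideal.mul_mem_left _ (c i) (Ideal.mem_map_of_mem (aeval t) this)
  simpa [mul_left_comm] using this

theorem orbJ_eq : orbJ ev = (orbI fun i => ev (t i)).map (aeval t) := by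
  refine le_antisymm (fun x hx => ?_) (Ideal.map_le_iff_le_comap.2 fun p hp => mem_orbJ.2 fun g => by
    rw [h.ev_smul_aeval]; exact mem_orbI.1 hp _)
  let c : Ideal T := Submodule.colon ((orbI fun i => ev (t i)).map (aeval t)) {x}
  have hc : ∀ s, s ∈ c ↔ s * x ∈ (orbI fun i => ev (t i)).map (aeval t) := fun s => by
    simp [c, Submodule.mem_colon]
  by_contra hn
  have : (c : Set T) ⊆ ⋃ g ∈ (↑(Finset.univ : Finset G) : Set G),
      ↑(RingHom.ker (ev.comp (MulSemiringAction.toAlgHom ℂ T g))) := fun s hs => by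
    by_contra hs'
    have u : IsUnit s := h.isUnit fun g e => hs' (by
      simp only [Set.mem_iUnion]; exact ⟨g, by simp, e⟩)
    exact hn ((Ideal.unit_mul_mem_iff_mem _ u).1 ((hc s).1 hs))
  obtain ⟨g, -, hg⟩ := (Ideal.subset_union_prime (1 : G) 1
    fun g _ _ _ => RingHom.ker_isPrime _).1 this
  obtain ⟨s, hs, hm⟩ := h.gen' (mem_orbJ.1 hx g)
  have := hg ((hc (g⁻¹ • s)).2 (by simpa [smul_mul'] using h.smul_mem_map hm g⁻¹))
  exact hs (by simpa [RingHom.mem_ker] using this)

theorem exists_sub_mem (x : T) : ∃ p : P4, x - aeval t p ∈ orbJ ev := by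
  classical
  obtain ⟨p, hp⟩ := exists_interp (Finset.univ.image fun g => gv g fun i => ev (t i))
    fun w => if c : ∃ g : G, (gv g⁻¹ fun i => ev (t i)) = w then ev (c.choose • x) else 0
  refine ⟨p, mem_orbJ.2 fun g => ?_⟩
  have c : ∃ k : G, (gv k⁻¹ fun i => ev (t i)) = gv g⁻¹ fun i => ev (t i) := ⟨g, rfl⟩
  rw [smul_sub, map_sub, h.ev_smul_aeval, hp _ (by simp), dif_pos c, sub_eq_zero]
  have := h.sep (g * c.choose⁻¹) (by rw [gv_mul, c.choose_spec, gv_gv_inv]) (c.choose • x)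
  rwa [← mul_smul, inv_mul_cancel_right] at this

theorem exists_sub_mem_pow (r : ℕ) (x : T) :
    ∃ p : P4, x - aeval t p ∈ ((orbI fun i => ev (t i)) ^ r).map (aeval t) := by
  have step : ∀ r, ∀ y ∈ ((orbI fun i => ev (t i)) ^ r).map (aeval t),
      ∃ p ∈ (orbI fun i => ev (t i)) ^ r,
        y - aeval t p ∈ ((orbI fun i => ev (t i)) ^ (r + 1)).map (aeval t) := fun r y hy => by
    induction hy using Submodule.span_induction with
    | mem _ hx => obtain ⟨p, hp, rfl⟩ := hx; exact ⟨p, hp, by simp⟩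
    | zero => exact ⟨0, zero_mem _, by simp⟩
    | add a b _ _ ha hb =>
      obtain ⟨p, hp, ha⟩ := ha
      obtain ⟨q, hq, hb⟩ := hb
      exact ⟨p + q, add_mem hp hq, by rw [map_add, add_sub_add_comm]; exact add_mem ha hb⟩
    | smul a b _ hb =>
      obtain ⟨p, hp, hb⟩ := hb
      obtain ⟨q, hq⟩ := h.exists_sub_mem a
      refine ⟨q * p, Ideal.mul_mem_left _ _ hp, ?_⟩
      have : a • b - aeval t (q * p) = a * (b - aeval t p) + aeval t p * (a - aeval t q) := by
        rw [map_mul, smul_eq_mul]; ring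
      rw [this]
      refine add_mem (Ideal.mul_mem_left _ _ hb) ?_
      rw [pow_succ, Ideal.map_mul]
      exact Ideal.mul_mem_mul (Ideal.mem_map_of_mem _ hp) (h.orbJ_eq ▸ hq)
  induction r with
  | zero => exact ⟨0, by simp [Ideal.map_top]⟩
  | succ r ih =>
    obtain ⟨p, hp⟩ := ih
    obtain ⟨q, -, hq⟩ := step r _ hp
    exact ⟨p + q, by rwa [map_add, ← sub_sub]⟩

/-- `J ^ r ≤ I T` -/
theorem exists_pow_le : ∃ r, orbJ ev ^ r ≤ Ideal.span (aeval t '' invI fun i => ev (t i)) := by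
  obtain ⟨r, hr⟩ := exists_pow_orbI fun i => ev (t i)
  exact ⟨r, by rw [h.orbJ_eq, ← Ideal.map_pow, ← Ideal.map_span]; exact Ideal.map_mono hr⟩

/-- `T = t^* P + I T` -/
theorem exists_sub_mem_inv (x : T) :
    ∃ p : P4, x - aeval t p ∈ Ideal.span (aeval t '' invI fun i => ev (t i)) := by
  obtain ⟨r, hr⟩ := exists_pow_orbI fun i => ev (t i)
  obtain ⟨p, hp⟩ := h.exists_sub_mem_pow r x
  exact ⟨p, by rw [← Ideal.map_span]; exact Ideal.map_mono hr hp⟩

omit h in
/-- the average over `G` -/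
theorem exists_avg : ∃ ρ : T →ₗ[ℂ] T, (∀ x (g : G), g • ρ x = ρ x) ∧
    (∀ a x, (∀ g : G, g • a = a) → ρ (a * x) = a * ρ x) ∧
    (∀ a, (∀ g : G, g • a = a) → ρ a = a) ∧ ∀ x, ρ x = (6 : ℂ)⁻¹ • ∑ g : G, g • x := by
  let ρ : T →ₗ[ℂ] T := (6 : ℂ)⁻¹ • ∑ g : G, (MulSemiringAction.toAlgHom ℂ T g).toLinearMap
  have e : ∀ x, ρ x = (6 : ℂ)⁻¹ • ∑ g : G, g • x := fun x => by simp [ρ, LinearMap.sum_apply]
  refine ⟨ρ, fun x k => ?_, fun a x ha => ?_, fun a ha => ?_, e⟩
  · rw [e, smul_comm, Finset.smul_sum]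
    congr 1
    exact Fintype.sum_equiv (Equiv.mulLeft k) _ _ fun g => by simp [mul_smul]
  · simp only [e, smul_mul', ha, ← Finset.mul_sum, mul_smul_comm]
  · simp only [e, ha, Finset.sum_const, Finset.card_univ, DihedralGroup.card]
    rw [← Nat.cast_smul_eq_nsmul ℂ, smul_smul]
    norm_num

theorem smul_inv {p : P4} (hp : ∀ g, rho g p = p) (g : G) : g • aeval t p = aeval t p := by
  rw [h.smul_aeval, hp]

variable {O : Type} [CommRing O] [Algebra O T]
  (hO : ∀ x : T, x ∈ (algebraMap O T).range ↔ ∀ g : G, g • x = x)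
include hO

/-- `m_O = I O` -/
theorem mem_span_inv {x : T} (hx : ∀ g : G, g • x = x) (h0 : ev x = 0) :
    x ∈ Submodule.span O (aeval t '' invI fun i => ev (t i)) := by
  obtain ⟨ρ, r1, r2, r3, r4⟩ := exists_avg (T := T)
  have key : ∀ y ∈ Ideal.span (aeval t '' invI fun i => ev (t i)), ∀ a,
      ρ (a * y) ∈ Submodule.span O (aeval t '' invI fun i => ev (t i)) := fun y hy => by
    induction hy using Submodule.span_induction with
    | mem y hy =>
      intro a
      obtain ⟨o, ho⟩ := (hO (ρ a)).2 (r1 a)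
      have hy' := hy
      obtain ⟨p, hp, rfl⟩ := hy'
      rw [mul_comm, r2 _ _ (h.smul_inv hp.1), ← ho, mul_comm, ← Algebra.smul_def]
      exact Submodule.smul_mem _ _ (Submodule.subset_span hy)
    | zero => simp
    | add y z _ _ hy hz => intro a; rw [mul_add, map_add]; exact add_mem (hy a) (hz a)
    | smul b y _ hy => intro a; rw [smul_eq_mul, ← mul_assoc]; exact hy _
  have ev0 : ∀ y ∈ Submodule.span O (aeval t '' invI fun i => ev (t i)), ev y = 0 := fun y hy => by
    induction hy using Submodule.span_induction with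
    | mem y hy => obtain ⟨p, hp, rfl⟩ := hy; rw [ev_aeval, hp.2]
    | zero => simp
    | add y z _ _ hy hz => rw [map_add, hy, hz, add_zero]
    | smul b y _ hy => rw [Algebra.smul_def, map_mul, hy, mul_zero]
  obtain ⟨p, hp⟩ := h.exists_sub_mem_inv x
  have h1 := key _ hp 1
  obtain ⟨q, hq⟩ : ∃ q : P4, q = (6 : ℂ)⁻¹ • ∑ g : G, rho g⁻¹ p := ⟨_, rfl⟩
  have e : ρ (aeval t p) = aeval t q := by simp only [r4, hq, map_smul, map_sum, h.smul_aeval]
  rw [one_mul, map_sub, r3 x hx, e] at h1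
  have h2 := ev0 _ h1
  rw [map_sub, h0, zero_sub, neg_eq_zero, ev_aeval] at h2
  rw [← sub_add_cancel x (aeval t q)]
  refine add_mem h1 (Submodule.subset_span ⟨q, ⟨fun k => ?_, h2⟩, rfl⟩)
  rw [hq, map_smul, map_sum]
  congr 1
  exact Fintype.sum_equiv (Equiv.mulLeft k⁻¹) _ _ fun g => by simp [rho_rho]

/-- `T = O · t^* P` -/
theorem mem_span_range [Module.Finite O T]
    (hU : ∀ o : O, ev (algebraMap O T o) ≠ 0 → IsUnit o) (x : T) :
    x ∈ Submodule.span O (Set.range (aeval t : P4 →ₐ[ℂ] T)) := by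
  let m : Ideal O := RingHom.ker ((ev : T →+* ℂ).comp (algebraMap O T))
  have hm : ∀ o, o ∈ m ↔ ev (algebraMap O T o) = 0 := fun o => RingHom.mem_ker
  refine Submodule.le_of_le_smul_of_le_jacobson_bot (I := m) (N' := ⊤) Module.Finite.fg_top
    (fun o ho => Ideal.mem_jacobson_bot.2 fun y => hU _ (by simp [(hm o).1 ho])) (fun y _ => ?_)
    Submodule.mem_top
  obtain ⟨p, hp⟩ := h.exists_sub_mem_inv y
  rw [← add_sub_cancel (aeval t p) y]
  refine Submodule.add_mem_sup (Submodule.subset_span ⟨p, rfl⟩) ?_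
  have key : ∀ y ∈ Ideal.span (aeval t '' invI fun i => ev (t i)), ∀ a,
      a * y ∈ m • (⊤ : Submodule O T) := fun y hy => by
    induction hy using Submodule.span_induction with
    | mem y hy =>
      intro a
      obtain ⟨p, hp, rfl⟩ := hy
      obtain ⟨o, ho⟩ := (hO _).2 (h.smul_inv hp.1)
      rw [← ho, mul_comm, ← Algebra.smul_def]
      exact Submodule.smul_mem_smul ((hm o).2 (by rw [ho, ev_aeval, hp.2])) trivial
    | zero => simp
    | add y z _ _ hy hz => intro a; rw [mul_add]; exact add_mem (hy a) (hz a)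
    | smul b y _ hy => intro a; rw [smul_eq_mul, ← mul_assoc]; exact hy _
  simpa using key _ hp 1

end Coord

end

end Pool.Agent.Lib.MP_d3d358_ag.Var
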