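import Pool.Agent.Lib.MP_d3d358_ag.Var.Mer
import Pool.Agent.Lib.MP_d3d358_ag.Var.Q2

/-! The structure theorem `Q2` for `G`-stable algebras of meromorphic functions. -/

set_option autoImplicit false

namespace Pool.Agent.Lib.MP_d3d358_ag.Var

open MvPolynomial

noncomputable section

theorem q2_smul_mem_Loc {x : M} {b : V} (g : G) (hx : x ∈ Loc (gv g⁻¹ b)) : g • x ∈ Loc b := by
  obtain ⟨F, F', h, rfl⟩ := hx
  exact ⟨g • F, g • F', h, by rw [smul_div₀', smul_emb, smul_emb]⟩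

theorem q2_val_smul {x : M} {b : V} (g : G) (hx : x ∈ Loc (gv g⁻¹ b)) :
    val (g • x) b = val x (gv g⁻¹ b) := by
  obtain ⟨F, F', h, rfl⟩ := hx
  rw [smul_div₀', smul_emb, smul_emb, val_div _ (F' := g • F') h, val_div _ h]
  rfl

/-- the action on a stable subalgebra -/
@[reducible] def subAct (T : Subalgebra ℂ M) (hG : ∀ (g : G), ∀ x ∈ T, g • x ∈ T) :
    MulSemiringAction G T where
  smul g x := ⟨g • x.1, hG g _ x.2⟩
  one_smul x := Subtype.ext (one_smul G x.1)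
  mul_smul g h x := Subtype.ext (mul_smul g h x.1)
  smul_zero g := Subtype.ext (smul_zero g)
  smul_add g x y := Subtype.ext (smul_add g x.1 y.1)
  smul_one g := Subtype.ext (smul_one g)
  smul_mul g x y := Subtype.ext (smul_mul' g x.1 y.1)

/-- `T` is a `G`-stable algebra of functions regular along the orbit of `b`, finite over its
invariants `O`, with equivariant coordinates `t` -/
structure SemiLoc (b : V) (O T : Subalgebra ℂ M) (t : Fin 4 → M) : Prop where
  loc : ∀ g : G, T ≤ Loc (gv g b)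
  stab : ∀ (g : G), ∀ x ∈ T, g • x ∈ T
  inv : ∀ x, x ∈ O ↔ x ∈ T ∧ ∀ g : G, g • x = x
  fin : ∃ s : Finset M, (s : Set M) ⊆ T ∧ ∀ x ∈ T, x ∈ Submodule.span O (s : Set M)
  unit : ∀ x ∈ O, val x b ≠ 0 → x⁻¹ ∈ O
  mem : ∀ i, t i ∈ T
  eqv : ∀ (g : G) i, g • t i = gv g⁻¹ t i
  sep : ∀ g : G, (gv g fun i => val (t i) b) = (fun i => val (t i) b) →
    ∀ x ∈ T, val x (gv g⁻¹ b) = val x b
  gen : ∀ x ∈ T, val x b = 0 → ∃ s ∈ T, val s b ≠ 0 ∧ ∃ c : Fin 4 → M, (∀ i, c i ∈ T) ∧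
    s * x = ∑ i, c i * (t i - algebraMap ℂ M (val (t i) b))

namespace SemiLoc

variable {b : V} {O T : Subalgebra ℂ M} {t : Fin 4 → M} (h : SemiLoc b O T t)
include h

theorem loc1 : T ≤ Loc b := by simpa using h.loc 1

theorem le : O ≤ T := fun x hx => ((h.inv x).1 hx).1

/-- evaluation at `b` -/
def ev : T →ₐ[ℂ] ℂ := (evL b).comp (Subalgebra.inclusion h.loc1)

theorem ev_apply (x : T) : h.ev x = val x.1 b := rfl

theorem aeval_coe (p : P4) : (aeval (fun i => (⟨t i, h.mem i⟩ : T)) p : T).1 = aeval t p :=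
  DFunLike.congr_fun (comp_aeval (fun i => (⟨t i, h.mem i⟩ : T)) T.val) p

theorem aeval_mem (p : P4) : aeval t p ∈ T := h.aeval_coe p ▸ Subtype.prop _

theorem val_aeval (p : P4) : val (aeval t p) b = aeval (fun i => val (t i) b) p := by
  rw [← h.aeval_coe, ← h.ev_apply, Coord.ev_aeval]; rfl

theorem coord : letI := subAct T h.stab; Coord h.ev fun i => (⟨t i, h.mem i⟩ : T) := by
  let _ := subAct T h.stab
  refine ⟨fun g i => Subtype.ext ((h.eqv g i).trans
    (gv_map T.val.toLinearMap g⁻¹ (fun i => (⟨t i, h.mem i⟩ : T)) i).symm),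
    fun g hg x => (q2_val_smul g (h.loc _ x.2)).trans (h.sep g hg _ x.2), fun x hx => ?_,
    fun x hx h0 => ?_⟩
  · obtain ⟨s, hs, s0, c, hc, e⟩ := h.gen x.1 x.2 hx
    refine ⟨⟨s, hs⟩, s0, Ideal.mem_span_range_iff_exists_fun.2 ⟨fun i => ⟨c i, hc i⟩,
      Subtype.ext ?_⟩⟩
    rw [AddSubmonoidClass.coe_finsetSum]
    exact e.symm
  · have x0 : x.1 ≠ 0 := fun c => h0 (by rw [show x = 0 from Subtype.ext c, map_zero])
    exact IsUnit.of_mul_eq_one ⟨x.1⁻¹, h.le (h.unit _ ((h.inv _).2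
      ⟨x.2, fun g => congrArg Subtype.val (hx g)⟩) h0)⟩ (Subtype.ext (mul_inv_cancel₀ x0))

/-- the conclusions of `Q2`, read in `M` -/
theorem main : (∀ x ∈ T, x ∈ Submodule.span O (Set.range (aeval t : P4 →ₐ[ℂ] M))) ∧
    (∀ x ∈ O, val x b = 0 → x ∈ Submodule.span O (aeval t '' invI fun i => val (t i) b)) := by
  let _ := subAct T h.stab
  have : SMulCommClass G ℂ T := ⟨fun g c x => Subtype.ext (smul_comm g c x.1)⟩
  let _ : Algebra O T := (Subalgebra.inclusion h.le).toRingHom.toAlgebra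
  have hO : ∀ x : T, x ∈ (algebraMap O T).range ↔ ∀ g : G, g • x = x := fun x =>
    ⟨fun ⟨o, ho⟩ g => Subtype.ext (by rw [← ho]; exact ((h.inv _).1 o.2).2 g),
      fun hx => ⟨⟨x.1, (h.inv _).2 ⟨x.2, fun g => congrArg Subtype.val (hx g)⟩⟩, rfl⟩⟩
  let ι : T →ₗ[O] M := { toFun := Subtype.val, map_add' := fun _ _ => rfl, map_smul' := fun _ _ => rfl }
  have hι : ∀ (x : T) (s : Set P4), x ∈ Submodule.span O
      (aeval (fun i => (⟨t i, h.mem i⟩ : T)) '' s) → x.1 ∈ Submodule.span O (aeval t '' s) :=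
    fun x s hx => by
      have := Submodule.mem_map_of_mem (f := ι) hx
      rw [Submodule.map_span, Set.image_image] at this
      simp only [← h.aeval_coe]; exact this
  refine ⟨fun x hx => ?_, fun x hx h0 =>
    hι ⟨x, h.le hx⟩ _ (h.coord.mem_span_inv hO (fun g => Subtype.ext (((h.inv _).1 hx).2 g)) h0)⟩
  obtain ⟨s, hs, hs'⟩ := h.fin
  have : Module.Finite O T := by
    refine ⟨Submodule.fg_of_fg_map_injective ι Subtype.val_injective ⟨s, le_antisymm
      (Submodule.span_le.2 fun y hy => ⟨⟨y, hs hy⟩, trivial, rfl⟩) ?_⟩⟩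
    rintro _ ⟨y, -, rfl⟩
    exact hs' _ y.2
  have := h.coord.mem_span_range hO (fun o ho => by
    have x0 : o.1 ≠ 0 := fun c => ho (by rw [show o = 0 from Subtype.ext c, map_zero, map_zero])
    exact IsUnit.of_mul_eq_one ⟨o.1⁻¹, h.unit _ o.2 ho⟩ (Subtype.ext (mul_inv_cancel₀ x0)))
    ⟨x, hx⟩
  rw [← Set.image_univ] at this ⊢
  exact hι _ _ this

/-- `T = O · t^* P` -/
theorem mem_span_range {x : M} (hx : x ∈ T) :
    x ∈ Submodule.span O (Set.range (aeval t : P4 →ₐ[ℂ] M)) := h.main.1 x hx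

/-- `m_O = I O` -/
theorem mem_span_inv {x : M} (hx : x ∈ O) (h0 : val x b = 0) :
    x ∈ Submodule.span O (aeval t '' invI fun i => val (t i) b) := h.main.2 x hx h0

/-- `J ^ r ≤ I T`, with `J` the functions vanishing on the orbit -/
theorem exists_pow (J : Ideal T) (hJ : ∀ x ∈ J, ∀ g : G, val x.1 (gv g b) = 0) :
    ∃ r, ∀ x ∈ J ^ r, x.1 ∈ Submodule.span T (aeval t '' invI fun i => val (t i) b) := by
  let _ := subAct T h.stab
  have : SMulCommClass G ℂ T := ⟨fun g c x => Subtype.ext (smul_comm g c x.1)⟩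
  obtain ⟨r, hr⟩ := h.coord.exists_pow_le
  refine ⟨r, fun x hx => ?_⟩
  have le : J ≤ orbJ h.ev := fun y hy => mem_orbJ.2 fun g =>
    (q2_val_smul g (h.loc _ y.2)).trans (hJ y hy _)
  have := Submodule.mem_map_of_mem (f := Algebra.linearMap T M)
    (hr (Ideal.pow_right_mono le r hx))
  rw [Ideal.span, Submodule.map_span, Set.image_image] at this
  simp only [← h.aeval_coe]; exact this

end SemiLoc

end

end Pool.Agent.Lib.MP_d3d358_ag.Var
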