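import Pool.Agent.Lib.MP_d3d358_ag.Var.Mod
import Pool.Agent.Lib.MP_d3d358_ag.Var.Q2M

/-! The constant two form is regular on the resolution: a Krull intersection argument. -/

set_option autoImplicit false

namespace Pool.Agent.Lib.MP_d3d358_ag.Var

open MvPolynomial

noncomputable section

theorem krull_mem {O E : Type} [CommRing O] [IsNoetherianRing O] [AddCommGroup E] [Module O E]
    {m : Ideal O} (hm : m ≤ Ideal.jacobson ⊥) (N Q : Submodule O E) (hQ : Q.FG) {x : E}
    (hx : x ∈ Q) (h : ∀ s : ℕ, ∃ y ∈ N, x - y ∈ m ^ s • Q) : x ∈ N := by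
  have : Module.Finite O (Q.map N.mkQ) := Module.Finite.iff_fg.2 (hQ.map _)
  have h0 := Ideal.iInf_pow_smul_eq_bot_of_le_jacobson (M := Q.map N.mkQ) m hm
  have : (⟨N.mkQ x, Submodule.mem_map_of_mem hx⟩ : Q.map N.mkQ) ∈
      ⨅ s : ℕ, m ^ s • (⊤ : Submodule O (Q.map N.mkQ)) := Submodule.mem_iInf _ |>.2 fun s => by
    obtain ⟨y, hy, hs⟩ := h s
    have := Submodule.mem_map_of_mem (f := N.mkQ) hs
    rw [Submodule.map_smul'', map_sub, Submodule.mkQ_apply N y,
      (Submodule.Quotient.mk_eq_zero N).2 hy, sub_zero] at this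
    exact (Submodule.mem_smul_top_iff _ _ _).2 this
  rw [h0, Submodule.mem_bot, Subtype.ext_iff] at this
  exact (Submodule.Quotient.mk_eq_zero N).1 this

theorem pd_zc (i j : Fin 4) : pd i (zc j) = if i = j then 1 else 0 := by
  rw [zc, pd_emb]
  have : Ent.pd i (Ent.z j) = if i = j then 1 else 0 := Ent.ext fun z => by
    rw [Ent.pd_apply]
    change fderiv ℂ (ContinuousLinearMap.proj (R := ℂ) (φ := fun _ : Fin 4 => ℂ) j) z _ = _
    rw [ContinuousLinearMap.fderiv]
    by_cases c : i = j <;> simp [c, eq_comm]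
  rw [this]; split_ifs <;> simp

namespace SemiLoc

variable {b : V} {O T : Subalgebra ℂ M} {t : Fin 4 → M} (h : SemiLoc b O T t)
include h

/-- the maximal ideal of `O` -/
def mx : Ideal O := RingHom.ker (h.ev.comp (Subalgebra.inclusion h.le))

theorem mem_mx {o : O} : o ∈ h.mx ↔ val o.1 b = 0 := RingHom.mem_ker

theorem mx_le : h.mx ≤ Ideal.jacobson ⊥ := fun o ho => Ideal.mem_jacobson_bot.2 fun y => by
  have e : val (o * y + 1 : O).1 b = 1 := by
    have := map_add (h.ev.comp (Subalgebra.inclusion h.le)) (o * y) 1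
    rwa [map_mul, RingHom.mem_ker.1 ho, zero_mul, zero_add, map_one] at this
  have x0 : (o * y + 1 : O).1 ≠ 0 := fun c => by
    rw [c] at e
    exact zero_ne_one ((by simpa using val_const 0 b : val 0 b = 0).symm.trans e)
  exact IsUnit.of_mul_eq_one ⟨_, h.unit _ (o * y + 1).2 (e ▸ one_ne_zero)⟩
    (Subtype.ext (mul_inv_cancel₀ x0))

/-- `T` as a module over `O` -/
def sub : Submodule O M where
  carrier := T
  add_mem' := add_mem
  zero_mem' := zero_mem _
  smul_mem' o _ hx := mul_mem (h.le o.2) hx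

theorem mem_sub {x : M} : x ∈ h.sub ↔ x ∈ T := Iff.rfl

theorem sub_fg : h.sub.FG := by
  obtain ⟨s, hs, hs'⟩ := h.fin
  exact ⟨s, le_antisymm (Submodule.span_le.2 hs) hs'⟩

theorem mul_mem_smul (I : Ideal O) {a x : M} (ha : a ∈ T) (hx : x ∈ I • h.sub) :
    a * x ∈ I • h.sub :=
  Submodule.smul_induction_on (p := fun x => a * x ∈ I • h.sub) hx
    (fun o ho y hy => by
      rw [mul_smul_comm]; exact Submodule.smul_mem_smul ho (mul_mem ha hy : a * y ∈ T))
    fun y z hy hz => by rw [mul_add]; exact add_mem hy hz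

/-- the `J`-adic topology is finer than the `m_O`-adic one -/
theorem exists_pow_mx (J : Ideal T) (hJ : ∀ x ∈ J, ∀ g : G, val x.1 (gv g b) = 0) :
    ∃ r, ∀ s, ∀ x ∈ J ^ (r * s), x.1 ∈ h.mx ^ s • h.sub := by
  obtain ⟨r, hr⟩ := h.exists_pow J hJ
  have h1 : ∀ (I : Ideal O), ∀ y ∈ Submodule.span T (aeval t '' invI fun i => val (t i) b),
      ∀ x ∈ I • h.sub, y * x ∈ (h.mx * I) • h.sub := fun I y hy => by
    induction hy using Submodule.span_induction with
    | mem y hy =>
      obtain ⟨p, hp, rfl⟩ := hy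
      have ho : aeval t p ∈ O := (h.inv _).2 ⟨h.aeval_mem p, fun g => by
        let _ := subAct T h.stab
        have : SMulCommClass G ℂ T := ⟨fun g c x => Subtype.ext (smul_comm g c x.1)⟩
        rw [← h.aeval_coe]
        exact congrArg Subtype.val (h.coord.smul_inv hp.1 g)⟩
      intro x hx
      rw [Submodule.mul_smul]
      exact Submodule.smul_mem_smul (r := (⟨_, ho⟩ : O))
        (h.mem_mx.2 (by rw [h.val_aeval, hp.2])) hx
    | zero => simp
    | add y z _ _ hy hz => intro x hx; rw [add_mul]; exact add_mem (hy x hx) (hz x hx)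
    | smul a y _ hy =>
      intro x hx
      rw [smul_mul_assoc]
      exact h.mul_mem_smul _ a.2 (hy x hx)
  refine ⟨r, fun s => ?_⟩
  induction s with
  | zero => intro x _; simp
  | succ s ih =>
    intro x hx
    rw [mul_add, mul_one, add_comm, pow_add] at hx
    refine Submodule.mul_induction_on (C := fun x : T => x.1 ∈ h.mx ^ (s + 1) • h.sub) hx
      (fun y hy z hz => ?_) fun y z hy hz => add_mem hy hz
    rw [pow_succ']
    exact h1 _ _ (hr y hy) _ (ih z hz)

/-- `F2`: a matrix over `T` that is `J`-adically a limit of elements of `N` lies in `N` -/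
theorem mem_of_approx [IsNoetherianRing O] (J : Ideal T)
    (hJ : ∀ x ∈ J, ∀ g : G, val x.1 (gv g b) = 0) {ι : Type} [Finite ι]
    (N : Submodule O (ι → M)) {ω : ι → M} (hω : ∀ i, ω i ∈ T)
    (ha : ∀ s : ℕ, ∃ y ∈ N, ∀ i, ∃ e ∈ J ^ s, ω i - y i = e.1) : ω ∈ N := by
  classical
  obtain ⟨r, hr⟩ := h.exists_pow_mx J hJ
  refine krull_mem h.mx_le N (Submodule.pi Set.univ fun _ => h.sub)
    (Submodule.fg_pi fun _ => h.sub_fg) (fun i _ => hω i) fun s => ?_
  obtain ⟨y, hy, he⟩ := ha (r * s)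
  refine ⟨y, hy, ?_⟩
  have := Fintype.ofFinite ι
  rw [← Finset.univ_sum_single (ω - y)]
  refine sum_mem fun i _ => ?_
  obtain ⟨e, he, e'⟩ := he i
  have := Submodule.mem_map_of_mem (f := LinearMap.single O (fun _ : ι => M) i) (hr s e he)
  rw [Submodule.map_smul''] at this
  rw [Pi.sub_apply, e']
  refine Submodule.smul_mono le_rfl ?_ this
  rintro _ ⟨x, hx, rfl⟩ j -
  by_cases c : j = i
  · subst c; simpa using hx
  · simp [c]

/-- the constant form `du₁ dv₂ - du₂ dv₁` is regular for `R` -/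
theorem sig_mem [IsNoetherianRing O] (J : Ideal T)
    (hJ : ∀ x ∈ J, ∀ g : G, val x.1 (gv g b) = 0) {R : Subalgebra ℂ M} (hR : O ≤ R)
    (ha : ∀ s : ℕ, ∃ u : Fin 4 → M, sig u ∈ St2 R ∧
      ∀ i j, ∃ e ∈ J ^ s, pd i (u j) = (if i = j then 1 else 0) + e.1) : sig zc ∈ St2 R := by
  let N : Submodule O (Fin 4 × Fin 4 → M) :=
    { carrier := {ω | (Matrix.of fun i j => ω (i, j)) ∈ St2 R}
      add_mem' := fun ha hb => (St2 R).add_mem ha hb
      zero_mem' := (St2 R).zero_mem
      smul_mem' := fun o _ hx => (St2 R).smul_mem (⟨o.1, hR o.2⟩ : R) hx }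
  have δ : ∀ i j : Fin 4, (if i = j then 1 else 0 : M) ∈ T := fun i j => by
    split_ifs
    exacts [one_mem _, zero_mem _]
  refine h.mem_of_approx J hJ N (ω := fun p => sig zc p.1 p.2) (fun p => ?_) fun s => ?_
  · simp only [sig, wd, Matrix.sub_apply, pd_zc]
    exact sub_mem (sub_mem (mul_mem (δ _ _) (δ _ _)) (mul_mem (δ _ _) (δ _ _)))
      (sub_mem (mul_mem (δ _ _) (δ _ _)) (mul_mem (δ _ _) (δ _ _)))
  obtain ⟨u, hu, he⟩ := ha s
  choose e he he' using he
  refine ⟨fun p => sig u p.1 p.2, hu, fun p => ?_⟩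
  let d : Fin 4 → Fin 4 → T := fun i j => ⟨_, δ i j⟩
  have key : ∀ i j k l, ∃ x ∈ J ^ s, pd i (u j) * pd k (u l) = pd i (zc j) * pd k (zc l) + x.1 :=
    fun i j k l => ⟨d i j * e k l + e i j * (d k l + e k l),
      add_mem (Ideal.mul_mem_left _ _ (he k l)) (Ideal.mul_mem_right _ _ (he i j)), by
        rw [he', he', pd_zc, pd_zc]; push_cast; ring⟩
  choose x hx hx' using key
  refine ⟨-(x p.1 0 p.2 3 - x p.2 0 p.1 3 - (x p.1 1 p.2 2 - x p.2 1 p.1 2)),
    neg_mem (sub_mem (sub_mem (hx ..) (hx ..)) (sub_mem (hx ..) (hx ..))), ?_⟩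
  simp only [sig, wd, Matrix.sub_apply, hx']
  push_cast
  ring

end SemiLoc

end

end Pool.Agent.Lib.MP_d3d358_ag.Var
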