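import Pool.Agent.Lib.MP_d3d358_ag.Var.KD
import Pool.Agent.Lib.MP_d3d358_ag.Var.F2

/-! The semilocal ring of an orbit is finite over the noetherian local ring of the quotient. -/

set_option autoImplicit false

namespace Pool.Agent.Lib.MP_d3d358_ag.Var

open Pool.Agent.Lib.MP_d3d358_ag.G (Sf)

noncomputable section

variable {A : Sf}

theorem inv_apply {F : Ent} (hF : F ∈ invE) (g : G) (z : V) : F.1 (gv g z) = F.1 z := by
  conv_rhs => rw [← hF g⁻¹]
  rw [Ent.smul_apply, inv_inv]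

theorem val_add_Lam {B : Set V} {x : M} (hx : x ∈ quo A B) {b l : V} (hb : b ∈ B)
    (hl : l ∈ Lam A) : x ∈ Loc (b + l) ∧ val x (b + l) = val x b := by
  obtain ⟨j, F, hF, E, hE, -, k, rfl⟩ := hx
  have ha : Th.aut ((j : ℝ) * A.k) l b ≠ 0 := Complex.exp_ne_zero _
  have : E.1 (b + l) ≠ 0 := by rw [hE l hl]; exact mul_ne_zero ha (k b hb)
  exact ⟨div_mem_Loc F this, by
    rw [val_div _ this, val_div _ (k b hb), hF l hl, hE l hl, mul_div_mul_left _ _ ha]⟩

theorem prod_mem_R {ι : Type} (s : Finset ι) {j : ι → ℕ} {F : ι → Ent}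
    (h : ∀ i ∈ s, F i ∈ R A (j i)) : ∏ i ∈ s, F i ∈ R A (∑ i ∈ s, j i) := by
  classical
  induction s using Finset.induction_on with
  | empty => simpa using one_mem_R
  | insert a s ha ih =>
    rw [Finset.prod_insert ha, Finset.sum_insert ha]
    exact mul_mem_R (h a (Finset.mem_insert_self _ _))
      (ih fun i hi => h i (Finset.mem_insert_of_mem hi))

theorem norm_mem_invE (E : Ent) : ∏ g : G, g • E ∈ invE := fun k => by
  rw [Finset.smul_prod']
  exact Fintype.prod_equiv (Equiv.mulLeft k) _ _ fun g => by simp [mul_smul]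

/-- elements of `Ot` have invariant denominators of positive degree -/
theorem exists_inv_den {b : V} {u : Ent} (hu : u ∈ U A) (hb : u.1 b ≠ 0) {x : M}
    (hx : x ∈ Ot A b) : ∃ j, ∃ F ∈ R A (j + 1), ∃ E ∈ R A (j + 1), E ∈ invE ∧ E.1 b ≠ 0 ∧
      x = emb F / emb E := by
  classical
  obtain ⟨j, F, hF, E, hE, h0, k, rfl⟩ := hx
  have hN : ∀ s : Finset G, ∏ g ∈ s, g • E ∈ R A (∑ _g ∈ s, j) := fun s =>
    prod_mem_R s fun g _ => smul_mem_R hE g
  have e : ∏ g : G, g • E = E * ∏ g ∈ Finset.univ.erase (1 : G), g • E := by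
    rw [← Finset.mul_prod_erase _ _ (Finset.mem_univ (1 : G)), one_smul]
  have nz : (∏ g : G, g • E).1 b ≠ 0 := by
    rw [Ent.prod_apply]
    exact Finset.prod_ne_zero_iff.2 fun g _ => k _ ⟨_, rfl⟩
  refine ⟨j + ∑ _g ∈ Finset.univ.erase (1 : G), j, _, mul_mem_R (mul_mem_R hF (hN _)) hu.1,
    (∏ g : G, g • E) * u, e ▸ mul_mem_R (mul_mem_R hE (hN _)) hu.1,
    fun g => by rw [smul_mul', norm_mem_invE E g, hu.2 g], mul_ne_zero nz hb, ?_⟩
  have n1 : emb (∏ g ∈ Finset.univ.erase (1 : G), g • E) ≠ 0 := emb_ne fun c =>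
    Ent.ne_zero nz (by rw [e, c, mul_zero])
  rw [e, map_mul, map_mul, map_mul, map_mul, mul_div_mul_right _ _ (emb_ne' hb),
    mul_div_mul_right _ _ n1]

theorem div_mem_Ot {b : V} {j : ℕ} {F E : Ent} (hF : F ∈ R A j) (hE : E ∈ R A j) (hi : E ∈ invE)
    (hb : E.1 b ≠ 0) : emb F / emb E ∈ Ot A b :=
  ⟨j, F, hF, E, hE, Ent.ne_zero hb, by rintro _ ⟨g, rfl⟩; rwa [inv_apply hi], rfl⟩

theorem div_mem_Ow {b : V} {j : ℕ} {F E : Ent} (hF : F ∈ R A j) (hE : E ∈ R A j) (hi' : F ∈ invE)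
    (hi : E ∈ invE) (hb : E.1 b ≠ 0) : emb F / emb E ∈ Ow A b :=
  ⟨div_mem_Ot hF hE hi hb, fun g => by rw [smul_div₀', smul_emb, smul_emb, hi g, hi' g]⟩

theorem pow_mem_invE {u : Ent} (hu : u ∈ invE) (m : ℕ) : u ^ m ∈ invE := fun g => by
  rw [smul_pow', hu g]

theorem pow_mem_R1 {u : Ent} (hu : u ∈ R A 1) (m : ℕ) : u ^ m ∈ R A m := by
  simpa using pow_mem_R hu m

variable (A) in
/-- the affine ring `ℂ[U / u]` of the quotient -/
def Aq (u : Ent) : Subalgebra ℂ M := Algebra.adjoin ℂ {x | ∃ F ∈ U A, x = emb F / emb u}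

theorem pow_div_mem_Aq {u : Ent} (j : ℕ) {F : Ent} (hF : F ∈ U A ^ j) :
    emb F / emb u ^ j ∈ Aq A u := by
  induction j generalizing F with
  | zero =>
    rw [pow_zero, Submodule.mem_one] at hF
    obtain ⟨c, rfl⟩ := hF
    simp
  | succ j ih =>
    rw [pow_succ] at hF
    refine Submodule.mul_induction_on (C := fun F => emb F / emb u ^ (j + 1) ∈ Aq A u) hF
      (fun a ha c hc => ?_) fun a c ha hc => by rw [map_add, add_div]; exact add_mem ha hc
    rw [map_mul, pow_succ, mul_div_mul_comm]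
    exact mul_mem (ih ha) (Algebra.subset_adjoin ⟨c, hc, rfl⟩)

theorem pow_le_invE (j : ℕ) : U A ^ j ≤ invE := by
  induction j with
  | zero =>
    intro F hF
    rw [pow_zero, Submodule.mem_one] at hF
    obtain ⟨c, rfl⟩ := hF
    exact fun _ => rfl
  | succ j ih =>
    rw [pow_succ]
    exact Submodule.mul_le.2 fun a ha c hc g => by rw [smul_mul', ih ha g, hc.2 g]

theorem mul_div_mem_span {u : Ent} (j : ℕ) (Y : Submodule ℂ Ent) {F : Ent}
    (hF : F ∈ U A ^ j * Y) : emb F / emb u ^ (j + 1) ∈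
      Submodule.span (Aq A u) {x | ∃ E ∈ Y, x = emb E / emb u} := by
  refine Submodule.mul_induction_on (C := fun F => emb F / emb u ^ (j + 1) ∈
    Submodule.span (Aq A u) {x | ∃ E ∈ Y, x = emb E / emb u}) hF
    (fun a ha c hc => ?_) fun a c ha hc => by rw [map_add, add_div]; exact add_mem ha hc
  rw [map_mul, pow_succ, mul_div_mul_comm]
  exact Submodule.smul_mem _ (⟨_, pow_div_mem_Aq j ha⟩ : Aq A u)
    (Submodule.subset_span ⟨c, hc, rfl⟩)

/-- the projection to an isotypic part -/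
def avg (χ : G → ℂ) : Ent →ₗ[ℂ] Ent :=
  (6 : ℂ)⁻¹ • ∑ g : G, χ g • (MulSemiringAction.toAlgHom ℂ Ent g).toLinearMap

theorem avg_apply (χ : G → ℂ) (F : Ent) : avg χ F = (6 : ℂ)⁻¹ • ∑ g : G, χ g • g • F := by
  simp [avg, LinearMap.sum_apply]

theorem avg_mul (χ : G → ℂ) {a : Ent} (ha : a ∈ invE) (F : Ent) :
    avg χ (a * F) = a * avg χ F := by
  simp only [avg_apply, smul_mul', ha _, Finset.mul_sum, mul_smul_comm]

theorem avg_mem_R (χ : G → ℂ) {j : ℕ} {F : Ent} (hF : F ∈ R A j) : avg χ F ∈ R A j := by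
  rw [avg_apply]
  exact Submodule.smul_mem _ _ (sum_mem fun g _ => Submodule.smul_mem _ _ (smul_mem_R hF g))

theorem smul_avg {χ : G → ℂ} (hχ : ∀ g h, χ (g * h) = χ g * χ h) (h2 : ∀ g, χ g * χ g = 1)
    (F : Ent) (k : G) : k • avg χ F = χ k • avg χ F := by
  rw [avg_apply, smul_comm k, smul_comm (χ k), Finset.smul_sum (r := k),
    Finset.smul_sum (r := χ k)]
  refine congrArg _ (Fintype.sum_equiv (Equiv.mulLeft k) _ _ fun g => ?_)
  rw [Equiv.coe_mulLeft, smul_smul (χ k), hχ, ← mul_assoc, h2, one_mul, smul_comm, mul_smul]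

theorem avg_eq {χ : G → ℂ} (h2 : ∀ g, χ g * χ g = 1) {F : Ent} (hF : ∀ g : G, g • F = χ g • F) :
    avg χ F = F := by
  simp only [avg_apply, hF, smul_smul, h2, one_smul, Finset.sum_const, Finset.card_univ,
    DihedralGroup.card]
  rw [← Nat.cast_smul_eq_nsmul ℂ, smul_smul]
  norm_num

theorem avg_mem_mul (χ : G → ℂ) (j : ℕ) {Y : Submodule ℂ Ent} (hY : ∀ E ∈ R A 1, avg χ E ∈ Y)
    {F : Ent} (hF : F ∈ U A ^ j * R A 1) : avg χ F ∈ U A ^ j * Y :=
  Submodule.mul_induction_on (C := fun F => avg χ F ∈ U A ^ j * Y) hF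
    (fun a ha c hc => by
      rw [avg_mul χ (pow_le_invE j ha)]; exact Submodule.mul_mem_mul ha (hY c hc))
    fun a c ha hc => by rw [map_add]; exact add_mem ha hc

variable (hA : Good A)
include hA

theorem Good.inv_mem {j : ℕ} {F : Ent} (hF : F ∈ R A (j + 1)) (hi : F ∈ invE) :
    F ∈ U A ^ (j + 1) := by
  rw [pow_succ, ← avg_eq (χ := fun _ => 1) (by simp) (F := F) fun g => by rw [hi g, one_smul]]
  exact avg_mem_mul (Y := U A) _ j (fun E hE => ⟨avg_mem_R _ hE, fun g => by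
    rw [smul_avg (by simp) (by simp), one_smul]⟩) (hA.gen j hF)

theorem Good.alt_mem {j : ℕ} {F : Ent} (hF : F ∈ R A (j + 1)) (hi : F ∈ altE) :
    F ∈ U A ^ j * W A := by
  rw [← avg_eq sg_mul_self hi]
  exact avg_mem_mul (Y := W A) _ j (fun E hE => ⟨avg_mem_R _ hE, smul_avg sg_mul sg_mul_self E⟩)
    (hA.gen j hF)

omit hA in
theorem Aq_le_Ow {b : V} {u : Ent} (hu : u ∈ U A) (hb : u.1 b ≠ 0) : Aq A u ≤ Ow A b :=
  Algebra.adjoin_le <| by
    rintro _ ⟨F, hF, rfl⟩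
    exact div_mem_Ow hF.1 hu.1 hF.2 hu.2 hb

theorem Good.Aq_fg (u : Ent) : (Aq A u).FG := by
  classical
  refine ⟨Finset.univ.image fun j => emb (gU hA j) / emb u, le_antisymm (Algebra.adjoin_mono ?_)
    (Algebra.adjoin_le ?_)⟩
  · intro x hx
    obtain ⟨j, -, rfl⟩ := Finset.mem_image.1 hx
    exact ⟨_, gU_mem hA j, rfl⟩
  · rintro _ ⟨F, hF, rfl⟩
    rw [← span_gU hA] at hF
    obtain ⟨c, rfl⟩ := (Submodule.mem_span_range_iff_exists_fun ℂ).1 hF
    rw [map_sum, Finset.sum_div]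
    refine sum_mem fun j _ => ?_
    rw [map_smul, smul_div_assoc]
    exact Subalgebra.smul_mem _ (Algebra.subset_adjoin (by simp)) _

/-- elements of `Ot` are quotients `y / s` with `s` in the affine ring -/
theorem Good.exists_den {b : V} {u : Ent} (hu : u ∈ U A) (hb : u.1 b ≠ 0) {x : M}
    (hx : x ∈ Ot A b) : ∃ s ∈ Aq A u, val s b ≠ 0 ∧ ∃ j, ∃ F ∈ R A (j + 1),
      s * x = emb F / emb u ^ (j + 1) := by
  obtain ⟨j, F, hF, E, hE, hi, h0, rfl⟩ := exists_inv_den hu hb hx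
  refine ⟨_, pow_div_mem_Aq (j + 1) (hA.inv_mem hE hi), ?_, j, F, hF, ?_⟩
  · rw [← map_pow, val_div _ (by simpa using fun c => absurd c hb)]
    exact div_ne_zero h0 (by simpa using fun c => absurd c hb)
  · field_simp [emb_ne' h0]

omit hA in
theorem inv_mem_Ow {b : V} {x : M} (hx : x ∈ Ow A b) (h0 : val x b ≠ 0) : x⁻¹ ∈ Ow A b := by
  refine ⟨?_, fun g => by rw [smul_inv'', hx.2 g]⟩
  have hv : ∀ g : G, val x (gv g b) ≠ 0 := fun g => by
    have := q2_val_smul g⁻¹ (Ot_le_Loc b g⁻¹⁻¹ hx.1)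
    rwa [hx.2, inv_inv, eq_comm] at this ▸ h0
  obtain ⟨⟨j, F, hF, E, hE, -, k, rfl⟩, -⟩ := hx
  have hF0 : ∀ g : G, F.1 (gv g b) ≠ 0 := fun g c =>
    hv g (by rw [val_div _ (k _ ⟨g, rfl⟩), c, zero_div])
  exact ⟨j, E, hE, F, hF, Ent.ne_zero (hF0 1), by rintro _ ⟨g, rfl⟩; exact hF0 g, inv_div _ _⟩

theorem Good.Ot_fin (b : V) : ∃ s : Finset M, (s : Set M) ⊆ Ot A b ∧
    ∀ x ∈ Ot A b, x ∈ Submodule.span (Ow A b) (s : Set M) := by
  classical
  obtain ⟨u, hu, hb⟩ := hA.bpf b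
  have := hA.fd
  obtain ⟨s, hs⟩ : (R A 1).FG := Module.Finite.iff_fg.1 this
  refine ⟨s.image fun E => emb E / emb u, fun x hx => ?_, fun x hx => ?_⟩
  · obtain ⟨E, hE, rfl⟩ := Finset.mem_image.1 hx
    exact div_mem_Ot (hs ▸ Submodule.subset_span hE) hu.1 hu.2 hb
  obtain ⟨c, hc, c0, j, F, hF, e⟩ := hA.exists_den hu hb hx
  have le := Aq_le_Ow hu hb
  have h1 : ∀ y ∈ Submodule.span (Aq A u) {x | ∃ E ∈ R A 1, x = emb E / emb u},
      y ∈ Submodule.span (Ow A b) ((s.image fun E => emb E / emb u : Finset M) : Set M) :=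
    fun y hy => by
      induction hy using Submodule.span_induction with
      | mem y hy =>
        obtain ⟨E, hE, rfl⟩ := hy
        rw [← hs] at hE
        induction hE using Submodule.span_induction with
        | mem E hE => exact Submodule.subset_span (by simpa using ⟨E, hE, rfl⟩)
        | zero => simp
        | add a c _ _ ha hc => rw [map_add, add_div]; exact add_mem ha hc
        | smul a c _ hc =>
          rw [map_smul, smul_div_assoc]
          exact Submodule.smul_of_tower_mem _ a hc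
      | zero => simp
      | add a c _ _ ha hc => exact add_mem ha hc
      | smul a c _ hc => exact Submodule.smul_mem _ (⟨a.1, le a.2⟩ : Ow A b) hc
  have c1 : c ≠ 0 := fun z => c0 (by simpa [z] using val_const 0 b)
  have := Submodule.smul_mem _ (⟨_, inv_mem_Ow (le hc) c0⟩ : Ow A b)
    (h1 _ (e ▸ mul_div_mem_span j _ (hA.gen j hF)))
  change c⁻¹ * (c * x) ∈ _ at this
  rwa [inv_mul_cancel_left₀ c1] at this

/-- elements of `Ow` are quotients of elements of the affine ring -/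
theorem Good.exists_den_Ow {b : V} {u : Ent} (hu : u ∈ U A) (hb : u.1 b ≠ 0) {x : M}
    (hx : x ∈ Ow A b) : ∃ s ∈ Aq A u, val s b ≠ 0 ∧ s * x ∈ Aq A u := by
  obtain ⟨c, hc, c0, j, F, hF, e⟩ := hA.exists_den hu hb hx.1
  refine ⟨c, hc, c0, e ▸ pow_div_mem_Aq _ (hA.inv_mem hF fun g => emb_inj ?_)⟩
  have h1 := (mul_mem (Aq_le_Ow hu hb hc) hx).2 g
  rw [e, smul_div₀', smul_pow', smul_emb, smul_emb, hu.2 g] at h1
  exact (div_left_inj' (pow_ne_zero _ (emb_ne' hb))).1 h1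

/-- alternating elements of `Ot` -/
theorem Good.exists_den_alt {b : V} {u : Ent} (hu : u ∈ U A) (hb : u.1 b ≠ 0) {x : M}
    (hx : x ∈ Ot A b) (ha : ∀ g : G, g • x = sg g • x) : ∃ s ∈ Aq A u, val s b ≠ 0 ∧
      s * x ∈ Submodule.span (Aq A u) {x | ∃ E ∈ W A, x = emb E / emb u} := by
  obtain ⟨c, hc, c0, j, F, hF, e⟩ := hA.exists_den hu hb hx
  refine ⟨c, hc, c0, e ▸ mul_div_mem_span _ _ (hA.alt_mem hF fun g => emb_inj ?_)⟩
  have h1 : g • (c * x) = sg g • (c * x) := by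
    rw [smul_mul', (Aq_le_Ow hu hb hc).2 g, ha, mul_smul_comm]
  rw [e, smul_div₀', smul_pow', smul_emb, smul_emb, hu.2 g, ← smul_div_assoc, ← map_smul] at h1
  exact (div_left_inj' (pow_ne_zero _ (emb_ne' hb))).1 h1

theorem Good.noeth_Ow (b : V) : IsNoetherianRing (Ow A b) := by
  obtain ⟨u, hu, hb⟩ := hA.bpf b
  have le := Aq_le_Ow hu hb
  have : Algebra.FiniteType ℂ (Aq A u) := (Subalgebra.fg_iff_finiteType _).1 (hA.Aq_fg u)
  have : IsNoetherianRing (Aq A u) := Algebra.FiniteType.isNoetherianRing ℂ _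
  let _ : Algebra (Aq A u) (Ow A b) := (Subalgebra.inclusion le).toRingHom.toAlgebra
  have le' : Aq A u ≤ Loc b := le.trans (inf_le_left.trans (Ot_le_Loc' b))
  let S : Submonoid (Aq A u) :=
    { carrier := {x | val x.1 b ≠ 0}
      mul_mem' := fun {x y} hx hy => by
        change val (x.1 * y.1) b ≠ 0
        rw [val_mul (le' x.2) (le' y.2)]; exact mul_ne_zero hx hy
      one_mem' := by
        change val 1 b ≠ 0
        simpa using (val_const 1 b).trans_ne one_ne_zero }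
  have n0 : ∀ {c : M}, val c b ≠ 0 → c ≠ 0 := fun c0 z => c0 (by simpa [z] using val_const 0 b)
  have : IsLocalization S (Ow A b) :=
    { map_units := fun y => IsUnit.of_mul_eq_one ⟨_, inv_mem_Ow (le y.1.2) y.2⟩
        (Subtype.ext (mul_inv_cancel₀ (n0 y.2)))
      surj := fun x => by
        obtain ⟨s, hs, s0, h⟩ := hA.exists_den_Ow hu hb x.2
        exact ⟨(⟨_, h⟩, ⟨⟨s, hs⟩, s0⟩), Subtype.ext (mul_comm _ _)⟩
      exists_of_eq := fun {x y} e =>
        ⟨1, by rw [show x = y from Subtype.ext (congrArg (fun z : Ow A b => z.1) e)]⟩ }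
  exact IsLocalization.isNoetherianRing S _ inferInstance

/-- the concrete `Q2` hypotheses, given that `t - t b` generates the maximal ideal of `locN` -/
theorem Good.semiLoc {b : V} {t : Fin 4 → M} (ht : Crd A b t)
    (hg : ∀ x ∈ locN A b, val x b = 0 → ∃ c : Fin 4 → M, (∀ i, c i ∈ locN A b) ∧
      x = ∑ i, c i * (t i - algebraMap ℂ M (val (t i) b))) :
    SemiLoc b (Ow A b) (Ot A b) t where
  loc := Ot_le_Loc b
  stab g _ hx := smul_mem_Ot hx g
  inv _ := Iff.rfl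
  fin := hA.Ot_fin b
  unit _ := inv_mem_Ow
  mem := ht.mem
  eqv := ht.equi
  sep g hg x hx := by
    have := neg_mem (gv_mem_Lam A g⁻¹ (ht.stab g hg))
    rw [gv_sub, gv_inv_gv, neg_sub] at this
    have := (val_add_Lam hx ⟨1, gv_one b⟩ this).2
    rwa [add_sub_cancel] at this
  gen x hx h0 := by
    classical
    obtain ⟨u, hu, hb⟩ := hA.bpf b
    obtain ⟨c, hc, e⟩ := hg x (quo_anti (by rintro _ rfl; exact ⟨1, gv_one _⟩) hx) h0
    choose j F hF E hE _ h1 h2 using hc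
    have hs : ∀ i {Y : Ent}, Y ∈ R A (j i) → emb Y / emb (u ^ j i) ∈ Ot A b := fun i _ hY =>
      div_mem_Ot hY (pow_mem_R1 hu.1 _) (pow_mem_invE hu.2 _) (by simp [hb])
    refine ⟨∏ i, emb (E i) / emb (u ^ j i), prod_mem fun i _ => hs i (hE i), ?_,
      fun i => (∏ k ∈ Finset.univ.erase i, emb (E k) / emb (u ^ j k)) * (emb (F i) / emb (u ^ j i)),
      fun i => mul_mem (prod_mem fun k _ => hs k (hE k)) (hs i (hF i)), ?_⟩
    · rw [Finset.prod_div_distrib, ← map_prod, ← map_prod, val_div _ (by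
        simp [Finset.prod_ne_zero_iff, hb])]
      exact div_ne_zero (by simpa [Finset.prod_ne_zero_iff] using fun i => h1 i b rfl)
        (by simp [Finset.prod_ne_zero_iff, hb])
    · rw [e, Finset.mul_sum]
      refine Finset.sum_congr rfl fun i _ => ?_
      rw [← Finset.prod_erase_mul _ _ (Finset.mem_univ i), h2 i]
      field_simp [emb_ne' (h1 i b rfl)]

end

end Pool.Agent.Lib.MP_d3d358_ag.Var
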