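import Pool.Agent.Lib.MP_d3d358_ag.Var.TwoF
import Pool.Agent.Lib.MP_9ff3e7_ag.F.XEtB

/-! Generators of the maximal ideal of a ring of meromorphic functions at a point. -/

set_option autoImplicit false

namespace Pool.Agent.Lib.MP_d3d358_ag.Var.A4

open LiouM TwoF

noncomputable section

/-- a domain of finite type has a point whose local ring has `trdeg` generators -/
theorem exists_good_point {B : Type} [CommRing B] [IsDomain B] [Algebra ℂ B]
    [Algebra.FiniteType ℂ B] (n : ℕ) (hn : Algebra.trdeg ℂ B = n) :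
    ∃ (y : B →ₐ[ℂ] ℂ) (t : Fin n → B), (∀ i, y (t i) = 0) ∧
      ∀ x, y x = 0 → ∃ (u : B) (a : Fin n → B), y u ≠ 0 ∧ u * x = ∑ i, a i * t i := by
  have : Algebra.FinitePresentation ℂ B := Algebra.FinitePresentation.of_finiteType.mp inferInstance
  have h0 : Algebra.IsSmoothAt ℂ (⊥ : Ideal B) := by
    have : Algebra.EssFiniteType ℂ (FractionRing B) :=
      have : Algebra.EssFiniteType B (FractionRing B) := .of_isLocalization _ (nonZeroDivisors B)
      .comp _ B _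
    have : IsLocalization.AtPrime (FractionRing B) (⊥ : Ideal B) := by
      unfold IsLocalization.AtPrime
      rw [Ideal.primeCompl_bot]; infer_instance
    exact Algebra.FormallySmooth.of_equiv ((IsLocalization.algEquiv (⊥ : Ideal B).primeCompl
      (FractionRing B) (Localization.AtPrime (⊥ : Ideal B))).restrictScalars ℂ)
  obtain ⟨f, hf, hs⟩ := Algebra.IsSmoothAt.exists_notMem_smooth ℂ (⊥ : Ideal B)
  have : IsJacobsonRing B := isJacobsonRing_of_finiteType (A := ℂ)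
  have hJ : (⊥ : Ideal B).jacobson = ⊥ := IsJacobsonRing.out' ⊥ Ideal.isPrime_bot.isRadical
  obtain ⟨Q, hQ, hfQ⟩ : ∃ Q : Ideal B, Q.IsMaximal ∧ f ∉ Q := by
    by_contra! e
    exact hf (hJ ▸ Ideal.mem_sInf.2 fun {Q} hQ => e Q hQ.2)
  have : Algebra.IsSmoothAt ℂ Q :=
    Set.mem_of_mem_of_subset (x := (⟨Q, hQ.isPrime⟩ : PrimeSpectrum B)) hfQ
      (Algebra.basicOpen_subset_smoothLocus_iff_smooth.2 hs)
  obtain ⟨t, ht⟩ := MP_9ff3e7_ag.F.gens_of_smooth n hn Q (Localization.AtPrime Q)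
  obtain ⟨y, hy⟩ := MP_9ff3e7_ag.F.exists_pt_of_isMaximal Q
  choose s d hs using fun i => IsLocalization.exists_mk'_eq Q.primeCompl (t i)
  have hts (i : Fin n) : algebraMap B (Localization.AtPrime Q) (s i) =
      t i * algebraMap B _ (d i : B) := by rw [← hs, IsLocalization.mk'_spec]
  refine ⟨y, s, fun i => (hy _).2 ?_, fun x hx => ?_⟩
  · rw [← IsLocalization.AtPrime.to_map_mem_maximal_iff (Localization.AtPrime Q) Q, hts, ht]
    exact Ideal.mul_mem_right _ _ (Ideal.subset_span ⟨i, rfl⟩)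
  · have h1 : algebraMap B (Localization.AtPrime Q) x ∈
        (Ideal.span (Set.range s)).map (algebraMap B (Localization.AtPrime Q)) := by
      have := (IsLocalization.AtPrime.to_map_mem_maximal_iff (Localization.AtPrime Q) Q x).2
        ((hy x).1 hx)
      rw [ht] at this
      refine Ideal.span_le.2 ?_ this
      rintro _ ⟨i, rfl⟩
      refine (Ideal.mul_unit_mem_iff_mem _ (IsLocalization.map_units _ (d i))).1 ?_
      rw [← hts]
      exact Ideal.mem_map_of_mem _ (Ideal.subset_span ⟨i, rfl⟩)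
    obtain ⟨u, hu, hux⟩ := (IsLocalization.algebraMap_mem_map_algebraMap_iff Q.primeCompl _ _ _).1 h1
    obtain ⟨a, ha⟩ := Ideal.mem_span_range_iff_exists_fun.1 hux
    exact ⟨u, a, fun e => hu ((hy u).1 e), ha.symm⟩

theorem val_zero (b : V) : val 0 b = 0 := by simpa using val_const 0 b

theorem val_one (b : V) : val 1 b = 1 := by simpa using val_const 1 b

theorem ne_zero_of_val {x : M} {b : V} (h : val x b ≠ 0) : x ≠ 0 := fun e => h (e ▸ val_zero b)

theorem inv_mem {x : M} {b : V} (hx : x ∈ Loc b) (h : val x b ≠ 0) :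
    x⁻¹ ∈ Loc b ∧ val x⁻¹ b = (val x b)⁻¹ := by
  obtain ⟨F, F', hb, rfl⟩ := hx
  rw [val_div F hb] at h
  have hF : F.1 b ≠ 0 := fun e => h (by rw [e, zero_div])
  rw [inv_div, val_div F hb, val_div F' hF, inv_div]
  exact ⟨div_mem_Loc _ hF, rfl⟩

theorem val_sum {ι : Type*} (s : Finset ι) {x : ι → M} {b : V} (hx : ∀ i, x i ∈ Loc b) :
    val (∑ i ∈ s, x i) b = ∑ i ∈ s, val (x i) b := by
  have := map_sum (evL b) (fun i => (⟨x i, hx i⟩ : Loc b)) s
  rw [evL_apply, AddSubmonoidClass.coe_finsetSum] at this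
  exact this

/-- `t` lies in the ideal of the functions in `O` that vanish at `b`, and generates it -/
def Gen (O : Subalgebra ℂ M) (b : V) (t : Fin 4 → M) : Prop :=
  (∀ i, t i ∈ O ∧ val (t i) b = 0) ∧
    ∀ x ∈ O, val x b = 0 → ∃ a : Fin 4 → M, (∀ i, a i ∈ O) ∧ x = ∑ i, a i * t i

/-- the localisation of `A` at `b` -/
def locA (A : Subalgebra ℂ M) (b : V) (hA : A ≤ Loc b) : Subalgebra ℂ M where
  carrier := {z | ∃ x ∈ A, ∃ y ∈ A, val y b ≠ 0 ∧ z = x / y}
  mul_mem' := by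
    rintro _ _ ⟨x, hx, y, hy, h, rfl⟩ ⟨x', hx', y', hy', h', rfl⟩
    exact ⟨x * x', mul_mem hx hx', y * y', mul_mem hy hy',
      by rw [val_mul (hA hy) (hA hy')]; exact mul_ne_zero h h', div_mul_div_comm _ _ _ _⟩
  add_mem' := by
    rintro _ _ ⟨x, hx, y, hy, h, rfl⟩ ⟨x', hx', y', hy', h', rfl⟩
    exact ⟨x * y' + y * x', add_mem (mul_mem hx hy') (mul_mem hy hx'), y * y', mul_mem hy hy',
      by rw [val_mul (hA hy) (hA hy')]; exact mul_ne_zero h h',
      div_add_div _ _ (ne_zero_of_val h) (ne_zero_of_val h')⟩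
  algebraMap_mem' c := ⟨_, A.algebraMap_mem c, 1, one_mem _, by simp [val_one], by simp⟩

theorem le_locA {A : Subalgebra ℂ M} {b : V} (hA : A ≤ Loc b) : A ≤ locA A b hA :=
  fun x hx => ⟨x, hx, 1, one_mem _, by simp [val_one], by simp⟩

/-- A4 (a): some point at which the maximal ideal has four generators -/
theorem exists_gen (A : Subalgebra ℂ M) [Algebra.FiniteType ℂ A] (hn : Algebra.trdeg ℂ A = 4)
    (hpt : ∀ y : A →ₐ[ℂ] ℂ, ∃ b, A ≤ Loc b ∧ ∀ x : A, y x = val x b) :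
    ∃ (b : V) (hA : A ≤ Loc b) (t : Fin 4 → M), Gen (locA A b hA) b t := by
  obtain ⟨y, t, ht, H⟩ := exists_good_point (B := A) 4 hn
  obtain ⟨b, hA, hb⟩ := hpt y
  refine ⟨b, hA, fun i => t i, fun i => ⟨le_locA hA (t i).2, by rw [← hb, ht]⟩, ?_⟩
  rintro _ ⟨x, hx, z, hz, h, rfl⟩ h0
  have hx0 : val x b = 0 := by
    rw [div_eq_mul_inv, val_mul (hA hx) (inv_mem (hA hz) h).1, (inv_mem (hA hz) h).2] at h0
    simpa [h] using h0
  obtain ⟨u, a, hu, e⟩ := H ⟨x, hx⟩ (by rw [hb]; exact hx0)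
  rw [hb] at hu
  refine ⟨fun i => a i / (u * z), fun i => ⟨_, (a i).2, _, mul_mem u.2 hz,
    by rw [val_mul (hA u.2) (hA hz)]; exact mul_ne_zero hu h, rfl⟩, ?_⟩
  have e' : (u : M) * x = ∑ i, (a i : M) * t i := by simpa using congrArg A.val e
  simp only [div_mul_eq_mul_div, ← Finset.sum_div, ← e']
  rw [mul_div_mul_left _ _ (ne_zero_of_val hu)]

/-- A4 (b): any four functions with independent differentials generate -/
theorem Gen.of_det {O : Subalgebra ℂ M} {b : V} (hO : O ≤ Loc b)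
    (hinv : ∀ x ∈ O, val x b ≠ 0 → x⁻¹ ∈ O) {s t : Fin 4 → M} (hs : Gen O b s)
    (ht : ∀ i, t i ∈ O ∧ val (t i) b = 0)
    (hd : (Matrix.of fun i j => val (pd i (t j)) b).det ≠ 0) : Gen O b t := by
  choose a ha e using fun j => hs.2 (t j) (ht j).1 (ht j).2
  let N : Matrix (Fin 4) (Fin 4) O := Matrix.of fun j k => ⟨a j k, ha j k⟩
  let ev : O →ₐ[ℂ] ℂ := (evL b).comp (Subalgebra.inclusion hO)
  have hev (x : O) : ev x = val x b := rfl
  have h1 : (Matrix.of fun i j => val (pd i (t j)) b) =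
      (Matrix.of fun i k => val (pd i (s k)) b) * (ev.mapMatrix N).transpose := by
    ext i j
    have m1 (k : Fin 4) := hO (ha j k)
    have m2 (k : Fin 4) := hO (hs.1 k).1
    rw [Matrix.of_apply, e j, map_sum, val_sum _ fun k => pd_mem (mul_mem (m1 k) (m2 k)) i,
      Matrix.mul_apply]
    refine Finset.sum_congr rfl fun k _ => ?_
    rw [Derivation.leibniz, smul_eq_mul, smul_eq_mul, val_add (mul_mem (m1 k) (pd_mem (m2 k) i))
      (mul_mem (m2 k) (pd_mem (m1 k) i)), val_mul (m1 k) (pd_mem (m2 k) i),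
      val_mul (m2 k) (pd_mem (m1 k) i), (hs.1 k).2, zero_mul, add_zero, mul_comm]
    rfl
  have h2 : val (N.det : O) b ≠ 0 := by
    rw [h1, Matrix.det_mul, Matrix.det_transpose, ← AlgHom.map_det, hev] at hd
    exact right_ne_zero_of_mul hd
  have hu : IsUnit N.det := IsUnit.of_mul_eq_one ⟨_, hinv _ N.det.2 h2⟩
    (Subtype.ext (mul_inv_cancel₀ (ne_zero_of_val h2)))
  let s' : Fin 4 → O := fun k => ⟨s k, (hs.1 k).1⟩
  let t' : Fin 4 → O := fun k => ⟨t k, (ht k).1⟩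
  have h3 : N.mulVec s' = t' := funext fun j => Subtype.ext (by
    simp only [Matrix.mulVec, dotProduct, N, s', t', Matrix.of_apply, e j]
    simp)
  refine ⟨ht, fun x hx h0 => ?_⟩
  obtain ⟨c, hc, rfl⟩ := hs.2 x hx h0
  let c' : Fin 4 → O := fun k => ⟨c k, hc k⟩
  refine ⟨fun j => (Matrix.vecMul c' N⁻¹ j : O), fun j => Subtype.prop _, ?_⟩
  have h4 : c' ⬝ᵥ s' = Matrix.vecMul c' N⁻¹ ⬝ᵥ t' := by
    rw [← Matrix.dotProduct_mulVec, ← h3, Matrix.mulVec_mulVec, Matrix.nonsing_inv_mul _ hu,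
      Matrix.one_mulVec]
  simpa [dotProduct, c', s', t'] using congrArg O.val h4

/-- A4 (c): generators move along translations -/
theorem Gen.tr {O O' : Subalgebra ℂ M} {b c : V} (hO' : O' ≤ Loc (b + c))
    (h : ∀ x, tr c x ∈ O ↔ x ∈ O') {s : Fin 4 → M} (hs : Gen O' (b + c) s) :
    Gen O b fun i => tr c (s i) := by
  refine ⟨fun i => ⟨(h _).2 (hs.1 i).1, by rw [(tr_mem (hO' (hs.1 i).1)).2, (hs.1 i).2]⟩,
    fun x hx h0 => ?_⟩
  obtain ⟨x, rfl⟩ := (Var.tr c).surjective x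
  rw [h] at hx
  rw [(tr_mem (hO' hx)).2] at h0
  obtain ⟨a, ha, rfl⟩ := hs.2 x hx h0
  exact ⟨fun i => Var.tr c (a i), fun i => (h _).2 (ha i), by simp⟩

/-- A4: a translation invariant family of local rings that contains the local rings of `A` -/
theorem gen_all (O : V → Subalgebra ℂ M) (hO : ∀ b, O b ≤ Loc b)
    (hinv : ∀ b, ∀ x ∈ O b, val x b ≠ 0 → x⁻¹ ∈ O b)
    (htr : ∀ b c, ∀ x ∈ O (b + c), tr c x ∈ O b)
    (A : Subalgebra ℂ M) [Algebra.FiniteType ℂ A] (hn : Algebra.trdeg ℂ A = 4)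
    (hpt : ∀ y : A →ₐ[ℂ] ℂ, ∃ b, A ≤ Loc b ∧ ∀ x : A, y x = val x b)
    (hA : ∀ b (h : A ≤ Loc b), O b = locA A b h) (b : V) {t : Fin 4 → M}
    (ht : ∀ i, t i ∈ O b ∧ val (t i) b = 0)
    (hd : (Matrix.of fun i j => val (pd i (t j)) b).det ≠ 0) : Gen (O b) b t := by
  obtain ⟨b₀, h₀, s, hs⟩ := exists_gen A hn hpt
  rw [← hA b₀ h₀, show b₀ = b + (b₀ - b) by abel] at hs
  refine (hs.tr (hO _) fun x => ⟨fun hx => ?_, htr _ _ x⟩).of_det (hO b) (hinv b) ht hd
  have := htr (b + (b₀ - b)) (-(b₀ - b)) _ (by rwa [add_neg_cancel_right])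
  rwa [tr_neg_tr] at this

end

end Pool.Agent.Lib.MP_d3d358_ag.Var.A4
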