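import Pool.Agent.Lib.MP_d3d358_ag.Var.Eul

/-! Equivariant coordinates that are flat to any order along an orbit. -/

set_option autoImplicit false

namespace Pool.Agent.Lib.MP_d3d358_ag.Var

open MvPolynomial

noncomputable section

theorem gv_eq_sum {A : Type} [AddCommGroup A] [Module ℂ A] (g : G) (z : Fin 4 → A) (i : Fin 4) :
    gv g z i = ∑ j, gv g (Pi.single j 1 : V) i • z j := by
  cases g <;> fin_cases i <;> simp [gv_r, gv_sr, Fin.sum_univ_four]

theorem gv_mem {A : Type} [AddCommGroup A] [Module ℂ A] {N : Submodule ℂ A} (g : G)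
    {z : Fin 4 → A} (hz : ∀ j, z j ∈ N) (i : Fin 4) : gv g z i ∈ N := by
  rw [gv_eq_sum]
  exact sum_mem fun j _ => N.smul_mem _ (hz j)

section Avg

variable {T : Type} [CommRing T] [Algebra ℂ T] [MulSemiringAction G T] [SMulCommClass G ℂ T]

/-- the equivariant average of a quadruple -/
def avgV (t : Fin 4 → T) : Fin 4 → T := (6 : ℂ)⁻¹ • ∑ g : G, gv g fun j => g • t j

omit [SMulCommClass G ℂ T] in
theorem avgV_apply (t : Fin 4 → T) (i : Fin 4) :
    avgV t i = (6 : ℂ)⁻¹ • ∑ g : G, gv g (fun j => g • t j) i := by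
  simp [avgV, Finset.sum_apply]

theorem smul_gv (k g : G) (t : Fin 4 → T) (i : Fin 4) :
    k • gv g t i = gv g (fun j => k • t j) i :=
  gv_map (MulSemiringAction.toAlgHom ℂ T k).toLinearMap g t i

theorem six_avg {A : Type} [AddCommGroup A] [Module ℂ A] (a : A) :
    (6 : ℂ)⁻¹ • ∑ _g : G, a = a := by
  rw [Finset.sum_const, Finset.card_univ, DihedralGroup.card, ← Nat.cast_smul_eq_nsmul ℂ, smul_smul]
  norm_num

theorem smul_avgV (k : G) (t : Fin 4 → T) (i : Fin 4) : k • avgV t i = gv k⁻¹ (avgV t) i := by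
  have e : gv k⁻¹ (avgV t) = (6 : ℂ)⁻¹ • ∑ g : G, gv (k⁻¹ * g) fun j => g • t j := by
    rw [avgV, gv_smul]
    congr 1
    simpa only [gl_apply, gv_mul] using
      map_sum (gl k⁻¹) (fun g : G => gv g fun j => g • t j) Finset.univ
  rw [e, avgV_apply, smul_comm, Finset.smul_sum, Pi.smul_apply, Finset.sum_apply]
  congr 1
  exact Fintype.sum_equiv (Equiv.mulLeft k) _ _ fun g => by simp [smul_gv, mul_smul]

omit [SMulCommClass G ℂ T] in
theorem avgV_of_eqv {t : Fin 4 → T} (h : ∀ (g : G) i, g • t i = gv g⁻¹ t i) : avgV t = t := by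
  have : ∀ g : G, (gv g fun j => g • t j) = t := fun g => by
    rw [show (fun j => g • t j) = gv g⁻¹ t from funext (h g), gv_gv_inv]
  simp only [avgV, this, six_avg]

omit [SMulCommClass G ℂ T] in
theorem avgV_sub (t t' : Fin 4 → T) : avgV (t - t') = avgV t - avgV t' := by
  have : ∀ g : G, (gv g fun j => g • (t - t') j) =
      (gv g fun j => g • t j) - gv g fun j => g • t' j := fun g => by
    rw [← gv_sub]; congr 1; funext j; simp [smul_sub]
  simp only [avgV, this, Finset.sum_sub_distrib, smul_sub]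

omit [SMulCommClass G ℂ T] in
theorem avgV_mem {J : Ideal T} (hJ : ∀ (g : G), ∀ x ∈ J, g • x ∈ J) {t : Fin 4 → T}
    (ht : ∀ j, t j ∈ J) (i : Fin 4) : avgV t i ∈ J := by
  rw [avgV_apply]
  exact Submodule.smul_of_tower_mem _ _ (sum_mem fun g _ =>
    gv_mem (N := J.restrictScalars ℂ) g (fun j => hJ g _ (ht j)) i)

omit [Algebra ℂ T] [SMulCommClass G ℂ T] in
theorem smul_mem_pow {J : Ideal T} (hJ : ∀ (g : G), ∀ x ∈ J, g • x ∈ J) (s : ℕ) (g : G) :
    ∀ x ∈ J ^ s, g • x ∈ J ^ s := by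
  induction s with
  | zero => simp
  | succ s ih =>
    intro x hx
    rw [pow_succ] at hx ⊢
    refine Submodule.mul_induction_on hx (fun a ha b hb => ?_) fun a b ha hb => ?_
    · rw [smul_mul']; exact Ideal.mul_mem_mul (ih a ha) (hJ g b hb)
    · rw [smul_add]; exact add_mem ha hb

omit [Algebra ℂ T] [SMulCommClass G ℂ T] in
theorem smul_delta (g : G) (i j : Fin 4) :
    g • (if i = j then 1 else 0 : T) = if i = j then 1 else 0 := by
  split_ifs <;> simp

omit [MulSemiringAction G T] [SMulCommClass G ℂ T] in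
theorem ev_delta (ev : T →ₐ[ℂ] ℂ) (i j : Fin 4) :
    ev (if i = j then 1 else 0 : T) = if i = j then 1 else 0 := by
  split_ifs <;> simp

theorem smul_mem_orbJ (ev : T →ₐ[ℂ] ℂ) (g : G) : ∀ x ∈ orbJ ev, g • x ∈ orbJ ev :=
  fun x hx => mem_orbJ.2 fun k => by rw [← mul_smul]; exact mem_orbJ.1 hx _

/-- commuting derivations that transform like the partial derivatives on `V` -/
structure Flat (del : Fin 4 → Derivation ℂ T T) : Prop where
  comm : ∀ i k x, del i (del k x) = del k (del i x)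
  eqv : ∀ (g : G) k x, del k (g • x) = ∑ m, gv g⁻¹ (Pi.single k 1 : V) m • g • del m x

omit [SMulCommClass G ℂ T] in
theorem Flat.der_avgV {del : Fin 4 → Derivation ℂ T T} (h : Flat del) {J : Ideal T}
    (hJ : ∀ (g : G), ∀ x ∈ J, g • x ∈ J) {t : Fin 4 → T}
    (ht : ∀ i j, del i (t j) - (if i = j then 1 else 0) ∈ J) (i j : Fin 4) :
    del i (avgV t j) - (if i = j then 1 else 0) ∈ J := by
  have key : ∀ g : G, del i (gv g (fun j => g • t j) j) - (if i = j then 1 else 0) ∈ J := fun g => by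
    have e1 : del i (gv g (fun j => g • t j) j) = gv g (fun j => del i (g • t j)) j :=
      gv_map (del i).toLinearMap g _ j
    have e2 : (if i = j then 1 else 0 : T) =
        gv g (fun l => gv g⁻¹ (Pi.single i 1 : V) l • (1 : T)) j := by
      have := gv_map (LinearMap.toSpanSingleton ℂ T 1) g (gv g⁻¹ (Pi.single i 1 : V)) j
      simp only [gv_gv_inv, LinearMap.toSpanSingleton_apply] at this
      rw [← this, Pi.single_apply]
      simp [eq_comm]
    rw [e1, e2, ← Pi.sub_apply, ← gv_sub]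
    refine gv_mem (N := J.restrictScalars ℂ) g (fun l => ?_) j
    have : ∑ m, gv g⁻¹ (Pi.single i 1 : V) m • g • (del m (t l) - if m = l then 1 else 0) ∈ J :=
      sum_mem fun m _ => Submodule.smul_of_tower_mem _ _ (hJ g _ (ht m l))
    simpa only [Pi.sub_apply, Submodule.restrictScalars_mem, h.eqv, smul_sub, smul_delta,
      Finset.sum_sub_distrib, smul_ite, smul_zero, smul_one, Finset.sum_ite_eq', Finset.mem_univ,
      if_true] using this
  have : (6 : ℂ)⁻¹ • ∑ g : G, (del i (gv g (fun j => g • t j) j) - if i = j then 1 else 0) ∈ J :=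
    Submodule.smul_of_tower_mem _ _ (sum_mem fun g _ => key g)
  rwa [Finset.sum_sub_distrib, smul_sub, six_avg, ← map_sum, ← Derivation.map_smul,
    ← avgV_apply] at this

theorem orbI_eq (v : V) : orbI v = ⨅ l : Set.range fun g : G => gv g v, ptI l.1 := by
  ext p
  simp [mem_orbI, mem_ptI]

theorem Coord.exists_euler {ev : T →ₐ[ℂ] ℂ} {t : Fin 4 → T} (h : Coord ev t)
    {del : Fin 4 → Derivation ℂ T T}
    (ht : ∀ i j, del i (t j) - (if i = j then 1 else 0) ∈ orbJ ev) :
    ∃ τ, Euler (orbJ ev) del τ := by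
  obtain ⟨π, h1, h2, h3⟩ := exists_euler_poly
    (fun l : Set.range fun g : G => gv g fun i => ev (t i) => l.1) Subtype.val_injective
  rw [← orbI_eq] at h1 h2 h3
  rw [h.orbJ_eq] at ht ⊢
  exact ⟨_, euler_of_poly del t _ ht π h1 h2 h3⟩

/-- equivariant functions, flat to order `s`, that agree with given coordinates modulo `J ^ 2` -/
theorem Coord.exists_flat {ev : T →ₐ[ℂ] ℂ} {t : Fin 4 → T} (h : Coord ev t)
    {del : Fin 4 → Derivation ℂ T T} (hd : Flat del)
    (ht : ∀ i j, del i (t j) - (if i = j then 1 else 0) ∈ orbJ ev) (s : ℕ) :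
    ∃ t' : Fin 4 → T, (∀ (g : G) i, g • t' i = gv g⁻¹ t' i) ∧ (∀ i, t i - t' i ∈ orbJ ev ^ 2) ∧
      ∀ i j, del i (t' j) - (if i = j then 1 else 0) ∈ orbJ ev ^ s := by
  obtain ⟨τ, hτ⟩ := h.exists_euler ht
  choose y hy hy' using fun j => hτ.exists_flat hd.comm (fun i => if i = j then 1 else 0) (t j)
    (fun i => by simpa [apply_ite] using ht i j) s
  refine ⟨avgV (t - y), fun g i => smul_avgV g _ i, fun i => ?_, fun i j =>
    Ideal.pow_le_pow_right (Nat.le_succ s) (hd.der_avgV (smul_mem_pow (smul_mem_orbJ ev) _)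
      (fun i j => by simpa [apply_ite] using hy' j i) i j)⟩
  rw [avgV_sub, avgV_of_eqv h.eqv, Pi.sub_apply, sub_sub_cancel]
  exact avgV_mem (smul_mem_pow (smul_mem_orbJ ev) 2) hy i

/-- Q1: coordinates along the orbit, equivariant and flat to order `s` -/
theorem exists_coord (ev : T →ₐ[ℂ] ℂ) {del : Fin 4 → Derivation ℂ T T} (hd : Flat del) (v0 : V)
    (sep : ∀ g : G, gv g v0 = v0 → ∀ x, ev (g • x) = ev x)
    (unit : ∀ x, (∀ g : G, g • x = x) → ev x ≠ 0 → IsUnit x)
    (gen : ∀ t : Fin 4 → T, (∀ i j, ev (del i (t j)) = if i = j then 1 else 0) →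
      ∀ x, ev x = 0 → ∃ s, ev s ≠ 0 ∧
        s * x ∈ Ideal.span (Set.range fun i => t i - algebraMap ℂ T (ev (t i))))
    (t0 : Fin 4 → T) (h0 : ∀ (g : G) i, ev (g • t0 i) = gv g⁻¹ v0 i)
    (h1 : ∀ (g : G) i j, ev (g • del i (t0 j)) = if i = j then 1 else 0) (s : ℕ) :
    ∃ t : Fin 4 → T, Coord ev t ∧ (∀ i, ev (t i) = v0 i) ∧
      ∀ i j, del i (t j) - (if i = j then 1 else 0) ∈ orbJ ev ^ s := by
  have mk : ∀ t : Fin 4 → T, (∀ (g : G) i, g • t i = gv g⁻¹ t i) → (∀ i, ev (t i) = v0 i) →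
      (∀ i j, del i (t j) - (if i = j then 1 else 0) ∈ orbJ ev) → Coord ev t :=
    fun t a b c => ⟨a, fun g hg => sep g (by rwa [funext b] at hg), gen t fun i j => by
      have := mem_orbJ.1 (c i j) 1
      rwa [one_smul, map_sub, ev_delta, sub_eq_zero] at this, unit⟩
  have b : ∀ i, ev (avgV t0 i) = v0 i := fun i => by
    have : ∀ g : G, ev (gv g (fun j => g • t0 j) i) = v0 i := fun g => by
      refine (gv_map ev.toLinearMap g _ i).trans ?_
      rw [show (fun j => ev.toLinearMap (g • t0 j)) = gv g⁻¹ v0 from funext (h0 g), gv_gv_inv]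
    simp only [avgV_apply, map_smul, map_sum, this, six_avg]
  have c := hd.der_avgV (smul_mem_orbJ ev) (t := t0) fun i j => mem_orbJ.2 fun g => by
    rw [smul_sub, map_sub, h1, smul_delta, ev_delta, sub_self]
  obtain ⟨t, e1, e2, e3⟩ := (mk _ (fun g i => smul_avgV g t0 i) b c).exists_flat hd c (s + 1)
  have b' : ∀ i, ev (t i) = v0 i := fun i => by
    have := mem_orbJ.1 (Ideal.pow_le_self two_ne_zero (e2 i)) 1
    rw [one_smul, map_sub, b, sub_eq_zero] at this
    exact this.symm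
  exact ⟨t, mk t e1 b' fun i j => Ideal.pow_le_self (Nat.succ_ne_zero s) (e3 i j), b',
    fun i j => Ideal.pow_le_pow_right (Nat.le_succ s) (e3 i j)⟩

end Avg

end

end Pool.Agent.Lib.MP_d3d358_ag.Var
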