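import Pool.Agent.Lib.MP_d3d358_ag.Var.QuoD
import Pool.Agent.Lib.MP_d3d358_ag.Var.Q1
import Pool.Agent.Lib.MP_d3d358_ag.Var.A2
import Pool.Agent.Lib.MP_d3d358_ag.Var.A4
import Pool.Agent.Lib.MP_d3d358_ag.Var.MirrorK

/-! Equivariant coordinates on the torus along an orbit, flat to any order. -/

set_option autoImplicit false

namespace Pool.Agent.Lib.MP_d3d358_ag.Var

open Pool.Agent.Lib.MP_d3d358_ag.G (Sf)
open TwoF (dv ee dv_ee)

noncomputable section

section abstract

variable {T : Type} [CommRing T] [Algebra ℂ T] [MulSemiringAction G T] [SMulCommClass G ℂ T]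
  {del : Fin 4 → Derivation ℂ T T}

theorem Flat.smul_der (h : Flat del) (g : G) (k : Fin 4) (x : T) :
    g • del k x = ∑ m, gv g (Pi.single k 1 : V) m • del m (g • x) := by
  have := h.eqv g⁻¹ k (g • x)
  rw [inv_smul_smul, inv_inv] at this
  rw [this, Finset.smul_sum]
  simp only [smul_comm g, smul_inv_smul]

/-- equivariant functions with unit Jacobian at one point have it along the orbit -/
theorem Flat.mem_orbJ (h : Flat del) (ev : T →ₐ[ℂ] ℂ) {t : Fin 4 → T}
    (ht : ∀ (g : G) i, g • t i = gv g⁻¹ t i)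
    (h1 : ∀ i j, ev (del i (t j)) = if i = j then 1 else 0) (i j : Fin 4) :
    del i (t j) - (if i = j then 1 else 0) ∈ orbJ ev := Var.mem_orbJ.2 fun g => by
  have e : ∀ m, ev (del m (gv g⁻¹ t j)) = gv g⁻¹ (Pi.single m 1 : V) j := fun m => by
    refine (gv_map (ev.toLinearMap ∘ₗ (del m).toLinearMap) g⁻¹ t j).trans ?_
    congr 1
    funext l
    rw [Pi.single_apply]
    exact (h1 m l).trans (by simp only [eq_comm])
  rw [smul_sub, map_sub, smul_delta, ev_delta, h.smul_der, ht, map_sum, sub_eq_zero]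
  simp only [map_smul, e]
  have := gv_eq_sum g⁻¹ (gv g (Pi.single i 1 : V)) j
  rw [gv_inv_gv, Pi.single_apply] at this
  simp only [smul_eq_mul, mul_comm, eq_comm (a := j)] at this ⊢
  exact this.symm

end abstract

variable (A : Sf)

/-- the derivations `pd i` of the semilocal ring -/
def pdO (b : V) (i : Fin 4) : Derivation ℂ (Ot A b) (Ot A b) :=
  resD _ (pd i) fun _ hx => pd_mem_quo hx i

@[simp] theorem coe_pdO (b : V) (i : Fin 4) (x : Ot A b) : (pdO A b i x).1 = pd i x.1 := rfl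

theorem flat_pdO (b : V) : Flat (pdO A b) :=
  ⟨fun i k x => Subtype.ext (pd_comm i k x.1), fun g k x => Subtype.ext (by
    rw [AddSubmonoidClass.coe_finsetSum]
    exact pd_smul g k x.1)⟩

variable {A}

theorem evO_smul {b : V} (g : G) (x : Ot A b) : evO A b (g • x) = val x.1 (gv g⁻¹ b) :=
  q2_val_smul g (Ot_le_Loc b _ x.2)

theorem mem_orbJ_evO {b : V} {x : Ot A b} :
    x ∈ orbJ (evO A b) ↔ ∀ g : G, val x.1 (gv g b) = 0 :=
  mem_orbJ.trans ⟨fun h g => by simpa only [evO_smul, inv_inv] using h g⁻¹,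
    fun h g => by rw [evO_smul, h]⟩

theorem coe_gv_Ot {b : V} (g : G) (t : Fin 4 → Ot A b) (i : Fin 4) :
    (gv g t i).1 = gv g (fun j => (t j).1) i := gv_map (Ot A b).val.toLinearMap g t i

theorem coe_delta {b : V} (i j : Fin 4) :
    (if i = j then 1 else 0 : Ot A b).1 = if i = j then 1 else 0 := by
  split_ifs <;> rfl

/-- functions with prescribed values `g v` and unit Jacobian at the points `g b` -/
theorem exists_jets_orbit {b v : V} (hv : ∀ g : G, gv g b - b ∈ Lam A → gv g v = v) {H : Ent}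
    (hH : H ∈ U A) (hb : H.1 b ≠ 0) : ∃ t : Fin 4 → Ot A b,
      (∀ (g : G) i, val (t i).1 (gv g b) = gv g v i) ∧
      ∀ (g : G) i j, val (pd i (t j).1) (gv g b) = if i = j then 1 else 0 := by
  classical
  obtain ⟨m, hm⟩ := exists_jets_quo (Finset.univ.image fun g : G => gv g b) hH.1 (Ent.ne_zero hb)
    (by simp only [Finset.mem_image]; rintro _ ⟨g, -, rfl⟩; rwa [inv_apply hH.2])
  let c : V → G := fun a => Classical.epsilon fun g => gv g b - a ∈ Lam A
  have hc : ∀ g : G, gv (c (gv g b)) v = gv g v := fun g => by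
    have h1 : gv (c (gv g b)) b - gv g b ∈ Lam A :=
      Classical.epsilon_spec (p := fun k => gv k b - gv g b ∈ Lam A) ⟨g, by simp⟩
    have h2 := gv_mem_Lam A g⁻¹ h1
    rw [gv_sub, gv_inv_gv, ← gv_mul] at h2
    rw [← gv_gv_inv g (gv _ v), ← gv_mul g⁻¹, hv _ h2]
  choose F hF h using fun j : Fin 4 => hm m le_rfl (fun a => gv (c a) v j)
    (fun _ => ContinuousLinearMap.proj j) fun a _ a' _ e => ⟨by
      have : c a = c a' := congrArg Classical.epsilon (funext fun g => propext
        ⟨fun k => by simpa using add_mem k e, fun k => by simpa using sub_mem k e⟩)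
      rw [this], rfl⟩
  refine ⟨fun j => ⟨emb (F j) / emb (H ^ m), div_mem_Ot (hF j) (pow_mem_R1 hH.1 m)
    (pow_mem_invE hH.2 m) (by rw [Ent.pow_apply]; exact pow_ne_zero _ hb)⟩, fun g i => ?_,
    fun g i j => ?_⟩
  · exact (h i _ (by simp)).1.trans (by rw [hc])
  · have := (h j (gv g b) (by simp)).2 (ee i)
    rw [dv_ee] at this
    exact this.trans (by simp [ee, Pi.single_apply, eq_comm])

theorem crd_of {b : V} {t : Fin 4 → Ot A b} (h1 : ∀ (g : G) i, g • t i = gv g⁻¹ t i)
    (h2 : ∀ g : G, (gv g fun i => val (t i).1 b) = (fun i => val (t i).1 b) → gv g b - b ∈ Lam A)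
    (h3 : ∀ i j, pdO A b i (t j) - (if i = j then 1 else 0) ∈ orbJ (evO A b)) :
    Crd A b fun i => (t i).1 :=
  ⟨fun i => (t i).2, fun g i => (congrArg Subtype.val (h1 g i)).trans (coe_gv_Ot _ t i), h2,
    fun i j => by
      have := mem_orbJ.1 (h3 i j) 1
      rwa [one_smul, map_sub, ev_delta, sub_eq_zero] at this⟩

/-- Q1, first order: equivariant coordinates exist at every point -/
theorem exists_crd (hA : ∀ z, ∃ F ∈ U A, F.1 z ≠ 0) (b : V) : ∃ t, Crd A b t := by
  obtain ⟨v, hv⟩ := exists_model_Lam A b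
  obtain ⟨H, hH, hb⟩ := hA b
  obtain ⟨t, h0, h1⟩ := exists_jets_orbit (fun g => (hv g).2) hH hb
  have e : ∀ i, val (avgV t i).1 b = v i := fun i => by
    have : ∀ g : G, evO A b (gv g (fun j => g • t j) i) = v i := fun g => by
      refine (gv_map (evO A b).toLinearMap g _ i).trans ?_
      rw [show (fun j => (evO A b).toLinearMap (g • t j)) = gv g⁻¹ v from
        funext fun j => (evO_smul g _).trans (h0 _ j), gv_gv_inv]
    change evO A b (avgV t i) = _
    simp only [avgV_apply, map_smul, map_sum, this, six_avg]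
  exact ⟨_, crd_of (t := avgV t) (fun g i => smul_avgV g t i)
    (fun g hg => (hv g).1 (by rwa [funext e] at hg))
    ((flat_pdO A b).der_avgV (smul_mem_orbJ _) fun i j => mem_orbJ.2 fun g => by
      rw [smul_sub, map_sub, evO_smul, smul_delta, ev_delta, coe_pdO, h1, sub_self])⟩

theorem Crd.jac_orbit {b : V} {t : Fin 4 → M} (ht : Crd A b t) (i j : Fin 4) :
    pdO A b i ⟨t j, ht.mem j⟩ - (if i = j then 1 else 0) ∈ orbJ (evO A b) :=
  (flat_pdO A b).mem_orbJ _ (t := fun j => ⟨t j, ht.mem j⟩) (fun g i => Subtype.ext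
    ((ht.equi g i).trans (coe_gv_Ot g⁻¹ (fun j => ⟨t j, ht.mem j⟩) i).symm)) ht.jac i j

/-- Q1: coordinates that are flat to order `s` along the orbit, with the same values -/
theorem Crd.exists_flat {b : V} {t : Fin 4 → M} (ht : Crd A b t)
    (hs : SemiLoc b (Ow A b) (Ot A b) t) (s : ℕ) : ∃ u, Crd A b u ∧
      (∀ i, val (u i) b = val (t i) b) ∧
      ∀ i j, ∃ e ∈ orbJ (evO A b) ^ s, pd i (u j) = (if i = j then 1 else 0) + e.1 := by
  have hc : Coord (evO A b) fun i => (⟨t i, ht.mem i⟩ : Ot A b) := hs.coord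
  obtain ⟨u, e1, e2, e3⟩ := hc.exists_flat (flat_pdO A b) ht.jac_orbit (s + 1)
  have e : ∀ i, val (u i).1 b = val (t i) b := fun i => by
    have := mem_orbJ.1 (Ideal.pow_le_self two_ne_zero (e2 i)) 1
    rw [one_smul, map_sub, sub_eq_zero] at this
    exact this.symm
  refine ⟨_, crd_of e1 (fun g hg => ht.stab g (by rwa [funext e] at hg))
    fun i j => Ideal.pow_le_self (Nat.succ_ne_zero s) (e3 i j), e,
    fun i j => ⟨_, Ideal.pow_le_pow_right (Nat.le_succ s) (e3 i j), ?_⟩⟩
  rw [AddSubgroupClass.coe_sub, coe_delta, coe_pdO, add_sub_cancel]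

/-- with `A4` at `b`, coordinates at `b` give the data of `Q2` -/
theorem Good.semiLoc_of_gen (hA : Good A) {b : V}
    (h4 : ∀ t : Fin 4 → M, (∀ i, t i ∈ locN A b ∧ val (t i) b = 0) →
      (Matrix.of fun i j => val (pd i (t j)) b).det ≠ 0 → A4.Gen (locN A b) b t)
    {t : Fin 4 → M} (ht : Crd A b t) : SemiLoc b (Ow A b) (Ot A b) t := by
  refine hA.semiLoc ht (h4 (fun i => t i - algebraMap ℂ M (val (t i) b)) (fun i => ?_) ?_).2
  · have h1 : t i ∈ locN A b := quo_anti (by rintro _ rfl; exact ⟨1, gv_one _⟩) (ht.mem i)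
    refine ⟨sub_mem h1 (Subalgebra.algebraMap_mem _ _), ?_⟩
    have := map_sub (evO A b) ⟨t i, ht.mem i⟩ (algebraMap ℂ _ (val (t i) b))
    rw [AlgHom.commutes] at this
    exact this.trans (sub_self _)
  · have : (Matrix.of fun i j => val (pd i (t j - algebraMap ℂ M (val (t j) b))) b) = 1 := by
      ext i j
      simp [ht.jac, Matrix.one_apply]
    rw [this, Matrix.det_one]
    exact one_ne_zero

end

end Pool.Agent.Lib.MP_d3d358_ag.Var
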