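import Pool.Agent.Lib.MP_d3d358_ag.Var.A4K
import Pool.Agent.Lib.MP_d3d358_ag.Var.Q1M

/-! The alternating theta functions near a triple point. -/

set_option autoImplicit false

namespace Pool.Agent.Lib.MP_d3d358_ag.Var.GeoT

open Filter Topology LiouM TwoF
open Pool.Agent.Lib.MP_d3d358_ag.G (Sf crd)

noncomputable section

theorem fderiv_val {x : M} {b : V} (hx : x ∈ Loc b) (v : V) :
    fderiv ℂ (val x) b v = val (dv v x) b := by
  have hd := (analyticAt_val hx).differentiableAt
  obtain ⟨F, F', h, rfl⟩ := hx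
  have e : F.1 =ᶠ[𝓝 b] val (emb F / emb F') * F'.1 := by
    filter_upwards [F'.cont.continuousAt.eventually_ne h] with z hz
    rw [Pi.mul_apply, val_div F hz, div_mul_cancel₀ _ hz]
  have e1 := congrArg (fun D : V →L[ℂ] ℂ => D v) e.fderiv_eq
  simp only [fderiv_mul hd (F'.diff b), val_div F h, ContinuousLinearMap.add_apply,
    ContinuousLinearMap.smul_apply, smul_eq_mul] at e1
  rw [dv_div v F F' (Ent.ne_zero h), val_div _ (F' := F' * F') (mul_ne_zero h h)]
  simp only [Ent.sub_apply, Ent.mul_apply, dE_apply, e1]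
  field_simp
  ring

/-- functions with unit Jacobian are local coordinates -/
theorem map_val {b : V} {t : Fin 4 → M} (hm : ∀ i, t i ∈ Loc b)
    (hj : ∀ i j, val (pd i (t j)) b = if i = j then 1 else 0) :
    map (fun z i => val (t i) z) (𝓝 b) = 𝓝 fun i => val (t i) b := by
  have h : HasStrictFDerivAt (fun z i => val (t i) z)
      ((ContinuousLinearEquiv.refl ℂ V : V ≃L[ℂ] V) : V →L[ℂ] V) b := by
    refine hasStrictFDerivAt_pi'.2 fun j => ?_
    convert (analyticAt_val (hm j)).hasStrictFDerivAt using 1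
    refine ContinuousLinearMap.ext fun v => ?_
    conv_rhs => rw [← sum_ee v, map_sum]
    simp only [map_smul]
    simp only [fderiv_val (hm j), dv_ee, hj]
    simp
  exact h.map_nhds_eq_of_equiv

/-- the five alternants are independent modulo functions that vanish at the origin -/
theorem coef_zero {X : Type*} {l : Filter X} {τ : X → V} (hτ : map τ l = 𝓝 0)
    {c : X → Fin 5 → ℂ} {a : Fin 5 → ℂ} (hc : Tendsto c l (𝓝 a))
    (h : ∀ᶠ z in l, ∑ ν, c z ν * alt (τ z) ν = 0) : a = 0 := by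
  have lim : ∀ (w : V) (φ : X → ℂ) (y : ℂ), Tendsto φ l (𝓝 y) →
      (∀ z (s : ℂ), s ≠ 0 → τ z = s • w → ∑ ν, c z ν * alt (s • w) ν = 0 → φ z = 0) → y = 0 := by
    intro w φ y hφ H
    have t0 : Tendsto (fun s : ℂ => s • w) (𝓝[≠] 0) (𝓝 0) := by
      have : Continuous fun s : ℂ => s • w := by fun_prop
      simpa using (this.tendsto 0).mono_left nhdsWithin_le_nhds
    have k : ∃ᶠ y in 𝓝 (0 : V), ∃ s : ℂ, s ≠ 0 ∧ y = s • w := t0.frequently
      (Eventually.frequently (by filter_upwards [self_mem_nhdsWithin] with s hs using ⟨s, hs, rfl⟩))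
    rw [← hτ, frequently_map] at k
    refine isClosed_singleton.mem_of_frequently_of_tendsto ((k.and_eventually h).mono ?_) hφ
    rintro z ⟨⟨s, hs, e⟩, hz⟩
    exact H z s hs e (e ▸ hz)
  have hc' := tendsto_pi_nhds.1 hc
  have cub : ∀ x y : ℂ, a 1 * x ^ 3 + a 2 * (x ^ 2 * y) + a 3 * (x * y ^ 2) + a 4 * y ^ 3 = 0 :=
    fun x y => lim ![x, y, 0, 0] _ _ (((((hc' 1).mul_const _).add ((hc' 2).mul_const _)).add
      ((hc' 3).mul_const _)).add ((hc' 4).mul_const _)) fun z s hs _ e => by
        refine mul_left_cancel₀ (pow_ne_zero 3 hs) ?_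
        simp [Fin.sum_univ_five, alt] at e
        linear_combination e
  have h0 : a 0 + 0 * (a 1 - a 4) = 0 := lim ![1, 0, 0, 1] _ _
    ((hc' 0).add ((tendsto_pi_nhds.1 hτ.le 0).mul ((hc' 1).sub (hc' 4)))) fun z s hs e' e => by
      refine mul_left_cancel₀ (pow_ne_zero 2 hs) ?_
      simp [Fin.sum_univ_five, alt] at e
      simp only [e', Pi.smul_apply, Matrix.cons_val_zero, smul_eq_mul]
      linear_combination e
  have h1 : a 1 = 0 := by linear_combination cub 1 0
  have h4 : a 4 = 0 := by linear_combination cub 0 1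
  funext ν
  fin_cases ν
  · simpa using h0
  · exact h1
  · change a 2 = 0
    linear_combination (cub 1 1 - cub 1 (-1)) / 2 - h4
  · change a 3 = 0
    linear_combination (cub 1 1 + cub 1 (-1)) / 2 - h1
  · exact h4

theorem alt_mem_sub {O : Subalgebra ℂ M} {t : Fin 4 → M} (ht : ∀ i, t i ∈ O) (ν : Fin 5) :
    alt t ν ∈ O := by
  rw [← show (alt (fun i => (⟨t i, ht i⟩ : O)) ν).1 = alt t ν from map_alt O.val _ ν]
  exact Subtype.prop _

theorem val_comb {z : V} {e : Fin 5 → M} {t : Fin 4 → M} (he : ∀ ν, e ν ∈ Loc z)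
    (ht : ∀ i, t i ∈ Loc z) :
    val (∑ ν, e ν * alt t ν) z = ∑ ν, val (e ν) z * alt (fun i => val (t i) z) ν := by
  rw [A4.val_sum _ fun ν => mul_mem (he ν) (alt_mem_sub ht ν)]
  refine Finset.sum_congr rfl fun ν _ => ?_
  rw [val_mul (he ν) (alt_mem_sub ht ν),
    ← show (alt (fun i => (⟨t i, ht i⟩ : Loc z)) ν).1 = alt t ν from map_alt (Loc z).val _ ν]
  exact congrArg _ (map_alt (evL z) _ ν)

theorem rel_zero {b : V} {t : Fin 4 → M} (ht : ∀ i, t i ∈ Loc b)
    (hτ : map (fun z i => val (t i) z) (𝓝 b) = 𝓝 0) {r : Fin 5 → Loc b}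
    (h : ∑ ν, (r ν).1 * alt t ν = 0) (ν : Fin 5) : evL b (r ν) = 0 := by
  refine congrFun (coef_zero hτ (c := fun z ν => val (r ν).1 z) (a := fun ν => evL b (r ν))
    (tendsto_pi_nhds.2 fun ν => (analyticAt_val (r ν).2).continuousAt) ?_) ν
  filter_upwards [eventually_all.2 fun ν => eventually_mem (r ν).2,
    eventually_all.2 fun i => eventually_mem (ht i)] with z h1 h2
  rw [← val_comb h1 h2, h, A4.val_zero]

/-- alternating elements are combinations of the five alternants -/
theorem exists_sum_alt {b : V} {O T : Subalgebra ℂ M} {t : Fin 4 → M} (h : SemiLoc b O T t)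
    {x : M} (hx : x ∈ T) (ha : ∀ g : G, g • x = sg g • x) :
    ∃ e : Fin 5 → M, (∀ ν, e ν ∈ O) ∧ x = ∑ ν, e ν * alt t ν := by
  have hE : Equi t := h.eqv
  have hO : ∀ (g : G) (a : O), g • algebraMap O M a = algebraMap O M a :=
    fun g a => ((h.inv _).1 a.2).2 g
  have h1 : x ∈ Algebra.adjoin O (Set.range t) := by
    refine (Submodule.span_le (p := (Algebra.adjoin O (Set.range t)).toSubmodule)).2 ?_
      (h.mem_span_range hx)
    rintro _ ⟨p, rfl⟩
    change MvPolynomial.aeval t p ∈ Algebra.adjoin O (Set.range t)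
    induction p using MvPolynomial.induction_on with
    | C a =>
      rw [MvPolynomial.algHom_C, IsScalarTower.algebraMap_apply ℂ O M]; exact algebraMap_mem _ _
    | add p q hp hq => rw [map_add]; exact add_mem hp hq
    | mul_X p n hp =>
      rw [map_mul, MvPolynomial.aeval_X]; exact mul_mem hp (Algebra.subset_adjoin ⟨n, rfl⟩)
  obtain ⟨e, he, rfl⟩ := hE.exists_sum_alt hO h1 ha
  refine ⟨e, fun ν => ?_, rfl⟩
  have := he ν
  generalize e ν = y at this
  induction this using Algebra.adjoin_induction with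
  | mem y hy =>
    obtain ⟨i, rfl⟩ := hy
    refine (h.inv _).2 ⟨?_, fun g => hE.smul_ivt g i⟩
    rw [← show (ivt (fun i => (⟨t i, h.mem i⟩ : T)) i).1 = ivt t i from map_ivt T.val _ i]
    exact Subtype.prop _
  | algebraMap c => exact c.2
  | add x y _ _ hx hy => exact add_mem hx hy
  | mul x y _ _ hx hy => exact mul_mem hx hy

variable {A : Sf}

/-- equivariant functions vanish at a fixed point -/
theorem val_eq_zero {b : V} (hb : ∀ g : G, gv g b - b ∈ Lam A) {t : Fin 4 → M}
    (ht : Crd A b t) : (fun i => val (t i) b) = 0 := by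
  refine eq_zero_of_gv_r (k := 1) (by decide) (funext fun i => ?_)
  have m := fun i => Ot_le_Loc' b (ht.mem i)
  have e1 := q2_val_smul (DihedralGroup.r 1 : G)⁻¹ (Ot_le_Loc b _ (ht.mem i))
  have e2 := (val_add_Lam (ht.mem i) ⟨1, gv_one b⟩ (hb (.r 1))).2
  rw [ht.equi, inv_inv] at e1
  rw [add_sub_cancel, ← e1] at e2
  rw [← e2, ← show (gv (.r 1) (fun i => (⟨t i, m i⟩ : Loc b)) i).1 = gv (.r 1) t i from
    gv_map (Loc b).val.toLinearMap _ _ i]
  exact (gv_map (evL b).toLinearMap (.r 1) (fun i => (⟨t i, m i⟩ : Loc b)) i).symm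

/-- alternating elements are combinations of the alternating theta functions -/
theorem exists_sum_fW (hA : Good A) {b : V} {u : Ent} (hu : u ∈ U A) (hb : u.1 b ≠ 0) {x : M}
    (hx : x ∈ Ot A b) (ha : ∀ g : G, g • x = sg g • x) :
    ∃ p : Fin (nW A) → Ow A b, ∑ i, (p i).1 * (emb (fW hA i) / emb u) = x := by
  obtain ⟨s, hs, s0, h⟩ := hA.exists_den_alt hu hb hx ha
  have le := Aq_le_Ow hu hb
  have h1 : ∀ y ∈ Submodule.span (Aq A u) {x | ∃ E ∈ W A, x = emb E / emb u},
      y ∈ Submodule.span (Ow A b) (Set.range fun i => emb (fW hA i) / emb u) := fun y hy => by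
    induction hy using Submodule.span_induction with
    | mem y hy =>
      obtain ⟨E, hE, rfl⟩ := hy
      rw [← span_fW hA] at hE
      obtain ⟨c, rfl⟩ := (Submodule.mem_span_range_iff_exists_fun ℂ).1 hE
      rw [map_sum, Finset.sum_div]
      refine sum_mem fun i _ => ?_
      rw [map_smul, smul_div_assoc]
      exact Submodule.smul_of_tower_mem _ _ (Submodule.subset_span ⟨i, rfl⟩)
    | zero => exact zero_mem _
    | add a c _ _ ha hc => exact add_mem ha hc
    | smul a c _ hc => exact Submodule.smul_mem _ (⟨a.1, le a.2⟩ : Ow A b) hc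
  have := Submodule.smul_mem _ (⟨_, inv_mem_Ow (le hs) s0⟩ : Ow A b) (h1 _ h)
  change s⁻¹ * (s * x) ∈ _ at this
  rw [inv_mul_cancel_left₀ (A4.ne_zero_of_val s0)] at this
  exact (Submodule.mem_span_range_iff_exists_fun _).1 this

/-- the alternating theta functions near a fixed point, given equivariant coordinates -/
theorem triple_of_crd (hA : Good A) {b : V} (hb : ∀ g : G, gv g b - b ∈ Lam A) {t : Fin 4 → M}
    (ht : Crd A b t) (hs : SemiLoc b (Ow A b) (Ot A b) t) :
    ∃ (τ : V → V) (E : V → (Fin 5 → ℂ) →L[ℂ] Fin (nW A) → ℂ), map τ (𝓝 b) = 𝓝 0 ∧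
      ContinuousAt E b ∧ Function.Injective (E b) ∧
      ∀ᶠ z in 𝓝 b, (fun i => (fW hA i).1 z) = E z (alt (τ z)) := by
  obtain ⟨u, hu, ub⟩ := hA.bpf b
  have m := fun i => Ot_le_Loc' b (ht.mem i)
  have le : Ow A b ≤ Loc b := inf_le_left.trans (Ot_le_Loc' b)
  have hτ := map_val m ht.jac
  rw [val_eq_zero hb ht] at hτ
  choose e he ee using fun i => exists_sum_alt hs
    (div_mem_Ot (fW_mem hA i).1 hu.1 hu.2 ub) fun g => by
      rw [smul_div₀', smul_emb, smul_emb, hu.2 g, (fW_mem hA i).2 g, map_smul, smul_div_assoc]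
  choose p hp using fun ν => exists_sum_fW hA hu ub (alt_mem_sub ht.mem ν)
    fun g => ht.equi.smul_alt g ν
  let E : V → (Fin 5 → ℂ) →L[ℂ] Fin (nW A) → ℂ := fun z => ∑ i, ∑ ν, (u.1 z * val (e i ν) z) •
    (ContinuousLinearMap.single ℂ (fun _ => ℂ) i).comp (ContinuousLinearMap.proj ν)
  have hE : ∀ z w i, E z w i = u.1 z * ∑ ν, val (e i ν) z * w ν := fun z w i => by
    simp [E, Pi.single_apply, Finset.mul_sum, mul_assoc]
  refine ⟨_, E, hτ, tendsto_finsetSum _ fun i _ => tendsto_finsetSum _ fun ν _ =>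
    (u.cont.continuousAt.mul (analyticAt_val (le (he i ν))).continuousAt).smul_const _,
    (injective_iff_map_eq_zero _).2 fun w hw => funext fun ν => ?_, ?_⟩
  · have h0 : ∀ i, ∑ μ, val (e i μ) b * w μ = 0 := fun i =>
      (mul_eq_zero.1 ((hE b w i).symm.trans (congrFun hw i))).resolve_left ub
    have h1 := rel_zero m hτ (r := fun μ => ∑ i, ⟨_, le (p ν i).2⟩ * ⟨_, le (he i μ)⟩ -
      if μ = ν then 1 else 0) (by
        have := hp ν
        simp only [ee, Finset.mul_sum, ← mul_assoc] at this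
        rw [Finset.sum_comm] at this
        simp only [AddSubgroupClass.coe_sub, sub_mul, Finset.sum_sub_distrib,
          apply_ite (Subtype.val : Loc b → M)]
        simp [Finset.sum_mul, this])
    simp only [map_sub, map_sum, map_mul, evL_apply, apply_ite (evL b), map_one, map_zero,
      sub_eq_zero] at h1
    have h2 : ∑ μ, (∑ i, val (p ν i).1 b * val (e i μ) b) * w μ = 0 := by
      simp only [Finset.sum_mul, mul_assoc]
      rw [Finset.sum_comm]
      simp only [← Finset.mul_sum, h0, mul_zero, Finset.sum_const_zero]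
    simpa [h1] using h2
  · filter_upwards [eventually_all.2 fun i => eventually_all.2 fun ν =>
      eventually_mem (le (he i ν)), eventually_all.2 fun i => eventually_mem (m i),
      u.cont.continuousAt.eventually_ne ub] with z h1 h2 h3
    funext i
    rw [hE, ← val_comb (h1 i) h2, ← ee, val_div _ h3, mul_div_cancel₀ _ h3]

/-- triple points are fixed by the whole group -/
theorem fixed_of_triple {b : V} (h1 : crd 0 b - crd 1 b ∈ A.L) (h2 : crd 0 b - crd 2 b ∈ A.L)
    (g : G) : gv g b - b ∈ Lam A := by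
  have h : ∀ k, crd 0 b - crd k b ∈ A.L := fun k => by
    have : k = 0 ∨ k = 1 ∨ k = 2 := by revert k; decide
    rcases this with rfl | rfl | rfl
    exacts [by simp, h1, h2]
  refine G.mem_lat3.2 fun k => ?_
  rw [map_sub, G.crd_gv]
  simpa using sub_mem (h k) (h (G.prm g k))

/-- the alternating theta functions near a triple point -/
theorem exists_triple (hA : Good A) (h3 : Algebra.trdeg ℂ (KN A) = 4) (b : V)
    (h1 : crd 0 b = crd 1 b) (h2 : crd 0 b - crd 2 b ∈ A.L) :
    ∃ (τ : V → V) (E : V → (Fin 5 → ℂ) →L[ℂ] Fin (nW A) → ℂ), map τ (𝓝 b) = 𝓝 0 ∧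
      ContinuousAt E b ∧ Function.Injective (E b) ∧
      ∀ᶠ z in 𝓝 b, (fun i => (fW hA i).1 z) = E z (alt (τ z)) := by
  obtain ⟨t, ht⟩ := exists_crd hA.bpf b
  exact triple_of_crd hA (fixed_of_triple (by simp [h1]) h2) ht
    (hA.semiLoc ht (A4.Crd.gen hA h3 ht))

end

end Pool.Agent.Lib.MP_d3d358_ag.Var.GeoT
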