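import Pool.Agent.Lib.MP_d3d358_ag.Var.Open
import Pool.Agent.Lib.MP_d3d358_ag.Var.Mirror

/-! The vectors of alternating and of invariant forms: continuity, invariance, separation. -/

set_option autoImplicit false

namespace Pool.Agent.Lib.MP_d3d358_ag.Var.Seg

variable {S : Type} [CommRing S] [Algebra ℂ S] {𝒜 : ℕ → Submodule ℂ S} {L : AddSubgroup V}
  {ι κ : Type} (D : Seg 𝒜 L ι κ)

theorem continuous_fvec : Continuous fun z i => (D.f i).1 z := continuous_pi fun i => (D.f i).cont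

theorem continuous_gvec : Continuous fun z j => (D.g j).1 z := continuous_pi fun j => (D.g j).cont

theorem gvec_ne (z : V) : (fun j => (D.g j).1 z) ≠ 0 := Function.ne_iff.2 (D.bpf z)

theorem fvec_eq_zero {z : V} : (fun i => (D.f i).1 z) = 0 ↔ z ∉ Free L := by
  rw [D.free, ← not_iff_not, not_not]
  exact Function.ne_iff

theorem gvec_act (γ : G) {l : V} (hl : l ∈ L) (z : V) :
    ∃ c : ℂ, c ≠ 0 ∧ (fun j => (D.g j).1 (gv γ z + l)) = c • fun j => (D.g j).1 z := by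
  obtain ⟨μ, hμ⟩ := D.autg γ l hl z
  obtain ⟨j, hj⟩ := D.bpf (gv γ z + l)
  exact ⟨μ, left_ne_zero_of_mul (hμ j ▸ hj), funext hμ⟩

theorem fvec_act (γ : G) {l : V} (hl : l ∈ L) (z : V) :
    ∃ c : ℂ, c ≠ 0 ∧ (fun i => (D.f i).1 (gv γ z + l)) = c • fun i => (D.f i).1 z := by
  by_cases hz : z ∈ Free L
  · obtain ⟨μ, hμ⟩ := D.autf γ l hl z
    obtain ⟨i, hi⟩ := (D.free _).1 (free_act D.act hz γ hl)
    exact ⟨μ, left_ne_zero_of_mul (hμ i ▸ hi), funext hμ⟩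
  · exact ⟨1, one_ne_zero, by
      rw [D.fvec_eq_zero.2 hz, D.fvec_eq_zero.2 (mt (free_act_iff D.act γ hl).1 hz), smul_zero]⟩

theorem gvec_sep {a b : V} {c : ℂ} (h : (fun j => (D.g j).1 a) = c • fun j => (D.g j).1 b) :
    ∃ γ, ∃ l ∈ L, a = gv γ b + l :=
  D.sep a b fun j k => by
    rw [congrFun h j, congrFun h k]
    simp only [Pi.smul_apply, smul_eq_mul]
    ring

/-- The fields `inv`, `g_ne`, `g_sep`, `f_zero` of the analytic interface, for coordinates `zt` in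
which the orbits are described by `O` and the free points by `F`. -/
theorem geo_fields {T : Type} {zt : T → V} {O : T → T → Prop} {F : T → Prop}
    (hO : ∀ t t', O t t' ↔ ∃ γ, ∃ l ∈ L, zt t' = gv γ (zt t) + l)
    (hF : ∀ t, F t ↔ zt t ∈ Free L) :
    (∀ t t', O t t' →
      (∃ c : ℂ, c ≠ 0 ∧ (fun i => (D.f i).1 (zt t')) = c • fun i => (D.f i).1 (zt t)) ∧
      ∃ c : ℂ, c ≠ 0 ∧ (fun j => (D.g j).1 (zt t')) = c • fun j => (D.g j).1 (zt t)) ∧
    (∀ t, (fun j => (D.g j).1 (zt t)) ≠ 0) ∧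
    (∀ t t' (c : ℂ), ((fun j => (D.g j).1 (zt t')) = c • fun j => (D.g j).1 (zt t)) → O t t') ∧
    ∀ t, (fun i => (D.f i).1 (zt t)) = 0 ↔ ¬F t := by
  refine ⟨fun t t' h => ?_, fun t => D.gvec_ne _, fun t t' c h => (hO t t').2 (D.gvec_sep h),
    fun t => by rw [hF, D.fvec_eq_zero]⟩
  obtain ⟨γ, l, hl, e⟩ := (hO t t').1 h
  rw [e]
  exact ⟨D.fvec_act γ hl _, D.gvec_act γ hl _⟩

end Pool.Agent.Lib.MP_d3d358_ag.Var.Seg
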