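import Pool.Agent.Lib.MP_cd184e_ag.B.Ring
import Pool.Agent.Lib.MP_9ff3e7_ag.F.XPts

/-! The function field and the local rings of a projective variety given inside a field. -/

set_option autoImplicit false

namespace Pool.Agent.Lib.MP_d3d358_ag.Var

open Pool.Agent.Lib.MP_cd184e_ag.T (ProjVar)
open Pool.Agent.Lib.MP_cd184e_ag.B
open Pool.Agent.Lib.MP_9ff3e7_ag.F (Pt Fn loc Gen1 mem_loc alg_ne alg_inj div_mem_Fn)

noncomputable section

variable {K : Type} [Field K] [Algebra ℂ K] (Y : ProjVar ℂ K)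

theorem gen1 : Gen1 (grade Y) := by
  classical
  refine ⟨Finset.univ.image (gen Y), fun a ha => ?_, ?_⟩
  · obtain ⟨l, -, rfl⟩ := Finset.mem_image.1 ha
    exact gen_mem Y l
  · rw [Finset.coe_image, Finset.coe_univ, Set.image_univ, adjoin_gen]

theorem exists_frac (x : Fn (grade Y)) : ∃ j, ∃ a ∈ grade Y j, ∃ b ∈ grade Y j, b ≠ 0 ∧
    (x : FractionRing (hring Y)) = algebraMap _ _ a / algebraMap _ _ b := by
  obtain ⟨x, hx⟩ := x
  induction hx using IntermediateField.adjoin_induction with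
  | mem x hx =>
    obtain ⟨j, a, ha, b, hb, rfl⟩ := hx
    by_cases h : b = 0
    · exact ⟨0, 0, zero_mem _, 1, SetLike.one_mem_graded _, one_ne_zero, by simp [h]⟩
    · exact ⟨j, a, ha, b, hb, h, rfl⟩
  | algebraMap r =>
    exact ⟨0, algebraMap ℂ _ r, SetLike.algebraMap_mem_graded _ r, 1, SetLike.one_mem_graded _,
      one_ne_zero, by simp [← IsScalarTower.algebraMap_apply]⟩
  | add x y _ _ hx hy =>
    obtain ⟨i, a, ha, b, hb, h1, h2⟩ := hx
    obtain ⟨j, c, hc, d, hd, h3, h4⟩ := hy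
    refine ⟨i + j, a * d + b * c, add_mem (SetLike.mul_mem_graded ha hd)
      (SetLike.mul_mem_graded hb hc), b * d, SetLike.mul_mem_graded hb hd, mul_ne_zero h1 h3, ?_⟩
    change x + y = _
    rw [show x = _ from h2, show y = _ from h4, div_add_div _ _ (alg_ne h1) (alg_ne h3), map_add,
      map_mul, map_mul, map_mul]
  | inv x _ hx =>
    obtain ⟨i, a, ha, b, hb, h1, h2⟩ := hx
    by_cases h : a = 0
    · refine ⟨0, 0, zero_mem _, 1, SetLike.one_mem_graded _, one_ne_zero, ?_⟩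
      change x⁻¹ = _
      rw [show x = _ from h2]
      simp [h]
    · refine ⟨i, b, hb, a, ha, h, ?_⟩
      change x⁻¹ = _
      rw [show x = _ from h2, inv_div]
  | mul x y _ _ hx hy =>
    obtain ⟨i, a, ha, b, hb, h1, h2⟩ := hx
    obtain ⟨j, c, hc, d, hd, h3, h4⟩ := hy
    refine ⟨i + j, a * c, SetLike.mul_mem_graded ha hc, b * d, SetLike.mul_mem_graded hb hd,
      mul_ne_zero h1 h3, ?_⟩
    change x * y = _
    rw [show x = _ from h2, show y = _ from h4, div_mul_div_comm, map_mul, map_mul]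

variable {Y}

theorem ev_ne {j : ℕ} {b : hring Y} (hb : b ∈ grade Y j) (h : b ≠ 0) : ev Y b ≠ 0 :=
  fun e => h (eq_zero_of_ev Y hb e)

variable (Y)

/-- the underlying function of `iota` -/
def iotaF (x : Fn (grade Y)) : K :=
  ev Y (exists_frac Y x).choose_spec.choose /
    ev Y (exists_frac Y x).choose_spec.choose_spec.2.choose

variable {Y}

theorem iotaF_eq {x : Fn (grade Y)} {j : ℕ} {a b : hring Y} (hb : b ∈ grade Y j) (h : b ≠ 0)
    (e : (x : FractionRing (hring Y)) = algebraMap _ _ a / algebraMap _ _ b) :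
    iotaF Y x = ev Y a / ev Y b := by
  obtain ⟨h1, h2, h3⟩ := (exists_frac Y x).choose_spec.choose_spec.2.choose_spec
  rw [iotaF, div_eq_div_iff (ev_ne h1 h2) (ev_ne hb h), ← map_mul, ← map_mul]
  have h4 := e.symm.trans h3
  rw [div_eq_div_iff (alg_ne h) (alg_ne h2), ← map_mul, ← map_mul] at h4
  exact congrArg _ (alg_inj h4).symm

variable (Y)

/-- the function field of `Y` inside `K` -/
def iota : Fn (grade Y) →ₐ[ℂ] K where
  toFun := iotaF Y
  map_one' := by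
    rw [iotaF_eq (a := 1) (SetLike.one_mem_graded (grade Y)) one_ne_zero (by simp)]; simp
  map_zero' := by
    rw [iotaF_eq (a := 0) (SetLike.one_mem_graded (grade Y)) one_ne_zero (by simp)]; simp
  map_mul' x y := by
    obtain ⟨i, a, -, b, hb, h1, h2⟩ := exists_frac Y x
    obtain ⟨j, c, -, d, hd, h3, h4⟩ := exists_frac Y y
    rw [iotaF_eq hb h1 h2, iotaF_eq hd h3 h4, iotaF_eq (a := a * c) (SetLike.mul_mem_graded hb hd)
      (mul_ne_zero h1 h3) (by
        rw [IntermediateField.coe_mul, h2, h4, div_mul_div_comm, map_mul, map_mul]),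
      map_mul, map_mul, div_mul_div_comm]
  map_add' x y := by
    obtain ⟨i, a, -, b, hb, h1, h2⟩ := exists_frac Y x
    obtain ⟨j, c, -, d, hd, h3, h4⟩ := exists_frac Y y
    rw [iotaF_eq hb h1 h2, iotaF_eq hd h3 h4, iotaF_eq (a := a * d + b * c)
      (SetLike.mul_mem_graded hb hd) (mul_ne_zero h1 h3) (by
        rw [IntermediateField.coe_add, h2, h4, div_add_div _ _ (alg_ne h1) (alg_ne h3), map_add,
          map_mul, map_mul, map_mul]),
      map_add, map_mul, map_mul, map_mul, div_add_div _ _ (ev_ne hb h1) (ev_ne hd h3)]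
  commutes' r := by
    rw [iotaF_eq (a := algebraMap ℂ _ r) (SetLike.one_mem_graded (grade Y)) one_ne_zero
      (by simp [← IsScalarTower.algebraMap_apply]), ev_algebraMap]
    simp

variable {Y}

theorem iota_eq {x : Fn (grade Y)} {j : ℕ} {a b : hring Y} (hb : b ∈ grade Y j) (h : b ≠ 0)
    (e : (x : FractionRing (hring Y)) = algebraMap _ _ a / algebraMap _ _ b) :
    iota Y x = ev Y a / ev Y b := iotaF_eq hb h e

theorem iota_inj : Function.Injective (iota Y) := (iota Y).toRingHom.injective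

@[simp] theorem ev_mono (m : ℕ) (c : K) (hc : c ∈ lin Y ^ m) : ev Y (mono m c hc) = c := by
  rw [ev_eq Y (mono_mem m c hc)]
  exact Polynomial.coeff_monomial_same _ _

theorem mono_ev {m : ℕ} {a : hring Y} (ha : a ∈ grade Y m) : mono m (ev Y a) (ev_mem Y ha) = a :=
  Subtype.ext (by rw [eq_monomial ha, ← ev_eq Y ha]; rfl)

/-- the local ring of `Y` at `p`, inside `K` -/
def Ox (p : Pt (grade Y)) : Subalgebra ℂ K := (loc p).map (iota Y)

/-- the two models of the local ring -/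
def eqv (p : Pt (grade Y)) : loc p ≃ₐ[ℂ] Ox p := (loc p).equivMapOfInjective _ iota_inj

@[simp] theorem coe_eqv (p : Pt (grade Y)) (y : loc p) : (eqv p y : K) = iota Y y := rfl

/-- evaluation at `p` -/
def evx (p : Pt (grade Y)) : Ox p →ₐ[ℂ] ℂ := (MP_9ff3e7_ag.F.ev p).comp (eqv p).symm.toAlgHom

theorem evx_eqv (p : Pt (grade Y)) (y : loc p) : evx p (eqv p y) = MP_9ff3e7_ag.F.ev p y := by
  simp [evx]

open Classical in
/-- the value of `y` at `p` (zero if `y` is not regular at `p`) -/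
def vx (p : Pt (grade Y)) (y : K) : ℂ := if h : y ∈ Ox p then evx p ⟨y, h⟩ else 0

theorem vx_eq {p : Pt (grade Y)} {y : K} (h : y ∈ Ox p) : vx p y = evx p ⟨y, h⟩ := dif_pos h

theorem vx_coe {p : Pt (grade Y)} (y : Ox p) : vx p y.1 = evx p y := dif_pos y.2

theorem iota_mem_Ox {p : Pt (grade Y)} {y : Fn (grade Y)} : iota Y y ∈ Ox p ↔ y ∈ loc p :=
  ⟨fun ⟨_, h, e⟩ => iota_inj e ▸ h, fun h => ⟨y, h, rfl⟩⟩

theorem vx_iota {p : Pt (grade Y)} (y : loc p) : vx p (iota Y y) = MP_9ff3e7_ag.F.ev p y := by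
  rw [← evx_eqv, ← vx_coe, coe_eqv]

theorem div_mem_Ox {p : Pt (grade Y)} {j : ℕ} {a b : hring Y} (ha : a ∈ grade Y j)
    (hb : b ∈ grade Y j) (h : p.1 b ≠ 0) :
    ev Y a / ev Y b ∈ Ox p ∧ vx p (ev Y a / ev Y b) = p.1 a / p.1 b := by
  have b0 : b ≠ 0 := fun e => h (by simp [e])
  let y : loc p := ⟨⟨_, div_mem_Fn ha hb⟩, mem_loc.2 ⟨j, a, ha, b, hb, h, rfl⟩⟩
  have e : iota Y y = ev Y a / ev Y b := iota_eq hb b0 rfl
  rw [← e, vx_iota]
  exact ⟨iota_mem_Ox.2 y.2, MP_9ff3e7_ag.F.ev_div p y h rfl⟩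

theorem mem_Ox {p : Pt (grade Y)} {y : K} : y ∈ Ox p ↔
    ∃ j, ∃ a ∈ grade Y j, ∃ b ∈ grade Y j, p.1 b ≠ 0 ∧ y = ev Y a / ev Y b := by
  constructor
  · rintro ⟨x, hx, rfl⟩
    obtain ⟨j, a, ha, b, hb, h, e⟩ := mem_loc.1 hx
    exact ⟨j, a, ha, b, hb, h, iota_eq hb (fun e => h (by simp [e])) e⟩
  · rintro ⟨j, a, ha, b, hb, h, rfl⟩
    exact (div_mem_Ox ha hb h).1

theorem mem_range_iota {y : K} : y ∈ (iota Y).range ↔
    ∃ j, ∃ a ∈ lin Y ^ j, ∃ b ∈ lin Y ^ j, b ≠ 0 ∧ y = a / b := by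
  constructor
  · rintro ⟨x, rfl⟩
    obtain ⟨j, a, ha, b, hb, h, e⟩ := exists_frac Y x
    exact ⟨j, _, ev_mem Y ha, _, ev_mem Y hb, ev_ne hb h, iota_eq hb h e⟩
  · rintro ⟨j, a, ha, b, hb, h, rfl⟩
    refine ⟨⟨_, div_mem_Fn (mono_mem j a ha) (mono_mem j b hb)⟩, ?_⟩
    refine (iota_eq (mono_mem j b hb) (fun e => h ?_) rfl).trans (by rw [ev_mono, ev_mono])
    rw [← ev_mono j b hb, e, map_zero]

theorem vx_mul {p : Pt (grade Y)} {x y : K} (hx : x ∈ Ox p) (hy : y ∈ Ox p) :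
    vx p (x * y) = vx p x * vx p y := by
  rw [vx_eq hx, vx_eq hy, ← map_mul, ← vx_coe]; rfl

theorem vx_add {p : Pt (grade Y)} {x y : K} (hx : x ∈ Ox p) (hy : y ∈ Ox p) :
    vx p (x + y) = vx p x + vx p y := by
  rw [vx_eq hx, vx_eq hy, ← map_add, ← vx_coe]; rfl

theorem vx_sub {p : Pt (grade Y)} {x y : K} (hx : x ∈ Ox p) (hy : y ∈ Ox p) :
    vx p (x - y) = vx p x - vx p y := by
  rw [vx_eq hx, vx_eq hy, ← map_sub, ← vx_coe]; rfl

@[simp] theorem vx_const (p : Pt (grade Y)) (c : ℂ) : vx p (algebraMap ℂ K c) = c := by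
  rw [vx_eq ((Ox p).algebraMap_mem c)]
  exact (evx p).commutes c

theorem inv_mem_Ox {p : Pt (grade Y)} {y : K} (hy : y ∈ Ox p) (h : vx p y ≠ 0) :
    y ≠ 0 ∧ y⁻¹ ∈ Ox p ∧ vx p y⁻¹ = (vx p y)⁻¹ := by
  obtain ⟨j, a, ha, b, hb, h0, rfl⟩ := mem_Ox.1 hy
  rw [(div_mem_Ox ha hb h0).2] at h ⊢
  have h1 : p.1 a ≠ 0 := fun e => h (by simp [e])
  rw [inv_div, inv_div]
  exact ⟨div_ne_zero (ev_ne ha fun e => h1 (by simp [e])) (ev_ne hb fun e => h0 (by simp [e])),
    div_mem_Ox hb ha h1⟩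

end

end Pool.Agent.Lib.MP_d3d358_ag.Var
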