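import Pool.Agent.Lib.MP_d3d358_ag.G.Stmt
import Pool.Agent.Lib.MP_9ff3e7_ag.F.XPts

/-! The classical topology on the complex points of `Proj S`: the quotient map is open, the space
is compact Hausdorff, regular functions are continuous. -/

set_option autoImplicit false

namespace Pool.Agent.Lib.MP_d3d358_ag.Var

open Filter Topology Set
open Pool.Agent.Lib.MP_9ff3e7_ag.F Pool.Agent.Lib.MP_d3d358_ag.G

noncomputable section

variable {S : Type} [CommRing S] [IsDomain S] [Algebra ℂ S] {𝒜 : ℕ → Submodule ℂ S}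

section basic

omit [IsDomain S]

/-- the point of `X(ℂ)` under a point of the cone -/
def cx (p : Pt 𝒜) : Cx 𝒜 := Quot.mk _ p

/-- a point of the cone over a point of `X(ℂ)` -/
def rep (x : Cx 𝒜) : Pt 𝒜 := Quot.out x

@[simp] theorem cx_rep (x : Cx 𝒜) : cx (rep x) = x := Quot.out_eq x

theorem cx_surj : Function.Surjective (cx : Pt 𝒜 → Cx 𝒜) := fun x => ⟨rep x, cx_rep x⟩

theorem isQuotientMap_cx : IsQuotientMap (cx : Pt 𝒜 → Cx 𝒜) := isQuotientMap_quot_mk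

theorem continuous_cx : Continuous (cx : Pt 𝒜 → Cx 𝒜) := continuous_quot_mk

theorem isInducing_pt : IsInducing fun (p : Pt 𝒜) (a : S) => p.1 a := ⟨rfl⟩

theorem continuous_pt (a : S) : Continuous fun p : Pt 𝒜 => p.1 a :=
  (continuous_apply a).comp isInducing_pt.continuous

theorem tendsto_pt_iff {Z : Type*} {l : Filter Z} {φ : Z → Pt 𝒜} {p : Pt 𝒜} :
    Tendsto φ l (𝓝 p) ↔ ∀ a, Tendsto (fun z => (φ z).1 a) l (𝓝 (p.1 a)) := by
  rw [isInducing_pt.tendsto_nhds_iff, tendsto_pi_nhds]; rfl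

/-- convergence in the cone is tested on generators -/
theorem tendsto_pt_of_gen {s : Set S} (hs : Algebra.adjoin ℂ s = ⊤) {Z : Type*} {l : Filter Z}
    {φ : Z → Pt 𝒜} {p : Pt 𝒜} (h : ∀ a ∈ s, Tendsto (fun z => (φ z).1 a) l (𝓝 (p.1 a))) :
    Tendsto φ l (𝓝 p) := by
  refine tendsto_pt_iff.2 fun a => ?_
  have ha : a ∈ Algebra.adjoin ℂ s := hs ▸ Algebra.mem_top
  induction ha using Algebra.adjoin_induction with
  | mem a ha => exact h a ha
  | algebraMap r => simpa using tendsto_const_nhds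
  | add a b _ _ ha hb => simpa using ha.add hb
  | mul a b _ _ ha hb => simpa using ha.mul hb

theorem cx_eq_iff {p q : Pt 𝒜} :
    cx p = cx q ↔ ∀ a ∈ 𝒜 1, ∀ b ∈ 𝒜 1, p.1 a * q.1 b = p.1 b * q.1 a := by
  refine Quot.eq.trans (Equivalence.eqvGen_iff ⟨fun p a _ b _ => mul_comm _ _,
    fun h a ha b hb => by rw [mul_comm, ← h a ha b hb, mul_comm], fun {p q r} h h' a ha b hb => ?_⟩)
  obtain ⟨l, hl, h0⟩ := q.2
  apply mul_left_cancel₀ h0
  linear_combination r.1 b * h a ha l hl + p.1 l * h' a ha b hb - r.1 a * h b hb l hl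

theorem exists_gen_ne {s : Set S} (hs : Algebra.adjoin ℂ s = ⊤) [GradedAlgebra 𝒜]
    (h1 : ∀ a ∈ s, a ∈ 𝒜 1) (p : Pt 𝒜) : ∃ a ∈ s, p.1 a ≠ 0 := by
  by_contra! h
  obtain ⟨l, hl, h0⟩ := p.2
  have key : ∀ a : S, (∃ r : ℂ, (DirectSum.decompose 𝒜 a 0 : S) = algebraMap ℂ S r) ∧
      p.1 (DirectSum.decompose 𝒜 a 1) = 0 := fun a => by
    have ha : a ∈ Algebra.adjoin ℂ s := hs ▸ Algebra.mem_top
    induction ha using Algebra.adjoin_induction with
    | mem a ha =>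
      rw [DirectSum.decompose_of_mem_same 𝒜 (h1 a ha),
        DirectSum.decompose_of_mem_ne 𝒜 (h1 a ha) one_ne_zero]
      exact ⟨⟨0, by simp⟩, h a ha⟩
    | algebraMap r =>
      have := SetLike.algebraMap_mem_graded 𝒜 r
      rw [DirectSum.decompose_of_mem_same 𝒜 this, DirectSum.decompose_of_mem_ne 𝒜 this zero_ne_one]
      exact ⟨⟨r, rfl⟩, map_zero _⟩
    | add a b _ _ ha hb =>
      obtain ⟨⟨r, hr⟩, ha⟩ := ha
      obtain ⟨⟨t, ht⟩, hb⟩ := hb
      exact ⟨⟨r + t, by simp [hr, ht]⟩, by simp [ha, hb]⟩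
    | mul a b _ _ ha hb =>
      obtain ⟨⟨r, hr⟩, ha⟩ := ha
      obtain ⟨⟨t, ht⟩, hb⟩ := hb
      rw [DirectSum.decompose_mul, DirectSum.coe_mul_apply_eq_sum_antidiagonal,
        DirectSum.coe_mul_apply_eq_sum_antidiagonal]
      exact ⟨⟨r * t, by simp [hr, ht]⟩, by simp [Finset.Nat.antidiagonal_succ, ha, hb]⟩
  exact h0 (by simpa [DirectSum.decompose_of_mem_same 𝒜 hl] using (key l).2)

variable [GradedAlgebra 𝒜]

variable (𝒜) in
/-- multiplication by `c ^ j` in degree `j` -/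
def sclH (c : ℂ) : S →ₐ[ℂ] S :=
  (DirectSum.toAlgebra ℂ (fun j => 𝒜 j)
    (fun j => (LinearMap.mulLeft ℂ (algebraMap ℂ S c ^ j)).comp (𝒜 j).subtype) (by simp)
    (fun {i j} a b => by simp [GradedMonoid.GMul.mul, pow_add]; ring)).comp
    (DirectSum.decomposeAlgEquiv 𝒜).toAlgHom

theorem sclH_eq (c : ℂ) {j : ℕ} {a : S} (ha : a ∈ 𝒜 j) :
    sclH 𝒜 c a = algebraMap ℂ S c ^ j * a := by
  have e : (DirectSum.decomposeAlgEquiv 𝒜).toAlgHom a = DirectSum.of (fun j => 𝒜 j) j ⟨a, ha⟩ :=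
    DirectSum.decompose_of_mem 𝒜 ha
  rw [sclH, AlgHom.comp_apply, e]
  exact DirectSum.toAddMonoid_of (β := fun j => 𝒜 j) (fun j => ((LinearMap.mulLeft ℂ
    (algebraMap ℂ S c ^ j)).comp (𝒜 j).subtype).toAddMonoidHom) j ⟨a, ha⟩

/-- scaling of the cone -/
def scl (c : ℂˣ) (p : Pt 𝒜) : Pt 𝒜 :=
  ⟨p.1.comp (sclH 𝒜 c), by
    obtain ⟨l, hl, h0⟩ := p.2
    exact ⟨l, hl, by simp [sclH_eq _ hl, h0]⟩⟩

theorem scl_apply (c : ℂˣ) (p : Pt 𝒜) {j : ℕ} {a : S} (ha : a ∈ 𝒜 j) :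
    (scl c p).1 a = (c : ℂ) ^ j * p.1 a := by
  simp [scl, sclH_eq _ ha]

theorem continuous_scl (c : ℂˣ) : Continuous (scl c : Pt 𝒜 → Pt 𝒜) :=
  isInducing_pt.continuous_iff.2 (continuous_pi fun a => continuous_pt (sclH 𝒜 c a))

@[simp] theorem cx_scl (c : ℂˣ) (p : Pt 𝒜) : cx (scl c p) = cx p :=
  cx_eq_iff.2 fun a ha b hb => by rw [scl_apply c p ha, scl_apply c p hb]; ring

theorem exists_scl (h : Gen1 𝒜) {p q : Pt 𝒜} (e : cx p = cx q) : ∃ c, q = scl c p := by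
  obtain ⟨s, h1, hs⟩ := h
  obtain ⟨l, hl, h0⟩ := p.2
  obtain ⟨m, hm, h2⟩ := q.2
  have e := cx_eq_iff.1 e
  have hq : q.1 l ≠ 0 := fun h => by
    have := e l hl m hm
    rw [h, mul_zero] at this
    exact mul_ne_zero h0 h2 this
  refine ⟨Units.mk0 _ (div_ne_zero hq h0), Subtype.ext (AlgHom.ext_of_adjoin_eq_top hs
    fun a ha => ?_)⟩
  rw [scl_apply _ p (h1 a ha), pow_one, Units.val_mk0, div_mul_eq_mul_div, eq_div_iff h0]
  linear_combination e l hl a (h1 a ha)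

theorem isOpenMap_cx (h : Gen1 𝒜) : IsOpenMap (cx : Pt 𝒜 → Cx 𝒜) := fun U hU => by
  rw [← isQuotientMap_cx.isOpen_preimage]
  have : cx ⁻¹' (cx '' U) = ⋃ c, scl c ⁻¹' U := by
    ext p
    simp only [mem_preimage, mem_image, mem_iUnion]
    constructor
    · rintro ⟨q, hq, e⟩
      obtain ⟨c, rfl⟩ := exists_scl h e.symm
      exact ⟨c, hq⟩
    · rintro ⟨c, hc⟩
      exact ⟨_, hc, cx_scl c p⟩
  rw [this]
  exact isOpen_iUnion fun c => hU.preimage (continuous_scl c)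

theorem isOpenQuotientMap_cx (h : Gen1 𝒜) : IsOpenQuotientMap (cx : Pt 𝒜 → Cx 𝒜) :=
  ⟨cx_surj, continuous_cx, isOpenMap_cx h⟩

theorem t2Space_cx (h : Gen1 𝒜) : T2Space (Cx 𝒜) := by
  rw [t2Space_iff_of_isOpenQuotientMap (isOpenQuotientMap_cx h)]
  simp only [cx_eq_iff, ofPred_forall]
  refine isClosed_iInter fun a => isClosed_iInter fun _ => isClosed_iInter fun b =>
    isClosed_iInter fun _ => isClosed_eq ?_ ?_
  · exact ((continuous_pt a).comp continuous_fst).mul ((continuous_pt b).comp continuous_snd)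
  · exact ((continuous_pt b).comp continuous_fst).mul ((continuous_pt a).comp continuous_snd)

omit [GradedAlgebra 𝒜] in
theorem isCompact_sphere_pt {s : Finset S} (h1 : ∀ a ∈ s, a ∈ 𝒜 1)
    (hs : Algebra.adjoin ℂ (s : Set S) = ⊤) : IsCompact {p : Pt 𝒜 | ∑ a ∈ s, ‖p.1 a‖ = 1} := by
  have hb : ∀ a : S, ∃ R : ℝ, ∀ p : Pt 𝒜, ∑ a ∈ s, ‖p.1 a‖ = 1 → ‖p.1 a‖ ≤ R := fun a => by
    have ha : a ∈ Algebra.adjoin ℂ (s : Set S) := hs ▸ Algebra.mem_top
    induction ha using Algebra.adjoin_induction with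
    | mem a ha =>
      exact ⟨1, fun p hp => hp ▸ Finset.single_le_sum (fun b _ => norm_nonneg (p.1 b)) ha⟩
    | algebraMap r => exact ⟨‖r‖, fun p _ => by simp⟩
    | add a b _ _ ha hb =>
      obtain ⟨R, hR⟩ := ha
      obtain ⟨T, hT⟩ := hb
      exact ⟨R + T, fun p hp => by
        rw [map_add]; exact norm_add_le_of_le (hR p hp) (hT p hp)⟩
    | mul a b _ _ ha hb =>
      obtain ⟨R, hR⟩ := ha
      obtain ⟨T, hT⟩ := hb
      exact ⟨R * T, fun p hp => by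
        rw [map_mul]; exact norm_mul_le_of_le (hR p hp) (hT p hp)⟩
  choose R hR using hb
  rw [isInducing_pt.isCompact_iff]
  let C : Set (S → ℂ) := {f | ((∀ a b, f (a * b) = f a * f b) ∧ (∀ a b, f (a + b) = f a + f b)) ∧
    (∀ r, f (algebraMap ℂ S r) = r) ∧ ∑ a ∈ s, ‖f a‖ = 1}
  have hC : IsClosed C := by
    simp only [C, ofPred_and, ofPred_forall]
    refine IsClosed.inter (IsClosed.inter ?_ ?_) (IsClosed.inter ?_ ?_)
    · exact isClosed_iInter fun a => isClosed_iInter fun b => isClosed_eq (by fun_prop) (by fun_prop)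
    · exact isClosed_iInter fun a => isClosed_iInter fun b => isClosed_eq (by fun_prop) (by fun_prop)
    · exact isClosed_iInter fun r => isClosed_eq (by fun_prop) (by fun_prop)
    · exact isClosed_eq (by fun_prop) (by fun_prop)
  have e : (fun (p : Pt 𝒜) (a : S) => p.1 a) '' {p : Pt 𝒜 | ∑ a ∈ s, ‖p.1 a‖ = 1} = C := by
    apply Subset.antisymm
    · rintro _ ⟨p, hp, rfl⟩
      exact ⟨⟨map_mul p.1, map_add p.1⟩, p.1.commutes, hp⟩
    · rintro f ⟨⟨hm, ha⟩, hr, hn⟩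
      let y : S →ₐ[ℂ] ℂ :=
        { toFun := f, map_one' := by simpa using hr 1, map_mul' := hm,
          map_zero' := by simpa using hr 0, map_add' := ha, commutes' := hr }
      refine ⟨⟨y, by_contra fun h => ?_⟩, hn, rfl⟩
      push Not at h
      exact zero_ne_one ((Finset.sum_eq_zero fun a has =>
        norm_eq_zero.2 (h a (h1 a has))).symm.trans hn)
  refine (isCompact_univ_pi fun a => isCompact_closedBall (0 : ℂ) (R a)).of_isClosed_subset
    (e ▸ hC) ?_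
  rintro _ ⟨p, hp, rfl⟩ a -
  simpa using hR a p hp

theorem compactSpace_cx (h : Gen1 𝒜) : CompactSpace (Cx 𝒜) := by
  obtain ⟨s, h1, hs⟩ := h
  refine ⟨((isCompact_sphere_pt h1 hs).image continuous_cx).of_isClosed_subset isClosed_univ ?_⟩
  rintro x -
  obtain ⟨p, rfl⟩ := cx_surj x
  obtain ⟨a, ha, h0⟩ := exists_gen_ne hs h1 p
  have hp : 0 < ∑ a ∈ s, ‖p.1 a‖ :=
    Finset.sum_pos' (fun b _ => norm_nonneg _) ⟨a, ha, norm_pos_iff.2 h0⟩
  refine ⟨scl (Units.mk0 ((∑ a ∈ s, ‖p.1 a‖ : ℝ) : ℂ)⁻¹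
    (inv_ne_zero (Complex.ofReal_ne_zero.2 hp.ne'))) p, ?_, cx_scl _ p⟩
  rw [mem_ofPred_eq, Finset.sum_congr rfl fun b hb => by
    rw [scl_apply _ p (h1 b hb), pow_one, Units.val_mk0, norm_mul, norm_inv, Complex.norm_real,
      Real.norm_of_nonneg hp.le], ← Finset.mul_sum, inv_mul_cancel₀ hp.ne']

theorem rep_cx_ne (h : Gen1 𝒜) (p : Pt 𝒜) {j : ℕ} {a : S} (ha : a ∈ 𝒜 j) :
    (rep (cx p)).1 a ≠ 0 ↔ p.1 a ≠ 0 := by
  obtain ⟨c, e⟩ := exists_scl h (cx_rep (cx p)).symm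
  rw [e, scl_apply c p ha]
  simp

theorem isOpen_ne (h : Gen1 𝒜) {j : ℕ} {a : S} (ha : a ∈ 𝒜 j) :
    IsOpen {x : Cx 𝒜 | (rep x).1 a ≠ 0} := by
  rw [← isQuotientMap_cx.isOpen_preimage]
  simp only [preimage_ofPred_eq, rep_cx_ne h _ ha]
  exact isOpen_ne_fun (continuous_pt a) continuous_const

end basic

/-- the local ring at a point of `X(ℂ)` -/
def locX (x : Cx 𝒜) : Subalgebra ℂ (Fn 𝒜) := loc (rep x)

/-- the value of a rational function at a point of `X(ℂ)` -/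
def valX (y : Fn 𝒜) (x : Cx 𝒜) : ℂ := evF (rep x).1 (y : FractionRing S)

variable [GradedAlgebra 𝒜]

theorem loc_scl (c : ℂˣ) (p : Pt 𝒜) : loc (scl c p) = loc p := by
  ext y
  rw [mem_loc, mem_loc]
  refine exists_congr fun j => exists_congr fun a => and_congr_right fun _ =>
    exists_congr fun b => and_congr_right fun hb => ?_
  rw [scl_apply c p hb]
  simp

theorem locX_cx (h : Gen1 𝒜) (p : Pt 𝒜) : locX (cx p) = loc p := by
  obtain ⟨c, e⟩ := exists_scl h (cx_rep (cx p)).symm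
  rw [locX, e, loc_scl]

theorem valX_div (h : Gen1 𝒜) (p : Pt 𝒜) {y : Fn 𝒜} {j : ℕ} {a b : S} (ha : a ∈ 𝒜 j)
    (hb : b ∈ 𝒜 j) (h0 : p.1 b ≠ 0)
    (e : (y : FractionRing S) = algebraMap S (FractionRing S) a / algebraMap S (FractionRing S) b) :
    valX y (cx p) = p.1 a / p.1 b := by
  rw [valX, e, evF_div _ _ ((rep_cx_ne h p hb).2 h0)]
  obtain ⟨c, e⟩ := exists_scl h (cx_rep (cx p)).symm
  rw [e, scl_apply c p ha, scl_apply c p hb, mul_div_mul_left _ _ (pow_ne_zero _ c.ne_zero)]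

theorem valX_cx (h : Gen1 𝒜) (p : Pt 𝒜) (y : loc p) : valX y.1 (cx p) = ev p y := by
  obtain ⟨j, a, ha, b, hb, h0, e⟩ := mem_loc.1 y.2
  rw [valX_div h p ha hb h0 e, ev_div p y h0 e]

theorem valX_eq (x : Cx 𝒜) (y : locX x) : valX y.1 x = ev (rep x) y := rfl

theorem valX_mul {x : Cx 𝒜} {y z : Fn 𝒜} (hy : y ∈ locX x) (hz : z ∈ locX x) :
    valX (y * z) x = valX y x * valX z x := map_mul (ev (rep x)) ⟨y, hy⟩ ⟨z, hz⟩

theorem valX_add {x : Cx 𝒜} {y z : Fn 𝒜} (hy : y ∈ locX x) (hz : z ∈ locX x) :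
    valX (y + z) x = valX y x + valX z x := map_add (ev (rep x)) ⟨y, hy⟩ ⟨z, hz⟩

theorem valX_const (x : Cx 𝒜) (r : ℂ) : valX (algebraMap ℂ (Fn 𝒜) r) x = r :=
  (ev (rep x)).commutes r

/-- near a point where it is regular a function is a quotient of two forms -/
theorem exists_nhds_div (h : Gen1 𝒜) {p : Pt 𝒜} {y : Fn 𝒜} (hy : y ∈ locX (cx p)) :
    ∃ a b : S, p.1 b ≠ 0 ∧ ∀ q : Pt 𝒜, q.1 b ≠ 0 →
      y ∈ locX (cx q) ∧ valX y (cx q) = q.1 a / q.1 b := by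
  rw [locX_cx h] at hy
  obtain ⟨j, a, ha, b, hb, h0, e⟩ := mem_loc.1 hy
  exact ⟨a, b, h0, fun q hq => ⟨locX_cx h q ▸ mem_loc.2 ⟨j, a, ha, b, hb, hq, e⟩,
    valX_div h q ha hb hq e⟩⟩

theorem isOpen_reg (h : Gen1 𝒜) (y : Fn 𝒜) : IsOpen {x : Cx 𝒜 | y ∈ locX x} := by
  rw [← isQuotientMap_cx.isOpen_preimage, isOpen_iff_mem_nhds]
  intro p hp
  obtain ⟨a, b, h0, hq⟩ := exists_nhds_div h hp
  filter_upwards [(continuous_pt b).continuousAt.eventually_ne h0] with q hq' using (hq q hq').1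

theorem continuousAt_valX (h : Gen1 𝒜) {y : Fn 𝒜} {x : Cx 𝒜} (hy : y ∈ locX x) :
    ContinuousAt (valX y) x := by
  obtain ⟨p, rfl⟩ := cx_surj x
  rw [← (isOpenQuotientMap_cx h).continuousAt_comp_iff]
  obtain ⟨a, b, h0, hq⟩ := exists_nhds_div h hy
  refine (((continuous_pt a).continuousAt.div (continuous_pt b).continuousAt h0)).congr ?_
  filter_upwards [(continuous_pt b).continuousAt.eventually_ne h0] with q hq'
    using (hq q hq').2.symm

end

end Pool.Agent.Lib.MP_d3d358_ag.Var
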