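import Pool.Agent.Lib.MP_d3d358_ag.Var.Dict
import Pool.Agent.Lib.MP_d3d358_ag.Var.Br
import Pool.Agent.Lib.MP_d3d358_ag.Var.CxA
import Pool.Agent.Lib.MP_d3d358_ag.Var.F2
import Pool.Agent.Lib.MP_d3d358_ag.Var.TwoF

/-! The symplectic form of a projective variety whose function field lies in `M`. -/

set_option autoImplicit false

namespace Pool.Agent.Lib.MP_d3d358_ag.Var.Dict

open Pool.Agent.Lib.MP_d3d358_ag.G (Symp)
open Pool.Agent.Lib.MP_cd184e_ag.T (ProjVar)
open Pool.Agent.Lib.MP_cd184e_ag.B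
open Pool.Agent.Lib.MP_9ff3e7_ag.F (Pt Fn loc)

noncomputable section

section field

variable {K : Type} [Field K] [Algebra ℂ K]

/-- generators of the maximal ideal are coordinates -/
theorem span_of_gens (del : Fin 4 → Derivation ℂ K K) (L : Subalgebra ℂ K) (x : L →ₐ[ℂ] ℂ)
    (hu : ∀ y : L, x y ≠ 0 → (y : K)⁻¹ ∈ L) {s : Set K} (hs : s.Finite)
    (hsL : Algebra.adjoin ℂ s ≤ L)
    (hL : ∀ y ∈ L, ∃ b : L, x b ≠ 0 ∧ (b : K) ∈ Algebra.adjoin ℂ s ∧
      y * b ∈ Algebra.adjoin ℂ s)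
    (c : Fin 4 → L)
    (hc : ∀ y : L, x y = 0 → y ∈ Ideal.span (Set.range fun k => c k - algebraMap ℂ L (x (c k)))) :
    ∀ f ∈ L, ∃ a : Fin 4 → K, (∀ k, a k ∈ L) ∧ ∀ i, del i f = ∑ k, a k * del i (c k) := by
  let d : Derivation ℂ K (Fin 4 → K) := Derivation.mk'
    (LinearMap.pi fun i => (del i).toLinearMap) fun a b => funext fun i => (del i).leibniz a b
  have hd (f : K) (i) : d f i = del i f := rfl
  have sm (a : L) (v : Fin 4 → K) : a • v = (a : K) • v := rfl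
  let Q : Submodule L (Fin 4 → K) := Submodule.span L (d '' s)
  have hQ0 : ∀ y ∈ Algebra.adjoin ℂ s, d y ∈ Q := fun y hy => by
    induction hy using Algebra.adjoin_induction with
    | mem y hy => exact Submodule.subset_span ⟨y, hy, rfl⟩
    | algebraMap r => rw [d.map_algebraMap]; exact zero_mem _
    | add y z _ _ hy hz => rw [map_add]; exact add_mem hy hz
    | mul y z hy' hz' hy hz =>
      rw [d.leibniz]
      exact add_mem (Q.smul_mem ⟨y, hsL hy'⟩ hz) (Q.smul_mem ⟨z, hsL hz'⟩ hy)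
  have hQ : ∀ y ∈ L, d y ∈ Q := fun y hy => by
    obtain ⟨b, hb, h1, h2⟩ := hL y hy
    have b0 : (b : K) ≠ 0 := fun e => hb (by rw [show b = 0 from Subtype.ext e, map_zero])
    have e : d y = (b : K)⁻¹ • (d (y * b) - y • d b) := by
      rw [d.leibniz, add_sub_cancel_left, inv_smul_smul₀ b0]
    rw [e]
    exact Q.smul_mem ⟨_, hu b hb⟩ (sub_mem (hQ0 _ h2) (Q.smul_mem ⟨y, hy⟩ (hQ0 _ h1)))
  have hm : RingHom.ker x ≤ Ideal.jacobson ⊥ := fun o ho => Ideal.mem_jacobson_bot.2 fun y => by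
    have e : x (o * y + 1) ≠ 0 := by
      rw [map_add, map_mul, RingHom.mem_ker.1 ho, zero_mul, zero_add, map_one]; exact one_ne_zero
    have x0 : ((o * y + 1 : L) : K) ≠ 0 := fun h =>
      e (by rw [show o * y + 1 = 0 from Subtype.ext h, map_zero])
    exact IsUnit.of_mul_eq_one ⟨_, hu _ e⟩ (Subtype.ext (mul_inv_cancel₀ x0))
  have key : Q ≤ Submodule.span L (Set.range fun k => d (c k)) := by
    refine Submodule.le_of_le_smul_of_le_jacobson_bot (Submodule.fg_span (hs.image _)) hm ?_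
    refine Submodule.span_le.2 ?_
    rintro _ ⟨y, hy, rfl⟩
    have hy' : y ∈ L := hsL (Algebra.subset_adjoin hy)
    obtain ⟨e, he⟩ := Ideal.mem_span_range_iff_exists_fun.1
      (hc (⟨y, hy'⟩ - algebraMap ℂ L (x ⟨y, hy'⟩)) (by simp))
    have h1 : d y = ∑ k, (e k • d (c k) + (c k - algebraMap ℂ L (x (c k))) • d (e k)) := by
      have h2 := congrArg (fun z : L => d (z : K)) he
      simp only [AddSubmonoidClass.coe_finsetSum, MulMemClass.coe_mul, AddSubgroupClass.coe_sub,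
        Subalgebra.coe_algebraMap, map_sum, map_sub, d.leibniz, d.map_algebraMap,
        sub_zero] at h2
      exact h2.symm
    rw [SetLike.mem_coe, h1]
    refine sum_mem fun k _ => Submodule.add_mem_sup
      (Submodule.smul_mem _ _ (Submodule.subset_span ⟨k, rfl⟩))
      (Submodule.smul_mem_smul (RingHom.mem_ker.2 (by simp)) (hQ _ (e k).2))
  intro f hf
  obtain ⟨a, ha⟩ := (Submodule.mem_span_range_iff_exists_fun L).1 (key (hQ f hf))
  refine ⟨fun k => a k, fun k => (a k).2, fun i => ?_⟩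
  rw [← hd, ← ha, Finset.sum_apply]
  rfl

variable {Y : ProjVar ℂ K}

theorem exists_J (p : Pt (grade Y)) : ∃ j ∈ Y.J, p.1 (gen Y j) ≠ 0 := by
  by_contra! h
  obtain ⟨_, ⟨l, rfl⟩, hl⟩ := exists_gen_ne (adjoin_gen Y)
    (by rintro _ ⟨l, rfl⟩; exact gen_mem Y l) p
  obtain ⟨m, hm⟩ := gen_pow_mem Y (RingHom.ker p.1) (fun j hj => RingHom.mem_ker.2 (h j hj)) l
  exact pow_ne_zero m hl (by rw [← map_pow]; exact RingHom.mem_ker.1 hm)

theorem A_le_Ox {p : Pt (grade Y)} {j : Fin Y.n} (h : p.1 (gen Y j) ≠ 0) : Y.A {j} ≤ Ox p := by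
  refine Algebra.adjoin_le ?_
  rintro _ ⟨l, j', hj, rfl⟩
  rw [Finset.mem_singleton.1 hj, ← ev_gen, ← ev_gen]
  exact (div_mem_Ox (gen_mem Y l) (gen_mem Y j) h).1

theorem exists_den {p : Pt (grade Y)} {j : Fin Y.n} (h : p.1 (gen Y j) ≠ 0) {y : K}
    (hy : y ∈ Ox p) : ∃ b : Ox p, evx p b ≠ 0 ∧ (b : K) ∈ Y.A {j} ∧ y * b ∈ Y.A {j} := by
  obtain ⟨m, a, ha, b, hb, h0, rfl⟩ := mem_Ox.1 hy
  have hg : gen Y j ^ m ∈ grade Y m := by simpa using SetLike.pow_mem_graded m (gen_mem Y j)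
  have hp : p.1 (gen Y j ^ m) ≠ 0 := by rw [map_pow]; exact pow_ne_zero m h
  obtain ⟨h1, h2⟩ := div_mem_Ox hb hg hp
  have b0 : ev Y b ≠ 0 := ev_ne hb fun e => h0 (by simp [e])
  refine ⟨⟨_, h1⟩, ?_, ?_, ?_⟩
  · rw [← vx_eq h1, h2]; exact div_ne_zero h0 hp
  · simpa using div_pow_mem Y (Finset.mem_singleton_self j) m _ (ev_mem Y hb)
  · have := div_pow_mem Y (Finset.mem_singleton_self j) m _ (ev_mem Y ha)
    convert this using 1
    simp only [map_pow, ev_gen]
    rw [div_mul_div_cancel₀ b0]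

/-- generators of the maximal ideal of a point of a projective variety are coordinates -/
theorem span_Ox (del : Fin 4 → Derivation ℂ K K) (p : Pt (grade Y)) (c : Fin 4 → Ox p)
    (hc : ∀ y : Ox p, evx p y = 0 →
      y ∈ Ideal.span (Set.range fun k => c k - algebraMap ℂ (Ox p) (evx p (c k)))) :
    ∀ f ∈ Ox p, ∃ a : Fin 4 → K, (∀ k, a k ∈ Ox p) ∧ ∀ i, del i f = ∑ k, a k * del i (c k) := by
  obtain ⟨j, -, hj⟩ := exists_J p
  refine span_of_gens del (Ox p) (evx p) (fun y hy => (inv_mem_Ox y.2 (by rwa [vx_coe])).2.1)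
    (s := {x | ∃ l, ∃ j' ∈ ({j} : Finset (Fin Y.n)), x = Y.f l / Y.f j'}) ?_ (A_le_Ox hj)
    (fun y hy => exists_den hj hy) c hc
  refine (Set.finite_range fun l => Y.f l / Y.f j).subset ?_
  rintro _ ⟨l, j', hj, rfl⟩
  exact ⟨l, by rw [Finset.mem_singleton.1 hj]⟩

end field

theorem gv_sum {A : Type} [AddCommGroup A] [Module ℂ A] (g : G) (z : Fin 4 → A) (i : Fin 4) :
    gv g z i = ∑ l, gm g i l • z l := by
  cases g <;> fin_cases i <;> simp [gm, gv_r, gv_sr, Fin.sum_univ_four]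

theorem gm_mul_inv (g : G) : gm g * gm g⁻¹ = 1 := by
  ext i j
  have := congrFun (gv_gv_inv g (Pi.single j (1 : ℂ))) i
  rw [gv_sum] at this
  rw [Matrix.mul_apply, Matrix.one_apply]
  exact this.trans (Pi.single_apply j 1 i)

/-- the Jacobian determinant of equivariant coordinates is invariant -/
theorem smul_jac {t : Fin 4 → M} (ht : ∀ (g : G) (i : Fin 4), g • t i = gv g⁻¹ t i) (g : G) :
    g • jac t = jac t := by
  let φ := algebraMap ℂ M
  have h : (MulSemiringAction.toRingHom G M g).mapMatrix (Matrix.of fun i j => pd i (t j)) =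
      (φ.mapMatrix (gm g)).transpose * (Matrix.of fun i j => pd i (t j)) *
        (φ.mapMatrix (gm g⁻¹)).transpose := by
    ext i j
    change g • pd i (t j) = _
    rw [← TwoF.dv_ee, ← TwoF.dv_smul, ht, gv_sum, TwoF.dv_apply]
    simp only [Fin.sum_univ_four, map_add, Derivation.map_smul]
    simp only [Matrix.mul_apply, Fin.sum_univ_four,
      Matrix.transpose_apply, RingHom.mapMatrix_apply, Matrix.map_apply, Matrix.of_apply, gm,
      Algebra.smul_def, φ, TwoF.ee]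
    ring
  have h2 : (φ.mapMatrix (gm g)).det * (φ.mapMatrix (gm g⁻¹)).det = 1 := by
    rw [← Matrix.det_mul, ← map_mul, gm_mul_inv, map_one, Matrix.det_one]
  change MulSemiringAction.toRingHom G M g (Matrix.det _) = _
  rw [RingHom.map_det, h, Matrix.det_mul, Matrix.det_mul, Matrix.det_transpose,
    Matrix.det_transpose, jac]
  linear_combination (Matrix.of fun i j => pd i (t j)).det * h2

theorem mem_stM {R : Subalgebra ℂ M} {m : Matrix (Fin 4) (Fin 4) M} (h : m ∈ St2 R) :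
    m ∈ stM pd R := by
  have key : ∀ r ∈ R, r • m ∈ stM pd R := by
    induction h using Submodule.span_induction with
    | mem x hx =>
      obtain ⟨f, hf, g, hg, rfl⟩ := hx
      exact fun r hr => AddSubgroup.subset_closure ⟨r, hr, f, hf, g, hg, rfl⟩
    | zero => exact fun r _ => by rw [smul_zero]; exact zero_mem _
    | add x y _ _ hx hy => exact fun r hr => by rw [smul_add]; exact add_mem (hx r hr) (hy r hr)
    | smul a x _ hx =>
      exact fun r hr => by rw [Subalgebra.smul_def, smul_smul]; exact hx _ (R.mul_mem hr a.2)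
  simpa using key 1 R.one_mem

theorem sig_zc (i j : Fin 4) :
    sig zc i j = algebraMap ℂ M (LiouM.sig (TwoF.ee i) (TwoF.ee j)) := by
  fin_cases i <;> fin_cases j <;> simp [sig, Var.wd, pd_zc, LiouM.sig, TwoF.ee]

/-- the symplectic form -/
theorem symp_Y (Y : ProjVar ℂ M) [Nonempty (Pt (grade Y))]
    (htr : Algebra.trdeg ℂ (Fn (grade Y)) = 4) (h1 : ∀ p : Pt (grade Y), sig zc ∈ St2 (Ox p))
    {ι : Type*} [Countable ι] {q : ι → V} {W : ι → Submodule ℂ V}
    (hW : ∀ i, Module.finrank ℂ (W i) ≤ 2) {L K : Set V} (hK : IsCompact K)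
    (hL : ∀ z, ∃ l ∈ L, z + l ∈ K)
    (h2 : ∀ b, (∀ i, b - q i ∉ W i) →
      ∃ p : Pt (grade Y), ∀ x ∈ Ox p, TwoF.Inv L x ∧ x ∈ Loc b)
    (h3 : ∀ p : Pt (grade Y), ∃ c : Fin 4 → Ox p, jac (fun k => (c k : M)) ∈ Ox p ∧
      ∀ y : Ox p, evx p y = 0 →
        y ∈ Ideal.span (Set.range fun k => c k - algebraMap ℂ (Ox p) (evx p (c k)))) :
    ∃ σ : ExteriorAlgebra (Fn (grade Y)) Ω[Fn (grade Y)⁄ℂ],
      Symp (fun p : Pt (grade Y) => loc p) σ ∧ ∀ (k : ℕ) (y : Fin k → Fin 3 → Fn (grade Y)),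
      σ = ∑ i, y i 0 • ExteriorAlgebra.ιMulti (Fn (grade Y)) 2
          ![KaehlerDifferential.D ℂ _ (y i 1), KaehlerDifferential.D ℂ _ (y i 2)] ↔
        ∑ i, iota Y (y i 0) • Var.wd (iota Y (y i 1)) (iota Y (y i 2)) = sig zc := by
  refine symp_of_matrix (iota Y) pd htr (fun p : Pt (grade Y) => loc p) (sig zc) (κ := -1)
    (by norm_num) ?_ (fun p => mem_stM (h1 p)) (fun m hm => ?_) fun p => ?_
  · simp [pf, sig_zc, LiouM.sig, TwoF.ee]
  · obtain ⟨c, hc⟩ := TwoF.eq_sig (p := q) hW hK hL (m := m) fun b hb => by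
      obtain ⟨p, hp⟩ := h2 b hb
      exact ⟨Ox p, hp, hm p⟩
    refine ⟨c, funext fun i => funext fun j => ?_⟩
    rw [hc, map_mul, ← sig_zc]
    rfl
  · obtain ⟨c, hj, hc⟩ := h3 p
    exact ⟨fun k => c k, fun k => (c k).2, span_Ox pd p c hc, hj⟩

end

end Pool.Agent.Lib.MP_d3d358_ag.Var.Dict
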