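import Pool.Agent.Lib.MP_d3d358_ag.Var.ChG
import Pool.Agent.Lib.MP_d3d358_ag.Var.DictM
import Pool.Agent.Lib.MP_cd184e_ag.B.ProjModel
import Pool.Agent.Lib.MP_cd184e_ag.B.Geom

/-! A projective variety covered by etale charts is smooth. -/

set_option autoImplicit false

namespace Pool.Agent.Lib.MP_d3d358_ag.Var

open Pool.Agent.Lib.MP_cd184e_ag.T (ProjVar)
open Pool.Agent.Lib.MP_cd184e_ag.B (hring grade gen lin strMap gen_mem ev ev_gen div_pow_mem ev_mem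
  projModel secEquiv_const)
open Pool.Agent.Lib.MP_9ff3e7_ag.F (Pt Fn loc Chart deh deh_coe exists_form deh_self isUnit_loc)

noncomputable section

namespace SmX

section
variable {F : Type} [Field F] [Algebra ℂ F] {O L : Subalgebra ℂ F} (h : O ≤ L) (x : L →ₐ[ℂ] ℂ)
  (hu : ∀ y : L, x y ≠ 0 → IsUnit y)
  (hd : ∀ y : L, ∃ a b : O, x ⟨b.1, h b.2⟩ ≠ 0 ∧ y.1 * b.1 = a.1)
  (Q : Ideal O) [Q.IsPrime] (hQ : ∀ a : O, x ⟨a.1, h a.2⟩ = 0 ↔ a ∈ Q)
include hu hd hQ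

theorem isLoc : letI := (Subalgebra.inclusion h).toAlgebra
    IsLocalization Q.primeCompl L := by
  let := (Subalgebra.inclusion h).toAlgebra
  refine ⟨⟨fun y => hu _ fun e => y.2 ((hQ _).1 e), fun y => ?_, fun {a b} e => ⟨1, ?_⟩⟩⟩
  · obtain ⟨a, b, h1, h2⟩ := hd y
    exact ⟨⟨a, b, fun e => h1 ((hQ _).2 e)⟩, Subtype.ext h2⟩
  · rw [Subalgebra.inclusion_injective h e]

theorem fs_up [Algebra.FormallySmooth ℂ O] : Algebra.FormallySmooth ℂ L := by
  let := (Subalgebra.inclusion h).toAlgebra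
  have : IsScalarTower ℂ O L := .of_algHom (Subalgebra.inclusion h)
  have := isLoc h x hu hd Q hQ
  have : Algebra.FormallySmooth O L := .of_isLocalization Q.primeCompl
  exact .comp ℂ O L

theorem fs_down [Algebra.FormallySmooth ℂ L] : Algebra.IsSmoothAt ℂ Q := by
  let := (Subalgebra.inclusion h).toAlgebra
  have : IsScalarTower ℂ O L := .of_algHom (Subalgebra.inclusion h)
  have := isLoc h x hu hd Q hQ
  exact Algebra.FormallySmooth.of_equiv ((IsLocalization.algEquiv Q.primeCompl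
    L (Localization.AtPrime Q)).restrictScalars ℂ)

end

theorem fs_O {S : Type} [CommRing S] [IsDomain S] [Algebra ℂ S]
    {𝒜 : ℕ → Submodule ℂ S} [GradedAlgebra 𝒜] {n : ℕ} (ch : Chart 𝒜 n) :
    Algebra.FormallySmooth ℂ ch.O := .comp ℂ (MvPolynomial (Fin n) ℂ) ch.O

theorem formallySmooth_loc {S : Type} [CommRing S] [IsDomain S] [Algebra ℂ S]
    {𝒜 : ℕ → Submodule ℂ S} [GradedAlgebra 𝒜] {n : ℕ} (ch : Chart 𝒜 n) {p : Pt 𝒜}
    (h : ch.In p) : Algebra.FormallySmooth ℂ (loc p) :=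
  have : (RingHom.ker (ch.pt h)).IsPrime := RingHom.ker_isPrime _
  have := fs_O ch
  fs_up (ch.le_loc h) (MP_9ff3e7_ag.F.ev p) (fun _ => isUnit_loc)
    (fun y => by simpa only [ch.pt_eq] using (ch.mem_loc_iff h).1 y.2) (RingHom.ker (ch.pt h))
    fun a => by rw [RingHom.mem_ker, ch.pt_eq]

variable {K : Type} [Field K] [Algebra ℂ K] {Y : ProjVar ℂ K}

/-- the linear form of the chart `j` -/
def lj (Y : ProjVar ℂ K) (j : Fin Y.n) : grade Y 1 := ⟨gen Y j, gen_mem Y j⟩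

theorem lj_ne {j : Fin Y.n} (hj : j ∈ Y.J) : (lj Y j : hring Y) ≠ 0 := fun e =>
  Y.ne j hj (by rw [← ev_gen]; exact (congrArg (ev Y) e).trans (map_zero _))

theorem iota_deh {j : Fin Y.n} (hj : j ∈ Y.J) {m : ℕ} {a : hring Y} (ha : a ∈ grade Y m) :
    iota Y (deh (lj Y j) a) = ev Y a / Y.f j ^ m := by
  have hg : gen Y j ^ m ∈ grade Y m := by simpa using SetLike.pow_mem_graded m (gen_mem Y j)
  rw [iota_eq (a := a) hg (pow_ne_zero m (lj_ne hj)) (by rw [deh_coe _ ha, map_pow]; rfl), map_pow,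
    ev_gen]

/-- dehomogenisation -/
def dh {j : Fin Y.n} (hj : j ∈ Y.J) : hring Y →ₐ[ℂ] Y.A {j} :=
  ((iota Y).comp (deh (lj Y j))).codRestrict _ fun a => by
    obtain ⟨e, he⟩ := exists_form (lj_ne hj) a
    obtain ⟨b, hb, e2⟩ := he e le_rfl
    rw [AlgHom.comp_apply, ← e2, iota_deh hj hb]
    exact div_pow_mem Y (Finset.mem_singleton_self j) e _ (ev_mem Y hb)

theorem dh_gen {j : Fin Y.n} (hj : j ∈ Y.J) (l : Fin Y.n) :
    (dh hj (gen Y l) : K) = Y.f l / Y.f j := by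
  change iota Y (deh (lj Y j) (gen Y l)) = _
  rw [iota_deh hj (gen_mem Y l), ev_gen, pow_one]

theorem dh_self {j : Fin Y.n} (hj : j ∈ Y.J) : dh hj (gen Y j) = 1 :=
  Subtype.ext ((dh_gen hj j).trans (div_self (Y.ne j hj)))

/-- the point of the variety given by a complex point of an affine chart -/
def ptA {j : Fin Y.n} (hj : j ∈ Y.J) (y : Y.A {j} →ₐ[ℂ] ℂ) : Pt (grade Y) :=
  ⟨y.comp (dh hj), gen Y j, gen_mem Y j, by simp [dh_self]⟩

theorem ptA_apply {j : Fin Y.n} (hj : j ∈ Y.J) (y : Y.A {j} →ₐ[ℂ] ℂ) (a : hring Y) :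
    (ptA hj y).1 a = y (dh hj a) := rfl

theorem hom_ext_A {j : Fin Y.n} {y y' : Y.A {j} →ₐ[ℂ] ℂ}
    (h : ∀ l, y ⟨_, Y.div_mem l (Finset.mem_singleton_self j)⟩ =
      y' ⟨_, Y.div_mem l (Finset.mem_singleton_self j)⟩) : y = y' := by
  refine AlgHom.ext_of_eq_adjoin rfl ?_
  rintro _ ⟨l, j', hj', rfl⟩
  obtain rfl := Finset.mem_singleton.1 hj'
  exact h l

theorem evx_inc {p : Pt (grade Y)} {B : Subalgebra ℂ K} (h : B ≤ Ox p) (x : B) :
    (evx p).comp (Subalgebra.inclusion h) x = vx p x.1 := by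
  rw [vx_eq (h x.2), AlgHom.comp_apply]
  exact congrArg (evx p) (Subtype.ext rfl)

/-- a complex point of an affine chart is a point of the variety -/
theorem exists_pt_A {j : Fin Y.n} (hj : j ∈ Y.J) (y : Y.A {j} →ₐ[ℂ] ℂ) :
    ∃ p : Pt (grade Y), p.1 (gen Y j) ≠ 0 ∧ ∀ x : Y.A {j}, vx p x.1 = y x := by
  have h1 : (ptA hj y).1 (gen Y j) = 1 := by rw [ptA_apply, dh_self, map_one]
  have h0 : (ptA hj y).1 (gen Y j) ≠ 0 := by rw [h1]; exact one_ne_zero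
  refine ⟨_, h0, fun x => ?_⟩
  have e : (evx (ptA hj y)).comp (Subalgebra.inclusion (Dict.A_le_Ox h0)) = y := by
    refine hom_ext_A fun l => ?_
    have := (div_mem_Ox (gen_mem Y l) (gen_mem Y j) h0).2
    rw [ev_gen, ev_gen, h1, div_one, ptA_apply] at this
    rw [evx_inc, this]
    exact congrArg y (Subtype.ext (dh_gen hj l))
  rw [← evx_inc (Dict.A_le_Ox h0), e]

theorem smooth_A {n : ℕ} (h : ∀ p : Pt (grade Y), ∃ ch : Chart (grade Y) n, ch.In p)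
    {j : Fin Y.n} (hj : j ∈ Y.J) : Algebra.Smooth ℂ (Y.A {j}) := by
  have hfp : Algebra.FinitePresentation ℂ (Y.A {j}) :=
    Algebra.FinitePresentation.of_finiteType.mp inferInstance
  refine ⟨Algebra.smoothLocus_eq_univ_iff.1 (Set.eq_univ_of_forall fun q => ?_), hfp⟩
  obtain ⟨Q, hQ, hle⟩ := Ideal.exists_le_maximal q.asIdeal q.isPrime.ne_top
  have hm : (⟨Q, hQ.isPrime⟩ : PrimeSpectrum (Y.A {j})) ∈ Algebra.smoothLocus ℂ (Y.A {j}) := by
    obtain ⟨y, hy⟩ := MP_9ff3e7_ag.F.exists_pt_of_isMaximal Q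
    obtain ⟨p, h0, hp⟩ := exists_pt_A hj y
    obtain ⟨ch, hch⟩ := h p
    have := formallySmooth_loc ch hch
    have : Algebra.FormallySmooth ℂ (Ox p) := .of_equiv (eqv p)
    have hA := Dict.A_le_Ox h0
    refine fs_down hA (evx p) (fun x hx => ?_) (fun x => ?_) Q fun a => ?_
    · obtain ⟨x0, x1, -⟩ := inv_mem_Ox x.2 (by rwa [vx_coe])
      exact IsUnit.of_mul_eq_one ⟨_, x1⟩ (Subtype.ext (mul_inv_cancel₀ x0))
    · obtain ⟨b, b0, b1, b2⟩ := Dict.exists_den h0 x.2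
      exact ⟨⟨_, b2⟩, ⟨_, b1⟩, b0, rfl⟩
    · rw [← vx_eq, hp, hy]
  exact Algebra.isOpen_smoothLocus.stableUnderGeneralization
    ((PrimeSpectrum.le_iff_specializes _ _).1 hle) hm

end SmX

theorem smooth_of_charts {K : Type} [Field K] [Algebra ℂ K] {Y : ProjVar ℂ K} {n : ℕ}
    (h : ∀ p : Pt (grade Y), ∃ ch : Chart (grade Y) n, ch.In p) :
    (∀ j ∈ Y.J, Algebra.Smooth ℂ (Y.A {j})) ∧ AlgebraicGeometry.Smooth (strMap (grade Y)) :=
  ⟨fun _ hj => SmX.smooth_A h hj,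
    (projModel Y).smooth _ (secEquiv_const Y) fun _ hj => SmX.smooth_A h hj⟩

end

end Pool.Agent.Lib.MP_d3d358_ag.Var
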