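import Pool.Agent.Lib.MP_d3d358_ag.Var.KD
import Pool.Agent.Lib.MP_d3d358_ag.Var.TwoF
import Pool.Agent.Lib.MP_d3d358_ag.Th.Jet
import Pool.Agent.Lib.MP_d3d358_ag.Th.Dim

/-! The function field of `N` has transcendence degree four. -/

set_option autoImplicit false

namespace Pool.Agent.Lib.MP_d3d358_ag.Var.A3

open MvPolynomial

section
variable {K : Type} [Field K] [Algebra ℂ K] {ι : Type} [Fintype ι] [DecidableEq ι]

theorem der_aeval (D : Derivation ℂ K K) (t : ι → K) (p : MvPolynomial ι ℂ) :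
    D (aeval t p) = ∑ j, D (t j) * aeval t (pderiv j p) := by
  induction p using MvPolynomial.induction_on with
  | C a => simp
  | add p q hp hq => simp only [map_add, hp, hq, mul_add, Finset.sum_add_distrib]
  | mul_X p k hp =>
    have : ∀ j, D (t j) * aeval t (pderiv j (p * .X k)) = t k * (D (t j) * aeval t (pderiv j p)) +
        if k = j then aeval t p * D (t k) else 0 := fun j => by
      rw [Derivation.leibniz, pderiv_X, smul_eq_mul, smul_eq_mul, Pi.single_apply]
      split_ifs with h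
      · subst h; simp only [map_add, map_mul, aeval_X, mul_one]; ring
      · simp only [map_mul, aeval_X, mul_zero, zero_add, add_zero]; ring
    simp only [this, Finset.sum_add_distrib, ← Finset.mul_sum, ← hp, Finset.sum_ite_eq,
      Finset.mem_univ, if_true]
    rw [map_mul, aeval_X, Derivation.leibniz, smul_eq_mul, smul_eq_mul, add_comm]

/-- the Jacobian criterion -/
theorem indep_of_det (D : ι → Derivation ℂ K K) (t : ι → K)
    (h : (Matrix.of fun i j => D i (t j)).det ≠ 0) : AlgebraicIndependent ℂ t := by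
  have key : ∀ (n : ℕ) (p : MvPolynomial ι ℂ), aeval t p = 0 →
      (∀ m : ι →₀ ℕ, n ≤ m.degree → coeff m p = 0) → p = 0 := by
    intro n
    induction n with
    | zero => exact fun p _ hp => MvPolynomial.ext _ _ fun m => hp m (Nat.zero_le _)
    | succ n ih =>
      intro p h0 hp
      have h1 : (fun j => aeval t (pderiv j p)) = 0 :=
        Matrix.eq_zero_of_mulVec_eq_zero h (funext fun i => by
          have := der_aeval (D i) t p
          rw [h0, map_zero] at this
          exact this.symm)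
      have h2 : ∀ j, pderiv j p = 0 := fun j => ih _ (congrFun h1 j) fun m hm => by
        rw [coeff_pderiv, hp _ (by simpa using hm), zero_mul]
      have h3 : p = C (coeff 0 p) := MvPolynomial.ext _ _ fun m => by
        rw [coeff_C]
        split_ifs with e
        · rw [e]
        · obtain ⟨j, hj⟩ := Finsupp.ne_iff.1 (Ne.symm e)
          have e1 : m - Finsupp.single j 1 + Finsupp.single j 1 = m :=
            tsub_add_cancel_of_le (Finsupp.single_le_iff.2 (Nat.one_le_iff_ne_zero.2 hj))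
          have := coeff_pderiv (i := j) p (m - Finsupp.single j 1)
          rw [h2, coeff_zero, e1] at this
          exact (mul_eq_zero.1 this.symm).resolve_right (Nat.cast_add_one_ne_zero _)
      rw [h3, aeval_C, map_eq_zero] at h0
      rw [h3, h0, map_zero]
  refine algebraicIndependent_iff.2 fun p hp => key (p.totalDegree + 1) p hp fun m hm => ?_
  exact coeff_eq_zero_of_totalDegree_lt hm

/-- quotients of elements of equal degree in a ring of growth `j ^ d` -/
theorem card_le_of_growth {B : Type} [CommRing B] [Algebra ℂ B] (φ : B →ₐ[ℂ] K)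
    (S : ℕ → Submodule ℂ B) (one : (1 : B) ∈ S 0)
    (mul : ∀ {i j F E}, F ∈ S i → E ∈ S j → F * E ∈ S (i + j))
    (fd : ∀ j, Module.Finite ℂ (S j)) {d : ℕ} {c : ℝ}
    (gr : ∀ j, (Module.finrank ℂ (S j) : ℝ) ≤ c * (j + 1) ^ d)
    {j : ι → ℕ} {F E : ι → B} (hF : ∀ i, F i ∈ S (j i)) (hE : ∀ i, E i ∈ S (j i))
    (h0 : ∀ i, φ (E i) ≠ 0) (hi : AlgebraicIndependent ℂ fun i => φ (F i) / φ (E i)) :
    Fintype.card ι ≤ d := by
  have pw : ∀ {i F}, F ∈ S i → ∀ m, F ^ m ∈ S (m * i) := fun {i F} hF m => by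
    induction m with
    | zero => simpa using one
    | succ m ih => rw [pow_succ, Nat.succ_mul]; exact mul ih hF
  have pr : ∀ (s : Finset ι) (a : ι → ℕ) (G : ι → B), (∀ i, G i ∈ S (a i)) →
      ∏ i ∈ s, G i ∈ S (∑ i ∈ s, a i) := fun s a G hG => by
    induction s using Finset.induction_on with
    | empty => simpa using one
    | insert i s his ih => rw [Finset.prod_insert his, Finset.sum_insert his]; exact mul (hG i) ih
  obtain ⟨J, hJ⟩ : ∃ J, J = ∑ i, j i := ⟨_, rfl⟩
  have main : ∀ m : ℕ, (m + 1) ^ Fintype.card ι ≤ Module.finrank ℂ (S (m * J)) := fun m => by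
    have := fd (m * J)
    have mem : ∀ α : ι → Fin (m + 1), ∏ i, F i ^ (α i : ℕ) * E i ^ (m - α i) ∈ S (m * J) :=
      fun α => by
        rw [hJ, Finset.mul_sum]
        refine pr _ _ _ fun i => ?_
        have := mul (pw (hF i) (α i)) (pw (hE i) (m - α i))
        rwa [← add_mul, Nat.add_sub_cancel' (Nat.lt_succ_iff.1 (α i).2)] at this
    have l1 := ((basisMonomials ι ℂ).linearIndependent.map' (aeval (R := ℂ) fun i =>
      φ (F i) / φ (E i)).toLinearMap
      (LinearMap.ker_eq_bot.2 (algebraicIndependent_iff_injective_aeval.1 hi))).comp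
      (fun α : ι → Fin (m + 1) => Finsupp.equivFunOnFinite.symm fun i => (α i : ℕ))
      fun α β e => funext fun i => Fin.ext (congrFun (Finsupp.equivFunOnFinite.symm.injective e) i)
    have l2 := l1.map' (LinearMap.mulLeft ℂ (∏ i, φ (E i) ^ m)) (LinearMap.ker_eq_bot.2
      (mul_right_injective₀ (Finset.prod_ne_zero_iff.2 fun i _ => pow_ne_zero _ (h0 i))))
    have l3 : LinearIndependent ℂ fun α : ι → Fin (m + 1) => (⟨_, mem α⟩ : S (m * J)) := by
      refine LinearIndependent.of_comp (φ.toLinearMap ∘ₗ (S (m * J)).subtype) ?_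
      refine (congrArg (fun v => LinearIndependent ℂ v) (funext fun α => ?_)).mpr l2
      simp only [Function.comp_apply, LinearMap.comp_apply, Submodule.subtype_apply,
        AlgHom.toLinearMap_apply, map_prod, map_mul, map_pow, coe_basisMonomials,
        LinearMap.mulLeft_apply, aeval_monomial, map_one, one_mul]
      rw [Finsupp.prod_fintype _ _ fun _ => pow_zero _, ← Finset.prod_mul_distrib]
      refine Finset.prod_congr rfl fun i _ => ?_
      have e : φ (E i) ^ m = φ (E i) ^ (m - α i) * φ (E i) ^ (α i : ℕ) := by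
        rw [← pow_add, Nat.sub_add_cancel (Nat.lt_succ_iff.1 (α i).2)]
      have := h0 i
      rw [e, Finsupp.equivFunOnFinite_symm_apply_apply, div_pow]
      field_simp
    simpa using l3.fintype_card_le_finrank
  by_contra! hd
  obtain ⟨m, hm⟩ := exists_nat_gt (c * (J + 1) ^ d)
  have c0 : 0 ≤ c := by simpa using (Nat.cast_nonneg _).trans (gr 0)
  have a1 : ((m + 1 : ℝ)) ^ (d + 1) ≤ (m + 1) ^ Fintype.card ι :=
    pow_le_pow_right₀ (by linarith [Nat.cast_nonneg (α := ℝ) m]) hd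
  have a2 : ((m + 1 : ℝ)) ^ Fintype.card ι ≤ c * ((m * J : ℕ) + 1) ^ d :=
    le_trans (by exact_mod_cast main m) (gr _)
  have a3 : (((m * J : ℕ) : ℝ) + 1) ^ d ≤ ((J + 1) * (m + 1)) ^ d :=
    pow_le_pow_left₀ (by positivity) (by
      push_cast; nlinarith [Nat.cast_nonneg (α := ℝ) m, Nat.cast_nonneg (α := ℝ) J]) _
  have a4 := (a1.trans a2).trans (mul_le_mul_of_nonneg_left a3 c0)
  rw [mul_pow, ← mul_assoc, pow_succ'] at a4
  have := le_of_mul_le_mul_right a4 (by positivity)
  linarith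

end

theorem trdeg_le {T : Type} [CommRing T] [Algebra ℂ T] {d : ℕ}
    (h : ∀ x : Fin (d + 1) → T, ¬ AlgebraicIndependent ℂ x) : Algebra.trdeg ℂ T ≤ d := by
  refine ciSup_le' fun s => ?_
  by_contra! hs
  have : Cardinal.mk (Fin (d + 1)) ≤ Cardinal.mk s.1 := by
    rw [Cardinal.mk_fin, Nat.cast_succ]; exact Cardinal.add_one_le_of_lt hs
  obtain ⟨e⟩ := this
  exact h _ (AlgebraicIndependent.comp s.2 e e.injective)

end Pool.Agent.Lib.MP_d3d358_ag.Var.A3

namespace Pool.Agent.Lib.MP_d3d358_ag.Var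

open Pool.Agent.Lib.MP_d3d358_ag.G (Sf lat3)
open Pool.Agent.Lib.MP_d3d358_ag.Th (Theta)

theorem det_ne_of_val {ι : Type} [Fintype ι] [DecidableEq ι] {m : Matrix ι ι M} {b : V}
    (hm : ∀ i j, m i j ∈ Loc b) (h : (Matrix.of fun i j => val (m i j) b).det ≠ 0) : m.det ≠ 0 := by
  intro e
  have e1 := (Loc b).val.map_det (Matrix.of fun i j => ⟨m i j, hm i j⟩)
  have e2 := (evL b).map_det (Matrix.of fun i j => ⟨m i j, hm i j⟩)
  have e3 : (Matrix.of fun i j => (⟨m i j, hm i j⟩ : Loc b)).det = 0 := Subtype.ext (e1.trans e)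
  rw [e3, map_zero] at e2
  exact h e2.symm

/-- functions with independent partial derivatives are algebraically independent -/
theorem indep_of_jac {t : Fin 4 → M} (h : jac t ≠ 0) : AlgebraicIndependent ℂ t :=
  A3.indep_of_det pd t h

theorem jac_ne_of_val {t : Fin 4 → M} {b : V} (ht : ∀ j, t j ∈ Loc b)
    (h : (Matrix.of fun i j => val (pd i (t j)) b).det ≠ 0) : jac t ≠ 0 :=
  det_ne_of_val (fun i j => TwoF.pd_mem (ht j) i) h

theorem A3.val_pd_div (i : Fin 4) (F : Ent) {E : Ent} {b : V} (h : E.1 b ≠ 0) :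
    val (pd i (emb F / emb E)) b = (E.1 b * fderiv ℂ F.1 b (Pi.single i 1) -
      F.1 b * fderiv ℂ E.1 b (Pi.single i 1)) / (E.1 b * E.1 b) := by
  rw [← TwoF.dv_ee, TwoF.dv_div _ F E (Ent.ne_zero h), val_div _ (F' := E * E) (mul_ne_zero h h)]
  simp only [Ent.sub_apply, Ent.mul_apply, TwoF.dE_apply]

variable (A : Sf)

theorem A3.exp_level (j : ℕ) (l l' : (lat3 A.toLat).L) :
    Complex.exp (Real.pi * Complex.I * ((j : ℝ) * A.k * Th.alt (l : V) l' : ℝ)) = 1 := by
  simpa using Th.exp_even A.cr j l l'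

/-- theta functions of degree `j`, as functions -/
def A3.RE (j : ℕ) : R A j ≃ₗ[ℂ] Theta (lat3 A.toLat) (j * A.k) where
  toFun F := ⟨F.1.1, mem_R.1 F.2⟩
  invFun f := ⟨⟨f.1, f.2.1⟩, mem_R.2 f.2⟩
  map_add' _ _ := rfl
  map_smul' _ _ := rfl
  left_inv _ := rfl
  right_inv _ := rfl

theorem A3.finite_R (j : ℕ) : Module.Finite ℂ (R A j) := Module.Finite.equiv (A3.RE A j).symm

theorem A3.finrank_R {j : ℕ} (hj : 0 < j) :
    (Module.finrank ℂ (R A j) : ℝ) = (lat3 A.toLat).vol * ((j : ℝ) * A.k) ^ 4 := by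
  rw [(A3.RE A j).finrank_eq]
  exact Th.finrank_Theta (mul_pos (Nat.cast_pos.2 hj) (Nat.cast_pos.2 A.k_pos)) (A3.exp_level A j)

theorem A3.growth_R : ∃ c : ℝ, ∀ j, (Module.finrank ℂ (R A j) : ℝ) ≤ c * (j + 1) ^ 4 := by
  have v := (lat3 A.toLat).vol_pos
  refine ⟨Module.finrank ℂ (R A 0) + (lat3 A.toLat).vol * (A.k : ℝ) ^ 4, fun j => ?_⟩
  rcases j.eq_zero_or_pos with rfl | hj
  · simp only [Nat.cast_zero, zero_add, one_pow, mul_one, le_add_iff_nonneg_right]; positivity
  · rw [A3.finrank_R A hj, mul_pow, mul_comm ((j : ℝ) ^ 4), ← mul_assoc]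
    exact mul_le_mul (le_add_of_nonneg_left (Nat.cast_nonneg _))
      (pow_le_pow_left₀ (Nat.cast_nonneg _) (by linarith) _) (by positivity) (by positivity)

/-- theta functions of one degree with prescribed values and differentials -/
theorem A3.jets_R (S : Finset V) (hS : ∀ a ∈ S, ∀ b ∈ S, a - b ∈ Lam A → a = b) :
    ∃ j₀ : ℕ, ∀ j, j₀ ≤ j → ∀ (v : V → ℂ) (D : V → (V →L[ℂ] ℂ)),
      ∃ F ∈ R A j, ∀ a ∈ S, F.1 a = v a ∧ fderiv ℂ F.1 a = D a := by
  obtain ⟨d, hd⟩ := Th.exists_jets (lat3 A.toLat) S hS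
  obtain ⟨j₀, h₀⟩ := exists_nat_ge d
  refine ⟨j₀, fun j hj v D => ?_⟩
  have k1 : (1 : ℝ) ≤ A.k := Nat.one_le_cast.2 A.k_pos
  obtain ⟨f, hf, h⟩ := hd (j * A.k) (h₀.trans ((Nat.cast_le.2 hj).trans
    (le_mul_of_one_le_right (Nat.cast_nonneg _) k1))) (A3.exp_level A j) v D
  exact ⟨⟨f, hf.1⟩, mem_R.2 hf, h⟩

/-- local coordinates at `b` -/
theorem exists_loc_crd (b : V) : ∃ t : Fin 4 → M, (∀ j, t j ∈ locN A b) ∧ (∀ j, val (t j) b = 0) ∧
    ∀ i j, val (pd i (t j)) b = if i = j then 1 else 0 := by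
  obtain ⟨j, hj⟩ := A3.jets_R A {b} (by simp)
  obtain ⟨E, hE, e⟩ := hj j le_rfl (fun _ => 1) fun _ => 0
  choose F hF f using fun i : Fin 4 => hj j le_rfl (fun _ => 0) fun _ => ContinuousLinearMap.proj i
  obtain ⟨e1, e2⟩ := e b (Finset.mem_singleton_self b)
  have e0 : E.1 b ≠ 0 := e1 ▸ one_ne_zero
  refine ⟨fun i => emb (F i) / emb E, fun i => ⟨j, _, hF i, _, hE, Ent.ne_zero e0,
    fun _ h => h ▸ e0, rfl⟩, fun i => ?_, fun i k => ?_⟩
  · rw [val_div _ e0, (f i b (Finset.mem_singleton_self b)).1, zero_div]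
  · rw [A3.val_pd_div _ _ e0, e1, e2, (f k b (Finset.mem_singleton_self b)).2]
    simp [Pi.single_apply, eq_comm]

theorem trdeg_KN_le : Algebra.trdeg ℂ (KN A) ≤ 4 := by
  refine A3.trdeg_le (d := 4) fun x hx => ?_
  choose j F hF E hE h0 _ e using fun i => (x i).2
  obtain ⟨c, hc⟩ := A3.growth_R A
  have hi := hx.map' (f := (KN A).val) Subtype.val_injective
  rw [show (KN A).val ∘ x = fun i => emb (F i) / emb (E i) from funext e] at hi
  simpa using A3.card_le_of_growth emb (R A) one_mem_R mul_mem_R (A3.finite_R A) hc hF hE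
    (fun i => emb_ne (h0 i)) hi

/-- a subalgebra of the function field that contains four functions with nonzero Jacobian -/
theorem trdeg_of_jac {T : Subalgebra ℂ M} (hT : T ≤ KN A) {t : Fin 4 → M} (ht : ∀ j, t j ∈ T)
    (h : jac t ≠ 0) : Algebra.trdeg ℂ T = 4 := by
  refine le_antisymm ((trdeg_le_of_injective (Subalgebra.inclusion hT)
    (Subalgebra.inclusion_injective hT)).trans (trdeg_KN_le A)) ?_
  have hi : AlgebraicIndependent ℂ fun j => (⟨t j, ht j⟩ : T) :=
    AlgebraicIndependent.of_comp T.val (indep_of_jac h)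
  simpa using hi.cardinalMk_le_trdeg

/-- A3 -/
theorem trdeg_KN : Algebra.trdeg ℂ (KN A) = 4 := by
  obtain ⟨t, h1, -, h2⟩ := exists_loc_crd A 0
  refine trdeg_of_jac A le_rfl (fun j => quo_anti (Set.empty_subset _) (h1 j))
    (jac_ne_of_val (b := 0) (fun j => quo_le_Loc (Set.mem_singleton _) (h1 j)) ?_)
  rw [show (Matrix.of fun i j => val (pd i (t j)) 0) = 1 from Matrix.ext h2, Matrix.det_one]
  exact one_ne_zero

end Pool.Agent.Lib.MP_d3d358_ag.Var
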