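import Pool.Agent.Lib.MP_d3d358_ag.Var.A4
import Pool.Agent.Lib.MP_d3d358_ag.Var.KD
import Pool.Agent.Lib.MP_d3d358_ag.Th.TL

/-! The local rings of `N`: translation invariance, the affine ring `R_(g)`, its points, and
generators of the maximal ideals. -/

set_option autoImplicit false

namespace Pool.Agent.Lib.MP_d3d358_ag.Var.A4

open Pool.Agent.Lib.MP_d3d358_ag.G (Sf lat3)
open Pool.Agent.Lib.MP_d3d358_ag.Th (Theta aut)
open LiouM

noncomputable section

variable {A : Sf}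

theorem aut_shift (t : ℝ) (l z c : V) :
    aut t l (z + c) = aut t l z * Complex.exp (Real.pi * t * Th.eta c l) := by
  rw [aut, aut, ← Complex.exp_add, Th.eta_add_left]; congr 1; ring

theorem tr_mul_tr_mem {j : ℕ} {F H : Ent} (hF : F ∈ R A j) (hH : H ∈ R A 1) (c : V) :
    Ent.tr c F * Ent.tr (-((j : ℂ) • c)) H ∈ R A (j + 1) := fun l hl z => by
  simp only [Ent.mul_apply, Ent.tr_apply]
  rw [add_right_comm z l c, add_right_comm z l, hF l hl, hH l hl, aut_shift, aut_shift,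
    Nat.cast_add, add_mul, Th.aut_add, Th.eta_neg_left, Th.eta_smul_left]
  have : Complex.exp (Real.pi * ((j * A.k : ℝ) : ℂ) * Th.eta c l) *
      Complex.exp (Real.pi * ((((1 : ℕ) : ℝ) * A.k : ℝ) : ℂ) * -(j * Th.eta c l)) = 1 := by
    rw [← Complex.exp_add, ← Complex.exp_zero]; congr 1; push_cast; ring
  linear_combination (aut (j * A.k) l z * aut ((1 : ℕ) * A.k) l z * F.1 (z + c) *
    H.1 (z + -((j : ℂ) • c))) * this

theorem tr_mem_locN (hA : Good A) (b c : V) (x : M) (hx : x ∈ locN A (b + c)) :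
    tr c x ∈ locN A b := by
  obtain ⟨j, F, hF, E, hE, -, h, rfl⟩ := hx
  obtain ⟨H, hH, hb⟩ := hA.bpf (b + -((j : ℂ) • c))
  have h1 : (Ent.tr c E * Ent.tr (-((j : ℂ) • c)) H).1 b ≠ 0 := mul_ne_zero (h _ rfl) hb
  refine ⟨j + 1, _, tr_mul_tr_mem hF hH.1 c, _, tr_mul_tr_mem hE hH.1 c, Ent.ne_zero h1, ?_, ?_⟩
  · rintro _ rfl; exact h1
  · rw [map_div₀, tr_emb, tr_emb, map_mul, map_mul,
      mul_div_mul_right _ _ (emb_ne' (F := Ent.tr _ H) (z := b) hb)]

theorem locN_le_Loc (b : V) : locN A b ≤ Loc b := quo_le_Loc rfl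

theorem inv_mem_locN (b : V) (x : M) (hx : x ∈ locN A b) (h : val x b ≠ 0) : x⁻¹ ∈ locN A b := by
  obtain ⟨j, F, hF, E, hE, -, hb, rfl⟩ := hx
  rw [val_div F (hb b rfl)] at h
  have h1 : F.1 b ≠ 0 := fun e => h (by rw [e, zero_div])
  refine ⟨j, E, hE, F, hF, Ent.ne_zero h1, ?_, inv_div _ _⟩
  rintro _ rfl; exact h1

variable (A) in
/-- the affine ring of `{g ≠ 0}` in `N` -/
def Ag (g : Ent) : Subalgebra ℂ M := Algebra.adjoin ℂ ((fun F => emb F / emb g) '' R A 1)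

theorem div_mem_Ag {g F : Ent} (hF : F ∈ R A 1) : emb F / emb g ∈ Ag A g :=
  Algebra.subset_adjoin ⟨F, hF, rfl⟩

theorem Ag_le_quo {g : Ent} (hg : g ∈ R A 1) (h0 : g ≠ 0) {B : Set V} (hB : ∀ b ∈ B, g.1 b ≠ 0) :
    Ag A g ≤ quo A B := Algebra.adjoin_le (by
  rintro _ ⟨F, hF, rfl⟩
  exact ⟨1, F, hF, g, hg, h0, hB, rfl⟩)

theorem finiteType_Ag (hA : Good A) (g : Ent) : Algebra.FiniteType ℂ (Ag A g) := by
  classical
  have := hA.fd
  obtain ⟨s, hs⟩ : (R A 1).FG := Module.Finite.iff_fg.1 this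
  refine (Subalgebra.fg_iff_finiteType _).1 ⟨s.image fun F => emb F / emb g, le_antisymm ?_ ?_⟩
  · refine Algebra.adjoin_mono ?_
    rw [Finset.coe_image]
    exact Set.image_mono (hs ▸ Submodule.subset_span)
  · refine Algebra.adjoin_le ?_
    rintro _ ⟨F, hF, rfl⟩
    rw [← hs] at hF
    induction hF using Submodule.span_induction with
    | mem x hx => exact Algebra.subset_adjoin (Finset.mem_coe.2 (Finset.mem_image_of_mem _ hx))
    | zero => simp
    | add x y _ _ hx hy => simpa only [map_add, add_div, SetLike.mem_coe] using add_mem hx hy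
    | smul c x _ hx =>
      simpa only [map_smul, smul_div_assoc, SetLike.mem_coe] using Subalgebra.smul_mem _ hx c

/-- forms `F` with `F / g ^ j` in a subalgebra -/
def frac (B : Subalgebra ℂ M) (g : Ent) (j : ℕ) : Submodule ℂ Ent where
  carrier := {F | emb F / emb g ^ j ∈ B}
  zero_mem' := by simp
  add_mem' hx hy := by simpa only [Set.mem_ofPred_eq, map_add, add_div] using add_mem hx hy
  smul_mem' c x hx := by
    simpa only [Set.mem_ofPred_eq, map_smul, smul_div_assoc] using Subalgebra.smul_mem _ hx c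

theorem frac_mul (B : Subalgebra ℂ M) (g : Ent) (i j : ℕ) :
    frac B g i * frac B g j ≤ frac B g (i + j) :=
  Submodule.mul_le.2 fun x hx y hy => by
    change emb (x * y) / emb g ^ (i + j) ∈ B
    rw [map_mul, pow_add, ← div_mul_div_comm]
    exact mul_mem hx hy

theorem pow_le_frac {B : Subalgebra ℂ M} {g : Ent} {T : Submodule ℂ Ent} (h : T ≤ frac B g 1)
    (j : ℕ) : T ^ j ≤ frac B g j := by
  induction j with
  | zero =>
    rw [pow_zero, Submodule.one_le]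
    change emb 1 / emb g ^ 0 ∈ B
    simp
  | succ j ih => rw [pow_succ]; exact (mul_le_mul' ih h).trans (frac_mul B g j 1)

theorem R_le_frac (g : Ent) : R A 1 ≤ frac (Ag A g) g 1 := fun F hF => by
  change emb F / emb g ^ 1 ∈ Ag A g
  rw [pow_one]
  exact div_mem_Ag hF

theorem div_pow_mem_Ag (hA : Good A) (g : Ent) {j : ℕ} {F : Ent} (hF : F ∈ R A (j + 1)) :
    emb F / emb g ^ (j + 1) ∈ Ag A g :=
  ((hA.gen j).trans ((mul_le_mul' (pow_le_frac (inf_le_left.trans (R_le_frac g)) j)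
    (R_le_frac g)).trans (frac_mul _ g j 1))) hF

/-- a quotient of theta functions is a quotient of two elements of `R_(g)` -/
theorem div_eq (hA : Good A) {g : Ent} (hg : g ∈ R A 1) (h0 : g ≠ 0) {j : ℕ} {F E : Ent}
    (hF : F ∈ R A j) (hE : E ∈ R A j) :
    emb (F * g) / emb (g ^ (j + 1)) ∈ Ag A g ∧ emb (E * g) / emb (g ^ (j + 1)) ∈ Ag A g ∧
      emb F / emb E = (emb (F * g) / emb (g ^ (j + 1))) / (emb (E * g) / emb (g ^ (j + 1))) := by
  refine ⟨by rw [map_pow]; exact div_pow_mem_Ag hA g (mul_mem_R hF hg),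
    by rw [map_pow]; exact div_pow_mem_Ag hA g (mul_mem_R hE hg), ?_⟩
  rw [div_div_div_cancel_right₀ (emb_ne (pow_ne_zero _ h0)), map_mul, map_mul,
    mul_div_mul_right _ _ (emb_ne h0)]

theorem ne_zero_of_le_Loc (hA : Good A) {g : Ent} (h0 : g ≠ 0) {b : V} (h : Ag A g ≤ Loc b) :
    g.1 b ≠ 0 := fun e => by
  obtain ⟨F, hF, hb⟩ := hA.bpf b
  obtain ⟨a, a', ha, e'⟩ := h (div_mem_Ag (g := g) hF.1)
  rw [div_eq_div_iff (emb_ne h0) (emb_ne' ha), ← map_mul, ← map_mul] at e'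
  have := congrFun (congrArg Subtype.val (emb_inj e')) b
  rw [Ent.mul_apply, Ent.mul_apply, e, mul_zero] at this
  exact mul_ne_zero hb ha this

theorem locN_eq_locA (hA : Good A) {g : Ent} (hg : g ∈ R A 1) (h0 : g ≠ 0) (b : V)
    (h : Ag A g ≤ Loc b) : locN A b = locA (Ag A g) b h := by
  have hb := ne_zero_of_le_Loc hA h0 h
  have hle : Ag A g ≤ locN A b := Ag_le_quo hg h0 (by rintro _ rfl; exact hb)
  refine le_antisymm ?_ ?_
  · rintro _ ⟨j, F, hF, E, hE, -, hEb, rfl⟩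
    obtain ⟨h1, h2, e⟩ := div_eq hA hg h0 hF hE
    have h3 : (g ^ (j + 1)).1 b ≠ 0 := by rw [Ent.pow_apply]; exact pow_ne_zero _ hb
    refine ⟨_, h1, _, h2, ?_, e⟩
    rw [val_div _ h3]
    exact div_ne_zero (mul_ne_zero (hEb b rfl) hb) h3
  · rintro _ ⟨x, hx, y, hy, hv, rfl⟩
    rw [div_eq_mul_inv]
    exact mul_mem (hle hx) (inv_mem_locN b y (hle hy) hv)

theorem trdeg_Ag (hA : Good A) {g : Ent} (hg : g ∈ R A 1) (h0 : g ≠ 0) :
    Algebra.trdeg ℂ (Ag A g) = Algebra.trdeg ℂ (KN A) := by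
  have hle : Ag A g ≤ KN A := Ag_le_quo hg h0 (by simp)
  let _ : Algebra (Ag A g) (KN A) := (Subalgebra.inclusion hle).toRingHom.toAlgebra
  have : IsScalarTower ℂ (Ag A g) (KN A) := .of_algebraMap_eq fun _ => rfl
  have : FaithfulSMul (Ag A g) (KN A) :=
    (faithfulSMul_iff_algebraMap_injective _ _).2 (Subalgebra.inclusion_injective hle)
  have : Algebra.IsAlgebraic (Ag A g) (KN A) := ⟨by
    rintro ⟨_, j, F, hF, E, hE, hE0, hB, rfl⟩
    obtain ⟨h1, h2, e⟩ := div_eq hA hg h0 hF hE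
    have h3 : emb (E * g) / emb (g ^ (j + 1)) ≠ 0 :=
      div_ne_zero (emb_ne (mul_ne_zero hE0 h0)) (emb_ne (pow_ne_zero _ h0))
    refine IsAlgebraic.of_mul (y := algebraMap (Ag A g) (KN A) ⟨_, h2⟩)
      (mem_nonZeroDivisors_of_ne_zero fun e => h3 (congrArg Subtype.val e))
      (isAlgebraic_algebraMap _) ?_
    have h4 : algebraMap (Ag A g) (KN A) ⟨_, h2⟩ * ⟨_, j, F, hF, E, hE, hE0, hB, rfl⟩ =
        algebraMap (Ag A g) (KN A) ⟨_, h1⟩ :=
      Subtype.ext ((congrArg (_ * ·) e).trans (mul_div_cancel₀ _ h3))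
    rw [h4]
    exact isAlgebraic_algebraMap _⟩
  rw [← trdeg_add_eq ℂ (Ag A g) (A := KN A), trdeg_eq_zero (A := KN A), add_zero]

variable (A) in
/-- a base point free system generates in some degree -/
def T7 : Prop := ∀ T : Submodule ℂ Ent, T ≤ R A 1 → (∀ z, ∃ F ∈ T, F.1 z ≠ 0) →
  ∃ j, R A (j + 1 + 1) ≤ T * R A (j + 1)

theorem exp_alt (A : Sf) (j : ℕ) (l l' : (lat3 A.toLat).L) :
    Complex.exp (Real.pi * Complex.I * ((j * A.k : ℝ) * Th.alt (l : V) l' : ℝ)) = 1 := by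
  obtain ⟨m, hm⟩ := A.cr.k_even l l.2 l' l'.2
  have hm' : (A.k : ℝ) * Th.alt (l : V) l' = 2 * m := hm
  rw [mul_assoc (j : ℝ), hm', ← Complex.exp_int_mul_two_pi_mul_I (j * m)]
  congr 1; push_cast; ring

theorem t7 (hA : Good A) : T7 A := fun T hT h0 => by
  have := hA.fd
  have : Module.Finite ℂ T := Submodule.finiteDimensional_of_le hT
  let e := Module.finBasis ℂ T
  obtain ⟨b, hb⟩ := Th.TL_theta (Λ := lat3 A.toLat) (s := (1 : ℕ) * A.k) (fun i => (e i).1.1)
    (fun i => mem_R.1 (hT (e i).2)) (fun z => by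
      by_contra! h
      obtain ⟨F, hF, hz⟩ := h0 z
      refine hz ?_
      have := congrArg Subtype.val (e.sum_repr ⟨F, hF⟩)
      rw [AddSubmonoidClass.coe_finsetSum] at this
      rw [show F = _ from this.symm, Ent.sum_apply]
      exact Finset.sum_eq_zero fun i _ => mul_eq_zero_of_right _ (h i)) (exp_alt A 1)
  obtain ⟨j, hj⟩ := exists_nat_ge b
  refine ⟨j, fun F hF => ?_⟩
  have hk : (1 : ℝ) ≤ A.k := Nat.one_le_cast.2 A.k_pos
  obtain ⟨f, hf, H⟩ := hb (((j + 1 : ℕ) : ℝ) * A.k)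
    (by push_cast; nlinarith [(Nat.cast_nonneg j : (0 : ℝ) ≤ j)]) (exp_alt A (j + 1)) F.1 (by
      have := mem_R.1 hF
      rwa [Nat.cast_add, add_mul] at this)
  let f' : _ → Ent := fun i => ⟨f i, (hf i).1⟩
  have : F = ∑ i, (e i).1 * f' i := Ent.ext fun z => by simp [← H z, f']
  rw [this]
  exact Submodule.sum_mem _ fun i _ => Submodule.mul_mem_mul (e i).2 (mem_R.2 (hf i))

/-- every point of `R_(g)` is an evaluation -/
theorem exists_pt (hA : Good A) {g : Ent} (hg : g ∈ R A 1) (h0 : g ≠ 0)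
    (y : Ag A g →ₐ[ℂ] ℂ) : ∃ b, g.1 b ≠ 0 ∧ Ag A g ≤ Loc b ∧ ∀ x : Ag A g, y x = val x b := by
  let T : Submodule ℂ Ent :=
    { carrier := {F | ∃ h : F ∈ R A 1, y ⟨_, div_mem_Ag (g := g) h⟩ = 0}
      zero_mem' := ⟨zero_mem _, by
        rw [← map_zero y]; exact congrArg y (Subtype.ext (by simp))⟩
      add_mem' := by
        rintro F E ⟨hF, h⟩ ⟨hE, h'⟩
        refine ⟨add_mem hF hE, ?_⟩
        rw [← add_zero 0]
        nth_rewrite 1 [← h]
        rw [← h', ← map_add]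
        congr 1
        exact Subtype.ext (by simp [add_div])
      smul_mem' := by
        rintro c F ⟨hF, h⟩
        refine ⟨Submodule.smul_mem _ c hF, ?_⟩
        rw [← smul_zero c, ← h, ← map_smul]
        congr 1
        exact Subtype.ext (by simp [smul_div_assoc]) }
  obtain ⟨b, hb⟩ : ∃ b, ∀ F ∈ T, F.1 b = 0 := by
    by_contra! e
    obtain ⟨j, hj⟩ := t7 hA T (fun F hF => hF.1) e
    have key : ∀ F ∈ T * R A (j + 1), ∃ h : emb F / emb g ^ (j + 1 + 1) ∈ Ag A g,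
        y ⟨_, h⟩ = 0 := fun F hF => by
      induction hF using Submodule.mul_induction_on' with
      | mem_mul_mem F hF E hE =>
        have e : emb (F * E) / emb g ^ (j + 1 + 1) =
            emb F / emb g * (emb E / emb g ^ (j + 1)) := by
          rw [div_mul_div_comm, map_mul, pow_succ']
        refine ⟨e ▸ mul_mem (div_mem_Ag hF.1) (div_pow_mem_Ag hA g hE), ?_⟩
        rw [← zero_mul (y ⟨_, div_pow_mem_Ag hA g hE⟩), ← hF.2, ← map_mul]
        congr 1
        exact Subtype.ext e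
      | add F _ E _ hF hE =>
        obtain ⟨h1, h2⟩ := hF
        obtain ⟨h3, h4⟩ := hE
        have e : emb (F + E) / emb g ^ (j + 1 + 1) =
            emb F / emb g ^ (j + 1 + 1) + emb E / emb g ^ (j + 1 + 1) := by rw [map_add, add_div]
        refine ⟨e ▸ add_mem h1 h3, ?_⟩
        rw [← add_zero 0]
        nth_rewrite 1 [← h2]
        rw [← h4, ← map_add]
        congr 1
        exact Subtype.ext e
    obtain ⟨h, h1⟩ := key (g ^ (j + 1 + 1)) (hj (by simpa using pow_mem_R hg (j + 1 + 1)))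
    refine one_ne_zero ((map_one y).symm.trans (Eq.trans ?_ h1))
    refine congrArg y (Subtype.ext ?_)
    simp [div_self (pow_ne_zero _ (emb_ne h0))]
  have hF (F : Ent) (h : F ∈ R A 1) : F.1 b = y ⟨_, div_mem_Ag (g := g) h⟩ * g.1 b := by
    refine sub_eq_zero.1 (hb (F - y ⟨_, div_mem_Ag (g := g) h⟩ • g)
      ⟨sub_mem h (Submodule.smul_mem _ _ hg), ?_⟩)
    refine Eq.trans (congrArg y (a₂ := ⟨_, div_mem_Ag (g := g) h⟩ -
      algebraMap ℂ _ (y ⟨_, div_mem_Ag (g := g) h⟩)) (Subtype.ext ?_)) (by simp)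
    simp [sub_div, smul_div_assoc, div_self (emb_ne h0), Algebra.algebraMap_eq_smul_one]
  have hg0 : g.1 b ≠ 0 := fun e => by
    obtain ⟨F, h, h'⟩ := hA.bpf b
    exact h' (by rw [hF F h.1, e, mul_zero])
  have hle : Ag A g ≤ Loc b :=
    (Ag_le_quo hg h0 (B := {b}) (by rintro _ rfl; exact hg0)).trans (locN_le_Loc b)
  refine ⟨b, hg0, hle, fun x => ?_⟩
  have : y = (evL b).comp (Subalgebra.inclusion hle) := AlgHom.ext_of_eq_adjoin rfl (by
    rintro _ ⟨F, h, rfl⟩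
    change _ = val (emb F / emb g) b
    rw [val_div F hg0, hF F h, mul_div_cancel_right₀ _ hg0]
    rfl)
  rw [this]; rfl

/-- A4 -/
theorem gen_locN (hA : Good A) (h3 : Algebra.trdeg ℂ (KN A) = 4) (b : V)
    {t : Fin 4 → M} (ht : ∀ i, t i ∈ locN A b ∧ val (t i) b = 0)
    (hd : (Matrix.of fun i j => val (pd i (t j)) b).det ≠ 0) : Gen (locN A b) b t := by
  obtain ⟨g, hg, h0⟩ := hA.bpf 0
  have := finiteType_Ag hA g
  exact gen_all (locN A) locN_le_Loc inv_mem_locN (tr_mem_locN hA) (Ag A g)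
    ((trdeg_Ag hA hg.1 (Ent.ne_zero h0)).trans h3)
    (fun y => (exists_pt hA hg.1 (Ent.ne_zero h0) y).imp fun _ h => h.2)
    (locN_eq_locA hA hg.1 (Ent.ne_zero h0)) b ht hd

/-- A4 in the form used by `Good.semiLoc` -/
theorem gen_locN' (hA : Good A) (h3 : Algebra.trdeg ℂ (KN A) = 4) (b : V) {t : Fin 4 → M}
    (ht : ∀ i, t i ∈ locN A b) (hd : ∀ i j, val (pd i (t j)) b = if i = j then 1 else 0) :
    ∀ x ∈ locN A b, val x b = 0 → ∃ c : Fin 4 → M, (∀ i, c i ∈ locN A b) ∧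
      x = ∑ i, c i * (t i - algebraMap ℂ M (val (t i) b)) := by
  refine (gen_locN hA h3 b (fun i => ⟨sub_mem (ht i) (Subalgebra.algebraMap_mem _ _), ?_⟩) ?_).2
  · have := map_sub (evL b) ⟨t i, locN_le_Loc b (ht i)⟩ (algebraMap ℂ _ (val (t i) b))
    rw [AlgHom.commutes, evL_apply, evL_apply] at this
    exact this.trans (sub_self _)
  · have : (Matrix.of fun i j => val (pd i (t j - algebraMap ℂ M (val (t j) b))) b) = 1 := by
      ext i j
      rw [Matrix.of_apply, map_sub, Derivation.map_algebraMap, sub_zero, hd, Matrix.one_apply]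
    rw [this, Matrix.det_one]
    exact one_ne_zero

theorem Crd.gen (hA : Good A) (h3 : Algebra.trdeg ℂ (KN A) = 4) {b : V} {t : Fin 4 → M}
    (ht : Crd A b t) : ∀ x ∈ locN A b, val x b = 0 → ∃ c : Fin 4 → M, (∀ i, c i ∈ locN A b) ∧
      x = ∑ i, c i * (t i - algebraMap ℂ M (val (t i) b)) :=
  gen_locN' hA h3 b (fun i => quo_anti (by rintro _ rfl; exact ⟨1, gv_one _⟩) (ht.mem i)) ht.jac

end

end Pool.Agent.Lib.MP_d3d358_ag.Var.A4
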