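import Pool.Agent.Lib.MP_d3d358_ag.Var.Open
import Pool.Agent.Lib.MP_d3d358_ag.Var.A2
import Pool.Agent.Lib.MP_d3d358_ag.Var.MirrorK
import Pool.Agent.Lib.MP_d3d358_ag.Var.CxB
import Pool.Agent.Lib.MP_d3d358_ag.Var.Br
import Pool.Agent.Lib.MP_d3d358_ag.Th.TL
import Pool.Agent.Lib.MP_d3d358_ag.Th.Jet

/-! The Segre data of the generalised Kummer fourfold, and its simple connectedness. -/

set_option autoImplicit false

namespace Pool.Agent.Lib.MP_d3d358_ag.Var

open Set Submodule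
open Pool.Agent.Lib.MP_d3d358_ag.G (Sf lat3 Cx)
open Pool.Agent.Lib.MP_d3d358_ag.Th (Theta aut)
open Pool.Agent.Lib.MP_cd184e_ag.B (hring grade gen lin adjoin_gen gen_mem ev_gen ev_algebraMap
  eq_zero_of_ev)
open Pool.Agent.Lib.MP_9ff3e7_ag.F (Pt Chart)

noncomputable section

variable {A : Sf}

theorem even_level (A : Sf) (j : ℕ) (l l' : (lat3 A.toLat).L) :
    Complex.exp (Real.pi * Complex.I * ((j : ℝ) * A.k * Th.alt (l : V) l' : ℝ)) = 1 := by
  simpa using Th.exp_even A.cr j l l'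

theorem exists_level (A : Sf) (b : ℝ) : ∃ m₀ : ℕ, ∀ m, m₀ ≤ m → b ≤ (m : ℝ) * A.k := by
  obtain ⟨m₀, h⟩ := exists_nat_ge b
  refine ⟨m₀, fun m hm => (h.trans (Nat.cast_le.2 hm)).trans ?_⟩
  exact le_mul_of_one_le_right (Nat.cast_nonneg m) (Nat.one_le_cast.2 A.k_pos)

theorem sub_mem_Lam {a b : V} (h : a - b ∈ Lam A) : b - a ∈ Lam A := neg_sub a b ▸ neg_mem h

/-- A base point free space of theta functions generates all large degrees. -/
theorem exists_R_le {Y : Submodule ℂ Ent} [Module.Finite ℂ Y] {j : ℕ} (hY : Y ≤ R A j)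
    (h0 : ∀ z, ∃ u ∈ Y, u.1 z ≠ 0) : ∃ m₀, ∀ m, m₀ ≤ m → R A (m + j) ≤ Y * R A m := by
  let y := Module.finBasis ℂ Y
  obtain ⟨b, hb⟩ := Th.TL_theta (fun i => (y i).1.1) (fun i => mem_R.1 (hY (y i).2))
    (fun z => by
      obtain ⟨u, hu, h⟩ := h0 z
      by_contra! hc
      have e := congrArg (fun v : Y => v.1.1 z) (y.sum_repr ⟨u, hu⟩)
      simp only [coe_sum, coe_smul, Ent.sum_apply, Ent.csmul_apply, hc, mul_zero,
        Finset.sum_const_zero] at e
      exact h e.symm) (even_level A j)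
  obtain ⟨m₀, hm⟩ := exists_level A b
  refine ⟨m₀, fun m h F hF => ?_⟩
  obtain ⟨f, hf, e⟩ := hb _ (hm m h) (even_level A m) F.1
    (by simpa [add_mul] using mem_R.1 hF)
  let E : Fin (Module.finrank ℂ Y) → Ent := fun i => ⟨f i, (hf i).1⟩
  have e' : F = ∑ i, (y i).1 * E i := Ent.ext fun z => by rw [Ent.sum_apply, ← e z]; rfl
  rw [e']
  exact sum_mem fun i _ => mul_mem_mul (y i).2 (mem_R.2 (hf i))

/-- Theta functions separate a point from finitely many other points of the torus. -/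
theorem exists_R_sep (b : V) (T : Finset V) (h : ∀ a ∈ T, a - b ∉ Lam A) :
    ∃ j, ∃ F ∈ R A j, F.1 b = 1 ∧ ∀ a ∈ T, F.1 a = 0 := by
  classical
  have h1 : ∀ a, ∃ j, ∃ F ∈ R A j, F.1 b = 1 ∧ (a ∈ T → F.1 a = 0) := fun a => by
    by_cases ha : a ∈ T
    · have hne : a ≠ b := fun e => h a ha (by rw [e, sub_self]; exact zero_mem _)
      obtain ⟨d, hd⟩ := Th.exists_jets (lat3 A.toLat) {a, b} (by
        simp only [Finset.mem_insert, Finset.mem_singleton]
        rintro _ (rfl | rfl) _ (rfl | rfl) hl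
        exacts [rfl, absurd hl (h _ ha), absurd (sub_mem_Lam hl) (h _ ha), rfl])
      obtain ⟨m, hm⟩ := exists_level A d
      obtain ⟨f, hf, e⟩ := hd _ (hm m le_rfl) (even_level A m)
        (fun z => if z = b then 1 else 0) 0
      exact ⟨m, ⟨f, hf.1⟩, mem_R.2 hf, by simpa using (e b (by simp)).1,
        fun _ => by simpa [hne] using (e a (by simp)).1⟩
    · exact ⟨0, 1, one_mem_R, rfl, fun h => absurd h ha⟩
  choose j F hF h1 h0 using h1
  exact ⟨_, _, prod_mem_R T fun a _ => hF a, by simp [h1],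
    fun a ha => by rw [Ent.prod_apply]; exact Finset.prod_eq_zero ha (h0 a ha)⟩

theorem apply_of_mem_pow {Y : Submodule ℂ Ent} {a b : V} {μ : ℂ} (h : ∀ u ∈ Y, u.1 a = μ * u.1 b)
    (m : ℕ) {F : Ent} (hF : F ∈ Y ^ m) : F.1 a = μ ^ m * F.1 b := by
  induction hF using Submodule.pow_induction_on_left' with
  | algebraMap r => simp
  | add x y n _ _ hx hy => rw [Ent.add_apply, Ent.add_apply, hx, hy, mul_add]
  | mem_mul v hv n x _ hx => rw [Ent.mul_apply, Ent.mul_apply, hx, h v hv, pow_succ]; ring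

theorem apply_of_mem_span {ι : Type} {y : ι → Ent} {a b : V} {μ : ℂ}
    (h : ∀ i, (y i).1 a = μ * (y i).1 b) {u : Ent} (hu : u ∈ span ℂ (range y)) :
    u.1 a = μ * u.1 b := by
  obtain ⟨c, rfl⟩ := Finsupp.mem_span_range_iff_exists_finsupp.1 hu
  simp only [Finsupp.sum, Ent.sum_apply, Ent.csmul_apply, h, Finset.mul_sum, mul_left_comm]

theorem zero_of_mem_span {ι : Type} {y : ι → Ent} {a : V} (h : ∀ i, (y i).1 a = 0) {u : Ent}
    (hu : u ∈ span ℂ (range y)) : u.1 a = 0 := by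
  rw [apply_of_mem_span (b := a) (μ := 0) (fun i => by rw [h, zero_mul]) hu, zero_mul]

theorem alt_apply {F : Ent} (hF : F ∈ altE) (g : G) (z : V) : F.1 (gv g z) = sg g * F.1 z := by
  have := congrArg (fun E : Ent => E.1 z) (hF g⁻¹)
  simpa using this

variable (hA : Good A)
include hA

/-- Theta functions take the same value at `z` and at `g z` when `g` fixes the class of `z`. -/
theorem Good.apply_stab {z : V} {g : G} (hg : gv g z - z ∈ Lam A) {j : ℕ} {F : Ent}
    (hF : F ∈ R A j) : F.1 (gv g z) = F.1 z := by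
  obtain ⟨u, hu, h0⟩ := hA.bpf z
  have e : gv g z = z + (gv g z - z) := (add_sub_cancel _ _).symm
  have h1 := pow_mem_R1 hu.1 j _ hg z
  rw [← e, inv_apply (pow_mem_invE hu.2 j), eq_comm,
    mul_eq_right₀ (by simpa using fun c => absurd c h0)] at h1
  rw [e, hF _ hg, h1, one_mul]

theorem Good.exists_pos {b : V} {j : ℕ} {F : Ent} (hF : F ∈ R A j) :
    ∃ E ∈ R A (j + 1), E.1 b = F.1 b ∧ ∀ a, F.1 a = 0 → E.1 a = 0 := by
  obtain ⟨u, hu, h0⟩ := hA.bpf b
  exact ⟨(u.1 b)⁻¹ • (F * u), smul_mem _ _ (mul_mem_R hF hu.1), by simp; field_simp,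
    fun a ha => by simp [ha]⟩

/-- the Nullstellensatz for the invariant theta functions -/
theorem Good.null {Y : Submodule ℂ Ent} (hY : Y ≤ U A) (h0 : ∀ z, ∃ u ∈ Y, u.1 z ≠ 0) :
    ∃ m, ∀ u ∈ U A, u ^ (m + 1) ∈ Y * U A ^ m := by
  have := hA.finU
  have : Module.Finite ℂ Y := finiteDimensional_of_le hY
  obtain ⟨m, hm⟩ := exists_R_le (hY.trans inf_le_left) h0
  refine ⟨m + 1, fun u hu => ?_⟩
  rw [← avg_eq (χ := fun _ => 1) (by simp) (F := u ^ (m + 1 + 1)) fun g => by
    rw [pow_mem_invE hu.2 _ g, one_smul]]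
  refine Submodule.mul_induction_on (C := fun F => avg (fun _ => 1) F ∈ Y * U A ^ (m + 1))
    (hm (m + 1) m.le_succ (pow_mem_R1 hu.1 _)) (fun a ha c hc => ?_)
    fun a c ha hc => by rw [map_add]; exact add_mem ha hc
  rw [avg_mul _ (hY ha).2]
  exact mul_mem_mul ha (hA.inv_mem (avg_mem_R _ hc) fun g => by
    rw [smul_avg (by simp) (by simp), one_smul])

/-- An invariant theta function that separates two orbits. -/
theorem Good.exists_inv_sep {a b : V} (h : ∀ g : G, a - gv g b ∉ Lam A) :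
    ∃ j, ∃ F ∈ U A ^ j, F.1 a ≠ 0 ∧ F.1 b = 0 := by
  classical
  obtain ⟨j, F, hF, h1, h0⟩ := exists_R_sep (A := A) a ((Finset.univ.image fun g : G => gv g b) ∪
    (Finset.univ.filter fun g : G => gv g a - a ∉ Lam A).image fun g => gv g a) fun c hc => by
      rcases Finset.mem_union.1 hc with hc | hc <;> obtain ⟨g, hg, rfl⟩ := Finset.mem_image.1 hc
      exacts [fun hl => h g (sub_mem_Lam hl), (Finset.mem_filter.1 hg).2]
  obtain ⟨E, hE, e1, e0⟩ := hA.exists_pos (b := a) hF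
  refine ⟨j + 1, avg (fun _ => 1) E, hA.inv_mem (avg_mem_R _ hE) fun g => by
    rw [smul_avg (by simp) (by simp), one_smul], ?_, ?_⟩
  · have hv : ∀ g : G, E.1 (gv g⁻¹ a) = ((if gv g⁻¹ a - a ∈ Lam A then 1 else 0 : ℕ) : ℂ) :=
      fun g => by
        split_ifs with hg
        · rw [hA.apply_stab hg hE, e1, h1, Nat.cast_one]
        · rw [Nat.cast_zero]
          exact e0 _ (h0 _ (Finset.mem_union_right _ (Finset.mem_image_of_mem _
            (Finset.mem_filter.2 ⟨Finset.mem_univ _, hg⟩))))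
    simp only [avg_apply, one_smul, Ent.csmul_apply, Ent.sum_apply, Ent.smul_apply, hv]
    rw [← Nat.cast_sum]
    refine mul_ne_zero (by norm_num) (Nat.cast_ne_zero.2 fun e => ?_)
    simpa using Finset.sum_eq_zero_iff.1 e 1 (Finset.mem_univ _)
  · have hv : ∀ g : G, E.1 (gv g⁻¹ b) = 0 := fun g => e0 _ (h0 _ (Finset.mem_union_left _
      (Finset.mem_image_of_mem _ (Finset.mem_univ _))))
    simp [avg_apply, hv]

/-- The invariant theta functions of degree one separate orbits. -/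
theorem Good.sep {a b : V}
    (h : ∀ j k, (gU hA j).1 a * (gU hA k).1 b = (gU hA k).1 a * (gU hA j).1 b) :
    ∃ g, ∃ l ∈ Lam A, a = gv g b + l := by
  by_contra! hc
  obtain ⟨j, F, hF, h1, h0⟩ := hA.exists_inv_sep (a := a) (b := b) fun g hl =>
    hc g _ hl (add_sub_cancel _ _).symm
  obtain ⟨u, hu, hb⟩ := hA.bpf b
  obtain ⟨k, hk⟩ : ∃ k, (gU hA k).1 b ≠ 0 := by
    by_contra! hz
    exact hb (zero_of_mem_span hz (span_gU hA ▸ hu))
  refine h1 ?_
  rw [apply_of_mem_pow (b := b) (μ := (gU hA k).1 a / (gU hA k).1 b) (fun v hv =>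
    apply_of_mem_span (fun i => by rw [div_mul_eq_mul_div, eq_div_iff hk, h]) (span_gU hA ▸ hv))
    j hF, h0, mul_zero]

/-- The free points are those where some alternating theta function does not vanish. -/
theorem Good.free_iff {z : V} : z ∈ Free (Lam A) ↔ ∃ i, (fW hA i).1 z ≠ 0 := by
  classical
  constructor
  · intro hz
    obtain ⟨j, F, hF, h1, h0⟩ := exists_R_sep (A := A) z
      ((Finset.univ.erase (1 : G)).image fun g => gv g z) fun c hc hl => by
        obtain ⟨g, hg, rfl⟩ := Finset.mem_image.1 hc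
        exact Finset.ne_of_mem_erase hg (hz g (sub_mem_Lam hl))
    obtain ⟨E, hE, e1, e0⟩ := hA.exists_pos (b := z) hF
    have hm := hA.alt_mem (avg_mem_R sg hE) (smul_avg sg_mul sg_mul_self E)
    have hv : (avg sg E).1 z = 6⁻¹ := by
      simp only [avg_apply, Ent.csmul_apply, Ent.sum_apply, Ent.smul_apply]
      rw [Finset.sum_eq_single 1 (fun g _ hg => by
        rw [e0 _ (h0 _ (Finset.mem_image_of_mem _ (by simpa using hg))), mul_zero]) (by simp)]
      simp [e1, h1]
    by_contra! hc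
    have h2 : ∀ X ∈ U A ^ j * W A, X.1 z = 0 := fun X hX =>
      Submodule.mul_induction_on hX (fun a _ c hc' => by
        rw [Ent.mul_apply, zero_of_mem_span hc (u := c) (span_fW hA ▸ hc'), mul_zero])
        fun a c ha hc => by rw [Ent.add_apply, ha, hc, add_zero]
    rw [h2 _ hm] at hv
    norm_num at hv
  · rintro ⟨i, hi⟩ g hg
    have key : ∀ k, DihedralGroup.sr k ∉ Stab (Lam_stable A) z := fun k hk => hi <| by
      have h1 := hA.apply_stab (g := .sr k) (sub_mem_Lam hk) (fW_mem hA i).1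
      rw [alt_apply (fW_mem hA i).2, sg_sr] at h1
      linear_combination (-1 / 2) * h1
    cases g with
    | sr k => exact absurd hg (key k)
    | r k =>
      refine r_eq_one.2 (by_contra fun hk => key 0 ?_)
      rw [Stab_eq_top (Lam_stable A) (Lam_le_closure A) hk hg]
      trivial

theorem ev_mem_range (a : hring (X hA)) : MP_cd184e_ag.B.ev (X hA) a ∈ emb.range := by
  have ha : a ∈ Algebra.adjoin ℂ (range (gen (X hA))) := adjoin_gen (X hA) ▸ Algebra.mem_top
  induction ha using Algebra.adjoin_induction with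
  | mem x hx =>
    obtain ⟨l, rfl⟩ := hx
    rw [ev_gen]
    exact ⟨_, rfl⟩
  | algebraMap r => rw [ev_algebraMap]; exact algebraMap_mem _ r
  | add x y _ _ hx hy => rw [map_add]; exact add_mem hx hy
  | mul x y _ _ hx hy => rw [map_mul]; exact mul_mem hx hy

/-- a form on `X` as an entire function -/
def thX : hring (X hA) →ₐ[ℂ] Ent :=
  (AlgEquiv.ofInjective emb emb_inj).symm.toAlgHom.comp (AlgHom.codRestrict
    ⟨MP_cd184e_ag.B.ev (X hA), ev_algebraMap (X hA)⟩ emb.range (ev_mem_range hA))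

theorem emb_thX (a : hring (X hA)) : emb (thX hA a) = MP_cd184e_ag.B.ev (X hA) a :=
  congrArg Subtype.val ((AlgEquiv.ofInjective emb emb_inj).apply_symm_apply _)

theorem thX_gen (i : Fin (nW A)) (j : Fin (nU A)) :
    thX hA (gen (X hA) (idx i j)) = fW hA i * gU hA j :=
  emb_inj (by rw [emb_thX, ev_gen, X_f])

/-- the Segre data of `X` -/
def seg : Seg (grade (X hA)) (Lam A) (Fin (nW A)) (Fin (nU A)) where
  f := fW hA
  g := gU hA
  s i j := gen (X hA) (idx i j)
  Θ := thX hA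
  s_mem _ _ := gen_mem _ _
  gen := by
    rw [← adjoin_gen (X hA)]
    exact congrArg _ (finProdFinEquiv.surjective.range_comp (gen (X hA)))
  inj j a ha b hb e := sub_eq_zero.1 (eq_zero_of_ev (X hA) (sub_mem ha hb) (by
    rw [← emb_thX, map_sub, e, sub_self, map_zero]))
  Θ_s := thX_gen hA
  quad i k := by
    rw [span_gU, ← sq]
    exact hA.inv_mem (mul_mem_R (fW_mem hA i).1 (fW_mem hA k).1) fun g => by
      rw [smul_mul', (fW_mem hA i).2 g, (fW_mem hA k).2 g, smul_mul_smul_comm, sg_mul_self,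
        one_smul]
  bpf z := by
    obtain ⟨u, hu, hb⟩ := hA.bpf z
    by_contra! hz
    exact hb (zero_of_mem_span hz (span_gU hA ▸ hu))
  null Y hY h0 := by
    rw [span_gU] at hY ⊢
    exact (hA.null hY h0).imp fun m h j => h _ (gU_mem hA j)
  sep _ _ := hA.sep
  autf γ l hl z := ⟨aut ((1 : ℕ) * A.k) l (gv γ z) * sg γ, fun i => by
    rw [(fW_mem hA i).1 l hl, alt_apply (fW_mem hA i).2, mul_assoc]⟩
  autg γ l hl z := ⟨aut ((1 : ℕ) * A.k) l (gv γ z), fun j => by
    rw [(gU_mem hA j).1 l hl, inv_apply (gU_mem hA j).2]⟩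
  free _ := hA.free_iff
  cpt := by
    obtain ⟨r, -, h⟩ := (lat3 A.toLat).exists_near_norm
    refine ⟨_, isCompact_closedBall (0 : V) r, fun z => ?_⟩
    obtain ⟨l, hl⟩ := h z
    exact ⟨-l, neg_mem l.2, by rwa [mem_closedBall_zero_iff, ← sub_eq_add_neg]⟩
  act := Lam_stable A

theorem seg_over {p : Pt (grade (X hA))} {b : V} : (seg hA).Over (cx p) b ↔ Over hA p b :=
  (seg hA).over_cx

theorem exists_over (p : Pt (grade (X hA))) : ∃ b, Over hA p b :=
  ((seg hA).exists_over (cx p)).imp fun _ h => (seg_over hA).1 h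

/-- `X` is simply connected as soon as it is covered by etale charts. -/
theorem simplyConnected_X {n : ℕ}
    (hc : ∀ p : Pt (grade (X hA)), ∃ c : Chart (grade (X hA)) n, c.In p) :
    SimplyConnectedSpace (Cx (grade (X hA))) := by
  have hs := isSimplyConnected_free (L := Lam A)
  obtain ⟨q, hq⟩ := (seg hA).exists_isQ hs.nonempty
  obtain ⟨z, hz⟩ := hs.nonempty
  obtain ⟨i, -⟩ := hA.free_iff.1 hz
  obtain ⟨a, ha, e, h⟩ := hq.exists_form i
  obtain ⟨hd, hb⟩ := dense_and_basis (gen1 _) hc ha (fun a0 => pow_ne_zero 4 (fW_ne hA i) (by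
    rw [a0, map_zero] at e; exact e.symm)) (X₀ := q '' Free (Lam A))
    fun p hp => h _ ((rep_cx_ne (gen1 _) p ha).2 hp)
  exact hq.simplyConnectedSpace (Lam_le_closure A) hs hd hb

end

end Pool.Agent.Lib.MP_d3d358_ag.Var
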