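import Pool.Agent.Lib.MP_d3d358_ag.Var.X3
import Pool.Agent.Lib.MP_d3d358_ag.Var.Q1M
import Pool.Agent.Lib.MP_d3d358_ag.Var.SegKD
import Pool.Agent.Lib.MP_d3d358_ag.Var.A3
import Pool.Agent.Lib.MP_d3d358_ag.Var.A4K

/-! The local theory of `X`, assembled: coordinates at every point, the constant two form is
regular, and the points over the free locus. -/

set_option autoImplicit false

namespace Pool.Agent.Lib.MP_d3d358_ag.Var

open Pool.Agent.Lib.MP_d3d358_ag.G (Sf)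
open Pool.Agent.Lib.MP_cd184e_ag.B
open Pool.Agent.Lib.MP_9ff3e7_ag.F (Pt)

noncomputable section

theorem loc4_det_gm (g : G) : (gm g).det ≠ 0 := by
  have : gm g * gm g⁻¹ = 1 := by
    ext i j
    have := congrFun (gv_gv_inv g (Pi.single j 1 : V)) i
    rw [gv_eq_sum] at this
    rw [Matrix.mul_apply, Matrix.one_apply]
    simpa [gm, Pi.single_apply] using this
  exact left_ne_zero_of_mul_eq_one (by rw [← Matrix.det_mul, this, Matrix.det_one])

theorem loc4_smul_jac {t : Fin 4 → M} (ht : Equi t) (g : G) : g • jac t = jac t := by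
  let N : Matrix (Fin 4) (Fin 4) M := ((gm g⁻¹).map (algebraMap ℂ M)).transpose
  have hN : N.det ≠ 0 := by
    rw [Matrix.det_transpose, ← RingHom.mapMatrix_apply, ← RingHom.map_det]
    exact (map_ne_zero _).2 (loc4_det_gm _)
  have e : (Matrix.of fun i j => pd i (t j)) * N =
      N * (MulSemiringAction.toRingHom G M g).mapMatrix (Matrix.of fun i j => pd i (t j)) := by
    ext k j
    have := pd_smul g k (t j)
    rw [ht g j, gv_eq_sum, map_sum] at this
    simpa [Matrix.mul_apply, N, gm, Algebra.smul_def, mul_comm] using this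
  have := congrArg Matrix.det e
  rw [Matrix.det_mul, Matrix.det_mul, ← RingHom.map_det, mul_comm] at this
  exact (mul_left_cancel₀ hN this).symm

variable {A : Sf}

theorem Crd.jac_unit {b : V} {t : Fin 4 → M} (ht : Crd A b t) :
    Var.jac t ∈ Ow A b ∧ val (Var.jac t) b = 1 := by
  let D : Matrix (Fin 4) (Fin 4) (Ot A b) := Matrix.of fun i j => pdO A b i ⟨t j, ht.mem j⟩
  have e : Var.jac t = D.det.1 := ((Ot A b).val.toRingHom.map_det D).symm
  refine ⟨⟨e ▸ D.det.2, loc4_smul_jac ht.equi⟩, ?_⟩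
  have : (evO A b).toRingHom.mapMatrix D = 1 := by
    ext i j
    rw [Matrix.one_apply]
    exact ht.jac i j
  rw [e, ← evO_apply]
  exact ((evO A b).toRingHom.map_det D).trans (by rw [this, Matrix.det_one])

theorem semiLoc (hA : Good A) {b : V} {t : Fin 4 → M} (ht : Crd A b t) :
    SemiLoc b (Ow A b) (Ot A b) t := hA.semiLoc ht (A4.Crd.gen hA (trdeg_KN A) ht)

theorem Ow_le_Ox (hA : Good A) {p : Pt (grade (X hA))} {b : V} (h : Over hA p b) {y : M}
    (hy : y ∈ Ow A b) : y ∈ Ox p ∧ vx p y = val y b := h.Ow_le' hy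

theorem exists_crd_chart (hA : Good A) {p : Pt (grade (X hA))} {b : V} (h : Over hA p b)
    {t : Fin 4 → M} (ht : Crd A b t) : ∃ μ, alt t (cix μ) ≠ 0 ∧ (∀ k, crd μ t k ∈ Ox p) ∧
      ∀ y ∈ Ox p, vx p y = 0 → ∃ a : Fin 4 → M, (∀ k, a k ∈ Ox p) ∧
        y = ∑ k, a k * (crd μ t k - algebraMap ℂ M (vx p (crd μ t k))) := by
  obtain ⟨μ, h0, -, h1, h2⟩ := h.exists_gens (semiLoc hA ht)
  refine ⟨μ, h0, h1, fun y hy y0 => ?_⟩
  obtain ⟨a, ha⟩ := (Submodule.mem_span_range_iff_exists_fun _).1 (h2 y hy y0)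
  exact ⟨fun k => a k, fun k => (a k).2, ha.symm⟩

variable (hA : Good A)

/-- F2: the constant form is regular on `X` -/
theorem sig_mem_Ox (p : Pt (grade (X hA))) : sig zc ∈ St2 (Ox p) := by
  obtain ⟨b, hb⟩ := exists_over hA p
  obtain ⟨t, ht⟩ := exists_crd hA.bpf b
  have hs := semiLoc hA ht
  have := hA.noeth_Ow b
  refine hs.sig_mem (orbJ (evO A b)) (fun x hx => mem_orbJ_evO.1 hx) hb.Ow_le fun s => ?_
  obtain ⟨u, hu, -, he⟩ := ht.exists_flat hs s
  exact ⟨u, hb.sig_mem (semiLoc hA hu), he⟩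

/-- X3: coordinates at every point of `X` -/
theorem exists_coords (p : Pt (grade (X hA))) : ∃ c : Fin 4 → M,
    (∀ k, c k ∈ Ox p) ∧ (∀ y ∈ Ox p, vx p y = 0 → y ∈ Submodule.span (Ox p)
      (Set.range fun k => c k - algebraMap ℂ M (vx p (c k)))) ∧
    jac c ∈ Ox p ∧ vx p (jac c) = -3 := by
  obtain ⟨b, hb⟩ := exists_over hA p
  obtain ⟨t, ht⟩ := exists_crd hA.bpf b
  obtain ⟨μ, h0, -, h1, h2⟩ := hb.exists_gens (semiLoc hA ht)
  obtain ⟨h3, h4⟩ := hb.Ow_le' ht.jac_unit.1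
  have e : (-3 : M) = algebraMap ℂ M (-3) := by simp [map_ofNat]
  refine ⟨_, h1, h2, ?_⟩
  rw [jac_crd μ h0, e, vx_mul (Subalgebra.algebraMap_mem _ _) h3, vx_const, h4, ht.jac_unit.2,
    mul_one]
  exact ⟨mul_mem (Subalgebra.algebraMap_mem _ _) h3, rfl⟩

theorem thX_mem {m : ℕ} {a : hring (X hA)} (ha : a ∈ grade (X hA) m) :
    thX hA a ∈ R A (m * 2) ∧ ∀ g : G, g • thX hA a = sg g ^ m • thX hA a := by
  have key : ∀ (m : ℕ), ∀ c ∈ lin (X hA) ^ m, ∃ F ∈ R A (m * 2), emb F = c ∧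
      ∀ g : G, g • F = sg g ^ m • F := fun m => by
    induction m with
    | zero =>
      intro c hc
      rw [pow_zero, Submodule.mem_one] at hc
      obtain ⟨c, rfl⟩ := hc
      exact ⟨_, const_mem_R c, emb.commutes c, fun g => by rw [pow_zero, one_smul]; rfl⟩
    | succ m ih =>
      intro c hc
      rw [pow_succ] at hc
      refine Submodule.mul_induction_on (C := fun c => ∃ F ∈ R A ((m + 1) * 2), emb F = c ∧
        ∀ g : G, g • F = sg g ^ (m + 1) • F) hc (fun a ha c hc => ?_) ?_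
      · obtain ⟨F, hF, rfl, h⟩ := ih a ha
        obtain ⟨d, rfl⟩ := (Submodule.mem_span_range_iff_exists_fun ℂ).1 hc
        refine ⟨F * ∑ l, d l • (fW hA (finProdFinEquiv.symm l).1 * gU hA (finProdFinEquiv.symm l).2),
          ?_, by simp only [map_mul emb F, map_sum, map_smul], fun g => ?_⟩
        · rw [add_mul]
          exact mul_mem_R hF (sum_mem fun l _ => Submodule.smul_mem _ _
            (mul_mem_R (fW_mem hA _).1 (gU_mem hA _).1))
        · rw [smul_mul', h, Finset.smul_sum, pow_succ, ← smul_mul_smul_comm, Finset.smul_sum]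
          refine congrArg _ (Finset.sum_congr rfl fun l _ => ?_)
          rw [smul_comm, smul_mul', (fW_mem hA _).2 g, (gU_mem hA _).2 g, smul_mul_assoc, smul_comm]
      · rintro _ _ ⟨F, hF, rfl, h⟩ ⟨E, hE, rfl, k⟩
        exact ⟨F + E, add_mem hF hE, map_add _ _ _, fun g => by rw [smul_add, h, k, smul_add]⟩
  obtain ⟨F, hF, e, h⟩ := key m _ (ev_mem _ ha)
  rw [show thX hA a = F from emb_inj ((emb_thX hA a).trans e.symm)]
  exact ⟨hF, h⟩

/-- regular functions at a point of `X` are invariant quotients of theta functions -/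
theorem Ox_le (p : Pt (grade (X hA))) : Ox p ≤ KN A ⊓ invM := fun y hy => by
  obtain ⟨m, a, ha, c, hc, c0, rfl⟩ := mem_Ox.1 hy
  have c1 : ev (X hA) c ≠ 0 := ev_ne hc fun e => c0 (by simp [e])
  rw [← emb_thX, ← emb_thX] at *
  refine ⟨⟨_, _, (thX_mem hA ha).1, _, (thX_mem hA hc).1, fun e => c1 (by simp [e]), by simp, rfl⟩,
    fun g => ?_⟩
  have : sg g ^ m ≠ 0 := pow_ne_zero _ (left_ne_zero_of_mul_eq_one (sg_mul_self g))
  rw [smul_div₀', smul_emb, smul_emb, (thX_mem hA ha).2, (thX_mem hA hc).2, map_smul, map_smul,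
    Algebra.smul_def, Algebra.smul_def, mul_div_mul_left _ _ ((map_ne_zero _).2 this)]

theorem tr_of_mem_KN {x : M} (hx : x ∈ KN A) {l : V} (hl : l ∈ Lam A) : tr l x = x := by
  obtain ⟨j, F, hF, E, hE, h0, -, rfl⟩ := hx
  rw [map_div₀, tr_emb, tr_emb, div_eq_div_iff
    (emb_ne ((map_ne_zero_iff _ (Ent.tr l).injective).2 h0)) (emb_ne h0), ← map_mul, ← map_mul]
  refine congrArg _ (Ent.ext fun z => ?_)
  rw [Ent.mul_apply, Ent.mul_apply, Ent.tr_apply, Ent.tr_apply, hF l hl, hE l hl]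
  ring

/-- the point of `X` over a free point -/
def ptX (b : V) (hb : b ∈ Free (Lam A)) : Pt (grade (X hA)) :=
  ⟨(Ent.ev b).comp (thX hA), by
    obtain ⟨i, hi⟩ := hA.free_iff.1 hb
    obtain ⟨j, hj⟩ := exists_gU_ne hA b
    exact ⟨_, gen_mem _ (idx i j), by simpa [thX_gen] using ⟨hi, hj⟩⟩⟩

theorem ptX_apply {b : V} (hb : b ∈ Free (Lam A)) (a : hring (X hA)) :
    (ptX hA b hb).1 a = (thX hA a).1 b := rfl

theorem Ox_ptX {b : V} (hb : b ∈ Free (Lam A)) {y : M} (hy : y ∈ Ox (ptX hA b hb)) :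
    y ∈ locN A b ∧ vx (ptX hA b hb) y = val y b := by
  obtain ⟨m, a, ha, c, hc, c0, rfl⟩ := mem_Ox.1 hy
  have c1 : (thX hA c).1 b ≠ 0 := c0
  rw [(div_mem_Ox ha hc c0).2, ← emb_thX, ← emb_thX, val_div _ c1]
  exact ⟨⟨_, _, (thX_mem hA ha).1, _, (thX_mem hA hc).1, Ent.ne_zero c0, by
    rintro _ rfl; exact c0, rfl⟩, rfl⟩

theorem over_ptX {b : V} (hb : b ∈ Free (Lam A)) : Over hA (ptX hA b hb) b := fun i j j' => by
  simp only [ptX_apply, thX_gen, Ent.mul_apply]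
  ring

theorem exists_pt_free {b : V} (hb : b ∈ Free (Lam A)) :
    ∃ p : Pt (grade (X hA)), Ox p ≤ locN A b ∧ ∀ y ∈ Ox p, vx p y = val y b :=
  ⟨ptX hA b hb, fun _ hy => (Ox_ptX hA hb hy).1, fun _ hy => (Ox_ptX hA hb hy).2⟩

/-- the hypothesis of `TwoF.eq_sig` -/
theorem exists_pt_inv {b : V} (hb : b ∈ Free (Lam A)) : ∃ p : Pt (grade (X hA)),
    ∀ x ∈ Ox p, TwoF.Inv (Lam A) x ∧ x ∈ Loc b :=
  ⟨ptX hA b hb, fun _ hx => ⟨⟨fun _ hl => tr_of_mem_KN (Ox_le hA _ hx).1 hl, (Ox_le hA _ hx).2⟩,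
    quo_le_Loc (Set.mem_singleton b) (Ox_ptX hA hb hx).1⟩⟩

end

end Pool.Agent.Lib.MP_d3d358_ag.Var
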