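import Pool.Agent.Lib.MP_d3d358_ag.Var.Mod
import Pool.Agent.Lib.MP_d3d358_ag.G.Stmt

/-! The matrix of a rational two form. -/

set_option autoImplicit false

namespace Pool.Agent.Lib.MP_d3d358_ag.Var

/-- `s` is the matrix of the two form `σ` along `φ`, and determines it -/
def MatOf {L : Type} [Field L] [Algebra ℂ L] (φ : L →ₐ[ℂ] M) (σ : ExteriorAlgebra L Ω[L⁄ℂ])
    (s : Matrix (Fin 4) (Fin 4) M) : Prop :=
  ∀ (k : ℕ) (y : Fin k → Fin 3 → L),
    σ = ∑ i, y i 0 • ExteriorAlgebra.ιMulti L 2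
        ![KaehlerDifferential.D ℂ L (y i 1), KaehlerDifferential.D ℂ L (y i 2)] ↔
      ∑ i, φ (y i 0) • wd (φ (y i 1)) (φ (y i 2)) = s

end Pool.Agent.Lib.MP_d3d358_ag.Var
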