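import Pool.Agent.Lib.MP_d3d358_ag.Var.DictM
import Pool.Agent.Lib.MP_d3d358_ag.Var.MatOf
import Pool.Agent.Lib.MP_d3d358_ag.Var.Loc4

/-! The symplectic form of the generalised Kummer fourfold. -/

set_option autoImplicit false

namespace Pool.Agent.Lib.MP_d3d358_ag.Var

open Pool.Agent.Lib.MP_d3d358_ag.G (Sf Symp Form)
open Pool.Agent.Lib.MP_cd184e_ag.B (grade)
open Pool.Agent.Lib.MP_9ff3e7_ag.F (Pt Fn loc)

variable {A : Sf} (hA : Good A)

theorem nonempty_ptX : Nonempty (Pt (grade (X hA))) :=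
  let ⟨b, hb⟩ := (dense_free (L := Lam A)).nonempty
  ⟨ptX hA b hb⟩

/-- the symplectic form of `X` -/
theorem symp_X (htr : Algebra.trdeg ℂ (Fn (grade (X hA))) = 4) :
    ∃ σ : Form (Fn (grade (X hA))), Symp (fun p : Pt (grade (X hA)) => loc p) σ ∧
      MatOf (iota (X hA)) σ (sig zc) := by
  have := nonempty_ptX hA
  have := countable_lat (L := Lam A)
  obtain ⟨K, hK, hL⟩ := (seg hA).cpt
  refine Dict.symp_Y (X hA) htr (sig_mem_Ox hA) (ι := {g : G // g ≠ 1} × Lam A) (q := mirPt)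
    (W := fun i => Fix i.1.1) (fun i => finrank_Fix i.1.2) (L := Lam A) hK hL
    (fun b hb => exists_pt_inv hA ?_) fun p => ?_
  · by_contra h
    obtain ⟨i, hi⟩ := exists_mirror b h
    exact hb i hi
  · obtain ⟨c, hc, hg, hj, -⟩ := exists_coords hA p
    refine ⟨fun k => ⟨c k, hc k⟩, hj, fun y hy => ?_⟩
    obtain ⟨a, e⟩ := (Submodule.mem_span_range_iff_exists_fun _).1 (hg y y.2 (by rwa [vx_coe]))
    refine Ideal.mem_span_range_iff_exists_fun.2 ⟨a, Subtype.ext ?_⟩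
    rw [← e, AddSubmonoidClass.coe_finsetSum]
    exact Finset.sum_congr rfl fun k _ => by rw [vx_eq (hc k)]; rfl

end Pool.Agent.Lib.MP_d3d358_ag.Var
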