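import Pool.Agent.Lib.MP_d3d358_ag.Var.X5
import Pool.Agent.Lib.MP_d3d358_ag.Var.GeoInv
import Pool.Agent.Lib.MP_d3d358_ag.Var.SympX
import Pool.Agent.Lib.MP_d3d358_ag.Var.SmX

/-! The generalised Kummer fourfold is hyper-Kaehler. -/

set_option autoImplicit false

namespace Pool.Agent.Lib.MP_d3d358_ag.Var

open Pool.Agent.Lib.MP_d3d358_ag.G (Sf Cx HK Symp Form)
open Pool.Agent.Lib.MP_cd184e_ag.T (ProjVar)
open Pool.Agent.Lib.MP_cd184e_ag.B (hring grade gen lin strMap)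
open Pool.Agent.Lib.MP_9ff3e7_ag.F (Pt Fn loc Chart)

variable {A : Sf}

theorem Crd.jac_ne {b : V} {t : Fin 4 → M} (ht : Crd A b t) : Var.jac t ≠ 0 :=
  jac_ne_of_val (fun j => Ot_le_Loc' b (ht.mem j)) (by
    rw [show (Matrix.of fun i j => val (pd i (t j)) b) = 1 from
      Matrix.ext fun i j => (ht.jac i j).trans (Matrix.one_apply).symm, Matrix.det_one]
    exact one_ne_zero)

theorem exists_chart_X (hA : Good A) {p : Pt (grade (X hA))} {b : V} (h : Over hA p b)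
    {t : Fin 4 → M} (ht : Crd A b t) : ∃ (μ : Fin 3) (ch : Chart (grade (X hA)) 4),
      alt t (cix μ) ≠ 0 ∧ ch.In p ∧ ∀ k, iota (X hA) (ch.z k).1 = crd μ t k := by
  obtain ⟨μ, h0, -, hc, hg⟩ := h.exists_gens (semiLoc hA ht)
  have hj : jac (crd μ t) ≠ 0 := by
    rw [jac_crd μ h0]
    exact mul_ne_zero (by norm_num) ht.jac_ne
  obtain ⟨ch, h1, h2⟩ := chart_of_gens p _ hc (indep_of_jac hj) hg
  exact ⟨μ, ch, h0, h1, h2⟩

theorem charts_X (hA : Good A) (p : Pt (grade (X hA))) :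
    ∃ ch : Chart (grade (X hA)) 4, ch.In p := by
  obtain ⟨b, hb⟩ := exists_over hA p
  obtain ⟨t, ht⟩ := exists_crd hA.bpf b
  obtain ⟨-, ch, -, h, -⟩ := exists_chart_X hA hb ht
  exact ⟨ch, h⟩

theorem trdeg_X (hA : Good A) : Algebra.trdeg ℂ (Fn (grade (X hA))) = 4 :=
  (trdeg_Fn hA).trans (trdeg_KN A)

theorem smooth_J (hA : Good A) : ∀ j ∈ (X hA).J, Algebra.Smooth ℂ ((X hA).A {j}) :=
  (smooth_of_charts (charts_X hA)).1

theorem smooth_A (hA : Good A) (j : Fin (X hA).n) : Algebra.Smooth ℂ ((X hA).A {j}) :=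
  smooth_J hA j (Finset.mem_univ j)

/-- `X` is a projective hyper-Kaehler fourfold, and its symplectic form is the constant one -/
theorem hk (hA : Good A) : ∃ σ : Form (Fn (grade (X hA))), HK (grade (X hA)) σ ∧
    MatOf (iota (X hA)) σ (sig zc) := by
  obtain ⟨σ, h1, h2⟩ := symp_X hA (trdeg_X hA)
  exact ⟨σ, ⟨gen1 _, trdeg_X hA, (smooth_of_charts (charts_X hA)).2,
    simplyConnected_X hA (charts_X hA), h1⟩, h2⟩

end Pool.Agent.Lib.MP_d3d358_ag.Var
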