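import Pool.Agent.Lib.MP_d3d358_ag.Var.KD
import Pool.Agent.Lib.MP_d3d358_ag.Th.Fin
import Pool.Agent.Lib.MP_d3d358_ag.Th.Jet
import Pool.Agent.Lib.MP_d3d358_ag.Th.TL

/-! A multiple of the level is large enough. -/

set_option autoImplicit false

namespace Pool.Agent.Lib.MP_d3d358_ag.Var

open Pool.Agent.Lib.MP_d3d358_ag.G (Sf lat3)
open Pool.Agent.Lib.MP_d3d358_ag.Th (Theta aut ObjL Sec)
open Filter

variable (A : Sf)

namespace Gd

theorem R_up (a j : ℕ) : R (A.up a) j = R A (j * (a + 1)) := by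
  ext F
  have e : (j : ℝ) * (A.up a).k = (j * (a + 1) : ℕ) * A.k := by
    change (j : ℝ) * ((a + 1) * A.k : ℕ) = _
    push_cast; ring
  rw [mem_R, mem_R, e]; rfl

theorem even_R (j : ℕ) (l l' : (lat3 A.toLat).L) :
    Complex.exp (Real.pi * Complex.I * ((j * A.k : ℝ) * Th.alt (l : V) l' : ℝ)) = 1 := by
  simpa using Th.exp_even A.cr j l l'

theorem eventually_le_level (d : ℝ) : ∀ᶠ j : ℕ in atTop, d ≤ j * A.k := by
  filter_upwards [tendsto_natCast_atTop_atTop.eventually_ge_atTop d] with j hj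
  exact hj.trans (le_mul_of_one_le_right j.cast_nonneg (Nat.one_le_cast.2 A.k_pos))

instance finite_R (j : ℕ) : Module.Finite ℂ (R A j) :=
  FiniteDimensional.of_injective (V₂ := Theta (lat3 A.toLat) (j * A.k))
    { toFun := fun F => ⟨F.1.1, mem_R.1 F.2⟩, map_add' := fun _ _ => rfl, map_smul' := fun _ _ => rfl }
    fun _ _ h => Subtype.ext (Subtype.ext (Subtype.mk.inj h))

/-- the line bundle of degree `j` -/
@[reducible] def lineObj (j : ℕ) : ObjL (lat3 A.toLat) where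
  ι := Unit
  t _ := j * A.k
  ρ _ := 1
  ρ_unit _ := by simp
  ρ_blk _ _ _ _ := rfl
  ρ_mul l l' := by simp only [even_R]; simp

theorem eventually_bpf_R : ∀ᶠ j : ℕ in atTop, ∀ z, ∃ F ∈ R A j, F.1 z ≠ 0 := by
  obtain ⟨d, hd⟩ := Th.ev_surj (lat3 A.toLat) 1
  filter_upwards [eventually_le_level A d] with j hj z
  obtain ⟨s, hs, e⟩ := hd (lineObj A j) (by simp) (fun _ => hj) z 1
  refine ⟨⟨fun z => s z (), hs.1 ()⟩, fun l hl w => ?_, by simp [e]⟩
  simpa [ObjL.fac, Matrix.mulVec_diagonal] using congrFun (hs.2 ⟨l, hl⟩ w) ()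

variable {A}

theorem prodc_mem_R {ι : Type} (s : Finset ι) {j : ℕ} {F : ι → Ent} (h : ∀ i ∈ s, F i ∈ R A j) :
    ∏ i ∈ s, F i ∈ R A (s.card * j) := by
  classical
  induction s using Finset.induction_on with
  | empty => simpa using one_mem_R
  | insert a s ha ih =>
    rw [Finset.prod_insert ha, Finset.card_insert_of_notMem ha, Nat.succ_mul, add_comm]
    exact mul_mem_R (h a (by simp)) (ih fun i hi => h i (by simp [hi]))

theorem norm_mem {j : ℕ} {F : Ent} (hF : F ∈ R A j) : ∏ g : G, g • F ∈ R A (6 * j) ⊓ invE :=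
  ⟨by simpa [DihedralGroup.card] using prodc_mem_R Finset.univ fun g _ => smul_mem_R hF g,
    fun g => Finset.smul_prod_perm F g⟩

theorem bpf_inv {j : ℕ} (h : ∀ z, ∃ F ∈ R A j, F.1 z ≠ 0) (z : V) :
    ∃ F ∈ R A (6 * j) ⊓ invE, F.1 z ≠ 0 := by
  obtain ⟨F, hF, h0⟩ := Module.Dual.exists_forall_mem_ne_zero_of_forall_exists (R A j)
    (fun g : G => (Ent.ev (gv g⁻¹ z)).toLinearMap) fun g => h _
  exact ⟨_, norm_mem hF, by rw [Ent.prod_apply]; exact Finset.prod_ne_zero_iff.2 fun g _ => h0 g⟩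

theorem inv_mul_inv (i j : ℕ) : (R A i ⊓ invE) * (R A j ⊓ invE) ≤ R A (i + j) ⊓ invE :=
  Submodule.mul_le.2 fun F hF E hE =>
    ⟨mul_mem_R hF.1 hE.1, fun g => by rw [smul_mul', hF.2 g, hE.2 g]⟩

theorem gen_step {a : ℕ} (h : ∀ z, ∃ F ∈ R A a ⊓ invE, F.1 z ≠ 0) :
    ∀ᶠ j : ℕ in atTop, R A (j + a) ≤ (R A a ⊓ invE) * R A j := by
  have : Module.Finite ℂ (R A a ⊓ invE :) := Submodule.finiteDimensional_of_le inf_le_left
  obtain ⟨n, y, hy⟩ := Submodule.fg_iff_exists_fin_generating_family.1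
    (Module.Finite.iff_fg.1 this)
  have hm : ∀ i, y i ∈ R A a ⊓ invE := fun i => hy ▸ Submodule.subset_span ⟨i, rfl⟩
  obtain ⟨b, hb⟩ := Th.TL_theta (fun i => (y i).1) (fun i => mem_R.1 (hm i).1) (fun z => by
    by_contra! h0
    obtain ⟨F, hF, hz⟩ := h z
    have : Submodule.span ℂ (Set.range y) ≤ LinearMap.ker (Ent.ev z).toLinearMap :=
      Submodule.span_le.2 (by rintro _ ⟨i, rfl⟩; exact h0 i)
    exact hz (this (hy ▸ hF))) (even_R A a)
  filter_upwards [eventually_le_level A b] with j hj F hF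
  obtain ⟨f, hf, e⟩ := hb _ hj (even_R A j) F.1 (by
    have := mem_R.1 hF
    rwa [Nat.cast_add, add_mul] at this)
  have : F = ∑ i, y i * ⟨f i, (hf i).1⟩ := Ent.ext fun z => by rw [Ent.sum_apply, ← e]; rfl
  rw [this]
  exact Submodule.sum_mem _ fun i _ => Submodule.mul_mem_mul (hm i) (mem_R.2 (hf i))

theorem gen_mul {a b : ℕ} (h : ∀ j ≥ b, R A (j + a) ≤ (R A a ⊓ invE) * R A j) (m : ℕ) {j : ℕ}
    (hj : b ≤ j) : R A (j + m * a) ≤ (R A (m * a) ⊓ invE) * R A j := by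
  induction m with
  | zero =>
    intro F hF
    rw [← one_mul F]
    exact Submodule.mul_mem_mul ⟨by simpa using one_mem_R, fun g => smul_one g⟩ (by simpa using hF)
  | succ m ih =>
    rw [Nat.succ_mul, ← add_assoc, add_comm (m * a)]
    refine (h _ (by omega)).trans ((mul_le_mul_right ih _).trans ?_)
    rw [← mul_assoc]
    exact mul_le_mul_left (inv_mul_inv _ _) _

theorem gen_pow {a : ℕ} (h : ∀ j ≥ a, R A (j + a) ≤ (R A a ⊓ invE) * R A j) (j : ℕ) :
    R A ((j + 1) * a) ≤ (R A a ⊓ invE) ^ j * R A a := by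
  induction j with
  | zero => simp
  | succ j ih =>
    rw [Nat.succ_mul, pow_succ', mul_assoc]
    exact (h _ (Nat.le_mul_of_pos_left _ j.succ_pos)).trans (mul_le_mul_right ih _)

theorem alt_of_anti {j : ℕ} {F : Ent} (hF : F ∈ R A j) (h : (.sr 0 : G) • F = -F) :
    ∏ k : ZMod 3, (.r k : G) • F ∈ R A (3 * j) ⊓ altE := by
  refine ⟨by simpa using prodc_mem_R Finset.univ fun k _ => smul_mem_R hF (.r k), fun g => ?_⟩
  rw [Finset.smul_prod']
  cases g with
  | r m =>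
    rw [sg_r, one_smul]
    exact Fintype.prod_equiv (Equiv.addLeft m) _ _ fun k => by rw [← mul_smul]; rfl
  | sr m =>
    have e : ∀ k : ZMod 3, (.sr m : G) • (.r k : G) • F = -1 * (.r (-(m + k)) : G) • F := fun k => by
      rw [neg_one_mul, ← smul_neg, ← h, ← mul_smul, ← mul_smul]
      simp
    simp only [e, Finset.prod_mul_distrib, Finset.prod_const, Finset.card_univ, ZMod.card]
    rw [sg_sr, neg_one_smul, Odd.neg_one_pow (by decide), neg_one_mul, neg_inj]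
    exact Fintype.prod_equiv ((Equiv.addLeft m).trans (Equiv.neg _)) _ _ fun k => rfl

variable (A)

theorem eventually_alt : ∀ᶠ j : ℕ in atTop, R A (3 * j) ⊓ altE ≠ ⊥ := by
  obtain ⟨d, hd⟩ := Th.exists_jets (lat3 A.toLat) {0} (by simp)
  filter_upwards [eventually_le_level A d] with j hj
  obtain ⟨f, hf, e⟩ := hd _ hj (even_R A j) 0 fun _ => ContinuousLinearMap.proj 0
  have e1 := (e 0 (by simp)).2
  let F : Ent := ⟨f, hf.1⟩
  have hF : F ∈ R A j := mem_R.2 hf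
  have h0 : F - (.sr 0 : G) • F ≠ 0 := fun h => by
    have h1 : f = f ∘ gL (.sr 0) := congrArg Subtype.val (sub_eq_zero.1 h)
    have h2 := fderiv_comp (0 : V) (hf.1 (gL (.sr 0) 0)) (gL (.sr 0)).differentiableAt
    rw [← h1, map_zero, e1, ContinuousLinearMap.fderiv] at h2
    simpa [gv_sr] using congrArg (· (Pi.single 0 1)) h2
  refine (Submodule.ne_bot_iff _).2 ⟨_, alt_of_anti (sub_mem hF (smul_mem_R hF (.sr 0))) ?_,
    Finset.prod_ne_zero_iff.2 fun k _ h => h0 ?_⟩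
  · rw [smul_sub, ← mul_smul, DihedralGroup.sr_mul_self, one_smul, neg_sub]
  · rwa [smul_eq_zero_iff_eq] at h

end Gd

open Gd in
theorem exists_good : ∃ a, Good (A.up a) := by
  obtain ⟨c, hc⟩ := eventually_atTop.1 (((eventually_bpf_R A).and (eventually_alt A)).and
    (eventually_gt_atTop 0))
  obtain ⟨⟨h1, -⟩, h0⟩ := hc c le_rfl
  obtain ⟨b, hb⟩ := eventually_atTop.1 (gen_step (bpf_inv h1))
  obtain ⟨a, ha⟩ : ∃ a, a + 1 = (b + 1) * (6 * c) := Nat.exists_add_one_eq.2 (by positivity)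
  have e : R (A.up a) 1 = R A (a + 1) := by rw [R_up, one_mul]
  refine ⟨a, e ▸ inferInstance, ?_, fun j => ?_, ?_⟩
  · rw [U, e, show a + 1 = 6 * ((b + 1) * c) by rw [ha]; ring]
    exact bpf_inv (hc _ (Nat.le_mul_of_pos_left _ b.succ_pos)).1.1
  · rw [U, e, R_up]
    exact gen_pow (fun j hj => ha ▸ gen_mul hb _ (by nlinarith)) j
  · rw [W, e, show a + 1 = 3 * (2 * (b + 1) * c) by rw [ha]; ring]
    exact (hc _ (Nat.le_mul_of_pos_left _ (by positivity))).1.2

end Pool.Agent.Lib.MP_d3d358_ag.Var
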