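import Pool.Agent.Lib.MP_d3d358_ag.Var.Grp
import Pool.Agent.Lib.MP_9ff3e7_ag.F.Osg

/-! Entire and meromorphic functions on `ℂ⁴`: the field `M`, the action of `G`, the partial
derivatives, translations, and values at a point. -/

set_option autoImplicit false

namespace Pool.Agent.Lib.MP_d3d358_ag.Var

open Filter Topology

noncomputable section

/-- entire functions, as a subalgebra -/
def entAlg : Subalgebra ℂ (V → ℂ) where
  carrier := {F | Differentiable ℂ F}
  mul_mem' := Differentiable.mul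
  add_mem' := Differentiable.add
  algebraMap_mem' c := differentiable_const c

/-- entire functions; `F.1 z` is the value -/
def Ent : Type := entAlg

instance ringEnt : CommRing Ent := inferInstanceAs (CommRing entAlg)
instance algEnt : Algebra ℂ Ent := inferInstanceAs (Algebra ℂ entAlg)

@[simp] theorem Ent.mul_apply (F F' : Ent) (z : V) : (F * F').1 z = F.1 z * F'.1 z := rfl
@[simp] theorem Ent.add_apply (F F' : Ent) (z : V) : (F + F').1 z = F.1 z + F'.1 z := rfl
@[simp] theorem Ent.sub_apply (F F' : Ent) (z : V) : (F - F').1 z = F.1 z - F'.1 z := rfl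
@[simp] theorem Ent.neg_apply (F : Ent) (z : V) : (-F).1 z = -F.1 z := rfl
@[simp] theorem Ent.csmul_apply (c : ℂ) (F : Ent) (z : V) : (c • F).1 z = c * F.1 z := rfl
@[simp] theorem Ent.zero_apply (z : V) : (0 : Ent).1 z = 0 := rfl
@[simp] theorem Ent.one_apply (z : V) : (1 : Ent).1 z = 1 := rfl
@[simp] theorem Ent.const_apply (c : ℂ) (z : V) : (algebraMap ℂ Ent c).1 z = c := rfl

theorem Ent.diff (F : Ent) : Differentiable ℂ F.1 := F.2

theorem Ent.an (F : Ent) (z : V) : AnalyticAt ℂ F.1 z :=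
  MP_9ff3e7_ag.F.osgood isOpen_univ F.diff.differentiableOn z trivial

theorem Ent.cont (F : Ent) : Continuous F.1 := F.diff.continuous

theorem Ent.ext {F F' : Ent} (h : ∀ z, F.1 z = F'.1 z) : F = F' := Subtype.ext (funext h)

/-- the identity theorem -/
theorem Ent.eq_zero_of_eventually (F : Ent) {b : V} (h : ∀ᶠ z in 𝓝 b, F.1 z = 0) : F = 0 :=
  Subtype.ext (AnalyticOnNhd.eq_of_eventuallyEq (fun z _ => F.an z) analyticOnNhd_const h)

theorem Ent.exists_ne {F : Ent} (h : F ≠ 0) : ∃ z, F.1 z ≠ 0 := by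
  by_contra! e
  exact h (Ent.ext e)

theorem Ent.ne_zero {F : Ent} {z : V} (h : F.1 z ≠ 0) : F ≠ 0 := fun e => h (by rw [e]; rfl)

instance : IsDomain Ent where
  mul_left_cancel_of_ne_zero {F} hF a b h := by
    obtain ⟨z, hz⟩ := Ent.exists_ne hF
    refine sub_eq_zero.1 ((a - b).eq_zero_of_eventually (b := z) ?_)
    filter_upwards [F.cont.continuousAt.eventually_ne hz] with w hw
    exact sub_eq_zero.2 (mul_left_cancel₀ hw (congrFun (congrArg Subtype.val h) w))
  mul_right_cancel_of_ne_zero {F} hF a b h := by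
    obtain ⟨z, hz⟩ := Ent.exists_ne hF
    refine sub_eq_zero.1 ((a - b).eq_zero_of_eventually (b := z) ?_)
    filter_upwards [F.cont.continuousAt.eventually_ne hz] with w hw
    exact sub_eq_zero.2 (mul_right_cancel₀ hw (congrFun (congrArg Subtype.val h) w))
  exists_pair_ne := ⟨0, 1, fun h => zero_ne_one (congrFun (congrArg Subtype.val h) 0)⟩

/-- evaluation at a point -/
def Ent.ev (z : V) : Ent →ₐ[ℂ] ℂ := (Pi.evalAlgHom ℂ (fun _ => ℂ) z).comp entAlg.val

@[simp] theorem Ent.ev_apply (z : V) (F : Ent) : Ent.ev z F = F.1 z := rfl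

@[simp] theorem Ent.pow_apply (F : Ent) (n : ℕ) (z : V) : (F ^ n).1 z = F.1 z ^ n :=
  map_pow (Ent.ev z) F n

@[simp] theorem Ent.sum_apply {ι : Type*} (s : Finset ι) (F : ι → Ent) (z : V) :
    (∑ i ∈ s, F i).1 z = ∑ i ∈ s, (F i).1 z := map_sum (Ent.ev z) F s

@[simp] theorem Ent.prod_apply {ι : Type*} (s : Finset ι) (F : ι → Ent) (z : V) :
    (∏ i ∈ s, F i).1 z = ∏ i ∈ s, (F i).1 z := map_prod (Ent.ev z) F s

/-- pull back along an entire map -/
def Ent.pb (φ : V → V) (hφ : Differentiable ℂ φ) : Ent →ₐ[ℂ] Ent where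
  toFun F := ⟨fun z => F.1 (φ z), F.diff.comp hφ⟩
  map_one' := rfl
  map_mul' _ _ := rfl
  map_zero' := rfl
  map_add' _ _ := rfl
  commutes' _ := rfl

instance actEnt : MulSemiringAction G Ent where
  smul g := Ent.pb (gv g⁻¹) (differentiable_gv _)
  one_smul F := Ent.ext fun z => congrArg F.1 (by rw [inv_one, gv_one])
  mul_smul g h F := Ent.ext fun z => congrArg F.1 (by rw [mul_inv_rev, gv_mul])
  smul_zero _ := rfl
  smul_add _ _ _ := rfl
  smul_one _ := rfl
  smul_mul _ _ _ := rfl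

@[simp] theorem Ent.smul_apply (g : G) (F : Ent) (z : V) : (g • F).1 z = F.1 (gv g⁻¹ z) := rfl

instance : SMulCommClass G ℂ Ent := ⟨fun _ _ _ => rfl⟩

/-- translation `F ↦ F (· + c)` -/
def Ent.tr (c : V) : Ent ≃ₐ[ℂ] Ent :=
  AlgEquiv.ofAlgHom (Ent.pb (· + c) (by fun_prop)) (Ent.pb (· - c) (by fun_prop))
    (AlgHom.ext fun F => Ent.ext fun z => congrArg F.1 (add_sub_cancel_right z c))
    (AlgHom.ext fun F => Ent.ext fun z => congrArg F.1 (sub_add_cancel z c))

@[simp] theorem Ent.tr_apply (c : V) (F : Ent) (z : V) : (Ent.tr c F).1 z = F.1 (z + c) := rfl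

/-- the coordinates -/
def Ent.z (i : Fin 4) : Ent := ⟨fun z => z i, differentiable_apply i⟩

/-- the partial derivatives -/
def Ent.pd (i : Fin 4) : Derivation ℂ Ent Ent :=
  Derivation.mk'
    { toFun := fun F => ⟨fun z => fderiv ℂ F.1 z (Pi.single i 1), fun z =>
        ((F.an z).fderiv.differentiableAt).clm_apply (differentiableAt_const _)⟩
      map_add' := fun F F' => Ent.ext fun z => by
        change fderiv ℂ (F.1 + F'.1) z _ = fderiv ℂ F.1 z _ + fderiv ℂ F'.1 z _
        rw [fderiv_add (F.diff z) (F'.diff z)]; rfl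
      map_smul' := fun c F => Ent.ext fun z => by
        change fderiv ℂ (c • F.1) z _ = c • fderiv ℂ F.1 z _
        rw [fderiv_const_smul (F.diff z)]; rfl }
    fun F F' => Ent.ext fun z => by
      change fderiv ℂ (F.1 * F'.1) z _ = F.1 z * fderiv ℂ F'.1 z _ + F'.1 z * fderiv ℂ F.1 z _
      rw [fderiv_mul (F.diff z) (F'.diff z)]; rfl

theorem Ent.pd_apply (i : Fin 4) (F : Ent) (z : V) :
    (Ent.pd i F).1 z = fderiv ℂ F.1 z (Pi.single i 1) := rfl

/-- the field of meromorphic functions -/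
def M : Type := FractionRing Ent

instance fieldM : Field M := inferInstanceAs (Field (FractionRing Ent))
instance algEM : Algebra Ent M := inferInstanceAs (Algebra Ent (FractionRing Ent))
instance algM : Algebra ℂ M := inferInstanceAs (Algebra ℂ (FractionRing Ent))
instance towerM : IsScalarTower ℂ Ent M := inferInstanceAs (IsScalarTower ℂ Ent (FractionRing Ent))
instance fracM : IsFractionRing Ent M := inferInstanceAs (IsFractionRing Ent (FractionRing Ent))
instance actM : MulSemiringAction G M := IsFractionRing.mulSemiringAction G Ent M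
instance charM : CharZero M := charZero_of_injective_algebraMap (algebraMap ℂ M).injective

/-- entire functions are meromorphic -/
def emb : Ent →ₐ[ℂ] M := IsScalarTower.toAlgHom ℂ Ent M

theorem emb_eq (F : Ent) : emb F = algebraMap Ent M F := rfl

theorem emb_inj : Function.Injective emb := IsFractionRing.injective Ent M

theorem emb_ne {F : Ent} (h : F ≠ 0) : emb F ≠ 0 := fun e => h (emb_inj (e.trans (map_zero _).symm))

theorem emb_ne' {F : Ent} {z : V} (h : F.1 z ≠ 0) : emb F ≠ 0 := emb_ne (Ent.ne_zero h)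

theorem exists_div (x : M) : ∃ F F' : Ent, F' ≠ 0 ∧ x = emb F / emb F' := by
  obtain ⟨a, b, hb, e⟩ := IsFractionRing.div_surjective Ent x
  exact ⟨a, b, nonZeroDivisors.ne_zero hb, e.symm⟩

@[simp] theorem smul_emb (g : G) (F : Ent) : g • emb F = emb (g • F) :=
  IsFractionRing.ringEquivOfRingEquiv_algebraMap _ _

@[simp] theorem smul_const (g : G) (c : ℂ) : g • algebraMap ℂ M c = algebraMap ℂ M c := by
  rw [← emb.commutes, smul_emb]; rfl

instance : SMulCommClass G ℂ M :=
  ⟨fun g c x => by rw [Algebra.smul_def, Algebra.smul_def, smul_mul', smul_const]⟩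

/-- translation -/
def tr (c : V) : M ≃ₐ[ℂ] M := IsFractionRing.algEquivOfAlgEquiv (Ent.tr c)

@[simp] theorem tr_emb (c : V) (F : Ent) : tr c (emb F) = emb (Ent.tr c F) :=
  IsFractionRing.algEquivOfAlgEquiv_algebraMap _ _

/-- the coordinates -/
def zc (i : Fin 4) : M := emb (Ent.z i)

instance etM : Algebra.FormallyEtale Ent M :=
  Algebra.FormallyEtale.of_isLocalization (Rₘ := M) (nonZeroDivisors Ent)

/-- the partial derivatives -/
def pd (i : Fin 4) : Derivation ℂ M M :=
  ((KaehlerDifferential.isBaseChange_of_formallyEtale ℂ Ent M).lift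
    ((Algebra.linearMap Ent M).comp (Ent.pd i).liftKaehlerDifferential)).compDer
      (KaehlerDifferential.D ℂ M)

@[simp] theorem pd_emb (i : Fin 4) (F : Ent) : pd i (emb F) = emb (Ent.pd i F) := by
  change IsBaseChange.lift _ _ (KaehlerDifferential.D ℂ M (algebraMap Ent M F)) = _
  rw [← KaehlerDifferential.map_D ℂ ℂ Ent M, IsBaseChange.lift_eq]
  simp [emb_eq]

/-- meromorphic functions regular at `b` -/
def Loc (b : V) : Subalgebra ℂ M where
  carrier := {x | ∃ F F' : Ent, F'.1 b ≠ 0 ∧ x = emb F / emb F'}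
  mul_mem' := by
    rintro _ _ ⟨F, F', h, rfl⟩ ⟨E, E', k, rfl⟩
    exact ⟨F * E, F' * E', mul_ne_zero h k, by rw [map_mul, map_mul, div_mul_div_comm]⟩
  add_mem' := by
    rintro _ _ ⟨F, F', h, rfl⟩ ⟨E, E', k, rfl⟩
    exact ⟨F * E' + F' * E, F' * E', mul_ne_zero h k, by
      rw [map_add, map_mul, map_mul, map_mul, div_add_div _ _ (emb_ne' h) (emb_ne' k)]⟩
  algebraMap_mem' c := ⟨algebraMap ℂ Ent c, 1, one_ne_zero, by simp⟩

theorem div_mem_Loc (F : Ent) {F' : Ent} {b : V} (h : F'.1 b ≠ 0) : emb F / emb F' ∈ Loc b :=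
  ⟨F, F', h, rfl⟩

theorem emb_mem_Loc (F : Ent) (b : V) : emb F ∈ Loc b := ⟨F, 1, one_ne_zero, by simp⟩

open Classical in
/-- the value of `x` at `b` (zero if `x` is not regular at `b`) -/
def val (x : M) (b : V) : ℂ :=
  if h : ∃ F : Ent × Ent, F.2.1 b ≠ 0 ∧ x = emb F.1 / emb F.2 then
    h.choose.1.1 b / h.choose.2.1 b else 0

theorem val_div (F : Ent) {F' : Ent} {b : V} (hb : F'.1 b ≠ 0) :
    val (emb F / emb F') b = F.1 b / F'.1 b := by
  have h : ∃ E : Ent × Ent, E.2.1 b ≠ 0 ∧ emb F / emb F' = emb E.1 / emb E.2 := ⟨(F, F'), hb, rfl⟩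
  rw [val, dif_pos h]
  obtain ⟨h1, h2⟩ := h.choose_spec
  generalize h.choose = c at h1 h2
  rw [div_eq_div_iff (emb_ne' hb) (emb_ne' h1), ← map_mul, ← map_mul] at h2
  rw [div_eq_div_iff h1 hb]
  exact (congrFun (congrArg Subtype.val (emb_inj h2)) b).symm

@[simp] theorem val_emb (F : Ent) (b : V) : val (emb F) b = F.1 b := by
  simpa using val_div F (F' := 1) (b := b) one_ne_zero

@[simp] theorem val_const (c : ℂ) (b : V) : val (algebraMap ℂ M c) b = c := by
  rw [← emb.commutes, val_emb]; rfl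

theorem val_mul {x y : M} {b : V} (hx : x ∈ Loc b) (hy : y ∈ Loc b) :
    val (x * y) b = val x b * val y b := by
  obtain ⟨F, F', h, rfl⟩ := hx
  obtain ⟨E, E', k, rfl⟩ := hy
  rw [div_mul_div_comm, ← map_mul, ← map_mul, val_div _ (F' := F' * E') (mul_ne_zero h k),
    val_div _ h, val_div _ k, div_mul_div_comm]
  rfl

theorem val_add {x y : M} {b : V} (hx : x ∈ Loc b) (hy : y ∈ Loc b) :
    val (x + y) b = val x b + val y b := by
  obtain ⟨F, F', h, rfl⟩ := hx
  obtain ⟨E, E', k, rfl⟩ := hy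
  rw [div_add_div _ _ (emb_ne' h) (emb_ne' k), ← map_mul, ← map_mul, ← map_mul, ← map_add,
    val_div _ (F' := F' * E') (mul_ne_zero h k), val_div _ h, val_div _ k, div_add_div _ _ h k]
  rfl

/-- evaluation at `b` -/
def evL (b : V) : Loc b →ₐ[ℂ] ℂ where
  toFun x := val x.1 b
  map_one' := by simpa using val_const 1 b
  map_zero' := by simpa using val_const 0 b
  map_mul' x y := val_mul x.2 y.2
  map_add' x y := val_add x.2 y.2
  commutes' c := val_const c b

@[simp] theorem evL_apply (b : V) (x : Loc b) : evL b x = val x.1 b := rfl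

end

end Pool.Agent.Lib.MP_d3d358_ag.Var
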