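import Pool.Agent.Lib.MP_d3d358_ag.Var.Lim
import Pool.Agent.Lib.MP_d3d358_ag.Var.CxA
import Pool.Agent.Lib.MP_d3d358_ag.Var.Mer

/-! The map from the free points of `V` to the complex points of `Proj S`, when `S` is generated by
the products of alternating and invariant forms. -/

set_option autoImplicit false

namespace Pool.Agent.Lib.MP_d3d358_ag.Var

open Set Topology Filter Submodule
open Pool.Agent.Lib.MP_9ff3e7_ag.F Pool.Agent.Lib.MP_d3d358_ag.G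

noncomputable section

variable {S : Type} [CommRing S] [Algebra ℂ S]

/-- `S` is generated by the products `f i * g j` of alternating and invariant forms -/
structure Seg (𝒜 : ℕ → Submodule ℂ S) (L : AddSubgroup V) (ι κ : Type) where
  f : ι → Ent
  g : κ → Ent
  s : ι → κ → S
  Θ : S →ₐ[ℂ] Ent
  s_mem : ∀ i j, s i j ∈ 𝒜 1
  gen : Algebra.adjoin ℂ (range fun ij : ι × κ => s ij.1 ij.2) = ⊤
  inj : ∀ j, ∀ a ∈ 𝒜 j, ∀ b ∈ 𝒜 j, Θ a = Θ b → a = b
  Θ_s : ∀ i j, Θ (s i j) = f i * g j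
  quad : ∀ i k, f i * f k ∈ span ℂ (range g) * span ℂ (range g)
  bpf : ∀ z, ∃ j, (g j).1 z ≠ 0
  null : ∀ W ≤ span ℂ (range g), (∀ z, ∃ u ∈ W, u.1 z ≠ 0) →
    ∃ m, ∀ j, g j ^ (m + 1) ∈ W * span ℂ (range g) ^ m
  sep : ∀ a b, (∀ j k, (g j).1 a * (g k).1 b = (g k).1 a * (g j).1 b) →
    ∃ γ, ∃ l ∈ L, a = gv γ b + l
  autf : ∀ γ, ∀ l ∈ L, ∀ z, ∃ μ : ℂ, ∀ i, (f i).1 (gv γ z + l) = μ * (f i).1 z
  autg : ∀ γ, ∀ l ∈ L, ∀ z, ∃ μ : ℂ, ∀ j, (g j).1 (gv γ z + l) = μ * (g j).1 z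
  free : ∀ z, z ∈ Free L ↔ ∃ i, (f i).1 z ≠ 0
  cpt : ∃ K, IsCompact K ∧ ∀ z, ∃ l ∈ L, z + l ∈ K
  act : ∀ γ, ∀ l ∈ L, gv γ l ∈ L

namespace Seg

variable {𝒜 : ℕ → Submodule ℂ S} {L : AddSubgroup V} {ι κ : Type} (D : Seg 𝒜 L ι κ)

/-- the point `x` lies over the orbit of `b` -/
def Over (x : Cx 𝒜) (b : V) : Prop :=
  ∀ i j k, (rep x).1 (D.s i j) * (D.g k).1 b = (rep x).1 (D.s i k) * (D.g j).1 b

/-- `q` is the map given by the forms on the free points -/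
def IsQ (q : V → Cx 𝒜) : Prop :=
  ∀ z ∈ Free L, ∃ p : Pt 𝒜, q z = cx p ∧ ∀ a, p.1 a = (D.Θ a).1 z

theorem exists_isQ (h : (Free L).Nonempty) : ∃ q, D.IsQ q := by
  have h1 : ∀ z ∈ Free L, ∃ p : Pt 𝒜, ∀ a, p.1 a = (D.Θ a).1 z := fun z hz => by
    obtain ⟨i, hi⟩ := (D.free z).1 hz
    obtain ⟨j, hj⟩ := D.bpf z
    exact ⟨⟨(Ent.ev z).comp D.Θ, D.s i j, D.s_mem i j, by simp [D.Θ_s, hi, hj]⟩, fun _ => rfl⟩
  obtain ⟨c, hc⟩ := h
  obtain ⟨p₀, -⟩ := h1 c hc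
  have h2 : ∀ z, ∃ p : Pt 𝒜, z ∈ Free L → ∀ a, p.1 a = (D.Θ a).1 z := fun z => by
    by_cases hz : z ∈ Free L
    · exact (h1 z hz).imp fun _ h _ => h
    · exact ⟨p₀, fun h => absurd h hz⟩
  choose p hp using h2
  exact ⟨fun z => cx (p z), fun z hz => ⟨p z, rfl, hp z hz⟩⟩

theorem exists_lin (i : ι) {u : Ent} (hu : u ∈ span ℂ (range D.g)) :
    ∃ a ∈ 𝒜 1, D.Θ a = D.f i * u := by
  induction hu using span_induction with
  | mem x hx =>
    obtain ⟨j, rfl⟩ := hx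
    exact ⟨_, D.s_mem i j, D.Θ_s i j⟩
  | zero => exact ⟨0, zero_mem _, by simp⟩
  | add x y _ _ hx hy =>
    obtain ⟨a, ha, e⟩ := hx
    obtain ⟨b, hb, e'⟩ := hy
    exact ⟨a + b, add_mem ha hb, by rw [map_add, e, e', mul_add]⟩
  | smul c x _ hx =>
    obtain ⟨a, ha, e⟩ := hx
    exact ⟨c • a, smul_mem _ c ha, by rw [map_smul, e, mul_smul_comm]⟩

theorem over_act {x : Cx 𝒜} {b : V} (h : D.Over x b) (γ : G) {l : V} (hl : l ∈ L) :
    D.Over x (gv γ b + l) := fun i j k => by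
  obtain ⟨μ, hμ⟩ := D.autg γ l hl b
  rw [hμ, hμ]
  linear_combination μ * h i j k

theorem row_of_over {x : Cx 𝒜} {b : V} (h : D.Over x b) :
    ∃ α : ι → ℂ, ∀ i j, (rep x).1 (D.s i j) = α i * (D.g j).1 b := by
  obtain ⟨k, hk⟩ := D.bpf b
  exact ⟨fun i => (rep x).1 (D.s i k) / (D.g k).1 b, fun i j => by
    rw [div_mul_eq_mul_div, eq_div_iff hk, h i j k]⟩

variable [GradedAlgebra 𝒜]

theorem segre (p : S →ₐ[ℂ] ℂ) (i k : ι) (j l : κ) :
    p (D.s i j) * p (D.s k l) = p (D.s i l) * p (D.s k j) := by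
  rw [← map_mul, ← map_mul]
  refine congrArg p (D.inj _ _ (SetLike.mul_mem_graded (D.s_mem _ _) (D.s_mem _ _)) _
    (SetLike.mul_mem_graded (D.s_mem _ _) (D.s_mem _ _)) ?_)
  simp only [map_mul, D.Θ_s]
  ring

theorem exists_pow (i : ι) (m : ℕ) {u : Ent} (hu : u ∈ span ℂ (range D.g) ^ m) :
    ∃ a ∈ 𝒜 m, D.Θ a = D.f i ^ m * u := by
  induction hu using Submodule.pow_induction_on_left' with
  | algebraMap r => exact ⟨algebraMap ℂ S r, SetLike.algebraMap_mem_graded 𝒜 r, by simp⟩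
  | add x y n _ _ hx hy =>
    obtain ⟨a, ha, e⟩ := hx
    obtain ⟨b, hb, e'⟩ := hy
    exact ⟨a + b, add_mem ha hb, by rw [map_add, e, e', mul_add]⟩
  | mem_mul v hv n x _ hx =>
    obtain ⟨a, ha, e⟩ := hx
    obtain ⟨b, hb, e'⟩ := D.exists_lin i hv
    exact ⟨a * b, SetLike.mul_mem_graded ha hb, by rw [map_mul, e, e', pow_succ]; ring⟩

/-- Every row of a point of the cone is proportional to the values of the invariant forms at some
point of `V`. -/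
theorem exists_row (p : S →ₐ[ℂ] ℂ) (i : ι) :
    ∃ b, ∀ j k, p (D.s i j) * (D.g k).1 b = p (D.s i k) * (D.g j).1 b := by
  by_contra! h
  let W : Submodule ℂ Ent :=
    { carrier := {u | ∃ a ∈ 𝒜 1, D.Θ a = D.f i * u ∧ p a = 0}
      zero_mem' := ⟨0, zero_mem _, by simp, map_zero _⟩
      add_mem' := by
        rintro x y ⟨a, h1, e, ha⟩ ⟨b, h2, e', hb⟩
        exact ⟨a + b, add_mem h1 h2, by rw [map_add, e, e', mul_add],
          by rw [map_add, ha, hb, add_zero]⟩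
      smul_mem' := by
        rintro c x ⟨a, h1, e, ha⟩
        exact ⟨c • a, smul_mem _ c h1, by rw [map_smul, e, mul_smul_comm],
          by rw [map_smul, ha, smul_zero]⟩ }
  obtain ⟨m, hm⟩ := D.null (W ⊓ span ℂ (range D.g)) inf_le_right fun z => by
    obtain ⟨j, k, hne⟩ := h z
    refine ⟨p (D.s i j) • D.g k - p (D.s i k) • D.g j,
      ⟨⟨p (D.s i j) • D.s i k - p (D.s i k) • D.s i j,
        sub_mem (smul_mem _ _ (D.s_mem _ _)) (smul_mem _ _ (D.s_mem _ _)), ?_, by simp [mul_comm]⟩,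
      sub_mem (smul_mem _ _ (subset_span ⟨k, rfl⟩)) (smul_mem _ _ (subset_span ⟨j, rfl⟩))⟩,
      by simpa [sub_eq_zero] using hne⟩
    rw [map_sub, map_smul, map_smul, D.Θ_s, D.Θ_s, mul_sub, mul_smul_comm, mul_smul_comm]
  have key : ∀ w ∈ (W ⊓ span ℂ (range D.g)) * span ℂ (range D.g) ^ m,
      ∃ a ∈ 𝒜 (m + 1), D.Θ a = D.f i ^ (m + 1) * w ∧ p a = 0 := fun w hw => by
    refine Submodule.mul_induction_on hw ?_ ?_
    · rintro u ⟨⟨a, h1, e, ha⟩, -⟩ v hv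
      obtain ⟨b, h2, e'⟩ := D.exists_pow i m hv
      exact ⟨b * a, SetLike.mul_mem_graded h2 h1, by rw [map_mul, e, e']; ring,
        by rw [map_mul, ha, mul_zero]⟩
    · rintro x y ⟨a, h1, e, ha⟩ ⟨b, h2, e', hb⟩
      exact ⟨a + b, add_mem h1 h2, by rw [map_add, e, e', mul_add],
        by rw [map_add, ha, hb, add_zero]⟩
  have h0 : ∀ j, p (D.s i j) = 0 := fun j => by
    obtain ⟨a, h1, e, ha⟩ := key _ (hm j)
    rw [← mul_pow, ← D.Θ_s, ← map_pow] at e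
    rw [D.inj _ _ h1 _ (by simpa using SetLike.pow_mem_graded (m + 1) (D.s_mem i j)) e,
      map_pow] at ha
    exact pow_eq_zero_iff (Nat.succ_ne_zero m) |>.1 ha
  obtain ⟨j, k, hne⟩ := h 0
  exact hne (by rw [h0, h0, zero_mul, zero_mul])

/-- The products of two rows, weighted by a product of invariant forms. -/
theorem exists_quad (i k : ι) {w : Ent} (hw : w ∈ span ℂ (range D.g) * span ℂ (range D.g)) :
    ∃ a ∈ 𝒜 2, D.Θ a = D.f i * D.f k * w ∧ ∀ (p : S →ₐ[ℂ] ℂ) (b : V) (α β : ℂ),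
      (∀ j, p (D.s i j) = α * (D.g j).1 b) → (∀ j, p (D.s k j) = β * (D.g j).1 b) →
        p a = α * β * w.1 b := by
  have lin : ∀ i, ∀ u ∈ span ℂ (range D.g), ∃ a ∈ 𝒜 1, D.Θ a = D.f i * u ∧
      ∀ (p : S →ₐ[ℂ] ℂ) (b : V) (α : ℂ), (∀ j, p (D.s i j) = α * (D.g j).1 b) →
        p a = α * u.1 b := fun i u hu => by
    induction hu using span_induction with
    | mem x hx =>
      obtain ⟨j, rfl⟩ := hx
      exact ⟨_, D.s_mem i j, D.Θ_s i j, fun p b α h => h j⟩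
    | zero => exact ⟨0, zero_mem _, by simp, fun p b α _ => by simp⟩
    | add x y _ _ hx hy =>
      obtain ⟨a, ha, e, h⟩ := hx
      obtain ⟨a', ha', e', h'⟩ := hy
      exact ⟨a + a', add_mem ha ha', by rw [map_add, e, e', mul_add], fun p b α hp => by
        rw [map_add, h p b α hp, h' p b α hp, Ent.add_apply, mul_add]⟩
    | smul c x _ hx =>
      obtain ⟨a, ha, e, h⟩ := hx
      exact ⟨c • a, smul_mem _ c ha, by rw [map_smul, e, mul_smul_comm], fun p b α hp => by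
        rw [map_smul, h p b α hp, Ent.csmul_apply, smul_eq_mul, mul_left_comm]⟩
  refine Submodule.mul_induction_on hw (fun u hu v hv => ?_) ?_
  · obtain ⟨a, ha, e, h⟩ := lin i u hu
    obtain ⟨a', ha', e', h'⟩ := lin k v hv
    exact ⟨a * a', SetLike.mul_mem_graded ha ha', by rw [map_mul, e, e']; ring,
      fun p b α β hα hβ => by rw [map_mul, h p b α hα, h' p b β hβ, Ent.mul_apply]; ring⟩
  · rintro x y ⟨a, ha, e, h⟩ ⟨a', ha', e', h'⟩
    exact ⟨a + a', add_mem ha ha', by rw [map_add, e, e', mul_add], fun p b α β hα hβ => by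
      rw [map_add, h p b α β hα hβ, h' p b α β hα hβ, Ent.add_apply, mul_add]⟩

theorem exists_ne (p : Pt 𝒜) : ∃ i j, p.1 (D.s i j) ≠ 0 := by
  obtain ⟨⟨i, j⟩, h⟩ := exists_fam_ne (fun ij : ι × κ => D.s_mem ij.1 ij.2) D.gen p
  exact ⟨i, j, h⟩

theorem cx_eq_of_smul {p p' : Pt 𝒜} {μ : ℂ} (h : ∀ i j, p.1 (D.s i j) = μ * p'.1 (D.s i j)) :
    cx p = cx p' := by
  obtain ⟨i, j, hij⟩ := D.exists_ne p
  have μ0 : μ ≠ 0 := fun e => hij (by rw [h, e, zero_mul])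
  have e : p = smulPt μ μ0 p' := Subtype.ext (AlgHom.ext_of_adjoin_eq_top D.gen (by
    rintro _ ⟨ij, rfl⟩
    rw [smulPt_apply _ _ _ (D.s_mem _ _), pow_one, h]))
  exact e ▸ mk_smulPt μ μ0 p'

theorem exists_over (x : Cx 𝒜) : ∃ b, D.Over x b := by
  obtain ⟨i₀, j₀, h0⟩ := D.exists_ne (rep x)
  obtain ⟨b, hb⟩ := D.exists_row (rep x).1 i₀
  refine ⟨b, fun i j k => mul_left_cancel₀ h0 ?_⟩
  linear_combination (D.g k).1 b * D.segre (rep x).1 i₀ i j₀ j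
    - (D.g j).1 b * D.segre (rep x).1 i₀ i j₀ k + (rep x).1 (D.s i j₀) * hb j k

theorem over_unique {x : Cx 𝒜} {a b : V} (ha : D.Over x a) (hb : D.Over x b) :
    ∃ γ, ∃ l ∈ L, a = gv γ b + l := by
  obtain ⟨i, j₀, h0⟩ := D.exists_ne (rep x)
  refine D.sep a b fun j k => mul_left_cancel₀ h0 ?_
  linear_combination (D.g k).1 b * ha i j₀ j - (D.g j).1 b * ha i j₀ k
    + (D.g j₀).1 a * hb i j k

variable [Finite ι] [Finite κ]

omit [GradedAlgebra 𝒜] in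
include D in
theorem gen1 : Gen1 𝒜 :=
  ⟨(finite_range fun ij : ι × κ => D.s ij.1 ij.2).toFinset, fun a ha => by
    obtain ⟨ij, rfl⟩ := (Finite.mem_toFinset _).1 ha
    exact D.s_mem _ _, by rw [Finite.coe_toFinset, D.gen]⟩

theorem over_cx {p : Pt 𝒜} {b : V} : D.Over (cx p) b ↔
    ∀ i j k, p.1 (D.s i j) * (D.g k).1 b = p.1 (D.s i k) * (D.g j).1 b := by
  obtain ⟨c, e⟩ := exists_scl D.gen1 (cx_rep (cx p)).symm
  refine forall₃_congr fun i j k => ?_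
  rw [e, scl_apply c p (D.s_mem _ _), scl_apply c p (D.s_mem _ _), mul_assoc, mul_assoc,
    mul_right_inj' (pow_ne_zero _ c.ne_zero)]

theorem isClosed_over : IsClosed {y : Cx 𝒜 × V | D.Over y.1 y.2} := by
  rw [← ((isOpenQuotientMap_cx D.gen1).prodMap IsOpenQuotientMap.id).isQuotientMap.isClosed_preimage]
  simp only [preimage_ofPred_eq, Prod.map_fst, Prod.map_snd, id, D.over_cx, ofPred_forall]
  exact isClosed_iInter fun i => isClosed_iInter fun j => isClosed_iInter fun k => isClosed_eq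
    (((continuous_pt _).comp continuous_fst).mul ((D.g k).cont.comp continuous_snd))
    (((continuous_pt _).comp continuous_fst).mul ((D.g j).cont.comp continuous_snd))

variable {D} {q : V → Cx 𝒜} (hq : D.IsQ q)
include hq

theorem IsQ.over {b : V} (hb : b ∈ Free L) : D.Over (q b) b := by
  obtain ⟨p, e, hp⟩ := hq b hb
  rw [e, D.over_cx]
  intro i j k
  simp only [hp, D.Θ_s, Ent.mul_apply]
  ring

omit [Finite ι] [Finite κ] in
/-- Over a free orbit there is only one point. -/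
theorem IsQ.eq_of_over {b : V} (hb : b ∈ Free L) {x : Cx 𝒜} (h : D.Over x b) : x = q b := by
  obtain ⟨p, e, hp⟩ := hq b hb
  obtain ⟨α, hα⟩ := D.row_of_over h
  obtain ⟨m, hm⟩ := (D.free b).1 hb
  obtain ⟨n, j₀, h0⟩ := D.exists_ne (rep x)
  have hn : α n ≠ 0 := fun e => h0 (by rw [hα, e, zero_mul])
  have key : ∀ i k i' k', α i * α k * ((D.f i').1 b * (D.f k').1 b) =
      α i' * α k' * ((D.f i).1 b * (D.f k).1 b) := fun i k i' k' => by
    obtain ⟨a, h1, ea, ha⟩ := D.exists_quad i k (D.quad i' k')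
    obtain ⟨a', h2, ea', ha'⟩ := D.exists_quad i' k' (D.quad i k)
    obtain rfl : a = a' := D.inj _ _ h1 _ h2 (by rw [ea, ea', mul_comm])
    exact (ha _ b _ _ (hα i) (hα k)).symm.trans (ha' _ b _ _ (hα i') (hα k'))
  have hαm : α m ≠ 0 := fun e => mul_ne_zero (mul_ne_zero hn hn) (mul_ne_zero hm hm)
    (by rw [key n n m m, e, zero_mul, zero_mul])
  rw [e, ← cx_rep x]
  refine D.cx_eq_of_smul (μ := α m / (D.f m).1 b) fun i j => ?_
  rw [hα, hp, D.Θ_s, Ent.mul_apply, ← mul_assoc, div_mul_eq_mul_div]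
  congr 1
  rw [eq_div_iff hm]
  refine mul_left_cancel₀ (mul_ne_zero hαm hm) ?_
  linear_combination key i m m m

omit [GradedAlgebra 𝒜] [Finite ι] [Finite κ] in
theorem IsQ.continuousOn : ContinuousOn q (Free L) := by
  choose p e hp using hq
  rw [continuousOn_iff_continuous_domRestrict]
  have : (Free L).domRestrict q = fun z => cx (p z.1 z.2) := funext fun z => e z.1 z.2
  rw [this]
  refine continuous_cx.comp (isInducing_pt.continuous_iff.2 (continuous_pi fun a => ?_))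
  simpa only [Function.comp_def, hp] using (D.Θ a).cont.comp continuous_subtype_val

omit [Finite ι] [Finite κ] in
theorem IsQ.inv {z : V} (hz : z ∈ Free L) (γ : G) {l : V} (hl : l ∈ L) :
    q (gv γ z + l) = q z := by
  obtain ⟨p, e, hp⟩ := hq z hz
  obtain ⟨p', e', hp'⟩ := hq _ (free_act D.act hz γ hl)
  obtain ⟨μ, hμ⟩ := D.autf γ l hl z
  obtain ⟨ν, hν⟩ := D.autg γ l hl z
  rw [e, e']
  refine D.cx_eq_of_smul (μ := μ * ν) fun i j => ?_
  simp only [hp, hp', D.Θ_s, Ent.mul_apply, hμ, hν]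
  ring

theorem IsQ.fib {a b : V} (ha : a ∈ Free L) (hb : b ∈ Free L) (e : q a = q b) :
    ∃ γ, ∃ l ∈ L, a = gv γ b + l := D.over_unique (hq.over ha) (e ▸ hq.over hb)

theorem IsQ.mem_image {x : Cx 𝒜} : x ∈ q '' Free L ↔ ∃ b ∈ Free L, D.Over x b :=
  ⟨fun ⟨b, hb, e⟩ => ⟨b, hb, e ▸ hq.over hb⟩,
    fun ⟨b, hb, h⟩ => ⟨b, hb, (hq.eq_of_over hb h).symm⟩⟩

/-- The map is open on the free points. -/
theorem IsQ.image_mem_nhds [DiscreteTopology L] {a : V} (ha : a ∈ Free L) {B : Set V}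
    (hB : B ∈ 𝓝 a) : q '' B ∈ 𝓝 (q a) := by
  obtain ⟨K, hK, hKL⟩ := D.cpt
  obtain ⟨B', hB', ho, haB⟩ := mem_nhds_iff.1 (inter_mem hB (isOpen_free.mem_nhds ha))
  let O : Set V := ⋃ γ : G, ⋃ l ∈ L, (fun z => gv γ z + l) ⁻¹' B'
  have hO : IsOpen O := isOpen_iUnion fun γ => isOpen_biUnion fun l _ =>
    ho.preimage ((continuous_gv γ).add continuous_const)
  have hC : CompactSpace (K \ O : Set V) := isCompact_iff_compactSpace.1 (hK.diff hO)
  have hcl : IsClosed (Prod.fst '' {y : Cx 𝒜 × (K \ O : Set V) | D.Over y.1 y.2.1}) :=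
    isClosedMap_fst_of_compactSpace _ (D.isClosed_over.preimage
      (f := fun y : Cx 𝒜 × (K \ O : Set V) => (y.1, y.2.1)) (by fun_prop))
  refine mem_of_superset (hcl.isOpen_compl.mem_nhds ?_) fun x hx => ?_
  · rintro ⟨⟨x, b, hb⟩, h, rfl : x = q a⟩
    obtain ⟨γ, l, hl, e⟩ := D.over_unique (hq.over ha) h
    exact hb.2 (mem_iUnion.2 ⟨γ, mem_iUnion₂.2 ⟨l, hl, by rwa [mem_preimage, ← e]⟩⟩)
  · obtain ⟨b, hb⟩ := D.exists_over x
    obtain ⟨l, hl, hbK⟩ := hKL b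
    have h1 : D.Over x (b + l) := by simpa using D.over_act hb 1 hl
    have h2 : b + l ∈ O := by_contra fun h => hx ⟨(x, ⟨_, hbK, h⟩), h1, rfl⟩
    obtain ⟨γ, h3⟩ := mem_iUnion.1 h2
    obtain ⟨m, hm, h4⟩ := mem_iUnion₂.1 h3
    exact ⟨_, (hB' h4).1, (hq.eq_of_over (hB' h4).2 (D.over_act h1 γ hm)).symm⟩

theorem IsQ.exists_tendsto (z n : V) (h : ∀ᶠ c : ℂ in 𝓝[≠] 0, z + c • n ∈ Free L) :
    ∃ x, Tendsto (fun c : ℂ => q (z + c • n)) (𝓝[≠] 0) (𝓝 x) := by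
  have := Fintype.ofFinite (ι × κ)
  refine exists_tendsto_Cx (fun ij : ι × κ => D.s_mem ij.1 ij.2) D.gen
    (θ := fun ij c => (D.Θ (D.s ij.1 ij.2)).1 (z + c • n))
    (fun ij => ((D.Θ _).an _).comp (by fun_prop)) (h.mono fun c hc => ?_)
  obtain ⟨p, e, hp⟩ := hq _ hc
  exact ⟨p, 1, e, fun ij => by rw [hp, one_mul]⟩

omit [Finite ι] [Finite κ] in
/-- The complement of the image lies in the zero set of the form `f i ^ 4` of degree two. -/
theorem IsQ.exists_form (i : ι) : ∃ a ∈ 𝒜 2, D.Θ a = D.f i ^ 4 ∧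
    ∀ x : Cx 𝒜, (rep x).1 a ≠ 0 → x ∈ q '' Free L := by
  obtain ⟨a, ha, e, h⟩ := D.exists_quad i i (D.quad i i)
  refine ⟨a, ha, by rw [e]; ring, fun x hx => ?_⟩
  obtain ⟨b, hb⟩ := D.exists_over x
  obtain ⟨α, hα⟩ := D.row_of_over hb
  rw [h _ b _ _ (hα i) (hα i), Ent.mul_apply] at hx
  have hf := (D.free b).2 ⟨i, left_ne_zero_of_mul (right_ne_zero_of_mul hx)⟩
  exact ⟨b, hf, (hq.eq_of_over hf hb).symm⟩

/-- Simple connectedness from the local structure of the image. -/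
theorem IsQ.simplyConnectedSpace [DiscreteTopology L]
    (hgen : L ≤ AddSubgroup.closure {l | l ∈ L ∧ ∃ k, gv (.sr k) l = -l})
    (hsc : IsSimplyConnected (Free L)) (hd : Dense (q '' Free L))
    (hb : ∀ x : Cx 𝒜, ∀ W ∈ 𝓝 x, ∃ O, IsOpen O ∧ x ∈ O ∧ O ⊆ W ∧ IsSimplyConnected O ∧
      IsPreconnected (O ∩ q '' Free L)) : SimplyConnectedSpace (Cx 𝒜) :=
  simplyConnected_of D.act hgen hsc hq.continuousOn (fun _ ha _ hB => hq.image_mem_nhds ha hB)
    (fun _ hz γ _ hl => hq.inv hz γ hl) (fun _ ha _ hb e => hq.fib ha hb e) hd hb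
    hq.exists_tendsto

end Seg

end

end Pool.Agent.Lib.MP_d3d358_ag.Var
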