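import Pool.Agent.Lib.MP_d3d358_ag.Var.CxC
import Pool.Agent.Lib.MP_d3d358_ag.Var.Open
import Pool.Agent.Lib.MP_d3d358_ag.AS.Hopf

/-! The sphere model of the complex points when `S` is generated by products of alternating and
invariant forms. -/

set_option autoImplicit false

namespace Pool.Agent.Lib.MP_d3d358_ag.Var

open Filter Topology Set
open Pool.Agent.Lib.MP_9ff3e7_ag.F Pool.Agent.Lib.MP_d3d358_ag.G

noncomputable section

variable {S : Type} [CommRing S] [Algebra ℂ S] {𝒜 : ℕ → Submodule ℂ S} {m : ℕ}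

/-- smoothness of a map to the cone is tested on generators -/
theorem contDiff_pt_of_gen {s : Set S} (hs : Algebra.adjoin ℂ s = ⊤) {E : Type*}
    [NormedAddCommGroup E] [NormedSpace ℝ E] {n : WithTop ℕ∞} {φ : E → Pt 𝒜}
    (h : ∀ a ∈ s, ContDiff ℝ n fun u => (φ u).1 a) (a : S) : ContDiff ℝ n fun u => (φ u).1 a := by
  have ha : a ∈ Algebra.adjoin ℂ s := hs ▸ Algebra.mem_top
  induction ha using Algebra.adjoin_induction with
  | mem a ha => exact h a ha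
  | algebraMap r => simpa using contDiff_const
  | add a b _ _ ha hb => simpa using ha.add hb
  | mul a b _ _ ha hb => simpa using ha.mul hb

variable [GradedAlgebra 𝒜] {s : Fin m → S}

/-- a nonzero limit of vectors of the cone is a vector of the cone -/
theorem exists_vec_of_tendsto (h1 : ∀ k, s k ∈ 𝒜 1) (hs : Algebra.adjoin ℂ (range s) = ⊤)
    {Z : Type*} {l : Filter Z} [l.NeBot] {w : Z → EuclideanSpace ℂ (Fin m)}
    {v : EuclideanSpace ℂ (Fin m)} (hv : v ≠ 0) (ht : Tendsto w l (𝓝 v))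
    (hw : ∀ᶠ z in l, ∃ (c : ℂ) (p : Pt 𝒜), w z = c • vec s p) : ∃ p : Pt 𝒜, vec s p = v := by
  have n0 : (‖v‖ : ℂ) ≠ 0 := Complex.ofReal_ne_zero.2 (norm_ne_zero_iff.2 hv)
  have h2 : Tendsto (fun z => ((‖w z‖ : ℂ)⁻¹) • w z) l (𝓝 (((‖v‖ : ℂ)⁻¹) • v)) :=
    (((Complex.continuous_ofReal.tendsto _).comp ht.norm).inv₀ n0).smul ht
  obtain ⟨-, p, hp⟩ := (isCompact_sph h1 hs).isClosed.mem_of_tendsto h2 (by
    filter_upwards [hw, ht.eventually_ne hv] with z ⟨c, p, e⟩ hz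
    have : ‖((‖w z‖ : ℂ)⁻¹) • w z‖ = 1 := by
      rw [norm_smul, norm_inv, Complex.norm_real, norm_norm,
        inv_mul_cancel₀ (norm_ne_zero_iff.2 hz)]
    generalize ((‖w z‖ : ℂ)⁻¹) = d at this ⊢
    rw [e, smul_smul] at this ⊢
    exact smul_vec_mem h1 this)
  exact ⟨scl (Units.mk0 _ n0) p, by
    rw [vec_scl h1, hp, Units.val_mk0, smul_smul, mul_inv_cancel₀ n0, one_smul]⟩

theorem cb_sph (h1 : ∀ k, s k ∈ 𝒜 1) (hs : Algebra.adjoin ℂ (range s) = ⊤) (h : Gen1 𝒜)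
    (x₀ : Cx 𝒜) : @AS.CB m (Cx 𝒜) (metricCx h) (Sph 𝒜 s) (prj s x₀) :=
  @AS.CB.mk m (Cx 𝒜) (metricCx h) _ _ (isCompact_sph h1 hs) (fun _ hv => hv.1)
    (fun _ hv _ hc => smul_mem_sph h1 hv hc) ((continuousOn_prj hs x₀).mono fun _ hv => hv.2)
    fun _ hv _ hw => prj_eq_iff h1 hs x₀ hv hw

namespace Seg

variable {L : AddSubgroup V} {ι κ : Type} (D : Seg 𝒜 L ι κ) (e : Fin m ≃ ι × κ)

/-- the generators, numbered by `e` -/
def se (k : Fin m) : S := D.s (e k).1 (e k).2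

/-- the vector `f z ⊗ g z` -/
def tv (z : V) : EuclideanSpace ℂ (Fin m) :=
  WithLp.toLp 2 fun k => (D.f (e k).1).1 z * (D.g (e k).2).1 z

omit [GradedAlgebra 𝒜] in
theorem se_mem (k : Fin m) : D.se e k ∈ 𝒜 1 := D.s_mem _ _

omit [GradedAlgebra 𝒜] in
theorem adjoin_se : Algebra.adjoin ℂ (range (D.se e)) = ⊤ := by
  rw [← D.gen]
  exact congrArg _ (e.surjective.range_comp fun ij : ι × κ => D.s ij.1 ij.2)

omit [GradedAlgebra 𝒜] in
theorem vec_eq_tv {p : Pt 𝒜} {z : V} (hp : ∀ a, p.1 a = (D.Θ a).1 z) :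
    vec (D.se e) p = D.tv e z := by
  ext k
  simp [se, tv, hp, D.Θ_s]

omit [GradedAlgebra 𝒜] in
theorem tv_ne_iff {z : V} : D.tv e z ≠ 0 ↔ z ∈ Free L := by
  rw [D.free]
  constructor
  · intro h
    by_contra! h'
    exact h (by ext k; simp [tv, h'])
  · rintro ⟨i, hi⟩ h
    obtain ⟨j, hj⟩ := D.bpf z
    have := congrArg (fun v : EuclideanSpace ℂ (Fin m) => v (e.symm (i, j))) h
    simp [tv, hi, hj] at this

omit [GradedAlgebra 𝒜] in
theorem exists_vec {z : V} (hz : z ∈ Free L) :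
    ∃ p : Pt 𝒜, (∀ a, p.1 a = (D.Θ a).1 z) ∧ vec (D.se e) p = D.tv e z := by
  obtain ⟨q, hq⟩ := D.exists_isQ ⟨z, hz⟩
  obtain ⟨p, -, hp⟩ := hq z hz
  exact ⟨p, hp, D.vec_eq_tv e hp⟩

theorem prj_tv {q : V → Cx 𝒜} (hq : D.IsQ q) (x₀ : Cx 𝒜) {z : V} (hz : z ∈ Free L) {c : ℂ}
    (hc : c ≠ 0) : prj (D.se e) x₀ (c • D.tv e z) = q z := by
  obtain ⟨p, h, hp⟩ := hq z hz
  rw [h, ← D.vec_eq_tv e hp, prj_smul_vec (D.se_mem e) (D.adjoin_se e) x₀ hc]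

/-- a nonzero limit of multiples of the vectors `f z ⊗ g z` is a vector of the cone -/
theorem exists_vec_of_tendsto {Z : Type*} {l : Filter Z} [l.NeBot] {c : Z → ℂ} {z : Z → V}
    {v : EuclideanSpace ℂ (Fin m)} (hv : v ≠ 0)
    (ht : Tendsto (fun u => c u • D.tv e (z u)) l (𝓝 v)) : ∃ p : Pt 𝒜, vec (D.se e) p = v := by
  refine Var.exists_vec_of_tendsto (D.se_mem e) (D.adjoin_se e) hv ht ?_
  filter_upwards [ht.eventually_ne hv] with u hu
  obtain ⟨p, -, hp⟩ := D.exists_vec e ((D.tv_ne_iff e).1 (right_ne_zero_of_smul hu))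
  exact ⟨c u, p, by rw [hp]⟩

theorem closure_tv [IsDomain S] [Finite ι] [Finite κ] (hne : (Free L).Nonempty) {T : Type*}
    {z : T → V} (hz : Function.Surjective z) :
    closure {v | ‖v‖ = 1 ∧ ∃ (c : ℂ) (t : T), v = c • D.tv e (z t)} = Sph 𝒜 (D.se e) := by
  obtain ⟨q, hq⟩ := D.exists_isQ hne
  obtain ⟨b, hb⟩ := hne
  obtain ⟨i, hi⟩ := (D.free b).1 hb
  obtain ⟨a, ha2, ha, h⟩ := hq.exists_form i
  have a0 : a ≠ 0 := fun e => pow_ne_zero 4 (Ent.ne_zero hi) (by rw [← ha, e, map_zero])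
  refine closure_eq_sph (D.se_mem e) (D.adjoin_se e) ?_
    (D := {p | cx p ∈ q '' Free L}) ?_ ?_
  · rintro _ ⟨hn, c, t, rfl⟩
    obtain ⟨p, -, hp⟩ := D.exists_vec e (z := z t) ((D.tv_ne_iff e).1 fun h => by simp [h] at hn)
    rw [← hp] at hn ⊢
    exact smul_vec_mem (D.se_mem e) hn
  · exact ((dense_ne D.gen1 ha2 a0).mono h).preimage (isOpenMap_cx D.gen1)
  · rintro p ⟨w, hw, e'⟩
    obtain ⟨t, rfl⟩ := hz w
    obtain ⟨p', h', hp'⟩ := hq _ hw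
    obtain ⟨c, rfl⟩ := exists_scl D.gen1 (h'.symm.trans e')
    refine ⟨nrm_vec (D.se_mem e) (D.adjoin_se e) _, ((‖vec (D.se e) (scl c p')‖ : ℂ)⁻¹) * c, t, ?_⟩
    rw [mul_smul, ← D.vec_eq_tv e hp', ← vec_scl (D.se_mem e)]

end Seg

end

end Pool.Agent.Lib.MP_d3d358_ag.Var
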