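import Pool.Agent.Lib.MP_d3d358_ag.Var.A2
import Pool.Agent.Lib.MP_d3d358_ag.Th.Jet

/-! Hadamard's lemma for the alternating theta functions along the mirror `a₀ = a₁`. -/

set_option autoImplicit false

namespace Pool.Agent.Lib.MP_d3d358_ag.Var

open Pool.Agent.Lib.MP_d3d358_ag.G (Sf crd tri crdE prm crd_gv tri_crd crd_tri_zero crd_tri_one
  mem_lat3 lat3)

noncomputable section

/-- Hadamard's lemma along a linear projection -/
theorem geoM_had {E F Y : Type} [NormedAddCommGroup E] [NormedSpace ℂ E] [NormedAddCommGroup F]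
    [NormedSpace ℂ F] [NormedAddCommGroup Y] [NormedSpace ℂ Y] [CompleteSpace Y] {f : E → Y}
    (hf : ContDiff ℂ 1 f) (p : E →L[ℂ] F) (ι : F →L[ℂ] E) (h0 : ∀ z, f (z - ι (p z)) = 0) :
    ∃ N : E → F →L[ℂ] Y, Continuous N ∧ (∀ z, f z = N z (p z)) ∧
      ∀ z, p z = 0 → N z = (fderiv ℂ f z).comp ι := by
  let _ : NormedSpace ℝ E := .restrictScalars ℝ ℂ E
  let _ : NormedSpace ℝ Y := .restrictScalars ℝ ℂ Y
  have cd : Continuous (fderiv ℂ f) := hf.continuous_fderiv one_ne_zero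
  have cc : Continuous fun q : E × ℝ =>
      (fderiv ℂ f (q.1 - ι (p q.1) + (q.2 : ℂ) • ι (p q.1))).comp ι := by fun_prop
  refine ⟨fun z => ∫ s in (0 : ℝ)..1, (fderiv ℂ f (z - ι (p z) + (s : ℂ) • ι (p z))).comp ι,
    intervalIntegral.continuous_parametric_intervalIntegral_of_continuous' cc 0 1,
    fun z => ?_, fun z hz => by simp [hz]⟩
  have c1 : Continuous fun s : ℝ => (fderiv ℂ f (z - ι (p z) + (s : ℂ) • ι (p z))).comp ι :=
    cc.comp (Continuous.prodMk_right z)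
  rw [ContinuousLinearMap.intervalIntegral_apply (c1.intervalIntegrable 0 1),
    intervalIntegral.integral_eq_sub_of_hasDerivAt
      (f := fun s : ℝ => f (z - ι (p z) + (s : ℂ) • ι (p z))) (fun s _ => ?_)
      ((c1.clm_apply continuous_const).intervalIntegrable 0 1)]
  · simp [h0]
  · have h1 : HasDerivAt (fun c : ℂ => z - ι (p z) + c • ι (p z)) (ι (p z)) s := by
      simpa using ((hasDerivAt_id (s : ℂ)).smul_const (ι (p z))).const_add (z - ι (p z))
    have h2 := (hf.differentiable one_ne_zero _).hasFDerivAt.comp_hasDerivAt (s : ℂ) h1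
    simpa [Function.comp_def] using h2.scomp s Complex.ofRealCLM.hasDerivAt

/-- the normal direction of the mirror -/
def geoN : (Fin 2 → ℂ) →L[ℂ] V := LinearMap.toContinuousLinearMap
  ((2 : ℂ)⁻¹ • crdE.symm.toLinearMap ∘ₗ LinearMap.id.prod (-LinearMap.id))

theorem geoN_apply (w : Fin 2 → ℂ) : geoN w = (2 : ℂ)⁻¹ • tri w (-w) := rfl

theorem crd_geoN_zero (w : Fin 2 → ℂ) : crd 0 (geoN w) = (2 : ℂ)⁻¹ • w := by
  rw [geoN_apply, map_smul, crd_tri_zero]

theorem crd_geoN_one (w : Fin 2 → ℂ) : crd 1 (geoN w) = -((2 : ℂ)⁻¹ • w) := by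
  rw [geoN_apply, map_smul, crd_tri_one, smul_neg]

theorem geoM_ext {z z' : V} (h0 : crd 0 z = crd 0 z') (h1 : crd 1 z = crd 1 z') : z = z' := by
  rw [← tri_crd z, h0, h1, tri_crd]

theorem geoM_fix {z : V} (h : crd 0 z = crd 1 z) : gv (.sr 2) z = z :=
  geoM_ext (by rw [crd_gv, h]; rfl) (by rw [crd_gv, ← h]; rfl)

theorem geoM_neg (w : Fin 2 → ℂ) : gv (.sr 2) (geoN w) = -geoN w :=
  geoM_ext (by rw [crd_gv, map_neg, crd_geoN_zero]; exact crd_geoN_one w)
    (by rw [crd_gv, map_neg, crd_geoN_one, neg_neg]; exact crd_geoN_zero w)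

theorem geoM_zero {F : Ent} (hF : F ∈ altE) {z : V} (h : crd 0 z = crd 1 z) : F.1 z = 0 := by
  have e := congrArg (fun E : Ent => E.1 z) (hF (.sr 2))
  simp only [Ent.smul_apply, DihedralGroup.inv_sr, geoM_fix h, sg_sr, Ent.csmul_apply] at e
  linear_combination (2 : ℂ)⁻¹ * e

variable {A : Sf}

theorem geoM_stab {b : V} (h : crd 0 b = crd 1 b) (h2 : crd 0 b - crd 2 b ∉ A.toLat.L) {g : G}
    (hg : gv g b - b ∈ Lam A) : g = 1 ∨ g = .sr 2 := by
  have e := mem_lat3.1 hg 2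
  rw [map_sub, crd_gv] at e
  have k : ∀ g : G, prm g 2 = 0 ∨ prm g 2 = 1 ∨ g = 1 ∨ g = .sr 2 := by decide
  rcases k g with k | k | k
  · exact (h2 (k ▸ e)).elim
  · exact (h2 (by rwa [k, ← h] at e)).elim
  · exact k

/-- theta functions of large degree with given one-jets -/
theorem geoM_jets (A : Sf) (S : Finset V) (hS : ∀ a ∈ S, ∀ b ∈ S, a - b ∈ Lam A → a = b)
    (v : V → ℂ) (D : V → V →L[ℂ] ℂ) :
    ∃ j, ∃ F ∈ R A (j + 1), ∀ a ∈ S, F.1 a = v a ∧ fderiv ℂ F.1 a = D a := by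
  obtain ⟨d, hd⟩ := Th.exists_jets (lat3 A.toLat) S hS
  obtain ⟨j, hj⟩ := exists_nat_ge d
  have k1 : (1 : ℝ) ≤ A.k := by exact_mod_cast A.k_pos
  obtain ⟨f, hf, e⟩ := hd (((j + 1 : ℕ) : ℝ) * A.k)
    (by push_cast; nlinarith [j.cast_nonneg (α := ℝ)]) (fun l l' => by
      obtain ⟨m, hm⟩ := A.cr.k_even l l.2 l' l'.2
      rw [mul_assoc ((j + 1 : ℕ) : ℝ), show (A.k : ℝ) * Th.alt (l : V) l' = 2 * m from hm]
      refine Complex.exp_eq_one_iff.2 ⟨(j + 1) * m, ?_⟩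
      push_cast
      ring) v D
  exact ⟨j, ⟨f, hf.1⟩, mem_R.2 hf, e⟩

theorem geoM_der (hA : Good A) {b : V} (h : crd 0 b = crd 1 b) {n : V}
    (hn : ∀ i, fderiv ℂ (fW hA i).1 b n = 0) {j : ℕ} {F : Ent} (hF : F ∈ R A (j + 1))
    (ha : F ∈ altE) : fderiv ℂ F.1 b n = 0 := by
  have hW : ∀ E ∈ W A, fderiv ℂ E.1 b n = 0 := fun E hE => by
    rw [← span_fW hA] at hE
    induction hE using Submodule.span_induction with
    | mem x hx => obtain ⟨i, rfl⟩ := hx; exact hn i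
    | zero =>
      change fderiv ℂ (0 : V → ℂ) b n = 0
      simp
    | add x y _ _ hx hy =>
      change fderiv ℂ (x.1 + y.1) b n = 0
      rw [fderiv_add (x.diff b) (y.diff b), add_apply, hx, hy, add_zero]
    | smul c x _ hx =>
      change fderiv ℂ (c • x.1) b n = 0
      rw [fderiv_const_smul (x.diff b), smul_apply, hx, smul_zero]
  refine Submodule.mul_induction_on (C := fun F : Ent => fderiv ℂ F.1 b n = 0) (hA.alt_mem hF ha)
    (fun x _ y hy => ?_) fun x y hx hy => ?_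
  · change fderiv ℂ (x.1 * y.1) b n = 0
    rw [fderiv_mul (x.diff b) (y.diff b)]
    simp [hW y hy, geoM_zero hy.2 h]
  · change fderiv ℂ (x.1 + y.1) b n = 0
    rw [fderiv_add (x.diff b) (y.diff b), add_apply, hx, hy, add_zero]

theorem geoM_inj (hA : Good A) {b : V} (h : crd 0 b = crd 1 b)
    (h2 : crd 0 b - crd 2 b ∉ A.toLat.L) {w : Fin 2 → ℂ}
    (hn : ∀ i, fderiv ℂ (fW hA i).1 b (geoN w) = 0) : w = 0 := by
  classical
  by_contra hw
  have n0 : geoN w ≠ 0 := fun e => hw (by simpa [e] using (crd_geoN_zero w).symm)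
  obtain ⟨D, hD⟩ := SeparatingDual.exists_eq_one (R := ℂ) n0
  have fix : ∀ g : G, gv g b - b ∈ Lam A → gv g b = b := fun g hg => by
    rcases geoM_stab h h2 hg with rfl | rfl
    exacts [gv_one b, geoM_fix h]
  obtain ⟨j, F, hF, e⟩ := geoM_jets A (Finset.univ.image fun g : G => gv g b) (by
    simp only [Finset.mem_image, Finset.mem_univ, true_and]
    rintro _ ⟨g, rfl⟩ _ ⟨k, rfl⟩ hl
    have := gv_mem_Lam A k⁻¹ hl
    rw [gv_sub, gv_inv_gv, ← gv_mul] at this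
    rw [← congrArg (gv k) (fix _ this), ← gv_mul, mul_inv_cancel_left])
    (fun _ => 0) fun a => if a = b then D else 0
  have key := geoM_der hA h hn (avg_mem_R sg hF) (smul_avg sg_mul sg_mul_self F)
  have d1 : ∀ g : G, HasFDerivAt (sg g • (g • F).1)
      (sg g • (fderiv ℂ F.1 (gv g⁻¹ b)).comp (gL g⁻¹)) b := fun g =>
    ((F.diff _).hasFDerivAt.comp b (gL g⁻¹).hasFDerivAt).const_smul (sg g)
  have d2 : HasFDerivAt (avg sg F).1 ((6 : ℂ)⁻¹ •
      ∑ g : G, sg g • (fderiv ℂ F.1 (gv g⁻¹ b)).comp (gL g⁻¹)) b := by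
    have := (HasFDerivAt.sum fun g (_ : g ∈ Finset.univ) => d1 g).const_smul (6 : ℂ)⁻¹
    refine this.congr_of_eventuallyEq (Filter.Eventually.of_forall fun z => ?_)
    simp [avg_apply, Finset.sum_apply]
  have d3 : ∀ g : G, (sg g • (fderiv ℂ F.1 (gv g⁻¹ b)).comp (gL g⁻¹)) (geoN w) =
      ((if gv g⁻¹ b = b then 1 else 0 : ℕ) : ℂ) := fun g => by
    rw [(e _ (Finset.mem_image_of_mem _ (Finset.mem_univ g⁻¹))).2]
    split_ifs with c
    · rcases geoM_stab h h2 (g := g⁻¹) (by rw [c, sub_self]; exact zero_mem _) with k | k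
      · obtain rfl : g = 1 := inv_eq_one.1 k
        simp [hD]
      · obtain rfl : g = .sr 2 := by rw [← inv_inv g, k]; rfl
        simp [geoM_neg, hD]
    · simp
  rw [d2.fderiv, smul_apply, sum_apply] at key
  simp only [d3, ← Nat.cast_sum, smul_eq_zero, inv_eq_zero, Nat.cast_eq_zero,
    Finset.sum_eq_zero_iff, OfNat.ofNat_ne_zero, false_or] at key
  simpa using key 1 (Finset.mem_univ _)

theorem exists_hadamard (hA : Good A) :
    ∃ N : V → (Fin 2 → ℂ) →L[ℂ] (Fin (nW A) → ℂ), Continuous N ∧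
      (∀ z, (fun i => (fW hA i).1 z) = N z (crd 0 z - crd 1 z)) ∧
      (∀ z, crd 0 z = crd 1 z → crd 0 z - crd 2 z ∉ A.toLat.L → Function.Injective (N z)) ∧
      ∀ z, crd 0 z = crd 1 z → ∀ w i, N z w i = fderiv ℂ (fW hA i).1 z (geoN w) := by
  have hf : ContDiff ℂ 1 fun z i => (fW hA i).1 z :=
    contDiff_pi.2 fun i => contDiff_iff_contDiffAt.2 fun z => ((fW hA i).an z).contDiffAt
  obtain ⟨N, c, e, e'⟩ := geoM_had hf (LinearMap.toContinuousLinearMap (crd 0 - crd 1)) geoN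
    fun z => funext fun i => geoM_zero (fW_mem hA i).2 (by
      change crd 0 (z - geoN (crd 0 z - crd 1 z)) = crd 1 (z - geoN (crd 0 z - crd 1 z))
      rw [map_sub, map_sub (crd 1), crd_geoN_zero, crd_geoN_one]
      module)
  have e2 : ∀ z, crd 0 z = crd 1 z → ∀ w i, N z w i = fderiv ℂ (fW hA i).1 z (geoN w) :=
    fun z hz w i => by
      rw [e' z (sub_eq_zero.2 hz), fderiv_pi fun i => (fW hA i).diff z]
      rfl
  exact ⟨N, c, e, fun z hz h2 => (injective_iff_map_eq_zero _).2 fun w hw =>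
    geoM_inj hA hz h2 fun i => by rw [← e2 z hz, hw]; rfl, e2⟩

end

end Pool.Agent.Lib.MP_d3d358_ag.Var
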