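import Pool.Agent.Lib.MP_d3d358_ag.G.Stmt
import Pool.Agent.Lib.MP_9ff3e7_ag.F.XCan

/-! Two forms on a function field of dimension four as alternating matrices. -/

set_option autoImplicit false

namespace Pool.Agent.Lib.MP_d3d358_ag.Var.Dict

open Pool.Agent.Lib.MP_d3d358_ag.G ExteriorAlgebra

noncomputable section

section matrices

variable {K : Type} [CommRing K]

/-- the wedge product of two covectors -/
def wv (a b : Fin 4 → K) : Fin 4 → Fin 4 → K := fun i j => a i * b j - a j * b i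

/-- the Pfaffian -/
def pf (m : Fin 4 → Fin 4 → K) : K := m 0 1 * m 2 3 - m 0 2 * m 1 3 + m 0 3 * m 1 2

theorem pf_sum (A : Fin 4 → Fin 4 → K) (J : Fin 4 → Fin 4 → K) :
    pf (∑ k, ∑ l, A k l • wv (J k) (J l)) =
      pf (fun k l => A k l - A l k) * (Matrix.of fun i k => J k i).det := by
  simp only [pf, wv, Pi.add_apply, Pi.smul_apply, smul_eq_mul,
    Matrix.det_succ_row_zero, Fin.sum_univ_succ, Matrix.of_apply, Matrix.submatrix_apply]
  simp [Fin.succAbove]
  ring

variable [Algebra ℂ K]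

/-- the matrix of `df ∧ dg` in the frame `del` -/
def wd (del : Fin 4 → Derivation ℂ K K) (f g : K) : Fin 4 → Fin 4 → K :=
  fun i j => del i f * del j g - del j f * del i g

/-- the matrices of the two forms that are regular for `O` -/
def stM (del : Fin 4 → Derivation ℂ K K) (O : Subalgebra ℂ K) : AddSubgroup (Fin 4 → Fin 4 → K) :=
  AddSubgroup.closure {m | ∃ r ∈ O, ∃ f ∈ O, ∃ g ∈ O, m = r • wd del f g}

/-- `c` is a system of coordinates of `O` whose Jacobian determinant lies in `O` -/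
def Coord (del : Fin 4 → Derivation ℂ K K) (O : Subalgebra ℂ K) (c : Fin 4 → K) : Prop :=
  (∀ k, c k ∈ O) ∧
    (∀ f ∈ O, ∃ a : Fin 4 → K, (∀ k, a k ∈ O) ∧ ∀ i, del i f = ∑ k, a k * del i (c k)) ∧
    (Matrix.of fun i k => del i (c k)).det ∈ O

end matrices

section ext

variable {L Mo : Type} [Field L] [AddCommGroup Mo] [Module L Mo]

/-- the two form with coefficients `A` in the frame `e` -/
def tf (e : Fin 4 → Mo) (A : Fin 4 → Fin 4 → L) : ExteriorAlgebra L Mo :=
  ∑ k, ∑ l, A k l • (ι L (e k) * ι L (e l))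

theorem ι_swap (x y : Mo) : ι L x * ι L y = -(ι L y * ι L x) :=
  eq_neg_of_add_eq_zero_left (ι_add_mul_swap x y)

theorem ι_swap' (x y : Mo) (w : ExteriorAlgebra L Mo) :
    ι L x * (ι L y * w) = -(ι L y * (ι L x * w)) := by
  rw [← mul_assoc, ι_swap, neg_mul, mul_assoc]

theorem ι_sq' (x : Mo) (w : ExteriorAlgebra L Mo) : ι L x * (ι L x * w) = 0 := by
  rw [← mul_assoc, ι_sq_zero, zero_mul]

theorem ιMulti_two (x y : Mo) : ιMulti L 2 ![x, y] = ι L x * ι L y := by
  simp [ιMulti_apply]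

theorem tf_eq (e : Fin 4 → Mo) (A : Fin 4 → Fin 4 → L) :
    tf e A = (A 0 1 - A 1 0) • (ι L (e 0) * ι L (e 1)) + (A 0 2 - A 2 0) • (ι L (e 0) * ι L (e 2))
      + (A 0 3 - A 3 0) • (ι L (e 0) * ι L (e 3)) + (A 1 2 - A 2 1) • (ι L (e 1) * ι L (e 2))
      + (A 1 3 - A 3 1) • (ι L (e 1) * ι L (e 3)) + (A 2 3 - A 3 2) • (ι L (e 2) * ι L (e 3)) := by
  simp only [tf, Fin.sum_univ_four, ι_sq_zero, ι_swap (e 1) (e 0), ι_swap (e 2) (e 0),
    ι_swap (e 3) (e 0), ι_swap (e 2) (e 1), ι_swap (e 3) (e 1), ι_swap (e 3) (e 2)]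
  module

theorem tf_sq (e : Fin 4 → Mo) (A : Fin 4 → Fin 4 → L) :
    tf e A * tf e A = (2 * pf fun k l => A k l - A l k) • ιMulti L 4 e := by
  have h : ιMulti L 4 e = ι L (e 0) * (ι L (e 1) * (ι L (e 2) * ι L (e 3))) := by
    simp only [ιMulti_apply, List.ofFn_succ, List.ofFn_zero, List.prod_cons, List.prod_nil, mul_one]
    rfl
  rw [tf_eq, h, pf]
  simp only [add_mul, mul_add, smul_mul_assoc, mul_smul_comm, mul_assoc, ι_sq_zero, ι_sq',
    ι_swap (e 2) (e 1),
    ι_swap (e 3) (e 1), ι_swap (e 3) (e 2), ι_swap' (e 1) (e 0), ι_swap' (e 2) (e 0),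
    ι_swap' (e 3) (e 0), ι_swap' (e 2) (e 1), ι_swap' (e 3) (e 1), ι_swap' (e 3) (e 2),
    mul_neg, mul_zero, neg_zero, neg_neg, smul_zero]
  module

theorem tf_sub (e : Fin 4 → Mo) (A B : Fin 4 → Fin 4 → L) : tf e (A - B) = tf e A - tf e B := by
  simp only [tf, Pi.sub_apply, sub_smul, Finset.sum_sub_distrib]

theorem tf_smul (e : Fin 4 → Mo) (c : L) (A : Fin 4 → Fin 4 → L) :
    tf e (c • A) = c • tf e A := by
  simp only [tf, Pi.smul_apply, smul_eq_mul, mul_smul, Finset.smul_sum]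

theorem ιMulti_comb (e : Fin 4 → Mo) (a : Fin 4 → Fin 4 → L) :
    ιMulti L 4 (fun i => ∑ k, a i k • e k) = (Matrix.of a).det • ιMulti L 4 e := by
  have h := MP_9ff3e7_ag.F.Can.alt_det (Pi.basisFun L (Fin 4))
    ((ιMulti L 4).compLinearMap (Fintype.linearCombination L e)) a
  simp only [AlternatingMap.compLinearMap_apply, Fintype.linearCombination_apply, Pi.basisFun_apply,
    Pi.basisFun_det_apply] at h
  rw [h]
  congr 2
  funext i
  simp [Pi.single_apply]

variable [Algebra ℂ L] {D : L → Mo} {R R' : Subalgebra ℂ L} {e : Fin 4 → Mo}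

theorem exists_tf (hR : R ≤ R')
    (h : ∀ f ∈ R, ∃ a : Fin 4 → L, (∀ k, a k ∈ R') ∧ D f = ∑ k, a k • e k)
    {τ : ExteriorAlgebra L Mo} (hτ : τ ∈ st D 2 R) :
    ∃ A : Fin 4 → Fin 4 → L, (∀ k l, A k l ∈ R') ∧ τ = tf e A := by
  induction hτ using AddSubgroup.closure_induction with
  | mem x hx =>
    obtain ⟨r, hr, f, hf, rfl⟩ := hx
    obtain ⟨a, ha, ea⟩ := h _ (hf 0)
    obtain ⟨b, hb, eb⟩ := h _ (hf 1)
    refine ⟨fun k l => r * (a k * b l), fun k l => R'.mul_mem (hR hr) (R'.mul_mem (ha k) (hb l)),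
      ?_⟩
    have : (fun i => D (f i)) = ![D (f 0), D (f 1)] := by funext i; fin_cases i <;> rfl
    rw [this, ιMulti_two, ea, eb, map_sum, map_sum, Finset.sum_mul_sum, tf, Finset.smul_sum]
    refine Finset.sum_congr rfl fun k _ => ?_
    rw [Finset.smul_sum]
    refine Finset.sum_congr rfl fun l _ => ?_
    rw [map_smul, map_smul, smul_mul_smul_comm, smul_smul]
  | zero => exact ⟨0, fun _ _ => R'.zero_mem, by simp [tf]⟩
  | add x y _ _ hx hy =>
    obtain ⟨A, hA, rfl⟩ := hx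
    obtain ⟨B, hB, rfl⟩ := hy
    exact ⟨A + B, fun k l => R'.add_mem (hA k l) (hB k l), by
      simp only [tf, Pi.add_apply, add_smul, Finset.sum_add_distrib]⟩
  | neg x _ hx =>
    obtain ⟨A, hA, rfl⟩ := hx
    exact ⟨-A, fun k l => R'.neg_mem (hA k l), by
      simp only [tf, Pi.neg_apply, neg_smul, Finset.sum_neg_distrib]⟩

theorem exists_top
    (h : ∀ f ∈ R, ∃ a : Fin 4 → L, (∀ k, a k ∈ R) ∧ D f = ∑ k, a k • e k)
    {ω : ExteriorAlgebra L Mo} (hω : ω ∈ st D 4 R) : ∃ r ∈ R, ω = r • ιMulti L 4 e := by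
  induction hω using AddSubgroup.closure_induction with
  | mem x hx =>
    obtain ⟨r, hr, f, hf, rfl⟩ := hx
    choose a ha ea using fun i => h _ (hf i)
    refine ⟨r * (Matrix.of a).det, R.mul_mem hr ?_, ?_⟩
    · rw [Matrix.det_apply']
      exact R.sum_mem fun σ _ => R.mul_mem (intCast_mem R _) (R.prod_mem fun j _ => ha _ _)
    · rw [funext ea, ιMulti_comb, smul_smul]
  | zero => exact ⟨0, R.zero_mem, by simp⟩
  | add x y _ _ hx hy =>
    obtain ⟨a, ha, rfl⟩ := hx
    obtain ⟨b, hb, rfl⟩ := hy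
    exact ⟨a + b, R.add_mem ha hb, (add_smul ..).symm⟩
  | neg x _ hx =>
    obtain ⟨a, ha, rfl⟩ := hx
    exact ⟨-a, R.neg_mem ha, (neg_smul ..).symm⟩

end ext

section co

variable {L K Mo : Type} [Field L] [Field K] [Algebra L K] [AddCommGroup Mo] [Module L Mo]
  (co : Mo →ₗ[L] Fin 4 → K)

/-- the matrix of a decomposable two form -/
def alt2 : Mo [⋀^Fin 2]→ₗ[L] (Fin 4 → Fin 4 → K) where
  toFun v := wv (co (v 0)) (co (v 1))
  map_update_add' v i x y := by
    fin_cases i <;> funext a b <;> simp [wv] <;> ring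
  map_update_smul' v i c x := by
    fin_cases i <;> funext a b <;> simp [wv, smul_sub]
  map_eq_zero_of_eq' v i j h hij := by
    funext a b
    have e : v 0 = v 1 := by fin_cases i <;> fin_cases j <;> simp_all
    simp [wv, e, mul_comm]

/-- the matrix of a two form -/
def co2 : ExteriorAlgebra L Mo →ₗ[L] (Fin 4 → Fin 4 → K) :=
  liftAlternating (Pi.single (M := fun i => Mo [⋀^Fin i]→ₗ[L] (Fin 4 → Fin 4 → K)) 2 (alt2 co))

theorem co2_multi (v : Fin 2 → Mo) : co2 co (ιMulti L 2 v) = wv (co (v 0)) (co (v 1)) := by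
  rw [co2, liftAlternating_apply_ιMulti, Pi.single_eq_same]; rfl

theorem co2_tf (e : Fin 4 → Mo) (A : Fin 4 → Fin 4 → L) :
    co2 co (tf e A) = ∑ k, ∑ l, algebraMap L K (A k l) • wv (co (e k)) (co (e l)) := by
  simp only [tf, map_sum, map_smul, ← ιMulti_two, co2_multi, algebraMap_smul]
  rfl

variable {co} {e : Fin 4 → Mo}

theorem tf_eq_zero (hd : (Matrix.of fun i k => co (e k) i).det ≠ 0) {A : Fin 4 → Fin 4 → L}
    (h : co2 co (tf e A) = 0) : tf e A = 0 := by
  set J : Matrix (Fin 4) (Fin 4) K := Matrix.of fun i k => co (e k) i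
  let B : Matrix (Fin 4) (Fin 4) K := Matrix.of fun k l => algebraMap L K (A k l - A l k)
  have h1 : J * B * J.transpose = 0 := by
    ext i j
    have := congrFun (congrFun (h.symm.trans (co2_tf co e A)) i) j
    simp only [Fin.sum_univ_four, Pi.add_apply, Pi.smul_apply, smul_eq_mul, wv,
      Pi.zero_apply] at this
    simp only [Matrix.mul_apply, Fin.sum_univ_four, J, B, Matrix.of_apply, Matrix.transpose_apply,
      map_sub, Matrix.zero_apply]
    linear_combination -this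
  have hJ : IsUnit J := (Matrix.isUnit_iff_isUnit_det J).2 hd.isUnit
  have hJ' : IsUnit J.transpose := (Matrix.isUnit_transpose J).2 hJ
  have h2 : B = 0 := hJ.mul_right_eq_zero.1 (hJ'.mul_left_eq_zero.1 h1)
  have h3 (k l : Fin 4) : A k l - A l k = 0 :=
    (map_eq_zero (algebraMap L K)).1 (congrFun (congrFun h2 k) l)
  simp only [tf_eq, h3, zero_smul, add_zero]

theorem comb_eq_zero (hd : (Matrix.of fun i k => co (e k) i).det ≠ 0) {a : Fin 4 → L}
    (h : co (∑ k, a k • e k) = 0) (k : Fin 4) : a k = 0 := by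
  have h1 : (Matrix.of fun i k => co (e k) i).mulVec (fun k => algebraMap L K (a k)) = 0 := by
    funext i
    have := congrFun h i
    simp only [map_sum, map_smul, Finset.sum_apply, Algebra.smul_def] at this
    simpa [Matrix.mulVec, dotProduct, mul_comm] using this
  exact (map_eq_zero (algebraMap L K)).1 (congrFun (Matrix.eq_zero_of_mulVec_eq_zero hd h1) k)

theorem exists_comb (hM : Module.finrank L Mo = 4)
    (hd : (Matrix.of fun i k => co (e k) i).det ≠ 0) (m : Mo) :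
    ∃ a : Fin 4 → L, m = ∑ k, a k • e k := by
  have hli : LinearIndependent L e :=
    Fintype.linearIndependent_iff.2 fun a h => comb_eq_zero hd (by rw [h, map_zero])
  have := hli.span_eq_top_of_card_eq_finrank (by simp [hM])
  obtain ⟨a, ha⟩ := (Submodule.mem_span_range_iff_exists_fun L).1
    (this ▸ Submodule.mem_top : m ∈ Submodule.span L (Set.range e))
  exact ⟨a, ha.symm⟩

theorem co_inj (hM : Module.finrank L Mo = 4)
    (hd : (Matrix.of fun i k => co (e k) i).det ≠ 0) : Function.Injective co := by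
  refine (injective_iff_map_eq_zero co).2 fun m hm => ?_
  obtain ⟨a, rfl⟩ := exists_comb hM hd m
  simp [comb_eq_zero hd hm]

end co

end

end Pool.Agent.Lib.MP_d3d358_ag.Var.Dict
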