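import Mathlib

/-! A holomorphic function on the complement of countably many affine subspaces of complex
codimension at least two is locally bounded, and constant when it is cocompactly periodic. -/

set_option autoImplicit false

namespace Pool.Agent.Lib.MP_d3d358_ag.Var

open Set Filter Topology Module Metric

variable {E : Type*} [NormedAddCommGroup E] [NormedSpace ℂ E] [FiniteDimensional ℂ E]
  {ι : Type*} [Countable ι]

theorem dense_avC (p : ι → E) (W : ι → Submodule ℂ E) (hW : ∀ i, W i ≠ ⊤) :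
    Dense {z : E | ∀ i, z - p i ∉ W i} := by
  have : CompleteSpace E := FiniteDimensional.complete ℂ E
  have h1 (i : ι) : Dense {z : E | z - p i ∉ W i} := by
    have h1 : Dense ((W i : Set E)ᶜ) := by
      rw [← interior_eq_empty_iff_dense_compl]
      by_contra h
      exact hW i ((W i).eq_top_of_nonempty_interior' (nonempty_iff_ne_empty.2 h))
    exact h1.preimage (Homeomorph.subRight (p i)).isOpenMap
  have h2 (i : ι) : IsOpen {z : E | z - p i ∉ W i} :=
    ((W i).closed_of_finiteDimensional.isOpen_compl).preimage (continuous_id.sub continuous_const)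
  exact (dense_iInter_of_isOpen h2 h1).mono fun z hz i => mem_iInter.1 hz i

omit [Countable ι] in
theorem sup_span_ne_top {W : Submodule ℂ E} (hW : finrank ℂ W + 2 ≤ finrank ℂ E) (v : E) :
    W ⊔ Submodule.span ℂ {v} ≠ ⊤ := by
  have h1 := Submodule.finrank_add_le_finrank_add_finrank W (Submodule.span ℂ {v})
  have h2 : finrank ℂ (Submodule.span ℂ {v} : Submodule ℂ E) ≤ 1 := by
    simpa using finrank_span_le_card (R := ℂ) ({v} : Set E)
  intro e
  rw [e, finrank_top] at h1
  omega

omit [FiniteDimensional ℂ E] in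
theorem line_avoid {p z n : E} {W : Submodule ℂ E} (hz : z - p ∉ W ⊔ Submodule.span ℂ {n})
    (t : ℂ) : z + t • n - p ∉ W := fun h => hz (by
  have e : z - p = (z + t • n - p) - t • n := by abel
  rw [e]
  exact Submodule.sub_mem _ (Submodule.mem_sup_left h)
    (Submodule.mem_sup_right (Submodule.smul_mem _ _ (Submodule.mem_span_singleton_self _))))

variable {p : ι → E} {W : ι → Submodule ℂ E} {S : Set E} {h : E → ℂ}

/-- local boundedness across subspaces of codimension two -/
theorem locally_bounded (hW : ∀ i, finrank ℂ (W i) + 2 ≤ finrank ℂ E) (ho : IsOpen S)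
    (hS : ∀ z, (∀ i, z - p i ∉ W i) → z ∈ S) (hh : DifferentiableOn ℂ h S) (z₀ : E) :
    ∃ C : ℝ, ∀ᶠ z in 𝓝 z₀, z ∈ S → ‖h z‖ ≤ C := by
  have : ProperSpace E := FiniteDimensional.proper ℂ E
  have hW' (i : ι) : W i ≠ ⊤ := fun e => sup_span_ne_top (hW i) 0 (by rw [e]; simp)
  obtain ⟨n, hn⟩ := (dense_avC (fun _ => 0) W hW').nonempty
  simp only [mem_ofPred_eq, sub_zero] at hn
  have hT : {t : ℂ | ∃ i, z₀ + t • n - p i ∈ W i}.Countable := by
    rw [ofPred_exists]
    refine countable_iUnion fun i => Subsingleton.countable fun s hs t ht => ?_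
    by_contra e
    refine hn i (((W i).smul_mem_iff (sub_ne_zero.2 e)).1 ?_)
    have := (W i).sub_mem hs ht
    rwa [show z₀ + s • n - p i - (z₀ + t • n - p i) = (s - t) • n by module] at this
  obtain ⟨r, hr, hrT⟩ := ((hT.image norm).dense_compl ℝ).inter_open_nonempty _ isOpen_Ioi
    (nonempty_Ioi (a := (0 : ℝ)))
  have hC : IsCompact ((fun t : ℂ => z₀ + t • n) '' sphere 0 r) :=
    (isCompact_sphere 0 r).image (by fun_prop)
  have hCS : (fun t : ℂ => z₀ + t • n) '' sphere 0 r ⊆ S := by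
    rintro _ ⟨t, ht, rfl⟩
    exact hS _ fun i hi => hrT ⟨t, ⟨i, hi⟩, by simpa using ht⟩
  obtain ⟨δ, hδ, hδS⟩ := hC.exists_cthickening_subset_open ho hCS
  obtain ⟨C, hCb⟩ := (hC.cthickening (r := δ)).exists_bound_of_continuousOn
    (hh.continuousOn.mono hδS)
  have hD := dense_avC p (fun i => W i ⊔ Submodule.span ℂ {n}) fun i => sup_span_ne_top (hW i) n
  have key (z : E) (hz : z ∈ ball z₀ δ) (hzD : ∀ i, z - p i ∉ W i ⊔ Submodule.span ℂ {n}) :
      ‖h z‖ ≤ C := by
    have hd : Differentiable ℂ fun t : ℂ => h (z + t • n) := fun t =>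
      (hh.differentiableAt (ho.mem_nhds (hS _ fun i => line_avoid (hzD i) t))).comp t (by fun_prop)
    have := Complex.norm_le_of_forall_mem_frontier_norm_le (isBounded_ball (x := (0 : ℂ)) (r := r))
      hd.diffContOnCl (C := C) (fun t ht => hCb _ ?_) (subset_closure (mem_ball_self hr))
    · simpa using this
    · rw [frontier_ball _ (ne_of_gt hr)] at ht
      refine mem_cthickening_of_dist_le _ (z₀ + t • n) _ _ ⟨t, ht, rfl⟩ ?_
      rw [dist_add_right]
      exact le_of_lt hz
  refine ⟨C, ?_⟩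
  filter_upwards [ball_mem_nhds z₀ hδ] with z hz hzS
  have hc : ContinuousAt h z := (hh.differentiableAt (ho.mem_nhds hzS)).continuousAt
  by_contra hlt
  obtain ⟨w, hw, hwD⟩ := mem_closure_iff_nhds.1 (hD z) _
    (inter_mem (hc.norm.eventually (lt_mem_nhds (not_le.1 hlt))) (isOpen_ball.mem_nhds hz))
  exact absurd (key w hw.2 hwD) (not_le.2 hw.1)

/-- a bounded holomorphic function on the complement is constant -/
theorem const_of_bounded (hW : ∀ i, finrank ℂ (W i) + 2 ≤ finrank ℂ E) (ho : IsOpen S)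
    (hS : ∀ z, (∀ i, z - p i ∉ W i) → z ∈ S) (hh : DifferentiableOn ℂ h S) {C : ℝ}
    (hC : ∀ z ∈ S, ‖h z‖ ≤ C) : ∃ c, ∀ z ∈ S, h z = c := by
  have line (a m : E) (ha : ∀ i, a - p i ∉ W i)
      (hm : ∀ i, m - p i ∉ W i ⊔ Submodule.span ℂ {a - p i}) : h a = h m := by
    have hL (t : ℂ) : a + t • (m - a) ∈ S := hS _ fun i hi => by
      by_cases ht : t = 0
      · exact ha i (by simpa [ht] using hi)
      · refine hm i ((Submodule.smul_mem_iff _ ht).1 ?_)
        rw [show t • (m - p i) = (a + t • (m - a) - p i) + (t - 1) • (a - p i) by module]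
        exact Submodule.add_mem _ (Submodule.mem_sup_left hi) (Submodule.mem_sup_right
          (Submodule.smul_mem _ _ (Submodule.mem_span_singleton_self _)))
    have hd : Differentiable ℂ fun t : ℂ => h (a + t • (m - a)) := fun t =>
      (hh.differentiableAt (ho.mem_nhds (hL t))).comp t (by fun_prop)
    have := hd.apply_eq_apply_of_bounded (isBounded_iff_forall_norm_le.2
      ⟨C, by rintro _ ⟨t, rfl⟩; exact hC _ (hL t)⟩) 0 1
    simpa using this
  have hW' (i : ι) : W i ≠ ⊤ := fun e => sup_span_ne_top (hW i) 0 (by rw [e]; simp)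
  have hD := dense_avC p W hW'
  obtain ⟨a, ha⟩ := hD.nonempty
  have hb (b : E) (hb : ∀ i, b - p i ∉ W i) : h b = h a := by
    obtain ⟨m, hm⟩ := (dense_avC (Sum.elim p p)
      (Sum.elim (fun i => W i ⊔ Submodule.span ℂ {a - p i})
        fun i => W i ⊔ Submodule.span ℂ {b - p i})
      (by rintro (i | i) <;> exact sup_span_ne_top (hW i) _)).nonempty
    exact (line b m hb fun i => hm (Sum.inr i)).trans (line a m ha fun i => hm (Sum.inl i)).symm
  refine ⟨h a, fun z hz => ?_⟩
  have hc : ContinuousAt h z := (hh.differentiableAt (ho.mem_nhds hz)).continuousAt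
  by_contra hne
  obtain ⟨w, hw, hwD⟩ := mem_closure_iff_nhds.1 (hD z) _ (hc.eventually_ne hne)
  exact hw (hb w hwD)

/-- a holomorphic function on the complement all of whose values are taken on a compact set of
the ambient space is constant -/
theorem const_of_cocompact (hW : ∀ i, finrank ℂ (W i) + 2 ≤ finrank ℂ E) (ho : IsOpen S)
    (hS : ∀ z, (∀ i, z - p i ∉ W i) → z ∈ S) (hh : DifferentiableOn ℂ h S) {K : Set E}
    (hK : IsCompact K) (hper : ∀ z ∈ S, ∃ w ∈ K, w ∈ S ∧ h w = h z) : ∃ c, ∀ z ∈ S, h z = c := by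
  have : ∃ C : ℝ, ∀ z ∈ K, z ∈ S → ‖h z‖ ≤ C := by
    refine hK.induction_on (p := fun T => ∃ C : ℝ, ∀ z ∈ T, z ∈ S → ‖h z‖ ≤ C) ⟨0, by simp⟩
      (fun s t hst ⟨C, hC⟩ => ⟨C, fun z hz => hC z (hst hz)⟩) ?_ fun x _ => ?_
    · rintro s t ⟨C, hC⟩ ⟨C', hC'⟩
      refine ⟨max C C', ?_⟩
      rintro z (hz | hz) hzS
      · exact (hC z hz hzS).trans (le_max_left _ _)
      · exact (hC' z hz hzS).trans (le_max_right _ _)
    · obtain ⟨C, hC⟩ := locally_bounded hW ho hS hh x
      exact ⟨_, mem_nhdsWithin_of_mem_nhds hC, C, fun z hz => hz⟩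
  obtain ⟨C, hC⟩ := this
  refine const_of_bounded hW ho hS hh (C := C) fun z hz => ?_
  obtain ⟨w, hwK, hwS, e⟩ := hper z hz
  exact e ▸ hC w hwK hwS

end Pool.Agent.Lib.MP_d3d358_ag.Var
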