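import Pool.Agent.Lib.MP_d3d358_ag.Var.Mer
import Pool.Agent.Lib.MP_d3d358_ag.Var.Liou

/-! A periodic meromorphic function on `ℂ⁴` that is regular outside countably many affine
subspaces of codimension two is constant; invariant constant two-forms. -/

set_option autoImplicit false

namespace Pool.Agent.Lib.MP_d3d358_ag.Var.LiouM

open Filter Topology Module

theorem eventually_mem {x : M} {b : V} (hx : x ∈ Loc b) : ∀ᶠ z in 𝓝 b, x ∈ Loc z := by
  obtain ⟨F, F', h, rfl⟩ := hx
  filter_upwards [F'.cont.continuousAt.eventually_ne h] with z hz using div_mem_Loc F hz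

theorem isOpen_reg (x : M) : IsOpen {b : V | x ∈ Loc b} :=
  isOpen_iff_mem_nhds.2 fun _ hb => eventually_mem hb

theorem analyticAt_val {x : M} {b : V} (hx : x ∈ Loc b) : AnalyticAt ℂ (val x) b := by
  obtain ⟨F, F', h, rfl⟩ := hx
  refine ((F.an b).div (F'.an b) h).congr ?_
  filter_upwards [F'.cont.continuousAt.eventually_ne h] with z hz using (val_div F hz).symm

theorem tr_mem {x : M} {b c : V} (hx : x ∈ Loc (b + c)) :
    tr c x ∈ Loc b ∧ val (tr c x) b = val x (b + c) := by
  obtain ⟨F, F', h, rfl⟩ := hx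
  rw [map_div₀, tr_emb, tr_emb]
  exact ⟨div_mem_Loc _ h, by rw [val_div _ (F' := Ent.tr c F') h, val_div _ h]; rfl⟩

theorem tr_neg_tr (c : V) (x : M) : tr (-c) (tr c x) = x := by
  obtain ⟨F, F', -, rfl⟩ := exists_div x
  have e (F : Ent) : Ent.tr (-c) (Ent.tr c F) = F := Ent.ext fun z => by simp
  rw [map_div₀, map_div₀, tr_emb, tr_emb, tr_emb, tr_emb, e, e]

theorem eq_const {x : M} {b : V} (hx : x ∈ Loc b) {c : ℂ} (h : ∀ᶠ z in 𝓝 b, val x z = c) :
    x = algebraMap ℂ M c := by
  obtain ⟨F, F', hb, rfl⟩ := hx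
  have : F - algebraMap ℂ Ent c * F' = 0 := by
    refine Ent.eq_zero_of_eventually _ (b := b) ?_
    filter_upwards [h, F'.cont.continuousAt.eventually_ne hb] with z hz hz'
    rw [val_div F hz', div_eq_iff hz'] at hz
    simp [hz]
  rw [div_eq_iff (emb_ne' hb), sub_eq_zero.1 this, map_mul, emb.commutes]

/-- F4, analytic half -/
theorem const_of_periodic {ι : Type*} [Countable ι] {p : ι → V} {W : ι → Submodule ℂ V}
    (hW : ∀ i, finrank ℂ (W i) ≤ 2) {L K : Set V} (hK : IsCompact K)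
    (hL : ∀ z, ∃ l ∈ L, z + l ∈ K) {x : M} (hx : ∀ b, (∀ i, b - p i ∉ W i) → x ∈ Loc b)
    (hper : ∀ l ∈ L, tr l x = x) : ∃ c : ℂ, x = algebraMap ℂ M c := by
  have hW2 (i : ι) : finrank ℂ (W i) + 2 ≤ finrank ℂ V := by
    have := hW i
    have : finrank ℂ V = 4 := by simp
    omega
  obtain ⟨c, hc⟩ := const_of_cocompact (S := {b | x ∈ Loc b}) (h := val x) hW2 (isOpen_reg x) hx
    (fun b hb => (analyticAt_val hb).differentiableAt.differentiableWithinAt) hK fun z hz => by
      obtain ⟨l, hl, hzl⟩ := hL z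
      have e : tr (-l) x = x := by
        conv_lhs => rw [← hper l hl]
        exact tr_neg_tr l x
      have h1 : x ∈ Loc (z + l) := by
        have := (tr_mem (x := x) (b := z + l) (c := -l) (by simpa using hz)).1
        rwa [e] at this
      exact ⟨z + l, hzl, h1, by rw [← (tr_mem h1).2, hper l hl]⟩
  obtain ⟨a, ha⟩ := (dense_avC p W fun i e =>
    sup_span_ne_top (hW2 i) 0 (by rw [e]; simp)).nonempty
  refine ⟨c, eq_const (hx a ha) ?_⟩
  filter_upwards [eventually_mem (hx a ha)] with z hz using hc z hz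

/-- `σ = du₁ dv₂ - du₂ dv₁` as an alternating form -/
def sig (z w : V) : ℂ := z 0 * w 3 - z 3 * w 0 - (z 1 * w 2 - z 2 * w 1)

theorem sig_gv (g : G) (z w : V) : sig (gv g z) (gv g w) = sig z w := by
  cases g with
  | r k =>
    simp only [sig, gv_r, Matrix.cons_val, smul_eq_mul]
    linear_combination (z 0 * w 3 - z 3 * w 0 - (z 1 * w 2 - z 2 * w 1)) * chi_mul_neg k
  | sr k =>
    simp only [sig, gv_sr, Matrix.cons_val, smul_eq_mul]
    linear_combination (z 0 * w 3 - z 3 * w 0 - (z 1 * w 2 - z 2 * w 1)) * chi_mul_neg k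

/-- F5: an invariant alternating bilinear form is a multiple of `σ` -/
theorem eq_smul_sig (B : V →ₗ[ℂ] V →ₗ[ℂ] ℂ) (halt : ∀ z, B z z = 0)
    (hinv : ∀ g z w, B (gv g z) (gv g w) = B z w) : ∃ c : ℂ, ∀ z w, B z w = c * sig z w := by
  let e : Fin 4 → V := fun i => Pi.single i 1
  have hs (z w : V) : B z w = -B w z := by
    have := halt (z + w)
    simp only [map_add, LinearMap.add_apply, halt] at this
    linear_combination this
  have r0 : gv (.r 1) (e 0) = chi 1 • e 0 := by funext i; fin_cases i <;> simp [gv_r, e]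
  have r1 : gv (.r 1) (e 1) = chi 1 • e 1 := by funext i; fin_cases i <;> simp [gv_r, e]
  have r2 : gv (.r 1) (e 2) = chi (-1) • e 2 := by funext i; fin_cases i <;> simp [gv_r, e]
  have r3 : gv (.r 1) (e 3) = chi (-1) • e 3 := by funext i; fin_cases i <;> simp [gv_r, e]
  have s0 : gv (.sr 0) (e 0) = e 2 := by funext i; fin_cases i <;> simp [gv_sr, e]
  have s1 : gv (.sr 0) (e 1) = e 3 := by funext i; fin_cases i <;> simp [gv_sr, e]
  have s2 : gv (.sr 0) (e 2) = e 0 := by funext i; fin_cases i <;> simp [gv_sr, e]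
  have s3 : gv (.sr 0) (e 3) = e 1 := by funext i; fin_cases i <;> simp [gv_sr, e]
  have c1 : chi 1 * chi 1 - 1 ≠ 0 := by
    rw [← chi_add, sub_ne_zero, Ne, chi_eq_one]; decide
  have h01 : B (e 0) (e 1) = 0 := by
    have := hinv (.r 1) (e 0) (e 1)
    simp only [r0, r1, map_smul, LinearMap.smul_apply, smul_eq_mul] at this
    exact (mul_eq_zero.1 (show (chi 1 * chi 1 - 1) * B (e 0) (e 1) = 0 by
      linear_combination this)).resolve_left c1
  have h23 : B (e 2) (e 3) = 0 := by rw [← s0, ← s1, hinv, h01]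
  have h02 : B (e 0) (e 2) = 0 := by
    have := hinv (.sr 0) (e 0) (e 2)
    rw [s0, s2, hs] at this
    linear_combination (-1 / 2 : ℂ) * this
  have h13 : B (e 1) (e 3) = 0 := by
    have := hinv (.sr 0) (e 1) (e 3)
    rw [s1, s3, hs] at this
    linear_combination (-1 / 2 : ℂ) * this
  have h12 : B (e 1) (e 2) = -B (e 0) (e 3) := by
    have := hinv (.sr 0) (e 1) (e 2)
    rw [s1, s2, hs] at this
    exact this.symm
  have d (z : V) : z = z 0 • e 0 + z 1 • e 1 + z 2 • e 2 + z 3 • e 3 := by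
    funext i; fin_cases i <;> simp [e]
  refine ⟨B (e 0) (e 3), fun z w => ?_⟩
  conv_lhs => rw [d z, d w]
  simp only [map_add, map_smul, LinearMap.add_apply, LinearMap.smul_apply, smul_eq_mul, halt,
    hs (e 1) (e 0), hs (e 2) (e 0), hs (e 3) (e 0), hs (e 2) (e 1), hs (e 3) (e 1), hs (e 3) (e 2),
    h01, h23, h02, h13, h12, sig]
  ring

end Pool.Agent.Lib.MP_d3d358_ag.Var.LiouM
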