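import Pool.Agent.Lib.MP_d3d358_ag.Var.Good
import Pool.Agent.Lib.MP_d3d358_ag.Var.A2

/-! The Nullstellensatz for graded families of invariant theta functions. -/

set_option autoImplicit false

namespace Pool.Agent.Lib.MP_d3d358_ag.Var

open Pool.Agent.Lib.MP_d3d358_ag.G (Sf lat3)
open Filter

variable {A : Sf}

namespace NS

/-- A base point free space of theta functions generates all large degrees. -/
theorem gen {a : ℕ} {Y : Submodule ℂ Ent} (hY : Y ≤ R A a) (h : ∀ z, ∃ F ∈ Y, F.1 z ≠ 0) :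
    ∀ᶠ j : ℕ in atTop, R A (j + a) ≤ Y * R A j := by
  have : Module.Finite ℂ Y := Submodule.finiteDimensional_of_le hY
  obtain ⟨n, y, hy⟩ := Submodule.fg_iff_exists_fin_generating_family.1
    (Module.Finite.iff_fg.1 this)
  have hm : ∀ i, y i ∈ Y := fun i => hy ▸ Submodule.subset_span ⟨i, rfl⟩
  obtain ⟨b, hb⟩ := Th.TL_theta (fun i => (y i).1) (fun i => mem_R.1 (hY (hm i))) (fun z => by
    by_contra! h0
    obtain ⟨F, hF, hz⟩ := h z
    have : Submodule.span ℂ (Set.range y) ≤ LinearMap.ker (Ent.ev z).toLinearMap :=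
      Submodule.span_le.2 (by rintro _ ⟨i, rfl⟩; exact h0 i)
    exact hz (this (hy ▸ hF))) (Gd.even_R A a)
  filter_upwards [Gd.eventually_le_level A b] with j hj F hF
  obtain ⟨f, hf, e⟩ := hb _ hj (Gd.even_R A j) F.1 (by
    have := mem_R.1 hF
    rwa [Nat.cast_add, add_mul] at this)
  have : F = ∑ i, y i * ⟨f i, (hf i).1⟩ := Ent.ext fun z => by rw [Ent.sum_apply, ← e]; rfl
  rw [this]
  exact Submodule.sum_mem _ fun i _ => Submodule.mul_mem_mul (hm i) (mem_R.2 (hf i))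

theorem gen_inv {a : ℕ} {Y : Submodule ℂ Ent} (hY : Y ≤ R A a ⊓ invE)
    (h : ∀ z, ∃ F ∈ Y, F.1 z ≠ 0) :
    ∀ᶠ j : ℕ in atTop, R A (j + a) ⊓ invE ≤ Y * (R A j ⊓ invE) := by
  filter_upwards [gen (hY.trans inf_le_left) h] with j hj F hF
  rw [← avg_eq (χ := fun _ => 1) (by simp) (F := F) fun g => by rw [hF.2 g, one_smul]]
  refine Submodule.mul_induction_on (C := fun F => avg (fun _ => 1) F ∈ Y * (R A j ⊓ invE))
    (hj hF.1) (fun a ha c hc => ?_) fun a c ha hc => by rw [map_add]; exact add_mem ha hc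
  rw [avg_mul _ (hY ha).2]
  exact Submodule.mul_mem_mul ha ⟨avg_mem_R _ hc, fun g => by
    rw [smul_avg (by simp) (by simp), one_smul]⟩

/-- An increasing family of base point conditions that covers every point covers all points at
one stage. -/
theorem exists_stage (I : ℕ → Set Ent) (hI : ∀ m, ∀ F ∈ I m, ∃ j, F ∈ R A j)
    (hs : ∀ m b, (∃ F ∈ I m, F.1 b ≠ 0) → ∃ F ∈ I (m + 1), F.1 b ≠ 0)
    (h0 : ∀ b : V, ∃ m, ∃ F ∈ I m, F.1 b ≠ 0) : ∃ m, ∀ b : V, ∃ F ∈ I m, F.1 b ≠ 0 := by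
  obtain ⟨r, -, hr⟩ := (lat3 A.toLat).exists_near_norm
  obtain ⟨m, hm⟩ := (isCompact_closedBall (0 : V) r).elim_directed_cover
    (fun m => {b : V | ∃ F ∈ I m, F.1 b ≠ 0}) (fun m => by
      rw [isOpen_iff_mem_nhds]
      rintro b ⟨F, hF, hb⟩
      exact mem_of_superset (F.diff.continuous.continuousAt.eventually_ne hb)
        fun z hz => ⟨F, hF, hz⟩)
    (fun b _ => Set.mem_iUnion.2 (h0 b))
    (Monotone.directed_le (monotone_nat_of_le_succ fun m b hb => hs m b hb))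
  refine ⟨m, fun b => ?_⟩
  obtain ⟨l, hl⟩ := hr b
  obtain ⟨F, hF, hb⟩ := hm (mem_closedBall_zero_iff.2 hl)
  obtain ⟨j, hj⟩ := hI m F hF
  refine ⟨F, hF, ?_⟩
  rw [← sub_add_cancel b l, hj l l.2]
  exact mul_ne_zero (Th.aut_ne _ _ _) hb

theorem pow_mul_le {I : ℕ → Submodule ℂ Ent} (hm : ∀ m, U A * I m ≤ I (m + 1)) (j m : ℕ) :
    U A ^ j * I m ≤ I (m + j) := by
  induction j with
  | zero => rw [pow_zero, one_mul]; rfl
  | succ j ih =>
    rw [pow_succ', mul_assoc]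
    exact (mul_le_mul_right ih _).trans (hm _)

theorem pow_le (j : ℕ) : U A ^ j ≤ R A j ⊓ invE := by
  induction j with
  | zero =>
    rw [pow_zero, Submodule.one_le]
    exact ⟨one_mem_R, fun g => smul_one g⟩
  | succ j ih =>
    rw [pow_succ]
    exact (mul_le_mul_left ih _).trans (Gd.inv_mul_inv j 1)

end NS

/-- A homogeneous ideal of invariant theta functions without common zero contains all large
degrees. -/
theorem Good.ns (hA : Good A) (I : ℕ → Submodule ℂ Ent) (hI : ∀ m, I m ≤ R A m ⊓ invE)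
    (hm : ∀ m, U A * I m ≤ I (m + 1)) (h0 : ∀ b : V, ∃ m, ∃ σ ∈ I m, σ.1 b ≠ 0) :
    ∃ N, ∀ m, N ≤ m → R A m ⊓ invE ≤ I m := by
  obtain ⟨a, ha⟩ := NS.exists_stage (A := A) (fun m => I m) (fun m F hF => ⟨m, (hI m hF).1⟩)
    (fun m b ⟨F, hF, hb⟩ => by
      obtain ⟨u, hu, hub⟩ := hA.bpf b
      exact ⟨u * F, hm m (Submodule.mul_mem_mul hu hF), mul_ne_zero hub hb⟩) h0
  obtain ⟨N, hN⟩ := eventually_atTop.1 (NS.gen_inv (hI a) ha)
  refine ⟨N + 1 + a, fun m h => ?_⟩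
  obtain ⟨j, rfl⟩ : ∃ j, m = j + 1 + a := ⟨m - a - 1, by omega⟩
  refine (hN _ (by omega)).trans ?_
  rw [mul_comm, add_comm _ a]
  exact (mul_le_mul_left (fun F hF => hA.inv_mem hF.1 hF.2) _).trans (NS.pow_mul_le hm _ _)

/-- The form for a family of subspaces `K m` that need not consist of theta functions. -/
theorem Good.ns_pow (hA : Good A) (K : ℕ → Submodule ℂ Ent)
    (hm : ∀ m, ∀ u ∈ U A, ∀ σ ∈ U A ^ m, σ ∈ K m → u * σ ∈ K (m + 1))
    (h0 : ∀ b : V, ∃ m, ∃ σ ∈ U A ^ m, σ ∈ K m ∧ σ.1 b ≠ 0) :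
    ∃ N, ∀ m, N ≤ m → U A ^ m ≤ K m := by
  obtain ⟨N, hN⟩ := hA.ns (fun m => U A ^ m ⊓ K m) (fun m => inf_le_left.trans (NS.pow_le m))
    (fun m => Submodule.mul_le.2 fun u hu σ hσ =>
      ⟨by rw [pow_succ']; exact Submodule.mul_mem_mul hu hσ.1, hm m u hu σ hσ.1 hσ.2⟩)
    fun b => by
      obtain ⟨m, σ, h1, h2, h3⟩ := h0 b
      exact ⟨m, σ, ⟨h1, h2⟩, h3⟩
  exact ⟨N, fun m h => (NS.pow_le m).trans ((hN m h).trans inf_le_right)⟩

/-- The form for a predicate `Q m σ`. -/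
theorem Good.ns_pred (hA : Good A) (Q : ℕ → Ent → Prop) (h1 : ∀ m, Q m 0)
    (h2 : ∀ m, ∀ σ ∈ U A ^ m, ∀ τ ∈ U A ^ m, Q m σ → Q m τ → Q m (σ + τ))
    (h3 : ∀ m, ∀ c : ℂ, ∀ σ ∈ U A ^ m, Q m σ → Q m (c • σ))
    (hm : ∀ m, ∀ u ∈ U A, ∀ σ ∈ U A ^ m, Q m σ → Q (m + 1) (u * σ))
    (h0 : ∀ b : V, ∃ m, ∃ σ ∈ U A ^ m, Q m σ ∧ σ.1 b ≠ 0) :
    ∃ N, ∀ m, N ≤ m → ∀ σ ∈ U A ^ m, Q m σ := by
  obtain ⟨N, hN⟩ := hA.ns_pow (fun m =>
    { carrier := {σ | σ ∈ U A ^ m ∧ Q m σ}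
      zero_mem' := ⟨zero_mem _, h1 m⟩
      add_mem' := fun h k => ⟨add_mem h.1 k.1, h2 m _ h.1 _ k.1 h.2 k.2⟩
      smul_mem' := fun c _ h => ⟨Submodule.smul_mem _ c h.1, h3 m c _ h.1 h.2⟩ })
    (fun m u hu σ hσ h =>
      ⟨by rw [pow_succ']; exact Submodule.mul_mem_mul hu hσ, hm m u hu σ hσ h.2⟩)
    fun b => by
      obtain ⟨m, σ, a, b, c⟩ := h0 b
      exact ⟨m, σ, a, ⟨a, b⟩, c⟩
  exact ⟨N, fun m h σ hσ => (hN m h hσ).2⟩

end Pool.Agent.Lib.MP_d3d358_ag.Var
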