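import Pool.Agent.Lib.MP_d3d358_ag.Var.Br
import Pool.Agent.Lib.MP_9ff3e7_ag.F.XChart

/-! An etale chart with prescribed coordinates. -/

set_option autoImplicit false

namespace Pool.Agent.Lib.MP_d3d358_ag.Var

open Pool.Agent.Lib.MP_9ff3e7_ag.F IsLocalRing MvPolynomial

noncomputable section

variable {S : Type} [CommRing S] [IsDomain S] [Algebra ℂ S] {𝒜 : ℕ → Submodule ℂ S}
  [GradedAlgebra 𝒜]

namespace ChG

theorem aff_le {l : 𝒜 1} {q : Pt 𝒜} (hq : q.1 l ≠ 0) {e : ℕ} {g : S} (hg : g ∈ 𝒜 e)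
    (pg : q.1 g ≠ 0) : aff l g ≤ loc q := by
  refine Algebra.adjoin_le ?_
  rintro _ (rfl | ⟨a, rfl⟩)
  · exact (inv_mem_loc (q := q) ⟨_, deh_mem_loc hq g⟩ (by
      rw [ev_deh hq hg]; exact div_ne_zero pg (pow_ne_zero _ hq))).2
  · exact deh_mem_loc hq a

theorem aff_mono {l : 𝒜 1} {g g' : S} (h0 : deh l (g * g') ≠ 0) : aff l g ≤ aff l (g * g') := by
  rw [map_mul] at h0
  refine Algebra.adjoin_le ?_
  rintro _ (rfl | ⟨a, rfl⟩)
  · refine (mem_aff (by rwa [map_mul])).2 ⟨g', 1, ?_⟩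
    rw [pow_one, map_mul, inv_mul_cancel_left₀ (left_ne_zero_of_mul h0)]
  · exact deh_mem_aff _ _ a

theorem ft_aff (h : Gen1 𝒜) (l : 𝒜 1) (g : S) : Algebra.FiniteType ℂ (aff l g) := by
  classical
  obtain ⟨s, -, e⟩ := h
  have : aff l g = Algebra.adjoin ℂ (insert (deh l g)⁻¹ (deh l '' s)) := by
    refine le_antisymm (Algebra.adjoin_le ?_)
      (Algebra.adjoin_mono (Set.insert_subset_insert (Set.image_subset_range _ _)))
    rintro _ (rfl | ⟨a, rfl⟩)
    · exact Algebra.subset_adjoin (Or.inl rfl)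
    · refine Algebra.adjoin_mono (Set.subset_insert _ _) ?_
      rw [← AlgHom.map_adjoin, e]
      exact ⟨a, trivial, rfl⟩
  rw [this]
  exact Algebra.FiniteType.adjoin_of_finite ((s.finite_toSet.image _).insert _)

theorem exists_den {l : 𝒜 1} {q : Pt 𝒜} (hq : q.1 l ≠ 0) {n : ℕ} (c : Fin n → loc q) :
    ∃ e, ∃ g ∈ 𝒜 e, q.1 g ≠ 0 ∧ ∀ k, (c k).1 ∈ aff l g := by
  have l0 : (l : S) ≠ 0 := fun e => hq (by simp [e])
  have : ∀ k, ∃ e, ∃ g ∈ 𝒜 e, q.1 g ≠ 0 ∧ ∃ a, (c k).1 * deh l g = deh l a := fun k => by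
    obtain ⟨a, b, h1, h2⟩ := loc_frac hq (c k)
    obtain ⟨e, he⟩ := exists_form l0 b
    obtain ⟨g, hg, e2⟩ := he e le_rfl
    have e3 : dehL hq b = dehL hq g := Subtype.ext e2.symm
    rw [e3, ev_dehL hq hg] at h1
    exact ⟨e, g, hg, fun e => h1 (by simp [e]), a, e2 ▸ congrArg Subtype.val h2⟩
  choose e g hg h0 a ha using this
  have hm := SetLike.prod_mem_graded 𝒜 (F := Finset.univ) e g fun k _ => hg k
  have hp : q.1 (∏ k, g k) ≠ 0 := by
    rw [map_prod]; exact Finset.prod_ne_zero_iff.2 fun k _ => h0 k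
  refine ⟨_, _, hm, hp, fun k => (mem_aff (deh_ne l0 hm fun e => hp (by simp [e]))).2
    ⟨a k * ∏ j ∈ Finset.univ.erase k, g j, 1, ?_⟩⟩
  rw [pow_one, ← Finset.mul_prod_erase _ _ (Finset.mem_univ k), map_mul, map_mul, ← ha k, mul_assoc]

end ChG

open ChG in
theorem chart_of_gens' (h : Gen1 𝒜) {n : ℕ} (p : Pt 𝒜) (c : Fin n → loc p)
    (hi : AlgebraicIndependent ℂ fun k => (c k).1)
    (hg : RingHom.ker (ev p) ≤
      Ideal.span (Set.range fun k => c k - algebraMap ℂ (loc p) (ev p (c k)))) :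
    ∃ ch : Chart 𝒜 n, ch.In p ∧ ∀ k, (ch.z k).1 = (c k).1 := by
  obtain ⟨l, hl, hq⟩ := p.2
  lift l to 𝒜 1 using hl
  have l0 : (l : S) ≠ 0 := fun e => hq (by simp [e])
  obtain ⟨e, g, hge, pg, hc⟩ := exists_den hq c
  have g0 : deh l g ≠ 0 := deh_ne l0 hge fun e => pg (by simp [e])
  have hle := aff_le hq hge pg
  let φ : MvPolynomial (Fin n) ℂ →ₐ[ℂ] aff l g := aeval fun k => ⟨_, hc k⟩
  let := φ.toAlgebra
  have : IsScalarTower ℂ (MvPolynomial (Fin n) ℂ) (aff l g) := .of_algHom φ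
  have := ft_aff h l g
  have : Algebra.FiniteType (MvPolynomial (Fin n) ℂ) (aff l g) :=
    .of_restrictScalars_finiteType ℂ _ _
  have : FaithfulSMul (MvPolynomial (Fin n) ℂ) (aff l g) := by
    rw [faithfulSMul_iff_algebraMap_injective]
    refine Function.Injective.of_comp (f := (aff l g).val) ?_
    have e : (aff l g).val.comp φ = aeval fun k => (c k).1 := by
      ext i : 1
      simp [φ]
    change Function.Injective ((aff l g).val.comp φ)
    rw [e]
    exact hi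
  let Q : Ideal (aff l g) := RingHom.ker ((ev p).comp (Subalgebra.inclusion hle))
  have : Q.IsMaximal :=
    RingHom.ker_isMaximal_of_surjective _ fun r => ⟨algebraMap ℂ _ r, by simp⟩
  let := (Subalgebra.inclusion hle).toAlgebra
  have : IsLocalization.AtPrime (loc p) Q := by
    refine ⟨⟨fun y => isUnit_loc y.2, fun x => ?_, fun {x y} h => ⟨1, ?_⟩⟩⟩
    · obtain ⟨a, b, h1, h2⟩ := loc_frac hq x
      exact ⟨⟨dehO l g a, dehO l g b, h1⟩, h2⟩
    · rw [Subalgebra.inclusion_injective hle h]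
  have e1 : ∀ (i : Fin n) (r : ℂ), algebraMap (aff l g) (loc p)
      (algebraMap (MvPolynomial (Fin n) ℂ) (aff l g) (X i - C r)) =
      c i - algebraMap ℂ (loc p) r := fun i r => by
    change Subalgebra.inclusion hle (φ _) = _
    rw [map_sub, map_sub, aeval_X, aeval_C, AlgHom.commutes]
    rfl
  have := unram_of_gens Q (loc p) (fun i => ev p (c i))
    (fun i => by
      change ev p (algebraMap (aff l g) (loc p) _) = 0
      rw [e1]
      simp)
    (by simpa only [e1, max_loc] using hg.trans le_sup_left)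
  obtain ⟨f, h1, -, h3⟩ := std_of_unram (R := MvPolynomial (Fin n) ℂ) Q 1
    (Q.ne_top_iff_one.1 (Ideal.IsMaximal.ne_top inferInstance))
  obtain ⟨a, i, ha⟩ := (mem_aff g0).1 f.2
  obtain ⟨e', he⟩ := exists_form l0 a
  obtain ⟨g', hg', e2⟩ := he e' le_rfl
  rw [← e2] at ha
  have pg' : p.1 g' ≠ 0 := fun e3 => by
    have e4 : Subalgebra.inclusion hle f * dehL hq g ^ i = dehL hq g' := Subtype.ext ha
    have e5 := congrArg (ev p) e4
    rw [map_mul, map_pow, ev_dehL hq hge, ev_dehL hq hg', e3, zero_div] at e5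
    exact mul_ne_zero h1 (pow_ne_zero _ (div_ne_zero pg (pow_ne_zero _ hq))) e5
  have hm := SetLike.mul_mem_graded hge hg'
  have pm : p.1 (g * g') ≠ 0 := by rw [map_mul]; exact mul_ne_zero pg pg'
  have m0 : g * g' ≠ 0 := fun e => pm (by simp [e])
  have d0 : deh l (g * g') ≠ 0 := deh_ne l0 hm m0
  have hle' := aff_mono d0
  let := (Subalgebra.inclusion hle').toAlgebra
  let alg := ((Subalgebra.inclusion hle').comp φ).toAlgebra
  have tower : IsScalarTower ℂ (MvPolynomial (Fin n) ℂ) (aff l (g * g')) :=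
    .of_algHom ((Subalgebra.inclusion hle').comp φ)
  have : IsScalarTower (MvPolynomial (Fin n) ℂ) (aff l g) (aff l (g * g')) :=
    .of_algebraMap_eq fun _ => rfl
  have hinv : (deh l g)⁻¹ ∈ aff l g := Algebra.subset_adjoin (Or.inl rfl)
  have : IsLocalization.Away f (aff l (g * g')) := by
    refine IsLocalization.Away.mk _ ?_ (fun x => ?_) fun x y h => ⟨0, ?_⟩
    · refine IsUnit.of_mul_eq_one ⟨deh l g ^ (i + 1) * (deh l (g * g'))⁻¹, mul_mem
        (pow_mem (deh_mem_aff _ _ g) _) (Algebra.subset_adjoin (Or.inl rfl))⟩ (Subtype.ext ?_)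
      change f.1 * (deh l g ^ (i + 1) * (deh l (g * g'))⁻¹) = 1
      rw [← mul_assoc, pow_succ, ← mul_assoc, ha, mul_comm (deh l g'), ← map_mul,
        mul_inv_cancel₀ d0]
    · obtain ⟨b, j, e3⟩ := (mem_aff d0).1 x.2
      refine ⟨j, ⟨deh l b * (deh l g)⁻¹ ^ ((i + 1) * j),
        mul_mem (deh_mem_aff _ _ b) (pow_mem hinv _)⟩, Subtype.ext ?_⟩
      change x.1 * f.1 ^ j = deh l b * (deh l g)⁻¹ ^ ((i + 1) * j)
      rw [← e3, map_mul, ← ha, pow_mul, mul_assoc, ← mul_pow]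
      congr 2
      rw [inv_pow, mul_left_comm, ← pow_succ', mul_inv_cancel_right₀ (pow_ne_zero _ g0)]
    · rw [Subalgebra.inclusion_injective hle' h]
  obtain ⟨E, -⟩ := h3 (aff l (g * g'))
  let ch : Chart 𝒜 n := ⟨l, _, _, hm, l0, m0, E⟩
  refine ⟨ch, ⟨hq, pm⟩, fun k => ?_⟩
  change (Subalgebra.inclusion hle' (φ (X k))).1 = _
  rw [aeval_X]
  rfl

open Pool.Agent.Lib.MP_cd184e_ag.T (ProjVar)
open Pool.Agent.Lib.MP_cd184e_ag.B (grade)

theorem chart_of_gens {K : Type} [Field K] [Algebra ℂ K] {Y : ProjVar ℂ K} {n : ℕ}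
    (p : Pt (grade Y)) (c : Fin n → K) (hc : ∀ k, c k ∈ Ox p) (hi : AlgebraicIndependent ℂ c)
    (hg : ∀ y ∈ Ox p, vx p y = 0 → y ∈ Submodule.span (Ox p)
        (Set.range fun k => c k - algebraMap ℂ K (vx p (c k)))) :
    ∃ ch : Chart (grade Y) n, ch.In p ∧ ∀ k, iota Y (ch.z k).1 = c k := by
  choose d hd e using hc
  let d' : Fin n → loc p := fun k => ⟨d k, hd k⟩
  have e' : ∀ k, iota Y (d' k).1 = c k := e
  obtain ⟨ch, h1, h2⟩ := chart_of_gens' (gen1 Y) p d'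
    (AlgebraicIndependent.of_comp (iota Y) (by rwa [show _ ∘ _ = c from funext e'])) fun y hy => by
      obtain ⟨a, ha⟩ := (Submodule.mem_span_range_iff_exists_fun _).1
        (hg _ (iota_mem_Ox.2 y.2) ((vx_iota y).trans hy))
      refine Ideal.mem_span_range_iff_exists_fun.2 ⟨fun k => (eqv p).symm (a k), ?_⟩
      refine Subtype.ext (iota_inj ?_)
      rw [← ha, AddSubmonoidClass.coe_finsetSum, map_sum]
      refine Finset.sum_congr rfl fun k _ => ?_
      rw [MulMemClass.coe_mul, map_mul, ← coe_eqv, AlgEquiv.apply_symm_apply,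
        AddSubgroupClass.coe_sub, map_sub, e', ← e', vx_iota, Subalgebra.coe_algebraMap,
        AlgHom.commutes]
      rfl
  exact ⟨ch, h1, fun k => by rw [h2, e']⟩

end

end Pool.Agent.Lib.MP_d3d358_ag.Var
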