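import Pool.Agent.Lib.MP_d3d358_ag.Var.Dict0

/-! A symplectic form from three statements on alternating matrices. -/

set_option autoImplicit false

namespace Pool.Agent.Lib.MP_d3d358_ag.Var.Dict

open Pool.Agent.Lib.MP_d3d358_ag.G ExteriorAlgebra

noncomputable section

section main

variable {L K : Type} [Field L] [Field K] [Algebra ℂ L] [Algebra ℂ K]

theorem finrank_kaehler (h : Algebra.trdeg ℂ L = 4) : Module.finrank L Ω[L⁄ℂ] = 4 := by
  obtain ⟨s, hy⟩ := exists_isTranscendenceBasis ℂ L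
  let F := IntermediateField.adjoin ℂ (Set.range ((↑) : s → L))
  have : Algebra.IsAlgebraic F L := hy.isAlgebraic_field
  have : CharZero F := charZero_of_injective_algebraMap (algebraMap ℂ F).injective
  have : Algebra.IsSeparable F L := Algebra.IsAlgebraic.isSeparable_of_perfectField
  let P := MvPolynomial s ℂ
  let _ : Algebra P F :=
    ((hy.1.aevalEquivField : FractionRing P →+* F).comp (algebraMap P (FractionRing P))).toAlgebra
  let _ : Algebra P L := ((algebraMap F L).comp (algebraMap P F)).toAlgebra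
  have : IsScalarTower P F L := .of_algebraMap_eq fun _ => rfl
  have hP : ∀ a : P, algebraMap P L a = MvPolynomial.aeval ((↑) : s → L) a := fun a =>
    hy.1.aevalEquivField_algebraMap_apply_coe a
  have : IsScalarTower ℂ P L := .of_algebraMap_eq fun c => by
    rw [hP]; exact ((MvPolynomial.aeval ((↑) : s → L)).commutes c).symm
  have : IsFractionRing P F := IsLocalization.isLocalization_of_algEquiv (nonZeroDivisors P)
    (AlgEquiv.ofRingEquiv (f := hy.1.aevalEquivField.toRingEquiv) fun _ => rfl)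
  have : Algebra.FormallyEtale P F := .of_isLocalization (nonZeroDivisors P)
  have : Algebra.FormallyEtale F L := .of_isSeparable F L
  have : Algebra.FormallyEtale P L := .comp P F L
  let b := ((KaehlerDifferential.mvPolynomialBasis ℂ s).baseChange L).map
      (KaehlerDifferential.tensorKaehlerEquivOfFormallyEtale ℂ P L)
  apply Module.finrank_eq_of_rank_eq
  rw [← b.mk_eq_rank'', hy.cardinalMk_eq_trdeg, h]
  rfl

theorem sympM_of_matrix {Mo : Type} [AddCommGroup Mo] [Module L Mo] [Algebra L K]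
    (φ : L →ₐ[ℂ] K) (hφ : ∀ f, algebraMap L K f = φ f) (del : Fin 4 → Derivation ℂ K K)
    (D : L → Mo) (co : Mo →ₗ[L] Fin 4 → K) (hco : ∀ f i, co (D f) i = del i (φ f))
    (hM : Module.finrank L Mo = 4) {P : Type} [Nonempty P] (R : P → Subalgebra ℂ L)
    (s : Fin 4 → Fin 4 → K) {κ : ℂ} (hκ : κ ≠ 0) (hs : pf s = algebraMap ℂ K κ)
    (h1 : ∀ p, s ∈ stM del ((R p).map φ))
    (h2 : ∀ m, (∀ p, m ∈ stM del ((R p).map φ)) → ∃ c : ℂ, m = algebraMap ℂ K c • s)
    (h3 : ∀ p, ∃ c, Coord del ((R p).map φ) c) :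
    ∃ σ : ExteriorAlgebra L Mo, SympM D R σ ∧ ∀ (k : ℕ) (y : Fin k → Fin 3 → L),
      σ = ∑ i, y i 0 • ιMulti L 2 ![D (y i 1), D (y i 2)] ↔
        ∑ i, φ (y i 0) • wd del (φ (y i 1)) (φ (y i 2)) = s := by
  have hsm (a : L) (v : Fin 4 → K) (i) : (a • v) i = φ a * v i := by
    rw [Pi.smul_apply, Algebra.smul_def, hφ]
  have hgen (r : L) (f : Fin 2 → L) :
      co2 co (r • ιMulti L 2 fun i => D (f i)) = φ r • wd del (φ (f 0)) (φ (f 1)) := by
    rw [map_smul, co2_multi, ← hφ, algebraMap_smul]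
    congr 1
    funext i j
    simp only [wv, wd, hco]
  have hto (O : Subalgebra ℂ L) (τ) (hτ : τ ∈ st D 2 O) : co2 co τ ∈ stM del (O.map φ) := by
    refine (AddSubgroup.closure_le ((stM del (O.map φ)).comap (co2 co).toAddMonoidHom)).2 ?_ hτ
    rintro _ ⟨r, hr, f, hf, rfl⟩
    exact AddSubgroup.subset_closure
      ⟨_, ⟨r, hr, rfl⟩, _, ⟨f 0, hf 0, rfl⟩, _, ⟨f 1, hf 1, rfl⟩, hgen r f⟩
  have hof (O : Subalgebra ℂ L) (m) (hm : m ∈ stM del (O.map φ)) :
      ∃ τ ∈ st D 2 O, co2 co τ = m := by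
    refine (AddSubgroup.closure_le ((st D 2 O).map (co2 co).toAddMonoidHom)).2 ?_ hm
    rintro _ ⟨_, ⟨r, hr, rfl⟩, _, ⟨f, hf, rfl⟩, _, ⟨g, hg, rfl⟩, rfl⟩
    refine ⟨_, AddSubgroup.subset_closure ⟨r, hr, ![f, g], fun i => ?_, rfl⟩, hgen r ![f, g]⟩
    fin_cases i
    exacts [hf, hg]
  -- the charts, pulled back to `L`
  have hch (p : P) : ∃ c : Fin 4 → L, (∀ f ∈ R p, ∃ a : Fin 4 → L, (∀ k, a k ∈ R p) ∧
      co (D f) = co (∑ k, a k • D (c k))) ∧
      ∃ r ∈ R p, φ r = (Matrix.of fun i k => co (D (c k)) i).det := by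
    obtain ⟨c, hc, hf, r, hr, hd⟩ := h3 p
    choose c' _ ec using hc
    obtain rfl : c = fun k => φ (c' k) := funext fun k => (ec k).symm
    refine ⟨c', fun f h => ?_, r, hr, by simp only [hco]; exact hd⟩
    obtain ⟨a, ha, ea⟩ := hf _ ⟨f, h, rfl⟩
    choose a' ha' ea' using ha
    refine ⟨a', ha', funext fun i => ?_⟩
    simp only [map_sum, map_smul, Finset.sum_apply, hsm, hco]
    exact (ea i).trans (Finset.sum_congr rfl fun k _ => by rw [← ea']; rfl)
  choose c hc r hr hd using hch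
  choose τ hτ eτ using fun p => hof _ _ (h1 p)
  have hκ' : pf s ≠ 0 := hs ▸ (map_ne_zero (algebraMap ℂ K)).2 hκ
  -- the determinant of each chart is not zero
  have hdet (p : P) : (Matrix.of fun i k => co (D (c p k)) i).det ≠ 0 := by
    have key (m) (hm : m ∈ stM del ((R p).map φ)) : ∃ A : Fin 4 → Fin 4 → K,
        m = ∑ k, ∑ l, A k l • wv (co (D (c p k))) (co (D (c p l))) := by
      induction hm using AddSubgroup.closure_induction with
      | mem x hx =>
        obtain ⟨ρ, -, _, ⟨f, hf, rfl⟩, _, ⟨g, hg, rfl⟩, rfl⟩ := hx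
        obtain ⟨a, -, ea⟩ := hc p f hf
        obtain ⟨b, -, eb⟩ := hc p g hg
        refine ⟨fun k l => ρ * (φ (a k) * φ (b l)), ?_⟩
        funext i j
        have e (i) := congrFun ea i
        have e' (i) := congrFun eb i
        simp only [map_add, map_smul, Fin.sum_univ_four, Pi.add_apply, hsm] at e e'
        change ρ * (del i (φ f) * del j (φ g) - del j (φ f) * del i (φ g)) = _
        simp only [← hco, e, e', Fin.sum_univ_four, Pi.add_apply, Pi.smul_apply, smul_eq_mul, wv]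
        ring
      | zero => exact ⟨0, by simp⟩
      | add x y _ _ hx hy =>
        obtain ⟨A, rfl⟩ := hx
        obtain ⟨B, rfl⟩ := hy
        exact ⟨A + B, by simp only [Pi.add_apply, add_smul, Finset.sum_add_distrib]⟩
      | neg x _ hx =>
        obtain ⟨A, rfl⟩ := hx
        exact ⟨-A, by simp only [Pi.neg_apply, neg_smul, Finset.sum_neg_distrib]⟩
    obtain ⟨A, hA⟩ := key s (h1 p)
    rw [hA, pf_sum] at hκ'
    exact right_ne_zero_of_mul hκ'
  obtain ⟨p₀⟩ := ‹Nonempty P›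
  have hinj := co_inj hM (hdet p₀)
  have hc' (p : P) (f) (hf : f ∈ R p) :
      ∃ a : Fin 4 → L, (∀ k, a k ∈ R p) ∧ D f = ∑ k, a k • D (c p k) :=
    (hc p f hf).imp fun a h => ⟨h.1, hinj h.2⟩
  have hinj2 {O O' : Subalgebra ℂ L} {x y} (hx : x ∈ st D 2 O) (hy : y ∈ st D 2 O') (z : L)
      (h : co2 co x = co2 co (z • y)) : x = z • y := by
    have hall (O : Subalgebra ℂ L) (f) (_ : f ∈ O) : ∃ a : Fin 4 → L,
        (∀ k, a k ∈ (⊤ : Subalgebra ℂ L)) ∧ D f = ∑ k, a k • D (c p₀ k) :=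
      (exists_comb hM (hdet p₀) (D f)).imp fun a h => ⟨fun _ => trivial, h⟩
    obtain ⟨A, -, rfl⟩ := exists_tf le_top (hall O) hx
    obtain ⟨B, -, rfl⟩ := exists_tf le_top (hall O') hy
    rw [← sub_eq_zero, ← map_sub] at h
    rw [← sub_eq_zero]
    rw [← tf_smul, ← tf_sub] at h ⊢
    exact tf_eq_zero (hdet p₀) h
  have hσ (p : P) : τ p₀ ∈ st D 2 (R p) := by
    rw [hinj2 (hτ p₀) (hτ p) 1 (by rw [one_smul, eτ, eτ]), one_smul]
    exact hτ p
  refine ⟨τ p₀, ⟨hσ, fun x hx => ?_, fun p ω hω => ?_⟩, fun k y => ?_⟩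
  · obtain ⟨z, hz⟩ := h2 _ fun p => hto _ _ (hx p)
    refine ⟨z, hinj2 (hx p₀) (hτ p₀) _ ?_⟩
    rw [hz, map_smul, eτ, ← algebraMap_smul K (algebraMap ℂ L z), hφ, φ.commutes]
  · obtain ⟨A, hA, eA⟩ := exists_tf le_rfl (hc' p) (hσ p)
    obtain ⟨ρ, hρ, rfl⟩ := exists_top (hc' p) hω
    have e1 : (pf fun k l => A k l - A l k) * r p = algebraMap ℂ L κ := by
      apply φ.injective
      change φ _ = φ _
      rw [φ.commutes, ← hs, ← eτ p₀, eA, co2_tf, pf_sum, map_mul, hd]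
      simp only [pf, map_add, map_sub, map_mul, hφ]
    refine ⟨ρ * (r p * algebraMap ℂ L (2 * κ)⁻¹),
      (R p).mul_mem hρ ((R p).mul_mem (hr p) ((R p).algebraMap_mem _)), ?_⟩
    rw [eA, tf_sq, smul_smul]
    congr 1
    have e2 : algebraMap ℂ L (2 * κ)⁻¹ * (2 * algebraMap ℂ L κ) = 1 := by
      rw [← map_ofNat (algebraMap ℂ L) 2, ← map_mul, ← map_mul,
        inv_mul_cancel₀ (mul_ne_zero two_ne_zero hκ), map_one]
    linear_combination (-ρ) * e2 - 2 * ρ * algebraMap ℂ L (2 * κ)⁻¹ * e1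
  · have hv (i) : ![D (y i 1), D (y i 2)] = fun t => D (![y i 1, y i 2] t) := by
      funext t; fin_cases t <;> rfl
    have e : co2 co (∑ i, y i 0 • ιMulti L 2 ![D (y i 1), D (y i 2)]) =
        ∑ i, φ (y i 0) • wd del (φ (y i 1)) (φ (y i 2)) := by
      rw [map_sum]
      exact Finset.sum_congr rfl fun i _ => by rw [hv, hgen]; rfl
    refine ⟨fun h => by rw [← e, ← h, eτ], fun h => ?_⟩
    have hm : (∑ i, y i 0 • ιMulti L 2 ![D (y i 1), D (y i 2)]) ∈ st D 2 (⊤ : Subalgebra ℂ L) :=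
      sum_mem fun i _ => AddSubgroup.subset_closure
        ⟨y i 0, trivial, ![y i 1, y i 2], fun _ => trivial, by rw [hv]⟩
    rw [hinj2 (hτ p₀) hm 1 (by rw [one_smul, e, h, eτ]), one_smul]

/-- the dictionary: a symplectic form from three statements on matrices -/
theorem symp_of_matrix (φ : L →ₐ[ℂ] K) (del : Fin 4 → Derivation ℂ K K)
    (htr : Algebra.trdeg ℂ L = 4) {P : Type} [Nonempty P] (R : P → Subalgebra ℂ L)
    (s : Fin 4 → Fin 4 → K) {κ : ℂ} (hκ : κ ≠ 0) (hs : pf s = algebraMap ℂ K κ)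
    (h1 : ∀ p, s ∈ stM del ((R p).map φ))
    (h2 : ∀ m, (∀ p, m ∈ stM del ((R p).map φ)) → ∃ c : ℂ, m = algebraMap ℂ K c • s)
    (h3 : ∀ p, ∃ c, Coord del ((R p).map φ) c) :
    ∃ σ : ExteriorAlgebra L Ω[L⁄ℂ], Symp R σ ∧ ∀ (k : ℕ) (y : Fin k → Fin 3 → L),
      σ = ∑ i, y i 0 • ιMulti L 2
          ![KaehlerDifferential.D ℂ L (y i 1), KaehlerDifferential.D ℂ L (y i 2)] ↔
        ∑ i, φ (y i 0) • wd del (φ (y i 1)) (φ (y i 2)) = s := by
  let _ : Algebra L K := φ.toRingHom.toAlgebra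
  have : IsScalarTower ℂ L K := .of_algebraMap_eq fun c => (φ.commutes c).symm
  exact sympM_of_matrix φ (fun _ => rfl) del (fun f => KaehlerDifferential.D ℂ L f)
    (LinearMap.pi fun i => ((del i).compAlgebraMap L).liftKaehlerDifferential)
    (fun f i => Derivation.liftKaehlerDifferential_comp_D _ f) (finrank_kaehler htr) R s hκ hs
    h1 h2 h3

end main

end

end Pool.Agent.Lib.MP_d3d358_ag.Var.Dict
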