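import Pool.Agent.Lib.MP_d3d358_ag.Var.Q2

/-! Euler fields along a finite set of points and the formal Poincaré lemma for functions. -/

set_option autoImplicit false

namespace Pool.Agent.Lib.MP_d3d358_ag.Var

open MvPolynomial

noncomputable section

section Poly

variable {σ : Type}

/-- the maximal ideal of a point -/
def ptI (w : σ → ℂ) : Ideal (MvPolynomial σ ℂ) :=
  RingHom.ker (aeval w : MvPolynomial σ ℂ →ₐ[ℂ] ℂ)

theorem mem_ptI {w : σ → ℂ} {p : MvPolynomial σ ℂ} : p ∈ ptI w ↔ aeval w p = 0 := RingHom.mem_ker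

theorem ptI_coprime {w w' : σ → ℂ} (h : w ≠ w') : IsCoprime (ptI w) (ptI w') := by
  classical
  obtain ⟨e, h1, h0⟩ := exists_delta {w'} w
  exact Ideal.isCoprime_iff_exists.2 ⟨1 - e, mem_ptI.2 (by rw [map_sub, h1, map_one, sub_self]), e,
    mem_ptI.2 (h0 w' (by simp) h.symm), by ring⟩

theorem taylor_pt [Fintype σ] (w : σ → ℂ) (p : MvPolynomial σ ℂ) :
    ∑ i, (X i - C (w i)) * pderiv i p - (p - C (aeval w p)) ∈ ptI w ^ 2 := by
  classical
  induction p using MvPolynomial.induction_on with
  | C a => simp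
  | add p q hp hq =>
    have := add_mem hp hq
    simp only [map_add, mul_add, Finset.sum_add_distrib] at this ⊢
    convert this using 1
    ring
  | mul_X p k hp =>
    have e : ∑ i, (X i - C (w i)) * pderiv i (p * X k) - (p * X k - C (aeval w (p * X k))) =
        X k * (∑ i, (X i - C (w i)) * pderiv i p - (p - C (aeval w p))) +
          (p - C (aeval w p)) * (X k - C (w k)) := by
      have : ∀ i, (X i - C (w i)) * pderiv i (p * X k) = X k * ((X i - C (w i)) * pderiv i p) +
          if k = i then p * (X k - C (w k)) else 0 := fun i => by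
        rw [Derivation.leibniz, pderiv_X, smul_eq_mul, smul_eq_mul, Pi.single_apply]
        split_ifs with c
        · subst c; ring
        · ring
      simp only [this, Finset.sum_add_distrib, Finset.sum_ite_eq, Finset.mem_univ, if_true,
        ← Finset.mul_sum, map_mul, aeval_X]
      ring
    rw [e, sq]
    exact add_mem (Ideal.mul_mem_left _ _ (sq (ptI w) ▸ hp))
      (Ideal.mul_mem_mul (mem_ptI.2 (by simp)) (mem_ptI.2 (by simp)))

end Poly

theorem der_mem_of_mem_sq {R T : Type} [CommRing R] [CommRing T] [Algebra R T]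
    (D : Derivation R T T) {J : Ideal T} {x : T} (hx : x ∈ J ^ 2) : D x ∈ J := by
  rw [sq] at hx
  refine Submodule.mul_induction_on hx (fun a ha b hb => ?_) fun a b ha hb => ?_
  · rw [Derivation.leibniz]
    exact add_mem (Ideal.mul_mem_right _ _ ha) (Ideal.mul_mem_right _ _ hb)
  · rw [map_add]; exact add_mem ha hb

/-- an Euler field along a finite set of points -/
theorem exists_euler_poly {σ ι : Type} [Fintype σ] [DecidableEq σ] [Finite ι] (w : ι → σ → ℂ)
    (hw : Function.Injective w) : ∃ π : σ → MvPolynomial σ ℂ, (∀ i, π i ∈ ⨅ l, ptI (w l)) ∧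
      (∀ i k, pderiv k (π i) - (if k = i then 1 else 0) ∈ ⨅ l, ptI (w l)) ∧
      ∀ p ∈ ⨅ l, ptI (w l), ∑ i, π i * pderiv i p - p ∈ (⨅ l, ptI (w l)) ^ 2 := by
  have := Fintype.ofFinite ι
  have c1 : Pairwise (Function.onFun IsCoprime fun l => ptI (w l)) :=
    fun l l' h => ptI_coprime (hw.ne h)
  have c2 : Pairwise (Function.onFun IsCoprime fun l => ptI (w l) ^ 2) :=
    fun l l' h => (c1 h).pow
  have e : (⨅ l, ptI (w l)) ^ 2 = ⨅ l, ptI (w l) ^ 2 := by
    have h1 := Ideal.prod_eq_iInf_of_pairwise_isCoprime (s := Finset.univ) (c1.set_pairwise _)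
    have h2 := Ideal.prod_eq_iInf_of_pairwise_isCoprime (s := Finset.univ) (c2.set_pairwise _)
    simp only [Finset.mem_univ, iInf_true] at h1 h2
    rw [← h1, ← h2, Finset.prod_pow]
  choose π hπ using fun i => Ideal.exists_forall_sub_mem_ideal c2 fun l => X i - C (w l i)
  refine ⟨π, fun i => Ideal.mem_iInf.2 fun l => ?_, fun i k => Ideal.mem_iInf.2 fun l => ?_,
    fun p hp => ?_⟩
  · have := add_mem (Ideal.pow_le_self two_ne_zero (hπ i l))
      (mem_ptI.2 (by simp) : X i - C (w l i) ∈ ptI (w l))
    simpa using this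
  · have := der_mem_of_mem_sq (pderiv k) (hπ i l)
    rw [map_sub, map_sub, pderiv_X, pderiv_C, sub_zero, Pi.single_apply] at this
    simpa only [eq_comm] using this
  · rw [e]
    refine Ideal.mem_iInf.2 fun l => ?_
    have h1 := taylor_pt (w l) p
    rw [mem_ptI.1 (Ideal.mem_iInf.1 hp l), map_zero, sub_zero] at h1
    have h2 : ∑ i, (π i - (X i - C (w l i))) * pderiv i p ∈ ptI (w l) ^ 2 :=
      sum_mem fun i _ => Ideal.mul_mem_right _ _ (hπ i l)
    have := add_mem h1 h2
    simp only [sub_mul, Finset.sum_sub_distrib] at this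
    convert this using 1
    ring

section Euler

variable {T ι : Type} [CommRing T] [Algebra ℂ T] [Fintype ι] [DecidableEq ι]

/-- `∑ τ i ∂ i` is an Euler field for the ideal `J` -/
structure Euler (J : Ideal T) (del : ι → Derivation ℂ T T) (τ : ι → T) : Prop where
  mem : ∀ i, τ i ∈ J
  der : ∀ i k, del k (τ i) - (if k = i then 1 else 0) ∈ J
  act : ∀ x ∈ J, ∑ i, τ i * del i x - x ∈ J ^ 2

namespace Euler

variable {J : Ideal T} {del : ι → Derivation ℂ T T} {τ : ι → T} (h : Euler J del τ)
include h

theorem act_pow (s : ℕ) : ∀ x ∈ J ^ s, ∑ i, τ i * del i x - (s : T) * x ∈ J ^ (s + 1) := by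
  induction s with
  | zero =>
    intro x _
    simpa using sum_mem fun i _ => Ideal.mul_mem_right (del i x) _ (h.mem i)
  | succ s ih =>
    intro x hx
    rw [pow_succ] at hx
    refine Submodule.mul_induction_on hx (fun a ha b hb => ?_) fun a b ha hb => ?_
    · have e : ∑ i, τ i * del i (a * b) - ((s + 1 : ℕ) : T) * (a * b) =
          (∑ i, τ i * del i a - (s : T) * a) * b + a * (∑ i, τ i * del i b - b) := by
        simp only [Derivation.leibniz, smul_eq_mul, mul_add, Finset.sum_add_distrib, sub_mul,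
          mul_sub, Finset.sum_mul, Finset.mul_sum, Nat.cast_succ]
        have e1 : ∀ i, τ i * (a * del i b) = a * (τ i * del i b) := fun i => by ring
        have e2 : ∀ i, τ i * (b * del i a) = τ i * del i a * b := fun i => by ring
        simp only [e1, e2]
        ring
      rw [e]
      refine add_mem (pow_succ J (s + 1) ▸ Ideal.mul_mem_mul (ih a ha) hb) ?_
      rw [add_assoc, pow_add]
      exact Ideal.mul_mem_mul ha (h.act b hb)
    · have := add_mem ha hb
      simp only [map_add, mul_add, Finset.sum_add_distrib]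
      convert this using 1
      ring

/-- a function whose differential is constant modulo `J ^ s` can be corrected by an element of
`J ^ (s + 1)` so that the differential is constant modulo `J ^ (s + 1)` -/
theorem step (hc : ∀ i k x, del i (del k x) = del k (del i x)) (s : ℕ) (c : ι → ℂ)
    (x : T) (hx : ∀ i, del i x - algebraMap ℂ T (c i) ∈ J ^ s) :
    ∃ y ∈ J ^ (s + 1), ∀ i, del i (x - y) - algebraMap ℂ T (c i) ∈ J ^ (s + 1) := by
  obtain ⟨a, ha⟩ : ∃ a : ι → T, ∀ i, a i = del i x - algebraMap ℂ T (c i) := ⟨_, fun _ => rfl⟩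
  have ham : ∀ i, a i ∈ J ^ s := fun i => ha i ▸ hx i
  have hcl : ∀ i k, del k (a i) = del i (a k) := fun i k => by
    simp only [ha, map_sub, Derivation.map_algebraMap, hc k i]
  have hs1 : ((s : ℂ) + 1) ≠ 0 := by exact_mod_cast Nat.succ_ne_zero s
  refine ⟨((s : ℂ) + 1)⁻¹ • ∑ i, τ i * a i, Submodule.smul_of_tower_mem _ _
    (sum_mem fun i _ => pow_succ' J s ▸ Ideal.mul_mem_mul (h.mem i) (ham i)), fun k => ?_⟩
  have h1 : ∑ i, a i * (del k (τ i) - if k = i then 1 else 0) ∈ J ^ (s + 1) :=
    sum_mem fun i _ => pow_succ J s ▸ Ideal.mul_mem_mul (ham i) (h.der i k)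
  have h2 := h.act_pow s _ (ham k)
  have e : del k (x - ((s : ℂ) + 1)⁻¹ • ∑ i, τ i * a i) - algebraMap ℂ T (c k) =
      -(((s : ℂ) + 1)⁻¹ • (∑ i, a i * (del k (τ i) - if k = i then 1 else 0) +
        (∑ i, τ i * del i (a k) - (s : T) * a k))) := by
    have e1 : a k = ((s : ℂ) + 1)⁻¹ • (((s : T) + 1) * a k) := by
      rw [show ((s : T) + 1) * a k = ((s : ℂ) + 1) • a k by simp [Algebra.smul_def], smul_smul,
        inv_mul_cancel₀ hs1, one_smul]
    rw [map_sub, sub_right_comm, ← ha, Derivation.map_smul, map_sum]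
    conv_lhs => rw [e1]
    rw [← smul_sub, ← smul_neg]
    congr 1
    simp only [Derivation.leibniz, smul_eq_mul, mul_sub, Finset.sum_add_distrib,
      Finset.sum_sub_distrib, mul_ite, mul_one, mul_zero, Finset.sum_ite_eq, Finset.mem_univ,
      if_true, fun i => hcl i k]
    ring
  rw [e]
  exact neg_mem (Submodule.smul_of_tower_mem _ _ (add_mem h1 h2))

theorem exists_flat (hc : ∀ i k x, del i (del k x) = del k (del i x)) (c : ι → ℂ) (x : T)
    (hx : ∀ i, del i x - algebraMap ℂ T (c i) ∈ J) (s : ℕ) :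
    ∃ y ∈ J ^ 2, ∀ i, del i (x - y) - algebraMap ℂ T (c i) ∈ J ^ (s + 1) := by
  induction s with
  | zero => exact ⟨0, zero_mem _, by simpa using hx⟩
  | succ s ih =>
    obtain ⟨y, hy, h1⟩ := ih
    obtain ⟨z, hz, h2⟩ := h.step hc (s + 1) c _ h1
    exact ⟨y + z, add_mem hy (Ideal.pow_le_pow_right (by omega) hz), by
      simpa only [sub_sub] using h2⟩

end Euler

theorem der_aeval (D : Derivation ℂ T T) (t : ι → T) (p : MvPolynomial ι ℂ) :
    D (aeval t p) = ∑ j, aeval t (pderiv j p) * D (t j) := by
  induction p using MvPolynomial.induction_on with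
  | C a => simp
  | add p q hp hq => simp only [map_add, hp, hq, add_mul, Finset.sum_add_distrib]
  | mul_X p k hp =>
    have : ∀ j, aeval t (pderiv j (p * X k)) * D (t j) = t k * (aeval t (pderiv j p) * D (t j)) +
        if k = j then aeval t p * D (t k) else 0 := fun j => by
      rw [Derivation.leibniz, pderiv_X, smul_eq_mul, smul_eq_mul, Pi.single_apply]
      split_ifs with c
      · subst c; simp; ring
      · simp; ring
    simp only [this, Finset.sum_add_distrib, Finset.sum_ite_eq, Finset.mem_univ, if_true,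
      ← Finset.mul_sum, ← hp]
    rw [map_mul, aeval_X, Derivation.leibniz, smul_eq_mul, smul_eq_mul, add_comm]

/-- transport of an Euler field along coordinates that are flat to first order -/
theorem euler_of_poly (del : ι → Derivation ℂ T T) (t : ι → T) (I : Ideal (MvPolynomial ι ℂ))
    (ht : ∀ i j, del i (t j) - (if i = j then 1 else 0) ∈ I.map (aeval t))
    (π : ι → MvPolynomial ι ℂ) (h1 : ∀ i, π i ∈ I)
    (h2 : ∀ i k, pderiv k (π i) - (if k = i then 1 else 0) ∈ I)
    (h3 : ∀ p ∈ I, ∑ i, π i * pderiv i p - p ∈ I ^ 2) :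
    Euler (I.map (aeval t)) del fun i => aeval t (π i) := by
  have key : ∀ k (p : MvPolynomial ι ℂ), del k (aeval t p) - aeval t (pderiv k p) ∈ I.map (aeval t) := fun k p => by
    have : ∑ j, aeval t (pderiv j p) * (del k (t j) - if k = j then 1 else 0) ∈ I.map (aeval t) :=
      sum_mem fun j _ => Ideal.mul_mem_left _ _ (ht k j)
    simpa [der_aeval, mul_sub] using this
  have m1 : ∀ i, aeval t (π i) ∈ I.map (aeval t) := fun i => Ideal.mem_map_of_mem _ (h1 i)
  refine ⟨m1, fun i k => ?_, fun x hx => ?_⟩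
  · have := add_mem (key k (π i)) (Ideal.mem_map_of_mem (aeval t) (h2 i k))
    simpa [apply_ite] using this
  · induction hx using Submodule.span_induction with
    | mem _ hx =>
      obtain ⟨p, hp, rfl⟩ := hx
      have a1 : ∑ i, aeval t (π i) * (del i (aeval t p) - aeval t (pderiv i p)) ∈
          I.map (aeval t) ^ 2 := sum_mem fun i _ => sq (I.map (aeval t)) ▸
        Ideal.mul_mem_mul (m1 i) (key i p)
      have a2 := Ideal.mem_map_of_mem (aeval t) (h3 p hp)
      rw [Ideal.map_pow] at a2
      have := add_mem a1 a2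
      simp only [mul_sub, Finset.sum_sub_distrib, map_sub, map_sum, map_mul] at this
      convert this using 1
      ring
    | zero => simp
    | add a b _ _ ha hb =>
      have := add_mem ha hb
      simp only [map_add, mul_add, Finset.sum_add_distrib]
      convert this using 1
      ring
    | smul a b hb' hb =>
      have a1 : (∑ i, aeval t (π i) * del i a) * b ∈ I.map (aeval t) ^ 2 :=
        sq (I.map (aeval t)) ▸ Ideal.mul_mem_mul
          (sum_mem fun i _ => Ideal.mul_mem_right _ _ (m1 i)) hb'
      have := add_mem a1 (Ideal.mul_mem_left _ a hb)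
      simp only [Derivation.leibniz, smul_eq_mul, mul_add, Finset.sum_add_distrib, mul_sub,
        Finset.sum_mul, Finset.mul_sum] at this ⊢
      have e1 : ∀ i, aeval t (π i) * (a * del i b) = a * (aeval t (π i) * del i b) :=
        fun i => by ring
      have e2 : ∀ i, aeval t (π i) * (b * del i a) = aeval t (π i) * del i a * b :=
        fun i => by ring
      simp only [e1, e2]
      convert this using 1
      ring

end Euler

end

end Pool.Agent.Lib.MP_d3d358_ag.Var
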