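import Pool.Agent.Lib.MP_d3d358_ag.Var.Refl
import Pool.Agent.Lib.MP_d3d358_ag.G.Stmt

/-! Limits of holomorphic punctured discs in the complex points of `Proj S`, and the topological
assembly of simple connectedness. -/

set_option autoImplicit false

namespace Pool.Agent.Lib.MP_d3d358_ag.Var

open Set Topology Filter
open Pool.Agent.Lib.MP_9ff3e7_ag.F Pool.Agent.Lib.MP_d3d358_ag.G

noncomputable section

section cone

variable {S : Type} [CommRing S] [Algebra ℂ S] {𝒜 : ℕ → Submodule ℂ S}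

/-- Algebra homomorphisms that converge on generators converge. -/
theorem exists_algHom_tendsto {T ι : Type*} {F : Filter T} [F.NeBot] {s : ι → S}
    (hgen : Algebra.adjoin ℂ (range s) = ⊤) {p : T → S →ₐ[ℂ] ℂ} {v : ι → ℂ}
    (h : ∀ i, Tendsto (fun c => p c (s i)) F (𝓝 (v i))) :
    ∃ p₀ : S →ₐ[ℂ] ℂ, (∀ i, p₀ (s i) = v i) ∧ ∀ a, Tendsto (fun c => p c a) F (𝓝 (p₀ a)) := by
  have h1 : ∀ a : S, ∃ y, Tendsto (fun c => p c a) F (𝓝 y) := fun a => by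
    have ha : a ∈ Algebra.adjoin ℂ (range s) := hgen ▸ Algebra.mem_top
    induction ha using Algebra.adjoin_induction with
    | mem x hx =>
      obtain ⟨i, rfl⟩ := hx
      exact ⟨_, h i⟩
    | algebraMap r => exact ⟨r, by simp⟩
    | add x y _ _ hx hy =>
      exact ⟨_, by simpa only [map_add] using hx.choose_spec.add hy.choose_spec⟩
    | mul x y _ _ hx hy =>
      exact ⟨_, by simpa only [map_mul] using hx.choose_spec.mul hy.choose_spec⟩
  choose f hf using h1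
  exact ⟨{
    toFun := f
    map_one' := tendsto_nhds_unique (hf 1) (by simp)
    map_zero' := tendsto_nhds_unique (hf 0) (by simp)
    map_mul' := fun a b =>
      tendsto_nhds_unique (hf _) (by simpa only [map_mul] using (hf a).mul (hf b))
    map_add' := fun a b =>
      tendsto_nhds_unique (hf _) (by simpa only [map_add] using (hf a).add (hf b))
    commutes' := fun r => tendsto_nhds_unique (hf _) (by simp) },
    fun i => tendsto_nhds_unique (hf _) (h i), hf⟩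

variable [GradedAlgebra 𝒜]

variable (𝒜) in
/-- multiplication by `c ^ j` in degree `j` -/
def scale (c : ℂ) : S →ₐ[ℂ] S :=
  (DirectSum.toAlgebra ℂ (fun j => 𝒜 j) (fun j => c ^ j • (𝒜 j).subtype) (by simp)
    (fun {i j} a b => by
      simp [GradedMonoid.GMul.mul, pow_add, mul_smul, smul_comm (c ^ i) (c ^ j)])).comp
    (DirectSum.decomposeAlgEquiv 𝒜).toAlgHom

theorem scale_eq (c : ℂ) {j : ℕ} {a : S} (ha : a ∈ 𝒜 j) : scale 𝒜 c a = c ^ j • a := by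
  simp only [scale, AlgHom.comp_apply, AlgEquiv.coe_toAlgHom, DirectSum.decomposeAlgEquiv_apply,
    DirectSum.decompose_of_mem 𝒜 ha, DirectSum.toAlgebra_apply]
  erw [DirectSum.toSemiring_of]
  rfl

/-- the multiple of a point of the cone -/
def smulPt (c : ℂ) (hc : c ≠ 0) (p : Pt 𝒜) : Pt 𝒜 :=
  ⟨p.1.comp (scale 𝒜 c), by
    obtain ⟨l, hl, h⟩ := p.2
    exact ⟨l, hl, by simp [scale_eq c hl, hc, h]⟩⟩

theorem smulPt_apply (c : ℂ) (hc : c ≠ 0) (p : Pt 𝒜) {j : ℕ} {a : S} (ha : a ∈ 𝒜 j) :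
    (smulPt c hc p).1 a = c ^ j * p.1 a := by
  simp [smulPt, scale_eq c ha]

theorem mk_smulPt (c : ℂ) (hc : c ≠ 0) (p : Pt 𝒜) :
    (Quot.mk _ (smulPt c hc p) : Cx 𝒜) = Quot.mk _ p :=
  Quot.sound fun a ha b hb => by
    rw [smulPt_apply c hc p ha, smulPt_apply c hc p hb]; ring

theorem exists_fam_ne {ι : Type*} {s : ι → S} (hs : ∀ i, s i ∈ 𝒜 1)
    (hgen : Algebra.adjoin ℂ (range s) = ⊤) (p : Pt 𝒜) : ∃ i, p.1 (s i) ≠ 0 := by
  by_contra! h
  obtain ⟨l, hl, h0⟩ := p.2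
  have e : p.1 = p.1.comp (scale 𝒜 0) := AlgHom.ext_of_adjoin_eq_top hgen <| by
    rintro _ ⟨i, rfl⟩
    simp [scale_eq 0 (hs i), h i]
  rw [e] at h0
  simp [scale_eq 0 hl] at h0

omit [GradedAlgebra 𝒜] in
theorem tendsto_mk {T : Type*} {F : Filter T} {p : T → Pt 𝒜} {p₀ : Pt 𝒜}
    (h : ∀ a, Tendsto (fun c => (p c).1 a) F (𝓝 (p₀.1 a))) :
    Tendsto (fun c => (Quot.mk _ (p c) : Cx 𝒜)) F (𝓝 (Quot.mk _ p₀)) := by
  refine (continuous_quot_mk.tendsto p₀).comp ?_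
  rw [nhds_induced, tendsto_comap_iff]
  exact tendsto_pi_nhds.2 h

/-- A punctured disc with holomorphic homogeneous coordinates has a limit. -/
theorem exists_tendsto_Cx {ι : Type*} [Fintype ι] {s : ι → S} (hs : ∀ i, s i ∈ 𝒜 1)
    (hgen : Algebra.adjoin ℂ (range s) = ⊤) {q : ℂ → Cx 𝒜} {θ : ι → ℂ → ℂ}
    (hθ : ∀ i, AnalyticAt ℂ (θ i) 0)
    (h : ∀ᶠ c in 𝓝[≠] 0, ∃ (p : Pt 𝒜) (μ : ℂ), q c = Quot.mk _ p ∧ ∀ i, p.1 (s i) = μ * θ i c) :
    ∃ x, Tendsto q (𝓝[≠] 0) (𝓝 x) := by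
  have hΘ : AnalyticAt ℂ (fun c i => θ i c) 0 := analyticAt_pi_iff.2 hθ
  have hne : ¬∀ᶠ c in 𝓝 (0 : ℂ), (fun i => θ i c) = 0 := fun h0 => by
    obtain ⟨c, ⟨p, μ, -, hp⟩, hc⟩ := (h.and (nhdsWithin_le_nhds h0)).exists
    obtain ⟨i, hi⟩ := exists_fam_ne hs hgen p
    exact hi (by rw [hp, congrFun hc i]; simp)
  obtain ⟨n, g, hg, g0, e⟩ := hΘ.exists_eventuallyEq_pow_smul_nonzero_iff.2 hne
  have h2 : ∀ᶠ c in 𝓝[≠] 0, ∃ p : Pt 𝒜, q c = Quot.mk _ p ∧ ∀ i, p.1 (s i) = g c i := by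
    filter_upwards [h, nhdsWithin_le_nhds e, self_mem_nhdsWithin] with c hc ec c0
    obtain ⟨p, μ, hq, hp⟩ := hc
    have μ0 : μ ≠ 0 := fun e0 => by
      obtain ⟨i, hi⟩ := exists_fam_ne hs hgen p
      exact hi (by rw [hp, e0, zero_mul])
    have c0' : c ≠ 0 := c0
    refine ⟨smulPt (μ * c ^ n)⁻¹ (inv_ne_zero (mul_ne_zero μ0 (pow_ne_zero n c0'))) p,
      by rw [mk_smulPt, hq], fun i => ?_⟩
    rw [smulPt_apply _ _ _ (hs i), hp, congrFun ec i]
    simp only [sub_zero, Pi.smul_apply, smul_eq_mul]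
    field_simp
  obtain ⟨p, hp⟩ := h2.choice
  obtain ⟨p₀, h0, hl⟩ := exists_algHom_tendsto (F := 𝓝[≠] (0 : ℂ)) hgen (p := fun c => (p c).1)
    (v := g 0) fun i => (((continuous_apply i).tendsto _).comp
      (hg.continuousAt.tendsto.mono_left nhdsWithin_le_nhds)).congr'
      (hp.mono fun c hc => (hc.2 i).symm)
  obtain ⟨i, hi⟩ := Function.ne_iff.1 g0
  exact ⟨_, (tendsto_mk (p₀ := ⟨p₀, s i, hs i, (h0 i).symm ▸ hi⟩) hl).congr'
    (hp.mono fun c hc => hc.1.symm)⟩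

end cone

/-- The topological assembly: a space that contains the quotient of the free points as a dense
subset with locally connected trace, and in which discs normal to the mirrors have limits, is
simply connected. -/
theorem simplyConnected_of {L : AddSubgroup V} [DiscreteTopology L] {X : Type*}
    [TopologicalSpace X] (hG : ∀ g, ∀ l ∈ L, gv g l ∈ L)
    (hgen : L ≤ AddSubgroup.closure {l | l ∈ L ∧ ∃ k, gv (.sr k) l = -l})
    (hsc : IsSimplyConnected (Free L)) {q : V → X} (hq : ContinuousOn q (Free L))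
    (ho : ∀ a ∈ Free L, ∀ B ∈ 𝓝 a, q '' B ∈ 𝓝 (q a))
    (hinv : ∀ z ∈ Free L, ∀ g, ∀ l ∈ L, q (gv g z + l) = q z)
    (hfib : ∀ a ∈ Free L, ∀ b ∈ Free L, q a = q b → ∃ g, ∃ l ∈ L, a = gv g b + l)
    (hd : Dense (q '' Free L))
    (hb : ∀ x : X, ∀ W ∈ 𝓝 x, ∃ O, IsOpen O ∧ x ∈ O ∧ O ⊆ W ∧ IsSimplyConnected O ∧
      IsPreconnected (O ∩ q '' Free L))
    (hlim : ∀ z n : V, (∀ᶠ c : ℂ in 𝓝[≠] 0, z + c • n ∈ Free L) →
      ∃ x, Tendsto (fun c : ℂ => q (z + c • n)) (𝓝[≠] 0) (𝓝 x)) : SimplyConnectedSpace X := by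
  obtain ⟨c, hc⟩ := hsc.nonempty
  obtain ⟨al, hal, -⟩ := exists_coh hsc hq hc (u := (⟨q c, .refl _⟩ : Cov (q c))) rfl
  refine simplyConnectedSpace_of_descent isOpen_free hq ho hal (fun a ha b hb' e => ?_) hd hb
  obtain ⟨g, l, hl, rfl⟩ := hfib a ha b hb' e
  refine hal.invariant hG hgen hsc.isPathConnected hinv (fun z n h => ?_) hb' g hl
  obtain ⟨x, hx⟩ := hlim z n h
  obtain ⟨O, hO, hxO, -, hs, -⟩ := hb x univ univ_mem
  exact ⟨O, hs, hx (hO.mem_nhds hxO)⟩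

end

end Pool.Agent.Lib.MP_d3d358_ag.Var
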