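import Pool.Agent.Lib.MP_d3d358_ag.Var.Mer
import Pool.Agent.Lib.MP_d3d358_ag.Var.Q3G

/-! Polynomials, two forms as alternating matrices, the Jacobian determinant. -/

set_option autoImplicit false

namespace Pool.Agent.Lib.MP_d3d358_ag.Var

noncomputable section

/-- polynomials in `u₁, u₂, v₁, v₂` -/
abbrev P : Type := MvPolynomial (Fin 4) ℂ

/-- the action of `G` on polynomials -/
def pact (g : G) : P →ₐ[ℂ] P := MvPolynomial.aeval (gv g⁻¹ MvPolynomial.X)

/-- the matrix of `g` -/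
def gm (g : G) : Matrix (Fin 4) (Fin 4) ℂ := fun i j => gv g (Pi.single j (1 : ℂ)) i

/-- the two form `df ∧ dg` as an alternating matrix -/
def wd (f g : M) : Matrix (Fin 4) (Fin 4) M := fun i j => pd i f * pd j g - pd j f * pd i g

/-- the pull back of `du₁ dv₂ - du₂ dv₁` along `t` -/
def sig (t : Fin 4 → M) : Matrix (Fin 4) (Fin 4) M := wd (t 0) (t 3) - wd (t 1) (t 2)

/-- the Jacobian determinant -/
def jac (t : Fin 4 → M) : M := Matrix.det (Matrix.of fun i j => pd i (t j))

/-- two forms regular for the ring `R` -/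
def St2 (R : Subalgebra ℂ M) : Submodule R (Matrix (Fin 4) (Fin 4) M) :=
  Submodule.span R {ω | ∃ f ∈ R, ∃ g ∈ R, ω = wd f g}

/-- the action of `G` on two forms -/
def actF (g : G) (ω : Matrix (Fin 4) (Fin 4) M) : Matrix (Fin 4) (Fin 4) M :=
  fun i j => ∑ k, ∑ l, (gm g⁻¹ k i * gm g⁻¹ l j) • g • ω k l

end

end Pool.Agent.Lib.MP_d3d358_ag.Var
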