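import Pool.Agent.Lib.MP_d3d358_ag.Var.Q1M
import Pool.Agent.Lib.MP_d3d358_ag.Var.A4K

/-! `Q1` from the transcendence degree of the function field. -/

set_option autoImplicit false

namespace Pool.Agent.Lib.MP_d3d358_ag.Var

open Pool.Agent.Lib.MP_d3d358_ag.G (Sf)

variable {A : Sf}

theorem exists_crd_pow (hA : Good A) (h3 : Algebra.trdeg ℂ (KN A) = 4) (b : V) (s : ℕ) :
    ∃ t, Crd A b t ∧
      ∀ i j, ∃ e ∈ orbJ (evO A b) ^ s, pd i (t j) = (if i = j then 1 else 0) + e.1 := by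
  obtain ⟨t, ht⟩ := exists_crd hA.bpf b
  obtain ⟨u, hu, -, h⟩ := ht.exists_flat (hA.semiLoc ht (A4.Crd.gen hA h3 ht)) s
  exact ⟨u, hu, h⟩

end Pool.Agent.Lib.MP_d3d358_ag.Var
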