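import Pool.Agent.Lib.MP_d3d358_ag.Var.X2
import Pool.Agent.Lib.MP_d3d358_ag.Var.Mod

/-! The symplectic form and the Jacobian in the coordinates of the charts, for meromorphic
functions. -/

set_option autoImplicit false

namespace Pool.Agent.Lib.MP_d3d358_ag.Var

noncomputable section

/-- the entry `(i, j)` of the product of two one forms -/
def wdB (i j : Fin 4) : Ω[M⁄ℂ] →ₗ[M] Ω[M⁄ℂ] →ₗ[M] M :=
  LinearMap.mk₂ M (fun n m => (pd i).liftKaehlerDifferential n * (pd j).liftKaehlerDifferential m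
      - (pd j).liftKaehlerDifferential n * (pd i).liftKaehlerDifferential m)
    (fun _ _ _ => by simp only [map_add]; ring)
    (fun _ _ _ => by simp only [map_smul, smul_eq_mul]; ring)
    (fun _ _ _ => by simp only [map_add]; ring)
    (fun _ _ _ => by simp only [map_smul, smul_eq_mul]; ring)

theorem wdB_self (i j : Fin 4) (n : Ω[M⁄ℂ]) : wdB i j n n = 0 := by
  simp only [wdB, LinearMap.mk₂_apply]; ring

theorem wdB_D (i j : Fin 4) (f g : M) :
    wdB i j (KaehlerDifferential.D ℂ M f) (KaehlerDifferential.D ℂ M g) = wd f g i j := by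
  simp only [wdB, LinearMap.mk₂_apply, Derivation.liftKaehlerDifferential_comp_D, wd]

variable {t : Fin 4 → M}

/-- the symplectic form in the coordinates of a chart -/
theorem sig_crd (μ : Fin 3) (h : alt t (cix μ) ≠ 0) :
    (3 : M) • sig t = (3 : M) • wd (crd μ t 0) (crd μ t 1) + wd (crd μ t 2) (crd μ t 3) := by
  ext i j
  simpa only [wdB_D] using! sigma_crd (KaehlerDifferential.D ℂ M) (wdB i j) (wdB_self i j) t μ h

theorem jac_eq_sig (t : Fin 4 → M) :
    jac t = -(sig t 0 1 * sig t 2 3 - sig t 0 2 * sig t 1 3 + sig t 0 3 * sig t 1 2) := by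
  simp [jac, sig, wd, Matrix.det_succ_row_zero, Fin.sum_univ_succ, Fin.succAbove]
  ring

/-- the Jacobian of the coordinates of a chart -/
theorem jac_crd (μ : Fin 3) (h : alt t (cix μ) ≠ 0) : jac (crd μ t) = -3 * jac t := by
  have e := fun i j => congrFun (congrFun (sig_crd μ h) i) j
  simp only [Matrix.smul_apply, Matrix.add_apply, smul_eq_mul] at e
  apply mul_left_cancel₀ (three_ne_zero (α := M))
  have : 3 * (-3 * jac t) = 3 * sig t 0 1 * (3 * sig t 2 3) - 3 * sig t 0 2 * (3 * sig t 1 3)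
      + 3 * sig t 0 3 * (3 * sig t 1 2) := by rw [jac_eq_sig t]; ring
  rw [this, e, e, e, e, e, e, jac_eq_sig]
  generalize crd μ t = c
  simp [sig, wd]
  ring

theorem wd_mem_St2 {R : Subalgebra ℂ M} {f g : M} (hf : f ∈ R) (hg : g ∈ R) : wd f g ∈ St2 R :=
  Submodule.subset_span ⟨f, hf, g, hg, rfl⟩

/-- the pull back of the symplectic form is regular on each chart -/
theorem sig_mem_St2 (μ : Fin 3) (h : alt t (cix μ) ≠ 0) {R : Subalgebra ℂ M}
    (hc : ∀ k, crd μ t k ∈ R) : sig t ∈ St2 R := by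
  have key : (3 : M) • sig t ∈ St2 R := by
    rw [sig_crd μ h]
    exact add_mem ((St2 R).smul_mem (3 : R) (wd_mem_St2 (hc 0) (hc 1))) (wd_mem_St2 (hc 2) (hc 3))
  have := (St2 R).smul_mem (algebraMap ℂ R 3⁻¹) key
  rwa [Subalgebra.smul_def, smul_smul, Subalgebra.coe_algebraMap, map_inv₀, map_ofNat,
    inv_mul_cancel₀ three_ne_zero, one_smul] at this

end

end Pool.Agent.Lib.MP_d3d358_ag.Var
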