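import Pool.Agent.Lib.MP_d3d358_ag.Var.Q2
import Pool.Agent.Lib.MP_d3d358_ag.Var.Q3G
import Pool.Agent.Lib.MP_d3d358_ag.Var.X2

/-! The local rings of the blow up: at each point the coordinates of one of the three charts of the
model generate the maximal ideal. -/

set_option autoImplicit false

namespace Pool.Agent.Lib.MP_d3d358_ag.Var

open MvPolynomial

noncomputable section

namespace Coord

variable {T : Type} [CommRing T] [Algebra ℂ T] [MulSemiringAction G T] [SMulCommClass G ℂ T]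
  {ev : T →ₐ[ℂ] ℂ} {t : Fin 4 → T} (h : Coord ev t)
  {O : Type} [CommRing O] [Algebra O T]
  (hO : ∀ x : T, x ∈ (algebraMap O T).range ↔ ∀ g : G, g • x = x)
include h hO

theorem equi : Equi t := h.eqv

theorem range_of_adjoin {A : Type*} [CommRing A] [Algebra A T]
    (hA : ∀ (g : G) (a : A), g • algebraMap A T a = algebraMap A T a) {e : T}
    (he : e ∈ Algebra.adjoin A (Set.range (ivt t))) : e ∈ (algebraMap O T).range := by
  induction he using Algebra.adjoin_induction with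
  | mem x hx => obtain ⟨i, rfl⟩ := hx; exact (hO _).2 fun g => (h.equi hO).smul_ivt g i
  | algebraMap c => exact (hO _).2 fun g => hA g c
  | add x y _ _ hx hy => exact add_mem hx hy
  | mul x y _ _ hx hy => exact mul_mem hx hy

/-- the maximal ideal of `O` is generated by the seven invariants minus their values -/
theorem mem_span_ivt {x : T} (hx : ∀ g : G, g • x = x) (h0 : ev x = 0) :
    x ∈ Submodule.span O (Set.range fun i => ivt t i - algebraMap ℂ T (ev (ivt t i))) := by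
  refine Submodule.span_le.2 ?_ (h.mem_span_inv hO hx h0)
  rintro _ ⟨p, hp, rfl⟩
  have hC : ∀ (g : G) (a : ℂ), g • algebraMap ℂ T a = algebraMap ℂ T a := fun g a =>
    smul_algebraMap g a
  have h1 := (h.equi hO).mem_adjoin_ivt hC (f := aeval t p)
    (by rw [Algebra.adjoin_range_eq_range_aeval]; exact ⟨p, rfl⟩) (h.smul_inv hp.1)
  obtain ⟨e, he, h2⟩ := exists_sum_sub ev (ivt t) h1
  rw [ev_aeval, hp.2, map_zero, sub_zero] at h2
  rw [h2]
  refine sum_mem fun i _ => ?_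
  obtain ⟨o, ho⟩ := h.range_of_adjoin hO hC (he i)
  rw [← ho, ← Algebra.smul_def]
  exact Submodule.smul_mem _ _ (Submodule.subset_span ⟨i, rfl⟩)

/-- the alternating elements are generated over `O` by the five alternants -/
theorem mem_span_alt [Algebra ℂ O] [IsScalarTower ℂ O T] [Module.Finite O T]
    (hU : ∀ o : O, ev (algebraMap O T o) ≠ 0 → IsUnit o) {x : T}
    (hx : ∀ g : G, g • x = sg g • x) : x ∈ Submodule.span O (Set.range (alt t)) := by
  have hA : ∀ (g : G) (a : O), g • algebraMap O T a = algebraMap O T a :=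
    fun g a => (hO _).1 ⟨a, rfl⟩ g
  have h1 : x ∈ Algebra.adjoin O (Set.range t) := by
    refine (Submodule.span_le (p := (Algebra.adjoin O (Set.range t)).toSubmodule)).2 ?_
      (h.mem_span_range hO hU x)
    rintro _ ⟨p, rfl⟩
    change aeval t p ∈ Algebra.adjoin O (Set.range t)
    induction p using MvPolynomial.induction_on with
    | C a => rw [algHom_C, IsScalarTower.algebraMap_apply ℂ O T]; exact algebraMap_mem _ _
    | add p q hp hq => rw [map_add]; exact add_mem hp hq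
    | mul_X p n hp => rw [map_mul, aeval_X]; exact mul_mem hp (Algebra.subset_adjoin ⟨n, rfl⟩)
  obtain ⟨e, he, rfl⟩ := (h.equi hO).exists_sum_alt hA h1 hx
  refine sum_mem fun i _ => ?_
  obtain ⟨o, ho⟩ := h.range_of_adjoin hO hA (he i)
  rw [← ho, ← Algebra.smul_def]
  exact Submodule.smul_mem _ _ (Submodule.subset_span ⟨i, rfl⟩)

end Coord

/-- The elements congruent to their value modulo `I`. -/
def congAlg {L : Type*} [CommRing L] [Algebra ℂ L] (x : L →ₐ[ℂ] ℂ) (I : Ideal L) :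
    Subalgebra ℂ L where
  carrier := {y | y - algebraMap ℂ L (x y) ∈ I}
  mul_mem' {a b} ha hb := by
    have : a * b - algebraMap ℂ L (x (a * b)) =
        b * (a - algebraMap ℂ L (x a)) + algebraMap ℂ L (x a) * (b - algebraMap ℂ L (x b)) := by
      rw [map_mul, map_mul]; ring
    change _ ∈ I
    rw [this]
    exact add_mem (I.mul_mem_left _ ha) (I.mul_mem_left _ hb)
  add_mem' {a b} ha hb := by
    change _ ∈ I
    convert I.add_mem ha hb using 1
    rw [map_add, map_add]; ring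
  algebraMap_mem' c := by simp

theorem congAlg_inv {L : Type*} [CommRing L] [Algebra ℂ L] {x : L →ₐ[ℂ] ℂ} {I : Ideal L}
    {a b : L} (ha : a ∈ congAlg x I) (hab : a * b = 1) : b ∈ congAlg x I := by
  have h1 : algebraMap ℂ L (x a) * algebraMap ℂ L (x b) = 1 := by
    rw [← map_mul, ← map_mul, hab, map_one, map_one]
  have : b - algebraMap ℂ L (x b) = -(b * algebraMap ℂ L (x b)) * (a - algebraMap ℂ L (x a)) := by
    linear_combination algebraMap ℂ L (x b) * hab - b * h1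
  change _ ∈ I
  rw [this]
  exact I.mul_mem_left _ ha

/-- `L` is the local ring of a point `x` of the chart `F ≠ 0` of the blow up, over the local ring
`O` of the quotient; `A` is the set of alternants. -/
theorem exists_chart {K : Type} [Field K] [Algebra ℂ K] (L O : Subalgebra ℂ K) (hOL : O ≤ L)
    (x : L →ₐ[ℂ] ℂ) (t : Fin 4 → K) (hi : ∀ i, ivt t i ∈ O)
    (hu : ∀ y : L, x y ≠ 0 → (y : K)⁻¹ ∈ L)
    (hm : ∀ (o : K) (ho : o ∈ O), x ⟨o, hOL ho⟩ = 0 → o ∈ Submodule.span O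
      (Set.range fun i => ivt t i - algebraMap ℂ K (x ⟨ivt t i, hOL (hi i)⟩)))
    (A : Set K) (hA : ∀ a ∈ A, a ∈ Submodule.span O (Set.range (alt t)))
    {F : K} (hF : F ≠ 0) (hFA : F ∈ A) (ha : ∀ ν, alt t ν / F ∈ L)
    (hL : ∀ y ∈ L, ∃ b : L, x b ≠ 0 ∧
      (b : K) ∈ Algebra.adjoin ℂ ((O : Set K) ∪ (fun a => a / F) '' A) ∧
      y * b ∈ Algebra.adjoin ℂ ((O : Set K) ∪ (fun a => a / F) '' A)) :
    ∃ μ, alt t (cix μ) ≠ 0 ∧ F / alt t (cix μ) ∈ L ∧ ∃ hc : ∀ k, crd μ t k ∈ L,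
      ∀ y : L, x y = 0 → y ∈ Ideal.span (Set.range fun k =>
        (⟨crd μ t k, hc k⟩ : L) - algebraMap ℂ L (x ⟨crd μ t k, hc k⟩)) := by
  have ha' : ∀ ν, alt t ν * F⁻¹ ∈ L := fun ν => div_eq_mul_inv (alt t ν) F ▸ ha ν
  obtain ⟨ν, hν⟩ : ∃ ν, x ⟨_, ha' ν⟩ ≠ 0 := by
    by_contra! h0
    obtain ⟨e, he⟩ := (Submodule.mem_span_range_iff_exists_fun _).1 (hA F hFA)
    have : (1 : L) = ∑ ν, ⟨e ν, hOL (e ν).2⟩ * ⟨_, ha' ν⟩ := Subtype.ext (by
      push_cast
      simp only [← mul_assoc, ← Finset.sum_mul]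
      rw [← mul_inv_cancel₀ hF]
      exact congrArg (· * F⁻¹) he.symm)
    have := congrArg x this
    simp only [map_one, map_sum, map_mul, h0, mul_zero, Finset.sum_const_zero] at this
    exact one_ne_zero this
  obtain ⟨μ, hμ⟩ := three_charts L x.toRingHom (fun i => hOL (hi i)) ha' hν
  have h0 : alt t (cix μ) ≠ 0 := fun e => hμ (by
    rw [show (⟨_, ha' (cix μ)⟩ : L) = 0 from Subtype.ext (by simp [e]), map_zero])
  have h1 : F / alt t (cix μ) ∈ L := by
    simpa [div_eq_mul_inv] using hu _ hμ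
  have h2 : ∀ ν, alt t ν / alt t (cix μ) ∈ L := fun ν => by
    convert mul_mem (ha ν) h1 using 1
    field_simp
  have hc : ∀ k, crd μ t k ∈ L := fun k => by
    rcases crd_cases (K := K) μ k with ⟨i, e⟩ | ⟨ν, e⟩ <;> rw [e]
    exacts [hOL (hi i), h2 ν]
  refine ⟨μ, h0, h1, hc, ?_⟩
  generalize hI : Ideal.span (Set.range fun k =>
    (⟨crd μ t k, hc k⟩ : L) - algebraMap ℂ L (x ⟨crd μ t k, hc k⟩)) = I
  obtain ⟨D, hD⟩ : ∃ D : Subalgebra ℂ K, ∀ y (hy : y ∈ L), y ∈ D ↔ (⟨y, hy⟩ : L) ∈ congAlg x I :=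
    ⟨(congAlg x I).map L.val, fun y hy => ⟨fun ⟨z, hz, e⟩ => by
      rwa [show (⟨y, hy⟩ : L) = z from Subtype.ext e.symm], fun hz => ⟨_, hz, rfl⟩⟩⟩
  have d1 : ∀ k, crd μ t k ∈ D := fun k => (hD _ (hc k)).2 (hI ▸ Ideal.subset_span ⟨k, rfl⟩)
  have d2 : ∀ i, ivt t i ∈ D := fun i => by rw [ivt_eq μ h0]; exact ivC_mem _ μ d1 i
  have d3 : ∀ ν, alt t ν / alt t (cix μ) ∈ D := fun ν => by
    rw [alt_div_eq μ h0]; exact alC_mem _ μ d1 ν
  have d4 : ∀ o ∈ O, o ∈ D := fun o ho => by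
    have ho' : o - algebraMap ℂ K (x ⟨o, hOL ho⟩) ∈ O := sub_mem ho (algebraMap_mem _ _)
    have e0 : (⟨_, hOL ho'⟩ : L) = ⟨o, hOL ho⟩ - algebraMap ℂ L (x ⟨o, hOL ho⟩) := rfl
    obtain ⟨e, he⟩ := (Submodule.mem_span_range_iff_exists_fun _).1
      (hm _ ho' (by rw [e0]; simp))
    refine (hD _ (hOL ho)).2 ?_
    change _ ∈ I
    have : (⟨_, hOL ho'⟩ : L) = ∑ i, ⟨e i, hOL (e i).2⟩ *
        (⟨ivt t i, hOL (hi i)⟩ - algebraMap ℂ L (x ⟨ivt t i, hOL (hi i)⟩)) :=
      Subtype.ext (by push_cast; exact he.symm)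
    rw [← e0, this]
    exact sum_mem fun i _ => I.mul_mem_left _ ((hD _ (hOL (hi i))).1 (d2 i))
  have d5 : ∀ a ∈ A, a / alt t (cix μ) ∈ D := fun a haA => by
    obtain ⟨e, rfl⟩ := (Submodule.mem_span_range_iff_exists_fun _).1 (hA a haA)
    rw [Finset.sum_div]
    refine sum_mem fun ν _ => ?_
    rw [Subalgebra.smul_def, smul_eq_mul, mul_div_assoc]
    exact mul_mem (d4 _ (e ν).2) (d3 ν)
  have d6 : alt t (cix μ) / F ∈ D := (hD _ (ha _)).2 (congAlg_inv ((hD _ h1).1 (d5 F hFA))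
    (Subtype.ext (by push_cast; field_simp)))
  have d7 : Algebra.adjoin ℂ ((O : Set K) ∪ (fun a => a / F) '' A) ≤ D := by
    refine Algebra.adjoin_le ?_
    rintro _ (ho | ⟨a, haA, rfl⟩)
    · exact d4 _ ho
    · change a / F ∈ D
      convert mul_mem (d5 a haA) d6 using 1
      field_simp
  intro y hy
  obtain ⟨b, hb, b1, b2⟩ := hL y y.2
  have b0 : (b : K) ≠ 0 := fun e => hb (by rw [show b = 0 from Subtype.ext e, map_zero])
  have b3 : (b : K)⁻¹ ∈ D := (hD _ (hu b hb)).2 (congAlg_inv ((hD _ b.2).1 (d7 b1))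
    (Subtype.ext (mul_inv_cancel₀ b0)))
  have : (y : K) ∈ D := by
    convert mul_mem (d7 b2) b3 using 1
    field_simp
  have h3 : y - algebraMap ℂ L (x y) ∈ I := (hD _ y.2).1 this
  simpa [hy] using h3

end

end Pool.Agent.Lib.MP_d3d358_ag.Var
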