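import Pool.Agent.Lib.MP_d3d358_ag.Var.A2
import Pool.Agent.Lib.MP_d3d358_ag.Var.Br
import Pool.Agent.Lib.MP_d3d358_ag.Var.X3a
import Pool.Agent.Lib.MP_d3d358_ag.Var.X2M

/-! The local rings of `X` over the local rings of the quotient. -/

set_option autoImplicit false

namespace Pool.Agent.Lib.MP_d3d358_ag.Var

open Pool.Agent.Lib.MP_d3d358_ag.G (Sf)
open Pool.Agent.Lib.MP_cd184e_ag.T (ProjVar)
open Pool.Agent.Lib.MP_cd184e_ag.B
open Pool.Agent.Lib.MP_9ff3e7_ag.F (Pt)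

noncomputable section

theorem x3_exists_gen {K : Type} [Field K] [Algebra ℂ K] {Y : ProjVar ℂ K} (p : Pt (grade Y)) :
    ∃ l, p.1 (gen Y l) ≠ 0 := by
  by_contra! h
  obtain ⟨a, ha, h0⟩ := p.2
  have hc : ev Y a ∈ Submodule.span ℂ (Y.f '' Set.univ) := by
    simpa [lin] using ev_mem Y ha
  obtain ⟨q, hq, e⟩ := mono_one_mem Y (P := LinearMap.ker p.1.toLinearMap) (fun l _ => h l) hc
  have : a = q := Subtype.ext (by rw [e, eq_monomial ha, ← ev_eq Y ha])
  exact h0 (this ▸ hq)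

theorem x3_div_pow_mem {K : Type} [Field K] [Algebra ℂ K] {Y : ProjVar ℂ K} {D : Subalgebra ℂ K}
    {e : K} (h : ∀ l, Y.f l / e ∈ D) (m : ℕ) {c : K} (hc : c ∈ lin Y ^ m) : c / e ^ m ∈ D := by
  induction m generalizing c with
  | zero =>
    rw [pow_zero, Submodule.mem_one] at hc
    obtain ⟨c, rfl⟩ := hc
    simp
  | succ m ih =>
    rw [pow_succ] at hc
    refine Submodule.mul_induction_on (C := fun c => c / e ^ (m + 1) ∈ D) hc
      (fun a ha c hc => ?_) fun a c ha hc => by rw [add_div]; exact add_mem ha hc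
    rw [pow_succ, mul_div_mul_comm]
    refine mul_mem (ih ha) ?_
    obtain ⟨d, rfl⟩ := (Submodule.mem_span_range_iff_exists_fun ℂ).1 hc
    rw [Finset.sum_div]
    exact sum_mem fun l _ => by rw [smul_div_assoc]; exact D.smul_mem (h l) _

variable {A : Sf} {hA : Good A} {p : Pt (grade (X hA))} {b : V}

theorem exists_gU_ne (hA : Good A) (b : V) : ∃ j, (gU hA j).1 b ≠ 0 := by
  by_contra! h
  obtain ⟨u, hu, hb⟩ := hA.bpf b
  rw [← span_gU hA] at hu
  obtain ⟨c, rfl⟩ := (Submodule.mem_span_range_iff_exists_fun ℂ).1 hu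
  exact hb (by simp [h])

theorem Over.exists_ne (h : Over hA p b) :
    ∃ i j, p.1 (gen (X hA) (idx i j)) ≠ 0 ∧ (gU hA j).1 b ≠ 0 := by
  obtain ⟨l, hl⟩ := x3_exists_gen p
  obtain ⟨i, j, rfl⟩ := exists_idx l
  obtain ⟨j', hj⟩ := exists_gU_ne hA b
  exact ⟨i, j, hl, right_ne_zero_of_mul (h i j j' ▸ mul_ne_zero hl hj)⟩

section chart

variable {i : Fin (nW A)} {j : Fin (nU A)} (hp : p.1 (gen (X hA) (idx i j)) ≠ 0)
include hp

theorem gen_div_mem (i' : Fin (nW A)) (j' : Fin (nU A)) :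
    emb (fW hA i') / emb (fW hA i) * (emb (gU hA j') / emb (gU hA j)) ∈ Ox p ∧
    vx p (emb (fW hA i') / emb (fW hA i) * (emb (gU hA j') / emb (gU hA j))) =
      p.1 (gen (X hA) (idx i' j')) / p.1 (gen (X hA) (idx i j)) := by
  have := div_mem_Ox (gen_mem (X hA) (idx i' j')) (gen_mem _ _) hp
  rwa [ev_gen, ev_gen, X_f, X_f, map_mul, map_mul, mul_div_mul_comm] at this

theorem alt_div_mem {E : Ent} (hE : E ∈ W A) : emb E / emb (fW hA i) ∈ Ox p := by
  rw [← span_fW hA] at hE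
  obtain ⟨c, rfl⟩ := (Submodule.mem_span_range_iff_exists_fun ℂ).1 hE
  rw [map_sum, Finset.sum_div]
  refine sum_mem fun i' _ => ?_
  rw [map_smul, smul_div_assoc]
  have := (gen_div_mem hp i' j).1
  rw [div_self (emb_ne (gU_ne hA j)), mul_one] at this
  exact Subalgebra.smul_mem _ this _

theorem Over.Aq_le (h : Over hA p b) (hb : (gU hA j).1 b ≠ 0) {x : M}
    (hx : x ∈ Aq A (gU hA j)) : x ∈ Ox p ∧ vx p x = val x b := by
  have le : Aq A (gU hA j) ≤ Loc b :=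
    (Aq_le_Ow (gU_mem hA j) hb).trans (inf_le_left.trans (Ot_le_Loc' b))
  induction hx using Algebra.adjoin_induction with
  | mem x hx =>
    obtain ⟨F, hF, rfl⟩ := hx
    rw [← span_gU hA] at hF
    induction hF using Submodule.span_induction with
    | mem F hF =>
      obtain ⟨j', rfl⟩ := hF
      have := gen_div_mem hp i j'
      rw [div_self (emb_ne (fW_ne hA i)), one_mul] at this
      exact ⟨this.1, by rw [this.2, val_div _ hb, div_eq_div_iff hp hb, h i j' j, mul_comm]⟩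
    | zero => simpa using (vx_const p 0).trans (val_const 0 b).symm
    | add a c _ _ ha hc =>
      rw [map_add, add_div, vx_add ha.1 hc.1, val_add (div_mem_Loc _ hb) (div_mem_Loc _ hb),
        ha.2, hc.2]
      exact ⟨add_mem ha.1 hc.1, rfl⟩
    | smul a c _ hc =>
      rw [map_smul, smul_div_assoc, Algebra.smul_def, vx_mul (Subalgebra.algebraMap_mem _ _) hc.1,
        val_mul (Subalgebra.algebraMap_mem _ _) (div_mem_Loc _ hb), hc.2, vx_const, val_const]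
      exact ⟨mul_mem (Subalgebra.algebraMap_mem _ _) hc.1, rfl⟩
  | algebraMap c => exact ⟨Subalgebra.algebraMap_mem _ _, by rw [vx_const, val_const]⟩
  | add x y hx' hy' hx hy =>
    exact ⟨add_mem hx.1 hy.1, by rw [vx_add hx.1 hy.1, val_add (le hx') (le hy'), hx.2, hy.2]⟩
  | mul x y hx' hy' hx hy =>
    exact ⟨mul_mem hx.1 hy.1, by rw [vx_mul hx.1 hy.1, val_mul (le hx') (le hy'), hx.2, hy.2]⟩

/-- alternating functions divided by `f i / g j` are regular at `p` -/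
theorem Over.alt_mem (h : Over hA p b) (hb : (gU hA j).1 b ≠ 0) {x : M} (hx : x ∈ Ot A b)
    (ha : ∀ g : G, g • x = sg g • x) : x / (emb (fW hA i) / emb (gU hA j)) ∈ Ox p := by
  obtain ⟨s, hs, s0, e⟩ := hA.exists_den_alt (gU_mem hA j) hb hx ha
  have h1 : ∀ y ∈ Submodule.span (Aq A (gU hA j)) {x | ∃ E ∈ W A, x = emb E / emb (gU hA j)},
      y / (emb (fW hA i) / emb (gU hA j)) ∈ Ox p := fun y hy => by
    induction hy using Submodule.span_induction with
    | mem y hy =>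
      obtain ⟨E, hE, rfl⟩ := hy
      rw [div_div_div_cancel_right₀ (emb_ne' hb)]
      exact alt_div_mem hp hE
    | zero => simp
    | add a c _ _ ha hc => rw [add_div]; exact add_mem ha hc
    | smul a c _ hc =>
      rw [Subalgebra.smul_def, smul_eq_mul, mul_div_assoc]
      exact mul_mem (h.Aq_le hp hb a.2).1 hc
  obtain ⟨h2, h3⟩ := h.Aq_le hp hb hs
  obtain ⟨h4, h5, -⟩ := inv_mem_Ox h2 (h3 ▸ s0)
  have := mul_mem h5 (h1 _ e)
  rwa [mul_div_assoc, inv_mul_cancel_left₀ h4] at this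

end chart

/-- the local ring of `X` dominates the local ring of the quotient -/
theorem Over.Ow_le' (h : Over hA p b) {x : M} (hx : x ∈ Ow A b) :
    x ∈ Ox p ∧ vx p x = val x b := by
  obtain ⟨i, j, hp, hb⟩ := h.exists_ne
  obtain ⟨s, hs, s0, e⟩ := hA.exists_den_Ow (gU_mem hA j) hb hx
  obtain ⟨h2, h3⟩ := h.Aq_le hp hb hs
  obtain ⟨h4, h5, -⟩ := inv_mem_Ox h2 (h3 ▸ s0)
  obtain ⟨h6, h7⟩ := h.Aq_le hp hb e
  have hx' : x ∈ Ox p := by simpa [inv_mul_cancel_left₀ h4] using mul_mem h5 h6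
  rw [vx_mul h2 hx', val_mul (Ot_le_Loc' b (Aq_le_Ow (gU_mem hA j) hb hs).1) (Ot_le_Loc' b hx.1),
    h3] at h7
  exact ⟨hx', mul_left_cancel₀ s0 h7⟩

theorem Over.Ow_le (h : Over hA p b) : Ow A b ≤ Ox p := fun _ hx => (h.Ow_le' hx).1

namespace SemiLoc

variable {O T : Subalgebra ℂ M} {t : Fin 4 → M} (h : SemiLoc b O T t)
include h

theorem ivt_mem (i : Fin 7) : ivt t i ∈ O := (h.inv _).2
  ⟨map_ivt T.val (fun i => ⟨t i, h.mem i⟩) i ▸ Subtype.prop _, fun g => Equi.smul_ivt h.eqv g i⟩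

theorem alt_mem (i : Fin 5) : alt t i ∈ T :=
  map_alt T.val (fun i => ⟨t i, h.mem i⟩) i ▸ Subtype.prop _

/-- `X3a` for subalgebras of `M` -/
theorem main' : (∀ x ∈ O, val x b = 0 → x ∈ Submodule.span O
      (Set.range fun i => ivt t i - algebraMap ℂ M (val (ivt t i) b))) ∧
    ∀ x ∈ T, (∀ g : G, g • x = sg g • x) → x ∈ Submodule.span O (Set.range (alt t)) := by
  let _ := subAct T h.stab
  have : SMulCommClass G ℂ T := ⟨fun g c x => Subtype.ext (smul_comm g c x.1)⟩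
  let _ : Algebra O T := (Subalgebra.inclusion h.le).toRingHom.toAlgebra
  have : IsScalarTower ℂ O T := IsScalarTower.of_algebraMap_eq fun _ => rfl
  have hO : ∀ x : T, x ∈ (algebraMap O T).range ↔ ∀ g : G, g • x = x := fun x =>
    ⟨fun ⟨o, ho⟩ g => Subtype.ext (by rw [← ho]; exact ((h.inv _).1 o.2).2 g),
      fun hx => ⟨⟨x.1, (h.inv _).2 ⟨x.2, fun g => congrArg Subtype.val (hx g)⟩⟩, rfl⟩⟩
  let ι : T →ₗ[O] M :=
    { toFun := Subtype.val, map_add' := fun _ _ => rfl, map_smul' := fun _ _ => rfl }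
  have e1 : ∀ i, (ivt (fun i => (⟨t i, h.mem i⟩ : T)) i).1 = ivt t i :=
    map_ivt T.val fun i => (⟨t i, h.mem i⟩ : T)
  have e2 : ∀ i, (alt (fun i => (⟨t i, h.mem i⟩ : T)) i).1 = alt t i :=
    map_alt T.val fun i => (⟨t i, h.mem i⟩ : T)
  refine ⟨fun x hx h0 => ?_, fun x hx ha => ?_⟩
  · have := Submodule.mem_map_of_mem (f := ι) (h.coord.mem_span_ivt hO (x := ⟨x, h.le hx⟩)
      (fun g => Subtype.ext (((h.inv _).1 hx).2 g)) h0)
    rw [Submodule.map_span, ← Set.range_comp] at this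
    refine Submodule.span_mono ?_ this
    rintro _ ⟨i, rfl⟩
    exact ⟨i, by simp only [← e1 i]; rfl⟩
  obtain ⟨s, hs, hs'⟩ := h.fin
  have : Module.Finite O T := by
    refine ⟨Submodule.fg_of_fg_map_injective ι Subtype.val_injective ⟨s, le_antisymm
      (Submodule.span_le.2 fun y hy => ⟨⟨y, hs hy⟩, trivial, rfl⟩) ?_⟩⟩
    rintro _ ⟨y, -, rfl⟩
    exact hs' _ y.2
  have := Submodule.mem_map_of_mem (f := ι) (h.coord.mem_span_alt hO (fun o ho => by
    have x0 : o.1 ≠ 0 := fun c => ho (by rw [show o = 0 from Subtype.ext c, map_zero, map_zero])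
    exact IsUnit.of_mul_eq_one ⟨o.1⁻¹, h.unit _ o.2 ho⟩ (Subtype.ext (mul_inv_cancel₀ x0)))
    (x := ⟨x, hx⟩) fun g => Subtype.ext (ha g))
  rw [Submodule.map_span, ← Set.range_comp] at this
  refine Submodule.span_mono ?_ this
  rintro _ ⟨i, rfl⟩
  exact ⟨i, (e2 i).symm⟩

end SemiLoc

theorem Over.exists_den {i : Fin (nW A)} {j : Fin (nU A)} (hp : p.1 (gen (X hA) (idx i j)) ≠ 0)
    (hb : (gU hA j).1 b ≠ 0) {y : M} (hy : y ∈ Ox p) : ∃ s : Ox p, evx p s ≠ 0 ∧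
      (s : M) ∈ Algebra.adjoin ℂ ((Ow A b : Set M) ∪
        (fun a => a / (emb (fW hA i) / emb (gU hA j))) ''
          {x | ∃ E ∈ W A, x = emb E / emb (gU hA j)}) ∧
      y * s ∈ Algebra.adjoin ℂ ((Ow A b : Set M) ∪
        (fun a => a / (emb (fW hA i) / emb (gU hA j))) ''
          {x | ∃ E ∈ W A, x = emb E / emb (gU hA j)}) := by
  obtain ⟨m, a, ha, c, hc, c0, rfl⟩ := mem_Ox.1 hy
  have hg : gen (X hA) (idx i j) ^ m ∈ grade (X hA) m := by
    simpa using SetLike.pow_mem_graded m (gen_mem (X hA) (idx i j))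
  obtain ⟨h1, h2⟩ := div_mem_Ox hc hg (by rw [map_pow]; exact pow_ne_zero _ hp)
  have key := fun {a} (ha : a ∈ grade (X hA) m) => x3_div_pow_mem (Y := X hA)
    (D := Algebra.adjoin ℂ ((Ow A b : Set M) ∪ (fun a => a / (emb (fW hA i) / emb (gU hA j))) ''
      {x | ∃ E ∈ W A, x = emb E / emb (gU hA j)})) (e := ev (X hA) (gen (X hA) (idx i j)))
    (fun l => by
      obtain ⟨i', j', rfl⟩ := exists_idx l
      rw [ev_gen, X_f, X_f, map_mul, map_mul, mul_div_mul_comm]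
      exact mul_mem (Algebra.subset_adjoin (Or.inr ⟨_, ⟨_, fW_mem hA i', rfl⟩,
        div_div_div_cancel_right₀ (emb_ne' hb) _ _⟩)) (Algebra.subset_adjoin (Or.inl
        (div_mem_Ow (gU_mem hA j').1 (gU_mem hA j).1 (gU_mem hA j').2 (gU_mem hA j).2 hb))))
    m (ev_mem _ ha)
  refine ⟨⟨_, h1⟩, ?_, by simpa only [map_pow] using key hc, ?_⟩
  · rw [← vx_eq, h2]
    exact div_ne_zero c0 (by rw [map_pow]; exact pow_ne_zero _ hp)
  · have c1 : ev (X hA) c ≠ 0 := ev_ne hc fun e => c0 (by simp [e])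
    have := key ha
    rw [← map_pow] at this
    rwa [div_mul_div_cancel₀ c1]

/-- `X3`: the coordinates of one of the three charts generate the maximal ideal of `Ox p` -/
theorem Over.exists_chart (h : Over hA p b) {t : Fin 4 → M}
    (ht : SemiLoc b (Ow A b) (Ot A b) t) :
    ∃ μ, alt t (cix μ) ≠ 0 ∧ (∀ ν, alt t ν / alt t (cix μ) ∈ Ox p) ∧ ∃ hc : ∀ k, crd μ t k ∈ Ox p,
      ∀ y : Ox p, evx p y = 0 → y ∈ Ideal.span (Set.range fun k =>
        (⟨crd μ t k, hc k⟩ : Ox p) - algebraMap ℂ (Ox p) (evx p ⟨crd μ t k, hc k⟩)) := by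
  obtain ⟨i, j, hp, hb⟩ := h.exists_ne
  have e : ∀ o (ho : o ∈ Ow A b), evx p ⟨o, h.Ow_le ho⟩ = val o b := fun o ho => by
    rw [← vx_eq, (h.Ow_le' ho).2]
  have n0 := div_ne_zero (emb_ne (fW_ne hA i)) (emb_ne' hb)
  have ha := fun ν => h.alt_mem hp hb (ht.alt_mem ν) fun g => Equi.smul_alt ht.eqv g ν
  obtain ⟨μ, h0, h1, h2⟩ := Var.exists_chart (Ox p) (Ow A b) h.Ow_le (evx p) t ht.ivt_mem
    (fun y hy => (inv_mem_Ox y.2 (by rwa [vx_coe])).2.1)
    (fun o ho h0 => by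
      simp only [e _ (ht.ivt_mem _)]
      exact ht.main'.1 o ho (e o ho ▸ h0))
    {x | ∃ E ∈ W A, x = emb E / emb (gU hA j)}
    (by
      rintro _ ⟨E, hE, rfl⟩
      exact ht.main'.2 _ (div_mem_Ot hE.1 (gU_mem hA j).1 (gU_mem hA j).2 hb) fun g => by
        rw [smul_div₀', smul_emb, smul_emb, (gU_mem hA j).2 g, hE.2 g, map_smul, smul_div_assoc])
    n0 ⟨_, fW_mem hA i, rfl⟩ ha (fun y hy => Over.exists_den hp hb hy)
  refine ⟨μ, h0, fun ν => ?_, h2⟩
  have := mul_mem (ha ν) h1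
  rwa [div_mul_div_cancel₀ n0] at this

/-- the same, read in `M` -/
theorem Over.exists_gens (h : Over hA p b) {t : Fin 4 → M}
    (ht : SemiLoc b (Ow A b) (Ot A b) t) :
    ∃ μ, alt t (cix μ) ≠ 0 ∧ (∀ ν, alt t ν / alt t (cix μ) ∈ Ox p) ∧ (∀ k, crd μ t k ∈ Ox p) ∧
      ∀ y ∈ Ox p, vx p y = 0 → y ∈ Submodule.span (Ox p)
        (Set.range fun k => crd μ t k - algebraMap ℂ M (vx p (crd μ t k))) := by
  obtain ⟨μ, h0, h1, hc, h2⟩ := h.exists_chart ht
  refine ⟨μ, h0, h1, hc, fun y hy y0 => ?_⟩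
  have := Submodule.mem_map_of_mem (f := Algebra.linearMap (Ox p) M)
    (h2 ⟨y, hy⟩ (by rwa [← vx_eq]))
  rw [Ideal.span, Submodule.map_span, ← Set.range_comp] at this
  refine Submodule.span_mono ?_ this
  rintro _ ⟨k, rfl⟩
  exact ⟨k, by simp only [vx_eq (hc k)]; rfl⟩

theorem Over.sig_mem (h : Over hA p b) {t : Fin 4 → M} (ht : SemiLoc b (Ow A b) (Ot A b) t) :
    sig t ∈ St2 (Ox p) := by
  obtain ⟨μ, h0, -, hc, -⟩ := h.exists_chart ht
  exact sig_mem_St2 μ h0 hc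

end

end Pool.Agent.Lib.MP_d3d358_ag.Var
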