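import Pool.Agent.Lib.MP_d3d358_ag.Var.A2
import Pool.Agent.Lib.MP_d3d358_ag.Var.Br

/-! The function field of `X` is the field of invariant functions on `N`. -/

set_option autoImplicit false

namespace Pool.Agent.Lib.MP_d3d358_ag.Var

open Pool.Agent.Lib.MP_d3d358_ag.G (Sf)
open Pool.Agent.Lib.MP_cd184e_ag.B (hring grade gen lin)
open Pool.Agent.Lib.MP_9ff3e7_ag.F (Pt Fn)

noncomputable section

variable {A : Sf}

theorem smul_mem_KN (g : G) (x : M) (hx : x ∈ KN A) : g • x ∈ KN A := by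
  obtain ⟨i, F, hF, E, hE, h0, -, rfl⟩ := hx
  refine ⟨i, _, smul_mem_R hF g, _, smul_mem_R hE g, fun e => h0 ?_, fun _ h => h.elim, by
    rw [smul_div₀', smul_emb, smul_emb]⟩
  rw [← inv_smul_smul g E, e, smul_zero]

theorem inv_mem_KN {x : M} (hx : x ∈ KN A) : x⁻¹ ∈ KN A := by
  obtain ⟨i, F, hF, E, hE, -, -, rfl⟩ := hx
  by_cases h : F = 0
  · simp [h]
  · exact ⟨i, E, hE, F, hF, h, fun _ h => h.elim, inv_div _ _⟩

theorem quo_le_KN (B : Set V) : quo A B ≤ KN A := quo_anti (Set.empty_subset B)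

/-- every function on `N` is regular along some orbit -/
theorem exists_mem_Ot {x : M} (hx : x ∈ KN A) : ∃ b, x ∈ Ot A b := by
  obtain ⟨i, F, hF, E, hE, h0, -, rfl⟩ := hx
  obtain ⟨b, hb⟩ := Ent.exists_ne (F := ∏ g : G, g • E) (Finset.prod_ne_zero_iff.2 fun g _ e =>
    h0 (by rw [← inv_smul_smul g E, e, smul_zero]))
  refine ⟨b, i, F, hF, E, hE, h0, ?_, rfl⟩
  rintro _ ⟨g, rfl⟩
  rw [Ent.prod_apply] at hb
  simpa using Finset.prod_ne_zero_iff.1 hb g⁻¹ (Finset.mem_univ _)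

variable (hA : Good A)

/-- the linear forms of `X` are the products of alternating and invariant theta functions -/
theorem lin_X : lin (X hA) = (W A * U A).map emb.toLinearMap := by
  rw [← span_fW hA, ← span_gU hA, Submodule.span_mul_span, Submodule.map_span, lin]
  congr 1
  ext x
  constructor
  · rintro ⟨l, rfl⟩
    exact ⟨_, Set.mul_mem_mul ⟨_, rfl⟩ ⟨_, rfl⟩, rfl⟩
  · rintro ⟨_, ⟨_, ⟨i, rfl⟩, _, ⟨j, rfl⟩, rfl⟩, rfl⟩
    exact ⟨idx i j, X_f hA i j⟩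

theorem emb_mul_mem_lin {f u : Ent} (hf : f ∈ W A) (hu : u ∈ U A) : emb (f * u) ∈ lin (X hA) :=
  lin_X hA ▸ Submodule.mem_map_of_mem (Submodule.mul_mem_mul hf hu)

theorem lin_X_pow (j : ℕ) : lin (X hA) ^ j = ((W A * U A) ^ j).map emb.toLinearMap := by
  rw [lin_X, Submodule.map_pow]

omit hA in
theorem of_mem_WU_pow {j : ℕ} {F : Ent} (hF : F ∈ (W A * U A) ^ j) :
    F ∈ R A (j * 2) ∧ ∀ g : G, g • F = sg g ^ j • F := by
  induction hF using Submodule.pow_induction_on_left' with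
  | algebraMap c => exact ⟨const_mem_R c, fun g => by rw [pow_zero, one_smul]; rfl⟩
  | add x y i _ _ hx hy =>
    exact ⟨add_mem hx.1 hy.1, fun g => by rw [smul_add, hx.2, hy.2, smul_add]⟩
  | mem_mul m hm i x _ hx =>
    have : m ∈ R A 2 ∧ ∀ g : G, g • m = sg g • m := by
      refine Submodule.mul_induction_on (C := fun m => m ∈ R A 2 ∧ ∀ g : G, g • m = sg g • m) hm
        (fun a ha c hc => ⟨mul_mem_R (i := 1) (j := 1) ha.1 hc.1, fun g => ?_⟩) fun a c ha hc =>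
          ⟨add_mem ha.1 hc.1, fun g => by rw [smul_add, ha.2, hc.2, smul_add]⟩
      rw [smul_mul', ha.2 g, hc.2 g, smul_mul_assoc]
    refine ⟨?_, fun g => ?_⟩
    · rw [show i.succ * 2 = 2 + i * 2 by rw [Nat.succ_mul, add_comm]]
      exact mul_mem_R this.1 hx.1
    · rw [smul_mul', this.2, hx.2, smul_mul_smul_comm, pow_succ']

theorem iota_mem_KN (y : Fn (grade (X hA))) : iota (X hA) y ∈ KN A ⊓ invM := by
  obtain ⟨j, a, ha, b, hb, b0, e⟩ := mem_range_iota.1 ⟨y, rfl⟩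
  rw [lin_X_pow] at ha hb
  obtain ⟨F, hF, rfl⟩ := ha
  obtain ⟨E, hE, rfl⟩ := hb
  obtain ⟨f1, f2⟩ := of_mem_WU_pow hF
  obtain ⟨e1, e2⟩ := of_mem_WU_pow hE
  change iota (X hA) y = emb F / emb E at e
  refine ⟨⟨_, F, f1, E, e1, fun h => b0 (by rw [h, map_zero]), fun _ h => h.elim, e⟩, fun g => ?_⟩
  have : algebraMap ℂ M (sg g ^ j) ≠ 0 :=
    (map_ne_zero _).2 (pow_ne_zero _ (left_ne_zero_of_mul_eq_one (sg_mul_self g)))
  rw [e, smul_div₀', smul_emb, smul_emb, f2, e2, map_smul, map_smul, Algebra.smul_def,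
    Algebra.smul_def, mul_div_mul_left _ _ this]

theorem Aq_le_range {u : Ent} (hu : u ∈ U A) (u0 : u ≠ 0) : Aq A u ≤ (iota (X hA)).range := by
  obtain ⟨f, hf, f0⟩ := Submodule.exists_mem_ne_zero_of_ne_bot hA.alt
  refine Algebra.adjoin_le ?_
  rintro _ ⟨F, hF, rfl⟩
  refine mem_range_iota.2 ⟨1, _, (pow_one (lin (X hA))).symm ▸ emb_mul_mem_lin hA hf hF, _,
    (pow_one (lin (X hA))).symm ▸ emb_mul_mem_lin hA hf hu, emb_ne (mul_ne_zero f0 u0), ?_⟩
  rw [map_mul, map_mul, mul_div_mul_left _ _ (emb_ne f0)]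

/-- `X5` -/
theorem range_iota : (iota (X hA)).range = KN A ⊓ invM := by
  refine le_antisymm (by rintro _ ⟨y, rfl⟩; exact iota_mem_KN hA y) fun x hx => ?_
  obtain ⟨b, hb⟩ := exists_mem_Ot hx.1
  obtain ⟨u, hu, u0⟩ := hA.bpf b
  obtain ⟨s, hs, s0, h⟩ := hA.exists_den_Ow hu u0 (x := x) ⟨hb, hx.2⟩
  obtain ⟨c, rfl⟩ := Aq_le_range hA hu (Ent.ne_zero u0) hs
  obtain ⟨d, hd⟩ := Aq_le_range hA hu (Ent.ne_zero u0) h
  have c0 : iota (X hA) c ≠ 0 := fun e => s0 (by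
    change val (iota (X hA) c) b = 0
    rw [e, ← map_zero (algebraMap ℂ M), val_const])
  refine ⟨d / c, ?_⟩
  change iota (X hA) (d / c) = x
  rw [map_div₀, div_eq_iff c0, mul_comm]
  exact hd

theorem exists_iota {x : M} (hx : x ∈ KN A) (hi : ∀ g : G, g • x = x) :
    ∃ y, iota (X hA) y = x :=
  (show x ∈ (iota (X hA)).range from range_iota hA ▸ ⟨hx, hi⟩)

theorem Ox_le_KN (p : Pt (grade (X hA))) : Ox p ≤ KN A ⊓ invM := by
  rintro _ ⟨y, -, rfl⟩
  exact iota_mem_KN hA y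

omit hA in
theorem trdeg_of_range {L : Type} [Field L] [Algebra ℂ L] (ψ : L →ₐ[ℂ] M)
    (h : ψ.range = KN A ⊓ invM) : Algebra.trdeg ℂ L = Algebra.trdeg ℂ (KN A) := by
  let φ : L →ₐ[ℂ] KN A := ψ.codRestrict _ fun y => (h.le ⟨y, rfl⟩).1
  let _ := φ.toAlgebra
  let _ := subAct (KN A) smul_mem_KN
  have : IsScalarTower ℂ L (KN A) := IsScalarTower.of_algHom φ
  have : Algebra.IsInvariant L (KN A) G := ⟨fun x hx => by
    obtain ⟨y, hy⟩ := h.ge ⟨x.2, fun g => congrArg Subtype.val (hx g)⟩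
    exact ⟨y, Subtype.ext hy⟩⟩
  have := Algebra.IsInvariant.isIntegral L (KN A) G
  rw [← trdeg_add_eq ℂ L (A := KN A), trdeg_eq_zero (A := KN A), add_zero]

/-- the function fields of `X` and `N` have the same transcendence degree -/
theorem trdeg_Fn : Algebra.trdeg ℂ (Fn (grade (X hA))) = Algebra.trdeg ℂ (KN A) :=
  trdeg_of_range _ (range_iota hA)

end

end Pool.Agent.Lib.MP_d3d358_ag.Var
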